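import Pool.Agent.P.MP_1e2081_pr.TLln

/-!
Words of minimal rank at the parameter one half, and a lower bound that comes from integrality.
-/

set_option autoImplicit false

namespace Pool.Agent.P.MP_1e2081_pr

open Finset Equiv Matrix

variable {d : ℕ} {μ : Perm (Fin d) → ℝ} {θ : ℝ}

/-- The mean evolution along a word, as a linear map. -/
def ALl (θ : ℝ) (l : List (Perm (Fin d))) : Vec d →ₗ[ℝ] Vec d :=
  l.foldl (fun M σ => stM θ σ () M) LinearMap.id

theorem ALl_apply (θ : ℝ) (l : List (Perm (Fin d))) (y : Vec d) : ALl θ l y = AL θ l y := by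
  have h : ∀ M : Vec d →ₗ[ℝ] Vec d, l.foldl (fun M σ => stM θ σ () M) M y = AL θ l (M y) := by
    induction l with
    | nil => exact fun _ => rfl
    | cons σ l ih => exact fun M => ih (stM θ σ () M)
  exact h LinearMap.id

theorem AL_append (θ : ℝ) (l l' : List (Perm (Fin d))) (y : Vec d) :
    AL θ (l ++ l') y = AL θ l' (AL θ l y) := List.foldl_append ..

theorem Av_norm (θ0 : 0 ≤ θ) (θ1 : θ ≤ 1) (σ : Perm (Fin d)) (y : Vec d) : ‖Av θ σ y‖ ≤ ‖y‖ := by
  refine (pi_norm_le_iff_of_nonneg (norm_nonneg y)).2 fun i => ?_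
  have h1 := norm_le_pi_norm y i
  have h2 := norm_le_pi_norm y (σ.symm i)
  simp only [Av, Bv, Pv, Pi.add_apply, Pi.smul_apply, Pi.sub_apply, smul_eq_mul,
    Real.norm_eq_abs, abs_le] at *
  constructor <;> nlinarith [h1.1, h1.2, h2.1, h2.2]

theorem AL_norm (θ0 : 0 ≤ θ) (θ1 : θ ≤ 1) (l : List (Perm (Fin d))) (y : Vec d) :
    ‖AL θ l y‖ ≤ ‖y‖ := by
  induction l generalizing y with
  | nil => exact le_rfl
  | cons σ l ih => exact (ih (Av θ σ y)).trans (Av_norm θ0 θ1 σ y)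

theorem AL_int (l : List (Perm (Fin d))) (x : Fin d → ℤ) :
    ∃ z : Fin d → ℤ, ∀ i, (z i : ℝ) = 2 ^ l.length * AL (1 / 2) l (fun j => (x j : ℝ)) i := by
  induction l generalizing x with
  | nil => exact ⟨x, fun i => by simp [AL]⟩
  | cons σ l ih =>
    obtain ⟨z, hz⟩ := ih fun j => x j + x (σ.symm j)
    refine ⟨z, fun i => ?_⟩
    have h : (fun j => ((x j + x (σ.symm j) : ℤ) : ℝ)) =
        (2 : ℝ) • Av (1 / 2) σ fun j => (x j : ℝ) := by
      funext j
      simp only [Av, Bv, Pv, Pi.add_apply, Pi.smul_apply, Pi.sub_apply, smul_eq_mul]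
      push_cast
      ring
    rw [hz, h, ← ALl_apply, map_smul, ALl_apply, List.length_cons, pow_succ, mul_assoc]
    rfl

theorem gram {ι : Type} [Fintype ι] [DecidableEq ι] (hc : Fintype.card ι ≤ d)
    (P : Matrix (Fin d) ι ℤ) {T : ℝ} (T1 : 1 ≤ T) (hP : ∀ i k, |(P i k : ℝ)| ≤ T)
    (hi : ∀ x : ι → ℝ, P.map (Int.castRingHom ℝ) *ᵥ x = 0 → x = 0) (x : ι → ℝ) (k : ι) :
    |x k| ≤ d * (d.factorial * ((d + 1) * T ^ 2) ^ d) *
      (d * T * ‖P.map (Int.castRingHom ℝ) *ᵥ x‖) := by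
  set Q := P.map (Int.castRingHom ℝ) with hQ
  have h1 : (Qᵀ * Q).det = ((Pᵀ * P).det : ℤ) := by
    rw [hQ, ← transpose_map, ← Matrix.map_mul]
    exact (RingHom.map_det (Int.castRingHom ℝ) _).symm
  have h2 : (Qᵀ * Q).det ≠ 0 := fun h => by
    obtain ⟨v, v0, hv⟩ := exists_mulVec_eq_zero_iff.2 h
    have h3 : v ∈ LinearMap.ker (Qᵀ * Q).mulVecLin := hv
    rw [ker_mulVecLin_transpose_mul_self] at h3
    exact v0 (hi v h3)
  have h3 : 1 ≤ |(Qᵀ * Q).det| := by
    rw [h1] at h2 ⊢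
    exact_mod_cast Int.one_le_abs (by exact_mod_cast h2)
  have T0 : 0 ≤ T := by linarith
  have B1 : 1 ≤ (d + 1) * T ^ 2 :=
    one_le_mul_of_one_le_of_one_le (by simp) (one_le_pow₀ T1)
  have h4 : ∀ i j, |(Qᵀ * Q) i j| ≤ (d + 1) * T ^ 2 := fun i j => by
    rw [mul_apply]
    refine (abs_sum_le_sum_abs _ _).trans ((sum_le_card_nsmul _ _ (T ^ 2) fun l _ => ?_).trans ?_)
    · rw [abs_mul, sq]
      exact mul_le_mul (hP l i) (hP l j) (abs_nonneg _) T0
    · simp only [card_univ, Fintype.card_fin, nsmul_eq_mul]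
      nlinarith [sq_nonneg T]
  have h5 : ∀ i j, |adjugate (Qᵀ * Q) i j| ≤ d.factorial * ((d + 1) * T ^ 2) ^ d := fun i j => by
    rw [adjugate_apply]
    refine (det_le (abv := AbsoluteValue.abs) (x := (d + 1) * T ^ 2) fun a b => ?_).trans ?_
    · rw [updateRow_apply]
      split_ifs
      · refine le_trans ?_ B1
        rw [Pi.single_apply]
        split_ifs <;> simp
      · exact h4 a b
    · rw [nsmul_eq_mul]
      exact mul_le_mul (Nat.cast_le.2 (Nat.factorial_le hc)) (pow_le_pow_right₀ B1 hc)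
        (by positivity) (by positivity)
  have h6 : ∀ j, |(Qᵀ *ᵥ (Q *ᵥ x)) j| ≤ d * T * ‖Q *ᵥ x‖ := fun j => by
    show |∑ l, Qᵀ j l * (Q *ᵥ x) l| ≤ _
    refine (abs_sum_le_sum_abs _ _).trans
      ((sum_le_card_nsmul _ _ (T * ‖Q *ᵥ x‖) fun l _ => ?_).trans_eq ?_)
    · rw [abs_mul]
      exact mul_le_mul (hP l j) (norm_le_pi_norm (Q *ᵥ x) l) (abs_nonneg _) T0
    · simp only [card_univ, Fintype.card_fin, nsmul_eq_mul, mul_assoc]
  have h7 : (Qᵀ * Q).det * x k = (adjugate (Qᵀ * Q) *ᵥ (Qᵀ *ᵥ (Q *ᵥ x))) k := by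
    rw [mulVec_mulVec, mulVec_mulVec, Matrix.mul_assoc, adjugate_mul, smul_mulVec, one_mulVec]
    rfl
  refine (le_mul_of_one_le_left (abs_nonneg _) h3).trans ?_
  rw [← abs_mul, h7]
  show |∑ l, adjugate (Qᵀ * Q) k l * (Qᵀ *ᵥ (Q *ᵥ x)) l| ≤ _
  refine (abs_sum_le_sum_abs _ _).trans ((sum_le_card_nsmul _ _
    (d.factorial * ((d + 1) * T ^ 2) ^ d * (d * T * ‖Q *ᵥ x‖)) fun l _ => ?_).trans ?_)
  · rw [abs_mul]
    exact mul_le_mul (h5 k l) (h6 l) (abs_nonneg _) (by positivity)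
  · rw [card_univ, nsmul_eq_mul, mul_assoc (d : ℝ) (_ * _)]
    exact mul_le_mul_of_nonneg_right (Nat.cast_le.2 hc) (by positivity)

theorem exists_minrank (μ : Perm (Fin d) → ℝ) (θ : ℝ) : ∃ w : List (Perm (Fin d)),
    (∀ σ ∈ w, μ σ ≠ 0) ∧ ∀ B : List (Perm (Fin d)), (∀ σ ∈ B, μ σ ≠ 0) → ∀ x,
      AL θ B (AL θ w x) = 0 → AL θ w x = 0 := by
  obtain ⟨w, h1, h2⟩ := (measure fun l : List (Perm (Fin d)) =>
    Module.finrank ℝ (LinearMap.range (ALl θ l))).wf.has_min {l | ∀ σ ∈ l, μ σ ≠ 0}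
    ⟨[], by simp⟩
  refine ⟨w, h1, fun B hB x hx => ?_⟩
  have h3 : ¬ Module.finrank ℝ (LinearMap.range (ALl θ (w ++ B))) <
      Module.finrank ℝ (LinearMap.range (ALl θ w)) :=
    h2 (w ++ B) (List.forall_mem_append.2 ⟨h1, hB⟩)
  have h4 : ALl θ (w ++ B) = (ALl θ B).comp (ALl θ w) := LinearMap.ext fun y => by
    simp only [LinearMap.comp_apply, ALl_apply, AL_append]
  have h5 := LinearMap.finrank_range_add_finrank_ker
    ((ALl θ B).domRestrict (LinearMap.range (ALl θ w)))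
  rw [LinearMap.range_domRestrict, ← LinearMap.range_comp, ← h4] at h5
  have h6 : LinearMap.ker ((ALl θ B).domRestrict (LinearMap.range (ALl θ w))) = ⊥ :=
    Submodule.finrank_eq_zero.1 (by omega)
  have h7 := LinearMap.ker_eq_bot'.1 h6 ⟨ALl θ w x, x, rfl⟩ (by
    show ALl θ B (ALl θ w x) = 0
    rw [ALl_apply, ALl_apply]; exact hx)
  rw [← ALl_apply]
  exact congrArg Subtype.val h7

theorem exists_word (μ : Perm (Fin d) → ℝ) : ∃ (w : List (Perm (Fin d))) (R : ℝ),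
    (∀ σ ∈ w, μ σ ≠ 0) ∧ 1 ≤ R ∧ ∀ B : List (Perm (Fin d)), (∀ σ ∈ B, μ σ ≠ 0) → ∀ x,
      ‖AL (1 / 2) w x‖ ≤ R ^ (B.length + 1) * ‖AL (1 / 2) B (AL (1 / 2) w x)‖ := by
  classical
  obtain ⟨w, h1, h2⟩ := exists_minrank μ (1 / 2)
  let e : Fin d → Fin d → ℤ := fun j i => if j = i then 1 else 0
  let v : Fin d → Vec d := fun j => AL (1 / 2) w fun i => (e j i : ℝ)
  obtain ⟨ι, a, a1, a2, a3⟩ := exists_linearIndependent' ℝ v
  let _ : Fintype ι := Fintype.ofInjective a a1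
  have hc : Fintype.card ι ≤ d := by simpa using Fintype.card_le_of_injective a a1
  have e1 : ∀ j, ‖fun i => (e j i : ℝ)‖ ≤ 1 := fun j =>
    (pi_norm_le_iff_of_nonneg zero_le_one).2 fun i => by
      simp only [e]; split_ifs <;> simp
  set A : ℝ := d * (d * (d.factorial * (d + 1) ^ d) * d) + 1 with hA
  have A1 : 1 ≤ A := le_add_of_nonneg_left (by positivity)
  have S1 : (1 : ℝ) ≤ 2 ^ (2 * d + 2) := one_le_pow₀ one_le_two
  refine ⟨w, A * (2 ^ (2 * d + 2)) ^ (w.length + 1), h1,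
    one_le_mul_of_one_le_of_one_le A1 (one_le_pow₀ S1), fun B hB x => ?_⟩
  choose z hz using fun k : ι => AL_int (w ++ B) (e (a k))
  have h3 : AL (1 / 2) w x ∈ Submodule.span ℝ (Set.range (v ∘ a)) := by
    rw [a2, Submodule.mem_span_range_iff_exists_fun]
    refine ⟨x, ?_⟩
    conv_rhs => rw [pi_eq_sum_univ x, ← ALl_apply, map_sum]
    simp only [map_smul, ALl_apply, v, e, Int.cast_ite, Int.cast_one, Int.cast_zero]
  obtain ⟨t, ht⟩ := (Submodule.mem_span_range_iff_exists_fun ℝ).1 h3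
  set T : ℝ := 2 ^ (w ++ B).length with hT
  have T1 : 1 ≤ T := one_le_pow₀ one_le_two
  have h4 : ∀ s : ι → ℝ, (Matrix.of fun i k => z k i).map (Int.castRingHom ℝ) *ᵥ s =
      T • AL (1 / 2) B (∑ k, s k • (v ∘ a) k) := fun s => by
    funext i
    rw [← ALl_apply, map_sum]
    simp only [mulVec, dotProduct, map_apply, of_apply, eq_intCast, hz, AL_append, map_smul,
      ALl_apply, Pi.smul_apply, Finset.sum_apply, smul_eq_mul, mul_sum, Function.comp, v]
    exact sum_congr rfl fun k _ => by ring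
  have h5 := gram hc (Matrix.of fun i k => z k i) T1 (fun i k => by
      rw [of_apply, hz, abs_mul, abs_of_nonneg (by positivity)]
      exact mul_le_of_le_one_right (by positivity) ((norm_le_pi_norm _ i).trans
        ((AL_norm (by norm_num) (by norm_num) _ _).trans (e1 _))))
    (fun s hs => by
      rw [h4, smul_eq_zero_iff_right (by positivity)] at hs
      have h5 : ∑ k, s k • (v ∘ a) k = AL (1 / 2) w (∑ k, s k • fun i => (e (a k) i : ℝ)) := by
        rw [← ALl_apply, map_sum]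
        simp only [map_smul, ALl_apply, Function.comp, v]
      rw [h5] at hs
      exact funext (Fintype.linearIndependent_iff.1 a3 s (h5.trans (h2 B hB _ hs)))) t
  rw [h4, ht, norm_smul, Real.norm_of_nonneg (by positivity)] at h5
  have h6 : ‖AL (1 / 2) w x‖ ≤ ∑ k, |t k| := by
    rw [← ht]
    refine norm_sum_le_of_le _ fun k _ => ?_
    rw [norm_smul]
    exact mul_le_of_le_one_right (abs_nonneg _)
      ((AL_norm (by norm_num) (by norm_num) _ _).trans (e1 _))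
  refine h6.trans ((sum_le_card_nsmul _ _ _ fun k _ => h5 k).trans ?_)
  rw [card_univ, nsmul_eq_mul]
  refine (mul_le_mul_of_nonneg_right (Nat.cast_le.2 hc) (by positivity)).trans ?_
  have h7 : (d : ℝ) * (d * (d.factorial * ((d + 1) * T ^ 2) ^ d) *
      (d * T * (T * ‖AL (1 / 2) B (AL (1 / 2) w x)‖))) =
      d * (d * (d.factorial * (d + 1) ^ d) * d) * T ^ (2 * d + 2) *
        ‖AL (1 / 2) B (AL (1 / 2) w x)‖ := by
    rw [mul_pow, ← pow_mul]
    ring
  rw [h7]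
  refine mul_le_mul_of_nonneg_right ?_ (norm_nonneg _)
  rw [mul_pow, ← pow_mul _ (w.length + 1), hT, ← pow_mul, mul_comm (w ++ B).length, pow_mul]
  refine mul_le_mul ((le_add_of_nonneg_right zero_le_one).trans (le_self_pow₀ A1 (by omega)))
    (pow_le_pow_right₀ S1 ?_) (by positivity) (by positivity)
  rw [List.length_append]
  nlinarith [Nat.zero_le (w.length * B.length)]

theorem pow_two_of_kill (hd : 1 ≤ d) {l : List (Perm (Fin d))}
    (h : ∀ y : Vec d, ∑ i, y i = 0 → AL (1 / 2) l y = 0) : ∃ j, d = 2 ^ j := by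
  let i : Fin d := ⟨0, hd⟩
  obtain ⟨z, hz⟩ := AL_int l fun j => if j = i then 1 else 0
  have h1 : ∀ l : List (Perm (Fin d)), AL (1 / 2) l (fun _ => 1) = fun _ => 1 := fun l => by
    induction l with
    | nil => rfl
    | cons σ l ih =>
      refine Eq.trans (congrArg (AL (1 / 2) l) (funext fun j => ?_)) ih
      simp [Av, Bv, Pv]
  have h2 := h ((d : ℝ) • (fun j => ((if j = i then 1 else 0 : ℤ) : ℝ)) - fun _ => 1) (by
    simp [sum_sub_distrib])
  rw [← ALl_apply, map_sub, map_smul, ALl_apply, ALl_apply, h1] at h2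
  have h3 := congrFun h2 i
  simp only [Pi.sub_apply, Pi.smul_apply, smul_eq_mul, Pi.zero_apply] at h3
  have h4 : (d : ℝ) * z i = 2 ^ l.length := by rw [hz]; linear_combination 2 ^ l.length * h3
  have h5 : (d : ℤ) ∣ ((2 ^ l.length : ℕ) : ℤ) := ⟨z i, by exact_mod_cast h4.symm⟩
  obtain ⟨j, -, hj⟩ := (Nat.dvd_prime_pow Nat.prime_two).1 (Int.natCast_dvd_natCast.1 h5)
  exact ⟨j, hj⟩

end Pool.Agent.P.MP_1e2081_pr
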