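import Pool.Agent.P.MP_1e2081_pr.Poisson

/-!
Upper and lower bounds on the distance to stationarity of the chain of counts.
-/

set_option autoImplicit false

namespace Pool.Agent.P.MP_1e2081_pr

open Finset Equiv

variable {d n k : ℕ} {μ : Perm (Fin d) → ℝ}

theorem exists_conf (X : State d n) : ∃ c, Rep X c := by
  have e : ∀ i, Fin n ≃ Σ j, Fin (X.1 i j) := fun i =>
    Fintype.equivOfCardEq (by simp [X.2.1 i])
  refine ⟨fun s => (e s.1 s.2).1, fun i j => ?_⟩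
  rw [cnt, Equiv.sum_comp (e i) fun x => if x.1 = j then 1 else 0, Fintype.sum_sigma,
    sum_eq_single j (fun b _ h => by simp [h]) (by simp)]
  simp

theorem lump' (hμ : IsProb μ) (hk : k ≤ n) {F : State d n → ℝ} {G : (Sl d n → Fin d) → ℝ}
    (h : ∀ X c, Rep X c → F X = G c) (m : ℕ) {X : State d n} {c : Sl d n → Fin d}
    (hX : Rep X c) : (jump μ n k ^ m).mulVec F X = (op μ (stC k) ^ m) G c := by
  have h1 : ∀ c, Valid c → ext F (cnt c) = G c := fun c hc => by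
    obtain ⟨Y, hY⟩ := hc.exists_rep
    rw [hY.ext_eq, h Y c hY]
  rw [lump μ hk F m hX]
  exact le_antisymm (pow_le_on hμ (fun σ τ c _ h => Valid.comp h _) (fun c hc => (h1 c hc).le) m
    hX.valid) (pow_le_on hμ (fun σ τ c _ h => Valid.comp h _) (fun c hc => (h1 c hc).ge) m hX.valid)

theorem jump_stoch (hμ : IsProb μ) (hk : k ≤ n) :
    jump μ n k ∈ Matrix.rowStochastic ℝ (State d n) := by
  refine ⟨fun X Y => sum_nonneg fun σ _ => mul_nonneg (hμ.1 σ) (sum_nonneg fun S _ => ?_),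
    funext fun X => ?_⟩
  · split_ifs
    · positivity
    · exact le_rfl
  · obtain ⟨c, hc⟩ := exists_conf X
    have := lump' hμ hk (F := 1) (G := fun _ => 1) (fun _ _ _ => rfl) 1 hc
    rwa [pow_one, pow_const hμ] at this

theorem avg_comm {T T' : Type} [Fintype T] [Fintype T'] (f : T → T' → ℝ) :
    avg (fun t => avg (f t)) = avg fun t' => avg fun t => f t t' := by
  simp only [avg, ← sum_div, div_div, mul_comm]
  rw [sum_comm]

theorem exists_stationary (hμ : IsProb μ) (hk : k ≤ n) : ∃ π, IsStationary (jump μ n k) π := by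
  classical
  let π : State d n → ℝ := fun Y =>
    avg fun r : Perm (Sl d n) => if Rep Y (Prod.fst ∘ r) then 1 else 0
  have h : ∀ F : State d n → ℝ, ∑ X, π X * F X =
      avg fun r : Perm (Sl d n) => ext F (cnt (Prod.fst ∘ r)) := fun F => by
    simp only [π, ext, avg_sum, mul_comm _ (F _), ← avg_mul, mul_ite, mul_one, mul_zero]
    exact sum_congr rfl fun X _ => congrArg avg (funext fun r => if_congr Iff.rfl rfl rfl)
  refine ⟨π, fun X => avg_nonneg fun r => by split_ifs <;> norm_num, ?_, fun Y => ?_⟩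
  · have h1 := h fun _ => 1
    simp only [mul_one] at h1
    rw [h1]
    refine (congrArg avg (funext fun r => ?_)).trans (avg_const (T := Perm (Sl d n)) 1)
    obtain ⟨X, hX⟩ := (valid_fst.comp r).exists_rep
    exact hX.ext_eq _
  · have h1 : ∀ X, jump μ n k X Y = (jump μ n k).mulVec (Pi.single Y 1) X := by simp
    have h2 : π Y = ∑ X, π X * (Pi.single Y 1 : State d n → ℝ) X := by simp [Pi.single_apply]
    have h3 : ∀ r : Perm (Sl d n), ext ((jump μ n k).mulVec (Pi.single Y 1)) (cnt (Prod.fst ∘ r)) =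
        ∑ σ, μ σ * avg fun τ => ext (Pi.single Y 1) (cnt (Prod.fst ∘ stR k σ τ r)) := by
      intro r
      obtain ⟨X, hX⟩ := (valid_fst.comp r).exists_rep
      rw [hX.ext_eq, lump_one μ hk hX]
      rfl
    simp only [h1]
    rw [h2, h, h, funext h3, avg_sum, ← hμ.sum_const (avg _)]
    refine sum_congr rfl fun σ _ => ?_
    rw [avg_mul, avg_comm, ← avg_const (T := Sh d n) (avg fun r : Perm (Sl d n) => _)]
    refine congrArg _ (congrArg avg (funext fun τ => ?_))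
    exact avg_equiv (Equiv.mulRight (mv k σ τ))
      fun r : Perm (Sl d n) => ext (Pi.single Y 1) (cnt (Prod.fst ∘ r))

theorem ext_mem {F : State d n → ℝ} (F0 : ∀ X, 0 ≤ F X) (F1 : ∀ X, F X ≤ 1)
    (M : Fin d → Fin d → ℕ) : 0 ≤ ext F M ∧ ext F M ≤ 1 := by
  refine ⟨sum_nonneg fun Y _ => by split_ifs; exacts [F0 Y, le_rfl], ?_⟩
  by_cases h : ∃ X : State d n, ∀ i j, (X.1 i j : ℕ) = M i j
  · obtain ⟨X, h⟩ := h
    rw [ext, sum_eq_single X (fun Y _ hY => if_neg fun h1 => hY ?_) (by simp), if_pos h]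
    · exact F1 X
    exact Subtype.ext (funext fun i => funext fun j => Fin.ext ((h1 i j).trans (h i j).symm))
  · rw [ext, sum_eq_zero fun Y _ => if_neg fun h1 => h ⟨Y, h1⟩]
    exact zero_le_one

theorem dist_upper (hμ : IsProb μ) (hk : k ≤ n) {r C : ℝ} (hd : Drift μ n k r C) (C0 : 0 ≤ C)
    (r0 : 0 ≤ r) (r1 : r ≤ 1) (i : Fin d) (n1 : 1 ≤ n) {π : State d n → ℝ}
    (hπ : IsStationary (jump μ n k) π) {L t ρ p M T : ℝ} (L0 : 0 ≤ L) (t0 : 0 < t) (p0 : 0 ≤ p)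
    {m : ℕ} (hρ : r ^ m ≤ ρ) (M0 : 0 ≤ M) (hp : ∀ m₁ : ℕ, M ≤ m₁ → ∀ c : Sl d n → Fin d, Valid c →
      (op μ (stC k) ^ m₁) (fun x => if L ^ 2 * n < Qu x then 1 else 0) c ≤ p)
    (hT : M + (2 * m + 2) < T) :
    dist (jump μ n k) π T ≤ 2 * p + err d C L t ρ √n + T / (T - (M + (2 * m + 2))) ^ 2 := by
  have ρ0 : 0 ≤ ρ := (pow_nonneg r0 _).trans hρ
  refine dist_le (jump_stoch hμ hk) hπ (le_trans (by positivity) hT.le) hT
    (by unfold err; positivity) fun N hN F F0 F1 X X' => ?_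
  obtain ⟨c, hc⟩ := exists_conf X
  obtain ⟨c', hc'⟩ := exists_conf X'
  obtain ⟨m₁, rfl⟩ : ∃ m₁, N = m₁ + (m + 1 + (m + 1)) := by
    have : ((2 * m + 2 : ℕ) : ℝ) ≤ N := by push_cast; linarith
    have := Nat.cast_le.1 this
    exact ⟨N - (2 * m + 2), by omega⟩
  rw [lump μ hk F _ hc, lump μ hk F _ hc']
  exact upper hμ hd C0 r0 r1 i (Real.one_le_sqrt.2 (by exact_mod_cast n1))
    (Real.sq_sqrt (Nat.cast_nonneg n)) (fun M => (ext_mem F0 F1 M).1) (fun M => (ext_mem F0 F1 M).2)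
    L0 t0 hρ (hp m₁ (by push_cast at hN; linarith)) hc.valid hc'.valid

theorem Drift.markov (hμ : IsProb μ) {r C : ℝ} (hd : Drift μ n k r C) (C0 : 0 ≤ C) (r0 : 0 ≤ r)
    (n1 : 1 ≤ n) {L : ℝ} (L0 : 0 < L) (m : ℕ) {c : Sl d n → Fin d} (hc : Valid c) :
    (op μ (stC k) ^ m) (fun x => if L ^ 2 * n < Qu x then 1 else 0) c ≤
      C * d ^ 2 * (r ^ m * n + 1) / L ^ 2 := by
  have n0 : (0 : ℝ) < n := by exact_mod_cast n1
  refine (pow_le hμ (F' := fun x => (L ^ 2 * n)⁻¹ * Qu x) (fun x => ?_) m c).trans ?_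
  · split_ifs with h
    · rw [le_inv_mul_iff₀ (by positivity), mul_one]; exact h.le
    · exact mul_nonneg (by positivity) (Qu_nonneg x)
  · rw [pow_mul_apply]
    refine (mul_le_mul_of_nonneg_left (hd.qu C0 r0 hc m) (by positivity)).trans_eq ?_
    field_simp

/-- Squared distance of a state from the uniform table. -/
noncomputable def Qs (X : State d n) : ℝ := ∑ j, ∑ l, (((X.1 l j : ℕ) : ℝ) - n / d) ^ 2

theorem Rep.qs {X : State d n} {c : Sl d n → Fin d} (h : Rep X c) : Qs X = Qu c := by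
  simp only [Qs, Qu, h _ _]

theorem stat_tail (hμ : IsProb μ) (hk : k ≤ n) {r C : ℝ} (hd : Drift μ n k r C) (C0 : 0 ≤ C)
    (r0 : 0 ≤ r) (r1 : r < 1) (n1 : 1 ≤ n) {π : State d n → ℝ}
    (hπ : IsStationary (jump μ n k) π) {L : ℝ} (L0 : 0 < L) :
    ∑ X, π X * (if L ^ 2 * n < Qs X then 1 else 0) ≤ 2 * C * d ^ 2 / L ^ 2 := by
  have n0 : (0 : ℝ) < n := by exact_mod_cast n1
  obtain ⟨m, hm⟩ := exists_pow_lt_of_lt_one (inv_pos.2 n0) r1
  rw [← hπ.pow _ m]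
  refine (sum_le_sum fun X _ => mul_le_mul_of_nonneg_left ?_ (hπ.1 X)).trans_eq
    (by rw [← sum_mul, hπ.2.1, one_mul])
  obtain ⟨c, hc⟩ := exists_conf X
  rw [lump' hμ hk (G := fun x => if L ^ 2 * n < Qu x then 1 else 0)
    (fun X c h => by rw [h.qs]) m hc]
  refine (hd.markov hμ C0 r0 n1 L0 m hc.valid).trans ?_
  have : r ^ m * n ≤ 1 := by rw [← le_div_iff₀ n0, one_div]; exact hm.le
  exact div_le_div_of_nonneg_right (by nlinarith [mul_nonneg C0 (sq_nonneg (d : ℝ))]) (sq_nonneg L)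

theorem vec_comp (y : Vec d) (c : Sl d n → Fin d) (l : Fin d) :
    vec (y ∘ c) l = ∑ j, cnt c l j * y j := by
  simp only [vec, cnt_cast, sum_mul]
  rw [sum_comm]
  simp

theorem vec_le {y : Vec d} (hy : ∑ j, y j = 0) (c : Sl d n → Fin d) :
    N2 (vec (y ∘ c)) ≤ Qu c * N2 y := by
  rw [Qu, sum_comm, sum_mul]
  refine sum_le_sum fun l _ => ?_
  have h : vec (y ∘ c) l = ∑ j, ((cnt c l j : ℝ) - n / d) * y j := by
    simp only [vec_comp, sub_mul, sum_sub_distrib, ← mul_sum, hy, mul_zero, sub_zero]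
  rw [h]
  exact sum_mul_sq_le_sq_mul_sq _ _ _

theorem lower (hμ : IsProb μ) {r C : ℝ} (hd : Drift μ n k r C) (n1 : 1 ≤ n) {y₀ : Vec d}
    (h0 : ∑ j, y₀ j = 0) (h1 : 0 < N2 y₀) {L : ℝ} (L0 : 0 < L) (m : ℕ) :
    1 - (C / L ^ 2 + (op μ (stY (Sh d n) ((k : ℝ) / n)) ^ m)
      (fun y => if N2 y ≤ 4 * L ^ 2 * N2 y₀ / n then 1 else 0) y₀) ≤
      (op μ (stC k) ^ m) (fun x => if L ^ 2 * n < Qu x then 1 else 0) (Prod.fst : Sl d n → _) := by
  have n0 : (0 : ℝ) < n := by exact_mod_cast n1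
  have a1 := pow_comp (μ := μ) (st := fun σ τ (s : (Sl d n → Fin d) × Vec d) =>
    (stC k σ τ s.1, Av ((k : ℝ) / n) σ s.2)) (st' := stC k) (φ := Prod.fst) (fun _ _ _ => rfl)
    (fun x => if L ^ 2 * n < Qu x then 1 else 0) m (Prod.fst, y₀)
  have a2 := pow_comp (μ := μ) (st := fun σ τ (s : (Sl d n → Fin d) × Vec d) =>
    (stC k σ τ s.1, Av ((k : ℝ) / n) σ s.2)) (st' := stY (Sh d n) ((k : ℝ) / n)) (φ := Prod.snd)
    (fun _ _ _ => rfl) (fun y => if N2 y ≤ 4 * L ^ 2 * N2 y₀ / n then 1 else 0) m (Prod.fst, y₀)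
  have a3 := pow_comp (μ := μ) (st := fun σ τ (s : (Sl d n → Fin d) × Vec d) =>
    (stC k σ τ s.1, Av ((k : ℝ) / n) σ s.2)) (st' := stJ k)
    (φ := fun s => (y₀ ∘ s.1, (n : ℝ) • s.2)) (fun σ _ s => by
      simp only [stJ]; congr 1; funext l; simp [Av, Bv, Pv]; ring)
    (fun s => N2 (vec s.1 - s.2)) m (Prod.fst, y₀)
  have a4 : vec (y₀ ∘ (Prod.fst : Sl d n → _)) - (n : ℝ) • y₀ = 0 := by
    funext l; simp [vec]
  have a5 := hd m (y₀ ∘ Prod.fst) ((n : ℝ) • y₀) (by rw [a4]; simp)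
  have a6 : ∑ s : Sl d n, (y₀ ∘ Prod.fst) s ^ 2 = n * N2 y₀ := by
    simp [Fintype.sum_prod_type, N2, mul_sum]
  rw [a4, a6, ← a3, show N2 (0 : Vec d) = 0 by simp [N2], mul_zero, zero_add] at a5
  have a7 := pow_le hμ (st := fun σ τ (s : (Sl d n → Fin d) × Vec d) =>
    (stC k σ τ s.1, Av ((k : ℝ) / n) σ s.2)) (F := fun _ => 1)
    (F' := fun s => (if L ^ 2 * n < Qu s.1 then 1 else 0) +
      (if N2 s.2 ≤ 4 * L ^ 2 * N2 y₀ / n then 1 else 0) +
      (L ^ 2 * n * N2 y₀)⁻¹ * N2 (vec (y₀ ∘ s.1) - (n : ℝ) • s.2)) (fun s => by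
      have b1 : 0 ≤ (L ^ 2 * n * N2 y₀)⁻¹ * N2 (vec (y₀ ∘ s.1) - (n : ℝ) • s.2) :=
        mul_nonneg (by positivity) (N2_nonneg _)
      split_ifs with b2 b3 b3 <;> try linarith
      rw [zero_add, zero_add, le_inv_mul_iff₀ (by positivity), mul_one]
      have b4 := N2_sub (vec (y₀ ∘ s.1)) (vec (y₀ ∘ s.1) - (n : ℝ) • s.2)
      have b5 := (vec_le h0 s.1).trans (mul_le_mul_of_nonneg_right (not_lt.1 b2) h1.le)
      have b6 : N2 ((n : ℝ) • s.2) = n * (N2 s.2 * n) := by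
        simp only [N2, Pi.smul_apply, smul_eq_mul, mul_pow, ← mul_sum]; ring
      rw [not_le, div_lt_iff₀ n0] at b3
      rw [sub_sub_cancel, b6] at b4
      linarith [mul_le_mul_of_nonneg_left b3.le n0.le]) m (Prod.fst, y₀)
  rw [pow_const hμ, pow_add_apply, pow_add_apply, pow_mul_apply, a1, a2] at a7
  have a8 := mul_le_mul_of_nonneg_left a5 (show 0 ≤ (L ^ 2 * n * N2 y₀)⁻¹ by positivity)
  rw [show (L ^ 2 * n * N2 y₀)⁻¹ * (C * (n * N2 y₀)) = C / L ^ 2 by field_simp] at a8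
  linarith

theorem dist_lower (hμ : IsProb μ) (hk : k ≤ n) {r C : ℝ} (hd : Drift μ n k r C) (C0 : 0 ≤ C)
    (r0 : 0 ≤ r) (r1 : r < 1) (n1 : 1 ≤ n) {π : State d n → ℝ}
    (hπ : IsStationary (jump μ n k) π) {y₀ : Vec d} (h0 : ∑ j, y₀ j = 0) (h1 : 0 < N2 y₀)
    {L q M T : ℝ} (L0 : 0 < L) (q0 : 0 ≤ q) (T0 : 0 ≤ T) (hT : T < M)
    (hq : ∀ m : ℕ, (m : ℝ) ≤ M → (op μ (stY (Sh d n) ((k : ℝ) / n)) ^ m)
      (fun y => if N2 y ≤ 4 * L ^ 2 * N2 y₀ / n then 1 else 0) y₀ ≤ q) :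
    1 - (C / L ^ 2 + q) - T / (M - T) ^ 2 - 2 * C * d ^ 2 / L ^ 2 ≤ dist (jump μ n k) π T := by
  obtain ⟨X, hX⟩ := (valid_fst (d := d) (n := n)).exists_rep
  refine le_trans (sub_le_sub_left (stat_tail hμ hk hd C0 r0 r1 n1 hπ L0) _)
    (le_dist (jump_stoch hμ hk) hπ.2.1 T0 hT (by positivity) X
      (fun _ => by split_ifs <;> norm_num) (fun _ => by split_ifs <;> norm_num) fun m hm => ?_)
  rw [lump' hμ hk (G := fun x => if L ^ 2 * n < Qu x then 1 else 0)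
    (fun X c h => by rw [h.qs]) m hX]
  linarith [lower hμ hd n1 h0 h1 L0 m, hq m hm]

end Pool.Agent.P.MP_1e2081_pr
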