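import Pool.Agent.P.MP_1e2081_pr.Near

/-!
Cutoff for all `k` of order `n` when no product of the averaging maps vanishes.
-/

set_option autoImplicit false

namespace Pool.Agent.P.MP_1e2081_pr

open Finset Equiv Filter

variable {d n k : ℕ} {μ : Perm (Fin d) → ℝ} {c : ℝ}

theorem sandwich_all (hμ : IsProb μ) (hU : (uMat μ).IsIrreducible) (hd : 2 ≤ d) (c0 : 0 < c)
    (c1 : c ≤ 1) (h0 : ∀ w : List (Perm (Fin d)), (∀ σ ∈ w, μ σ ≠ 0) →
      ¬ ∀ y : Vec d, ∑ i, y i = 0 → AL (1 / 2) w y = 0) : ∃ κ g, 0 < κ ∧ 0 < g ∧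
      ∀ η ε : ℝ, 0 < η → η ≤ 1 → 0 < ε → ∀ᶠ n : ℕ in atTop, ∀ k : ℕ,
      c ≤ (k : ℝ) / n → (k : ℝ) / n ≤ 1 - c → ∀ π, IsStationary (jump μ n k) π →
      ∃ T, Real.log n ≤ κ * T ∧ g * T ≤ Real.log n ∧ dist (jump μ n k) π ((1 + η) * T) ≤ ε ∧
        ∀ s, 0 ≤ s → s < (1 - η) * T → 1 - ε < dist (jump μ n k) π s := by
  let i : Fin d := ⟨0, by omega⟩
  have d0 : (0 : ℝ) < d := by exact_mod_cast i.pos
  obtain ⟨g, g0, g1, hg⟩ := contract hμ hU i c0 c1
  let W : Submodule ℝ (Vec d) := LinearMap.ker (∑ i, LinearMap.proj i : _ →ₗ[ℝ] ℝ)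
  have hW : ∀ v, v ∈ W ↔ ∑ i, v i = 0 := fun v => by simp [W]
  obtain ⟨κ, κ1, hC⟩ := conc_range hμ (W := W)
    (fun σ _ v hv => (hW _).2 ((Equiv.sum_comp σ.symm v).trans ((hW v).1 hv)))
    (fun w hw h => h0 w hw fun y hy => h y ((hW y).2 hy)) c0
  refine ⟨κ, g / 2, by linarith, by positivity, fun η ε η0 η1 ε0 => ?_⟩
  have gi : 1 ≤ g⁻¹ := (one_le_inv₀ g0).2 g1
  have C0 : 0 ≤ 4 * g⁻¹ ^ 3 := by positivity
  have hD : ∀ n k : ℕ, 1 ≤ n → c ≤ (k : ℝ) / n → (k : ℝ) / n ≤ 1 - c →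
      k ≤ n ∧ Drift μ n k (1 - g) (4 * g⁻¹ ^ 3) := fun n k n1 h hk => by
    have hi : (k : ℝ) / n ≤ 1 := by linarith
    have kn : k ≤ n := by exact_mod_cast (div_le_one (by exact_mod_cast n1)).1 hi
    refine ⟨kn, drift hμ kn psd_dot gi (fun z _ => ?_) (fun z => ?_) (fun z hz => ?_)
      (by linarith) ?_⟩
    · rw [dot_self]; exact le_mul_of_one_le_left (N2_nonneg z) gi
    · rw [dot_self]; exact le_mul_of_one_le_left (N2_nonneg z) gi
    · simpa only [dot_self] using hg _ h hk z hz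
    · rw [sub_sub_cancel, inv_mul_cancel₀ g0.ne']; exact hi
  generalize 4 * g⁻¹ ^ 3 = C at *
  obtain ⟨δ, δ0, δ1, δ2⟩ := exists_small (5 * (d + 1)) ε ε0
  obtain ⟨L, L0, hL⟩ := exists_big (4 * d ^ 3 + 4 * C * d ^ 2 + C) δ δ0
  obtain ⟨t, ρ, t0, ρ0, h1⟩ := small_err d C0 L0.le δ0
  obtain ⟨m, hm⟩ := exists_pow_lt_of_lt_one ρ0 (show 1 - g < 1 by linarith)
  obtain ⟨e, e0, -, e1⟩ := exists_small 1 (min δ (min (1 / 4) (g * η / 16))) (by positivity)
  simp only [one_mul, le_min_iff] at e1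
  obtain ⟨e1, e2, e3⟩ := e1
  obtain ⟨m₀, hm₀⟩ := hC e e0
  have L1 : 4 * C * d ^ 2 / L ^ 2 ≤ δ ∧ C / L ^ 2 + 2 * C * d ^ 2 / L ^ 2 ≤ δ ∧
      4 * d ^ 3 ≤ L ^ 2 := by
    rw [← add_div]
    simp only [div_le_iff₀ (pow_pos L0 2)] at hL ⊢
    have := mul_nonneg C0 (sq_nonneg (d : ℝ))
    have := pow_pos d0 3
    have := mul_le_of_le_one_left (sq_nonneg L) δ1
    exact ⟨by linarith, by linarith, by linarith⟩
  filter_upwards [h1, eventually_ge_atTop 1, log_ev 1, log_ev (κ * m₀),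
    log_ev (κ * (4 / η * (2 * m + 2))), log_ev (κ * (8 / (η ^ 2 * δ))), log_ev (16 * L ^ 2 / η),
    tendsto_natCast_atTop_atTop.eventually_gt_atTop (4 * L ^ 2 * Real.exp ((κ + 1) * m₀))]
    with n h1 n1 l1 l2 l3 l4 l5 l6 k h hk π hπ
  obtain ⟨kn, hd'⟩ := hD n k n1 h hk
  have n0 : (0 : ℝ) < n := by exact_mod_cast n1
  obtain ⟨l, a1, a2, y₀, a3, a4, a5⟩ := hm₀ _ h (by linarith)
  have a6 : l ≤ -(g / 2) := by
    by_contra a6
    obtain ⟨M, b1⟩ := exists_nat_ge (max (m₀ : ℝ) (4 / g))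
    obtain ⟨b1, b2⟩ := max_le_iff.1 b1
    have b3 := lyap (st := stY Unit ((k : ℝ) / n)) hμ (I := fun y => ∑ l, y l = 0)
      (fun σ _ y _ hy => (sum_Av _ σ y).trans hy) (J := N2) (r := 1 - g) (b := 0) (by linarith)
      (fun y hy => by rw [opY, mul_zero, add_zero]; exact hg _ h hk y hy) M ((hW y₀).1 a3)
    have b4 := pow_le hμ (st := stY Unit ((k : ℝ) / n)) (F' := N2)
      (F := fun z => Real.exp ((l - e) * M) * N2 y₀ *
        (1 - if N2 z ≤ Real.exp ((l - e) * M) * N2 y₀ then 1 else 0)) (fun z => by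
        split_ifs with b4
        · simpa using N2_nonneg z
        · simpa using (not_le.1 b4).le) M y₀
    rw [pow_mul_apply, pow_sub_apply, pow_const hμ] at b4
    have b5 := mul_le_mul_of_nonneg_left (a5 M (by exact_mod_cast b1))
      (mul_pos (Real.exp_pos ((l - e) * M)) a4).le
    have b6 := mul_le_mul_of_nonneg_right (one_sub_pow_le g1 M) a4.le
    have b7 : 2 * Real.exp (-(M * g)) ≤ Real.exp ((l - e) * M) := by
      rw [show (l - e) * M = (l - e + g) * M + -(M * g) by ring, Real.exp_add]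
      rw [div_le_iff₀ g0] at b2
      have b8 := mul_le_mul_of_nonneg_right (show g / 4 ≤ l - e + g by
        linarith [mul_le_of_le_one_right g0.le η1]) (Nat.cast_nonneg (α := ℝ) M)
      exact mul_le_mul_of_nonneg_right (by linarith [Real.add_one_le_exp ((l - e + g) * M)])
        (Real.exp_pos _).le
    have b8 := mul_le_mul_of_nonneg_right b7 a4.le
    have b9 := mul_pos (Real.exp_pos ((l - e) * M)) a4
    have b10 := mul_le_mul_of_nonneg_left e2 b9.le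
    linarith
  have l0 : 0 < -l := by linarith
  obtain ⟨T, T0, hT⟩ : ∃ T, 0 < T ∧ Real.log n = -l * T :=
    ⟨Real.log n / -l, by positivity, (mul_div_cancel₀ _ l0.ne').symm⟩
  have κ0 : 0 < κ := by linarith
  have T1 : Real.log n ≤ κ * T := hT ▸ mul_le_mul_of_nonneg_right (by linarith) T0.le
  have T2 : (m₀ : ℝ) ≤ T := le_of_mul_le_mul_left (l2.trans T1) κ0
  have T3 := le_of_mul_le_mul_left (l3.trans T1) κ0
  have T4 := le_of_mul_le_mul_left (l4.trans T1) κ0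
  rw [div_mul_eq_mul_div, div_le_iff₀ η0] at T3
  rw [div_le_iff₀ (by positivity)] at T4
  have ηT := mul_pos η0 T0
  have T5 : 2 * T / (η / 2 * T) ^ 2 ≤ δ := by
    rw [div_le_iff₀ (by positivity)]
    linarith [mul_le_mul_of_nonneg_right T4 T0.le]
  have e4 : e ≤ -l * η / 8 := by linarith [mul_le_mul_of_nonneg_right a6 η0.le]
  refine ⟨T, T1, hT ▸ mul_le_mul_of_nonneg_right (by linarith) T0.le, ?_, fun s s0 hs => ?_⟩
  · refine (dist_upper hμ kn hd' C0 (by linarith) (by linarith) i n1 hπ L0.le t0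
      (p := d * (2 * δ)) (M := (1 + η / 4) * T) (by positivity) hm.le (by positivity)
      (fun M hM x hx => (hd'.tail hμ C0 n1 i L0 (q := e) (fun y b1 b2 => ?_) hx).trans
        (mul_le_mul_of_nonneg_left (by linarith [L1.1]) d0.le)) (by linarith)).trans ?_
    · refine le_trans (pow_le hμ (fun z => ?_) M y)
        (a2 M (by exact_mod_cast (show (m₀ : ℝ) ≤ M by linarith)) y ((hW y).2 b1))
      have b3 : Real.exp ((l + e) * M) ≤ (n : ℝ)⁻¹ := by
        rw [← Real.exp_log n0, ← Real.exp_neg, Real.exp_le_exp, hT]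
        have b4 := mul_le_mul_of_nonneg_left η1 l0.le
        have b5 := mul_le_mul_of_nonneg_left hM (show 0 ≤ -(l + e) by linarith)
        have b6 := mul_le_mul_of_nonneg_right e4 T0.le
        have b7 := mul_le_mul_of_nonneg_left η1 (mul_pos e0 T0).le
        have b8 := mul_pos e0 T0
        linarith
      have b4 : Real.exp ((l + e) * M) * N2 y ≤ L ^ 2 * n / (4 * d) := by
        refine (mul_le_mul b3 b2 (N2_nonneg y) (by positivity)).trans ?_
        rw [le_div_iff₀ (by positivity), show (n : ℝ)⁻¹ * (d ^ 2 * n ^ 2) * (4 * d) =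
          4 * d ^ 3 * n by field_simp]
        exact mul_le_mul_of_nonneg_right L1.2.2 n0.le
      split_ifs with b5 b6
      · exact le_rfl
      · exact absurd (b4.trans_lt b5) b6
      · exact zero_le_one
      · exact le_rfl
    · have b1 : (1 + η) * T / ((1 + η) * T - ((1 + η / 4) * T + (2 * m + 2))) ^ 2 ≤
          2 * T / (η / 2 * T) ^ 2 := by
        gcongr <;> linarith
      linarith [mul_pos d0 δ0]
  · refine lt_of_lt_of_le ?_ (dist_lower hμ kn hd' C0 (by linarith) (by linarith) n1 hπ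
      ((hW y₀).1 a3) a4 L0 (q := e) (M := (1 - η / 2) * T) e0.le s0 (by linarith) fun M hM => ?_)
    · have b1 : s / ((1 - η / 2) * T - s) ^ 2 ≤ 2 * T / (η / 2 * T) ^ 2 := by
        gcongr <;> linarith
      linarith [mul_pos d0 δ0, L1.2.1]
    rw [opY_eq]
    rcases le_total m₀ M with b1 | b1
    · refine le_trans (pow_le hμ (fun z => ?_) M y₀) (a5 M b1)
      have b2 : 4 * L ^ 2 * N2 y₀ / n ≤ Real.exp ((l - e) * M) * N2 y₀ := by
        have b3 : Real.exp (η / 4 * Real.log n - Real.log n) ≤ Real.exp ((l - e) * M) := by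
          rw [Real.exp_le_exp, hT]
          have b5 := mul_le_mul_of_nonneg_left hM (show 0 ≤ -(l - e) by linarith)
          have b6 := mul_le_mul_of_nonneg_right e4 T0.le
          have b7 := mul_pos e0 ηT
          have b8 := mul_pos l0 ηT
          linarith
        rw [mul_div_right_comm]
        refine mul_le_mul_of_nonneg_right (le_trans ?_ b3) a4.le
        rw [Real.exp_sub, Real.exp_log n0]
        rw [div_le_iff₀ η0] at l5
        exact div_le_div_of_nonneg_right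
          (by linarith [Real.add_one_le_exp (η / 4 * Real.log n)]) n0.le
      split_ifs with b5 b6
      · exact le_rfl
      · exact absurd (b5.trans b2) b6
      · exact zero_le_one
      · exact le_rfl
    · obtain ⟨j, b2⟩ := Nat.exists_eq_add_of_le b1
      refine le_trans ?_ (a5 m₀ le_rfl)
      have b3 : KY μ ((k : ℝ) / n) ^ m₀ = KY μ ((k : ℝ) / n) ^ M * KY μ ((k : ℝ) / n) ^ j := by
        rw [← pow_add, ← b2]
      rw [b3, Module.End.mul_apply]
      refine pow_le hμ (fun z => (pow_const hμ (st := stY Unit ((k : ℝ) / n)) _ j z).ge.trans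
        (monoY hμ (by linarith) (by linarith) j z fun z' hz => ?_)) M y₀
      have b4 : 4 * L ^ 2 * N2 y₀ / n ≤ Real.exp ((l - e) * m₀) * N2 y₀ := by
        rw [mul_div_right_comm]
        refine mul_le_mul_of_nonneg_right ?_ a4.le
        have b5 : Real.exp (-((κ + 1) * m₀)) ≤ Real.exp ((l - e) * m₀) := by
          rw [Real.exp_le_exp, ← neg_mul]
          exact mul_le_mul_of_nonneg_right (by linarith) (Nat.cast_nonneg _)
        refine le_trans ?_ b5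
        rw [Real.exp_neg, div_le_iff₀ n0, le_inv_mul_iff₀ (Real.exp_pos _), mul_comm]
        exact l6.le
      split_ifs with b5 b6
      · exact le_rfl
      · exact absurd (hz.trans (b5.trans b4)) b6
      · exact zero_le_one
      · exact le_rfl

theorem cutoff_all (hμ : IsProb μ) (hU : (uMat μ).IsIrreducible) (hd : 2 ≤ d) (c0 : 0 < c)
    (h0 : ∀ w : List (Perm (Fin d)), (∀ σ ∈ w, μ σ ≠ 0) →
      ¬ ∀ y : Vec d, ∑ i, y i = 0 → AL (1 / 2) w y = 0) {k : ℕ → ℕ}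
    (hk : ∀ᶠ n : ℕ in atTop, c * n ≤ k n ∧ (k n : ℝ) ≤ (1 - c) * n)
    {π : ∀ n, State d n → ℝ} (hπ : ∀ᶠ n in atTop, IsStationary (jump μ n (k n)) (π n)) :
    (∀ ε : ℝ, 0 < ε → ε < 1 → Tendsto (fun n : ℕ => tmix (jump μ n (k n)) (π n) ε /
      tmix (jump μ n (k n)) (π n) (1 - ε)) atTop (nhds 1)) ∧
    ∃ a b : ℝ, 0 < a ∧ 0 < b ∧ ∀ᶠ n : ℕ in atTop,
      a * Real.log n ≤ tmix (jump μ n (k n)) (π n) (1 / 4) ∧
        tmix (jump μ n (k n)) (π n) (1 / 4) ≤ b * Real.log n := by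
  replace hk : ∀ᶠ n : ℕ in atTop, c ≤ (k n : ℝ) / n ∧ (k n : ℝ) / n ≤ 1 - c := by
    filter_upwards [hk, eventually_gt_atTop 0] with n a1 a2
    have n0 : (0 : ℝ) < n := by exact_mod_cast a2
    exact ⟨(le_div_iff₀ n0).2 a1.1, (div_le_iff₀ n0).2 a1.2⟩
  obtain ⟨κ, g, κ0, g0, h⟩ := sandwich_all hμ hU hd c0
    (by linarith [hk.exists.choose_spec.1, hk.exists.choose_spec.2]) h0
  have h1 : ∀ η ε : ℝ, 0 < η → η ≤ 1 → 0 < ε → ∀ᶠ n : ℕ in atTop, ∃ T, 0 < T ∧
      Real.log n ≤ κ * T ∧ g * T ≤ Real.log n ∧ ∀ ε', ε ≤ ε' → ε' ≤ 1 - ε →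
        (1 - η) * T ≤ tmix (jump μ n (k n)) (π n) ε' ∧
          tmix (jump μ n (k n)) (π n) ε' ≤ (1 + η) * T := fun η ε η0 η1 ε0 => by
    filter_upwards [h η ε η0 η1 ε0, hk, hπ, log_ev 1] with n a1 a2 a3 a4
    obtain ⟨T, b1, b2, b3, b4⟩ := a1 _ a2.1 a2.2 _ a3
    have T0 : 0 < T := (pos_iff_pos_of_mul_pos (zero_lt_one.trans_le (a4.trans b1))).1 κ0
    exact ⟨T, T0, b1, b2, fun ε' b5 b6 => ⟨le_tmix (by positivity) (b3.trans b5)
      fun s s0 hs => b6.trans_lt (b4 s s0 hs), tmix_le (by positivity) (b3.trans b5)⟩⟩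
  refine ⟨fun ε ε0 ε1 => ?_, 1 / (2 * κ), 2 / g, by positivity, by positivity, ?_⟩
  · have h2 : ∀ η : ℝ, 0 < η → η ≤ 1 / 2 → ∀ᶠ n : ℕ in atTop,
        1 - 2 * η ≤ tmix (jump μ n (k n)) (π n) ε / tmix (jump μ n (k n)) (π n) (1 - ε) ∧
        tmix (jump μ n (k n)) (π n) ε / tmix (jump μ n (k n)) (π n) (1 - ε) ≤ 1 + 4 * η := by
      intro η η0 η1
      filter_upwards [h1 η (min ε (1 - ε)) η0 (by linarith) (lt_min ε0 (by linarith))] with n hn
      obtain ⟨T, T0, -, -, a1⟩ := hn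
      obtain ⟨a2, a3⟩ := a1 ε (min_le_left _ _) (by linarith [min_le_right ε (1 - ε)])
      obtain ⟨a4, a5⟩ := a1 (1 - ε) (min_le_right _ _) (by linarith [min_le_left ε (1 - ε)])
      have a6 : 0 < tmix (jump μ n (k n)) (π n) (1 - ε) := (mul_pos (by linarith) T0).trans_le a4
      have a7 := mul_pos η0 T0
      rw [le_div_iff₀ a6, div_le_iff₀ a6]
      have a8 := mul_le_mul_of_nonneg_left a5 (show 0 ≤ 1 - 2 * η by linarith)
      have a9 := mul_le_mul_of_nonneg_left a4 (show 0 ≤ 1 + 4 * η by linarith)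
      exact ⟨by linarith [mul_pos η0 a7], by linarith [mul_le_mul_of_nonneg_right η1 a7.le]⟩
    refine tendsto_order.2 ⟨fun a ha => ?_, fun a ha => ?_⟩
    · filter_upwards [h2 (min ((1 - a) / 4) (1 / 2)) (lt_min (by linarith) (by norm_num))
        (min_le_right _ _)] with n hn
      linarith [hn.1, min_le_left ((1 - a) / 4) (1 / 2)]
    · filter_upwards [h2 (min ((a - 1) / 8) (1 / 2)) (lt_min (by linarith) (by norm_num))
        (min_le_right _ _)] with n hn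
      linarith [hn.2, min_le_left ((a - 1) / 8) (1 / 2)]
  · filter_upwards [h1 (1 / 2) (1 / 4) (by norm_num) (by norm_num) (by norm_num)] with n hn
    obtain ⟨T, T0, a1, a2, a3⟩ := hn
    obtain ⟨a4, a5⟩ := a3 (1 / 4) le_rfl (by norm_num)
    rw [← div_le_iff₀' κ0] at a1
    rw [← le_div_iff₀' g0] at a2
    exact ⟨by rw [show 1 / (2 * κ) * Real.log n = Real.log n / κ / 2 by field_simp]; linarith,
      by rw [show 2 / g * Real.log n = Real.log n / g * 2 by field_simp]; linarith⟩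

theorem fast_killed (hμ : IsProb μ) (hU : (uMat μ).IsIrreducible) (hd : 2 ≤ d) (c0 : 0 < c)
    (c1 : c ≤ 1) {w : List (Perm (Fin d))} (hw : ∀ σ ∈ w, μ σ ≠ 0)
    (h0 : ∀ y : Vec d, ∑ i, y i = 0 → AL (1 / 2) w y = 0) {a : ℝ} (a0 : 0 < a) :
    ∃ β, 0 < β ∧ ∀ᶠ n : ℕ in atTop, ∀ k : ℕ, c ≤ (k : ℝ) / n → (k : ℝ) / n ≤ 1 - c →
      |(k : ℝ) / n - 1 / 2| ≤ β → ∀ π, IsStationary (jump μ n k) π →
        dist (jump μ n k) π (4 * (a * Real.log n)) ≤ 1 / 4 := by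
  let i : Fin d := ⟨0, by omega⟩
  have d0 : (0 : ℝ) < d := by exact_mod_cast i.pos
  obtain ⟨g, g0, g1, hg⟩ := contract hμ hU i c0 c1
  let W : Submodule ℝ (Vec d) := LinearMap.ker (∑ i, LinearMap.proj i : _ →ₗ[ℝ] ℝ)
  have hW : ∀ v, v ∈ W ↔ ∑ i, v i = 0 := fun v => by simp [W]
  obtain ⟨β, β0, hβ⟩ := up_killed hμ (W := W) (κ := a⁻¹ + 1)
    (fun σ _ v hv => (hW _).2 ((Equiv.sum_comp σ.symm v).trans ((hW v).1 hv))) hw
    (fun y hy => h0 y ((hW y).1 hy)) (by positivity)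
  refine ⟨β, β0, ?_⟩
  have gi : 1 ≤ g⁻¹ := (one_le_inv₀ g0).2 g1
  have C0 : 0 ≤ 4 * g⁻¹ ^ 3 := by positivity
  have hD : ∀ n k : ℕ, 1 ≤ n → c ≤ (k : ℝ) / n → (k : ℝ) / n ≤ 1 - c →
      k ≤ n ∧ Drift μ n k (1 - g) (4 * g⁻¹ ^ 3) := fun n k n1 h hk => by
    have hi : (k : ℝ) / n ≤ 1 := by linarith
    have kn : k ≤ n := by exact_mod_cast (div_le_one (by exact_mod_cast n1)).1 hi
    refine ⟨kn, drift hμ kn psd_dot gi (fun z _ => ?_) (fun z => ?_) (fun z hz => ?_)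
      (by linarith) ?_⟩
    · rw [dot_self]; exact le_mul_of_one_le_left (N2_nonneg z) gi
    · rw [dot_self]; exact le_mul_of_one_le_left (N2_nonneg z) gi
    · simpa only [dot_self] using hg _ h hk z hz
    · rw [sub_sub_cancel, inv_mul_cancel₀ g0.ne']; exact hi
  generalize 4 * g⁻¹ ^ 3 = C at *
  obtain ⟨δ, δ0, δ1, δ2⟩ := exists_small (5 * (d + 1)) (1 / 4) (by norm_num)
  obtain ⟨L, L0, hL⟩ := exists_big (4 * d ^ 3 + 4 * C * d ^ 2) δ δ0
  obtain ⟨t, ρ, t0, ρ0, h1⟩ := small_err d C0 L0.le δ0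
  obtain ⟨m, hm⟩ := exists_pow_lt_of_lt_one ρ0 (show 1 - g < 1 by linarith)
  obtain ⟨m₀, hm₀⟩ := hβ δ δ0
  have L1 : 4 * C * d ^ 2 / L ^ 2 ≤ δ ∧ 4 * d ^ 3 ≤ L ^ 2 := by
    simp only [div_le_iff₀ (pow_pos L0 2)] at hL ⊢
    have := mul_nonneg C0 (sq_nonneg (d : ℝ))
    have := pow_pos d0 3
    have := mul_le_of_le_one_left (sq_nonneg L) δ1
    exact ⟨by linarith, by linarith⟩
  filter_upwards [h1, eventually_ge_atTop 1, log_ev (m₀ / a), log_ev ((2 * m + 2) / a),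
    log_ev (1 / δ / a)] with n h1 n1 l1 l2 l3 k h hk hθ π hπ
  obtain ⟨kn, hd'⟩ := hD n k n1 h hk
  have n0 : (0 : ℝ) < n := by exact_mod_cast n1
  rw [div_le_iff₀' a0] at l1 l2 l3
  have hT : Real.log n = a⁻¹ * (a * Real.log n) := by field_simp
  generalize a * Real.log n = T at *
  have T0 : 0 < T := lt_of_lt_of_le (by positivity) l2
  refine (dist_upper hμ kn hd' C0 (by linarith) (by linarith) i n1 hπ L0.le t0
    (p := d * (2 * δ)) (M := T) (by positivity) hm.le T0.le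
    (fun M hM x hx => (hd'.tail hμ C0 n1 i L0 (q := δ) (fun y b1 b2 => ?_) hx).trans
      (mul_le_mul_of_nonneg_left (by linarith [L1.1]) d0.le)) (by linarith)).trans ?_
  · refine le_trans (pow_le hμ (fun z => ?_) M y) (hm₀ _ (by linarith) (by linarith) hθ M
      (by exact_mod_cast l1.trans hM) y ((hW y).2 b1))
    have b3 : Real.exp ((-(a⁻¹ + 1) + δ) * M) ≤ (n : ℝ)⁻¹ := by
      rw [← Real.exp_log n0, ← Real.exp_neg, Real.exp_le_exp, hT]
      have b4 := mul_le_mul_of_nonneg_left hM (inv_pos.2 a0).le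
      have b5 := mul_le_mul_of_nonneg_right δ1 (T0.le.trans hM)
      linarith
    have b4 : Real.exp ((-(a⁻¹ + 1) + δ) * M) * N2 y ≤ L ^ 2 * n / (4 * d) := by
      refine (mul_le_mul b3 b2 (N2_nonneg y) (by positivity)).trans ?_
      rw [le_div_iff₀ (by positivity), show (n : ℝ)⁻¹ * (d ^ 2 * n ^ 2) * (4 * d) =
        4 * d ^ 3 * n by field_simp]
      exact mul_le_mul_of_nonneg_right L1.2 n0.le
    split_ifs with b5 b6
    · exact le_rfl
    · exact absurd (b4.trans_lt b5) b6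
    · exact zero_le_one
    · exact le_rfl
  · have b1 : 4 * T / (4 * T - (T + (2 * m + 2))) ^ 2 ≤ 4 * T / (2 * T) ^ 2 := by
      gcongr
      linarith
    have b2 : 4 * T / (2 * T) ^ 2 ≤ δ := by
      rw [div_le_iff₀ δ0] at l3
      rw [div_le_iff₀ (by positivity)]
      nlinarith
    linarith [mul_pos d0 δ0]

theorem cutoff_iff (hμ : IsProb μ) (hU : (uMat μ).IsIrreducible) (hd : 2 ≤ d) (c0 : 0 < c)
    {k : ℕ → ℕ} (hk : ∀ᶠ n : ℕ in atTop, c * n ≤ k n ∧ (k n : ℝ) ≤ (1 - c) * n)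
    {π : ∀ n, State d n → ℝ} (hπ : ∀ᶠ n in atTop, IsStationary (jump μ n (k n)) (π n)) :
    ((∀ ε : ℝ, 0 < ε → ε < 1 → Tendsto (fun n : ℕ => tmix (jump μ n (k n)) (π n) ε /
      tmix (jump μ n (k n)) (π n) (1 - ε)) atTop (nhds 1)) ∧
    ∃ a b : ℝ, 0 < a ∧ 0 < b ∧ ∀ᶠ n : ℕ in atTop,
      a * Real.log n ≤ tmix (jump μ n (k n)) (π n) (1 / 4) ∧
        tmix (jump μ n (k n)) (π n) (1 / 4) ≤ b * Real.log n) ↔
    (∃ c' : ℝ, 0 < c' ∧ ∀ᶠ n : ℕ in atTop, c' * n ≤ |2 * (k n : ℝ) - n|) ∨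
      ¬ ∃ w : List (Perm (Fin d)), (∀ σ ∈ w, μ σ ≠ 0) ∧
        ∀ y : Vec d, ∑ i, y i = 0 → AL (1 / 2) w y = 0 := by
  constructor
  · rintro ⟨-, a, b, a0, -, h⟩
    refine or_iff_not_imp_right.2 fun h0 => ?_
    obtain ⟨w, hw, h0⟩ := not_not.1 h0
    have hk' : ∀ᶠ n : ℕ in atTop, c ≤ (k n : ℝ) / n ∧ (k n : ℝ) / n ≤ 1 - c := by
      filter_upwards [hk, eventually_gt_atTop 0] with n a1 a2
      have n0 : (0 : ℝ) < n := by exact_mod_cast a2
      exact ⟨(le_div_iff₀ n0).2 a1.1, (div_le_iff₀ n0).2 a1.2⟩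
    obtain ⟨β, β0, h1⟩ := fast_killed hμ hU hd c0
      (by linarith [hk'.exists.choose_spec.1, hk'.exists.choose_spec.2]) hw h0
      (show 0 < a / 8 by positivity)
    refine ⟨2 * β, by positivity, ?_⟩
    filter_upwards [h, h1, hk', hπ, log_ev 1, eventually_gt_atTop 0] with n a1 a2 a3 a4 a5 a6
    have n0 : (0 : ℝ) < n := by exact_mod_cast a6
    refine not_lt.1 fun a7 => ?_
    have a8 := mul_pos a0 (zero_lt_one.trans_le a5)
    have a9 := tmix_le (by linarith) (a2 _ a3.1 a3.2 (by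
      rw [show (k n : ℝ) / n - 1 / 2 = (2 * k n - n) / (2 * n) by field_simp, abs_div,
        abs_of_pos (show (0 : ℝ) < 2 * n by positivity), div_le_iff₀ (by positivity)]
      linarith) _ a4)
    linarith [a1.1]
  · rintro (⟨c', c1, h⟩ | h)
    · obtain ⟨κ, h1⟩ := good_ev (μ := μ) (c := min c c') (k := k) (lt_min c0 c1) (hk.mono fun n hn => by
        have := mul_le_mul_of_nonneg_right (min_le_left c c') (Nat.cast_nonneg (α := ℝ) n)
        exact ⟨by linarith [hn.1], by linarith [hn.2]⟩) (Or.inl (h.mono fun n hn =>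
          (mul_le_mul_of_nonneg_right (min_le_right c c') (Nat.cast_nonneg n)).trans hn))
      exact cutoff_good hμ hU hd (lt_min c0 c1) h1 hπ
    · exact cutoff_all hμ hU hd c0 (fun w hw h0 => h ⟨w, hw, h0⟩) hk hπ

theorem fold_eq : (fun (z : Fin d → ℝ) (σ : Perm (Fin d)) => fun i => (z i + z (σ.symm i)) / 2) =
    fun z σ => Av (1 / 2) σ z := by
  funext z σ i
  simp only [Av, Bv, Pv, Pi.add_apply, Pi.smul_apply, Pi.sub_apply, smul_eq_mul]
  ring

end Pool.Agent.P.MP_1e2081_pr
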