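import Pool.Agent.P.MP_1e2081_pr.Irr

/-!
Block estimates for the logarithm of the norm along the random product.
-/

set_option autoImplicit false

namespace Pool.Agent.P.MP_1e2081_pr

open Finset Equiv

variable {d : ℕ} {μ : Perm (Fin d) → ℝ} {W : Submodule ℝ (Vec d)} {c κ θ : ℝ}

theorem N2_Av (θ : ℝ) (σ : Perm (Fin d)) (y : Vec d) :
    N2 (Av θ σ y) = N2 y - θ * (1 - θ) * N2 (Bv σ y) := by
  have h1 := psd_dot.expand y (Bv σ y) θ
  have h2 := psd_dot.expand y (Bv σ y) 1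
  rw [one_smul, show y + Bv σ y = Pv σ y by simp [Bv], dot_self, dot_self, dot_self, N2_Pv] at h2
  rw [dot_self, dot_self, dot_self] at h1
  rw [Av, h1]
  linear_combination (-θ) * h2

/-- The Markov operator of the mean evolution. -/
noncomputable abbrev KY (μ : Perm (Fin d) → ℝ) (θ : ℝ) : Module.End ℝ (Vec d → ℝ) :=
  op μ (stY Unit θ)

theorem opY_eq (T : Type) [Fintype T] [Nonempty T] : op μ (stY T θ) = KY μ θ :=
  LinearMap.ext fun F => funext fun y => (opY F y).trans (opY F y).symm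

/-- Uniform invertibility of the steps. -/
structure Good (μ : Perm (Fin d) → ℝ) (c κ θ : ℝ) : Prop where
  pos : 0 < c
  lo : c ≤ θ
  hi : θ ≤ 1
  one : 1 ≤ κ
  inv : ∀ σ, μ σ ≠ 0 → ∀ y, N2 y ≤ Real.exp κ * N2 (Av θ σ y)

/-- Logarithm of the squared norm. -/
noncomputable def lg (y : Vec d) : ℝ := Real.log (N2 y)

theorem Good.le (h : Good μ c κ θ) (σ : Perm (Fin d)) (y : Vec d) : N2 (Av θ σ y) ≤ N2 y := by
  rw [N2_Av]
  exact sub_le_self _ (mul_nonneg (mul_nonneg (h.pos.le.trans h.lo) (sub_nonneg.2 h.hi))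
    (N2_nonneg _))

theorem Good.step (h : Good μ c κ θ) {σ : Perm (Fin d)} (hσ : μ σ ≠ 0) {y : Vec d}
    (hy : 0 < N2 y) : 0 < N2 (Av θ σ y) ∧ lg y - κ ≤ lg (Av θ σ y) ∧ lg (Av θ σ y) ≤ lg y := by
  have h1 := h.inv σ hσ y
  have h2 : 0 < N2 (Av θ σ y) := (pos_iff_pos_of_mul_pos (hy.trans_le h1)).1 (Real.exp_pos κ)
  have h3 := Real.log_le_log hy h1
  rw [Real.log_mul (Real.exp_pos κ).ne' h2.ne', Real.log_exp] at h3
  exact ⟨h2, by unfold lg; linarith, Real.log_le_log h2 (h.le σ y)⟩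

theorem Good.range (h : Good μ c κ θ) (hμ : IsProb μ) (hW : Inv μ W) {F F' : Vec d → ℝ} (b : ℕ)
    {y : Vec d} (h1 : y ∈ W) (h2 : 0 < N2 y)
    (hF : ∀ z ∈ W, 0 < N2 z → lg y - κ * b ≤ lg z → lg z ≤ lg y → F z ≤ F' z) :
    (KY μ θ ^ b) F y ≤ (KY μ θ ^ b) F' y := by
  induction b generalizing y with
  | zero => exact hF y h1 h2 (by simp) le_rfl
  | succ b ih =>
    rw [pow_succ_apply, pow_succ_apply]
    refine op_le hμ fun σ _ hσ => ?_
    obtain ⟨a1, a2, a3⟩ := h.step hσ h2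
    refine ih (y := Av θ σ y) (hW.Av hσ θ h1) a1 fun z a4 a5 a6 a7 => hF z a4 a5 ?_ (a7.trans a3)
    push_cast
    linarith

theorem Good.expo (h : Good μ c κ θ) (hμ : IsProb μ) (hW : Inv μ W) {s γ : ℝ} {b : ℕ}
    (b0 : 0 < b) (hs : |s| * κ * b ≤ 1) (hγ : |γ| ≤ κ)
    (hg : ∀ y ∈ W, 0 < N2 y → s * ((KY μ θ ^ b) lg y - lg y) ≤ s * γ * b) (t : ℕ) {y : Vec d}
    (h1 : y ∈ W) (h2 : 0 < N2 y) : (KY μ θ ^ t) (fun z => Real.exp (s * lg z)) y ≤
      Real.exp (s * lg y + s * γ * t + s ^ 2 * κ ^ 2 * b * t + 2) := by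
  have κ0 : 0 ≤ κ := zero_le_one.trans h.one
  have a1 : ∀ (j : ℕ) (y z : Vec d), lg y - κ * j ≤ lg z → lg z ≤ lg y →
      |s * (lg z - lg y)| ≤ |s| * κ * j := fun j y z a1 a2 => by
    rw [abs_mul, mul_assoc]
    exact mul_le_mul_of_nonneg_left (abs_le.2 ⟨by linarith, by
      linarith [mul_nonneg κ0 (Nat.cast_nonneg (α := ℝ) j)]⟩) (abs_nonneg s)
  have a2 : ∀ y, y ∈ W ∧ 0 < N2 y → (KY μ θ ^ b) (fun z => Real.exp (s * lg z)) y ≤
      Real.exp (s * γ * b + s ^ 2 * κ ^ 2 * b ^ 2) * Real.exp (s * lg y) := by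
    rintro y ⟨h1, h2⟩
    have a3 := h.range hμ hW (F := fun z => Real.exp (s * lg z)) (F' := fun z =>
      Real.exp (s * lg y) * s * lg z + Real.exp (s * lg y) * (1 - s * lg y + s ^ 2 * κ ^ 2 * b ^ 2))
      b h1 h2 fun z _ _ a3 a4 => by
        have a5 := a1 b y z a3 a4
        have a6 := (abs_le.1 (Real.abs_exp_sub_one_sub_id_le (a5.trans hs))).2
        have a7 := pow_le_pow_left₀ (abs_nonneg _) a5 2
        rw [sq_abs, mul_pow _ (b : ℝ), mul_pow _ κ, sq_abs] at a7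
        rw [show s * lg z = s * lg y + s * (lg z - lg y) by ring, Real.exp_add]
        linarith [mul_le_mul_of_nonneg_left (show Real.exp (s * (lg z - lg y)) ≤
          1 + s * (lg z - lg y) + s ^ 2 * κ ^ 2 * b ^ 2 by linarith) (Real.exp_pos (s * lg y)).le]
    rw [pow_add_apply, pow_mul_apply, pow_const hμ] at a3
    have a4 := mul_le_mul_of_nonneg_left (hg y h1 h2) (Real.exp_pos (s * lg y)).le
    have a5 := mul_le_mul_of_nonneg_left (Real.add_one_le_exp (s * γ * b + s ^ 2 * κ ^ 2 * b ^ 2))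
      (Real.exp_pos (s * lg y)).le
    linarith
  have hI : ∀ σ (τ : Unit) y, μ σ ≠ 0 → y ∈ W ∧ 0 < N2 y →
      stY Unit θ σ τ y ∈ W ∧ 0 < N2 (stY Unit θ σ τ y) := fun σ _ y hσ hy =>
    ⟨hW.Av hσ θ hy.1, (h.step hσ hy.2).1⟩
  have a3 : ∀ (j N : ℕ) y, y ∈ W ∧ 0 < N2 y →
      (KY μ θ ^ (b * N + j)) (fun z => Real.exp (s * lg z)) y ≤
      Real.exp (N * (s * γ * b + s ^ 2 * κ ^ 2 * b ^ 2) + |s| * κ * j) * Real.exp (s * lg y) := by
    intro j N
    induction N with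
    | zero =>
      rintro y ⟨h1, h2⟩
      rw [mul_zero, zero_add, ← Real.exp_add]
      refine (h.range hμ hW j h1 h2 fun z _ _ a3 a4 => Real.exp_le_exp.2 ?_).trans_eq
        (pow_const hμ _ j y)
      have := (abs_le.1 (a1 j y z a3 a4)).2
      push_cast
      linarith
    | succ N ih =>
      intro y hy
      rw [show b * (N + 1) + j = b + (b * N + j) by ring, pow_add, Module.End.mul_apply]
      refine (pow_le_on hμ hI ih b hy).trans ?_
      rw [pow_mul_apply]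
      refine (mul_le_mul_of_nonneg_left (a2 y hy) (Real.exp_pos _).le).trans_eq ?_
      rw [← mul_assoc, ← Real.exp_add]
      push_cast
      ring_nf
  have a4 := a3 (t % b) (t / b) y ⟨h1, h2⟩
  rw [Nat.div_add_mod, ← Real.exp_add] at a4
  refine a4.trans (Real.exp_le_exp.2 ?_)
  have a5 : (t : ℝ) = b * (t / b : ℕ) + (t % b : ℕ) := by exact_mod_cast (Nat.div_add_mod t b).symm
  have a6 : ((t % b : ℕ) : ℝ) ≤ b := by exact_mod_cast (Nat.mod_lt t b0).le
  have a7 : (0 : ℝ) ≤ (t % b : ℕ) := Nat.cast_nonneg _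
  generalize ((t % b : ℕ) : ℝ) = j at *
  generalize ((t / b : ℕ) : ℝ) = N at *
  have a8 : |s| * κ * j ≤ 1 := (mul_le_mul_of_nonneg_left a6 (by positivity)).trans hs
  have a9 : -(s * γ) ≤ |s| * κ := (neg_le_abs _).trans (by rw [abs_mul]; gcongr)
  have a10 := mul_le_mul_of_nonneg_right a9 a7
  have a11 : 0 ≤ s ^ 2 * κ ^ 2 * b * j := by positivity
  rw [a5]
  linarith

theorem Good.tail (h : Good μ c κ θ) (hμ : IsProb μ) (hW : Inv μ W) {ς γ ε : ℝ} {b : ℕ}
    (b0 : 0 < b) (hς : |ς| = 1) (ε0 : 0 < ε) (ε1 : ε ≤ 1) (hγ : |γ| ≤ κ)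
    (hg : ∀ y ∈ W, 0 < N2 y → ς * ((KY μ θ ^ b) lg y - lg y) ≤ ς * γ * b) (t : ℕ) {y : Vec d}
    (h1 : y ∈ W) (h2 : 0 < N2 y) :
    (KY μ θ ^ t) (fun z => if ε * t ≤ ς * (lg z - lg y - γ * t) then 1 else 0) y ≤
      Real.exp (2 - ε ^ 2 / (4 * κ ^ 2 * b) * t) := by
  have κ0 : 0 < κ := zero_lt_one.trans_le h.one
  have b1 : (0 : ℝ) < b := by exact_mod_cast b0
  set a := ε / (2 * κ ^ 2 * b) with ha
  have a0 : 0 < a := by positivity
  have a1 := h.expo hμ hW (s := a * ς) b0 (by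
      rw [abs_mul, hς, mul_one, abs_of_pos a0, show a * κ * b = ε / (2 * κ) by
        rw [ha]; field_simp, div_le_one (by positivity)]
      linarith [h.one]) hγ
    (fun y a1 a2 => by linarith [mul_le_mul_of_nonneg_left (hg y a1 a2) a0.le]) t h1 h2
  refine (pow_le hμ (F' := fun z => Real.exp (-(a * (ε * t + ς * lg y + ς * γ * t))) *
    Real.exp (a * ς * lg z)) (fun z => ?_) t y).trans ?_
  · split_ifs with a2
    · rw [← Real.exp_add]
      exact Real.one_le_exp (by linarith [mul_le_mul_of_nonneg_left a2 a0.le])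
    · positivity
  · rw [pow_mul_apply]
    refine (mul_le_mul_of_nonneg_left a1 (Real.exp_pos _).le).trans_eq ?_
    rw [← Real.exp_add, mul_pow a, ← sq_abs ς, hς, ha]
    congr 1
    field_simp
    ring

/-- One step of the random product of linear maps. -/
def stM (θ : ℝ) (σ : Perm (Fin d)) (_ : Unit) (M : Vec d →ₗ[ℝ] Vec d) : Vec d →ₗ[ℝ] Vec d :=
  M + θ • ((LinearMap.funLeft ℝ ℝ σ.symm).comp M - M)

theorem pow_lin (F : Vec d → ℝ) (m : ℕ) (y : Vec d) :
    (op μ (stM θ) ^ m) (fun M => F (M y)) LinearMap.id = (KY μ θ ^ m) F y :=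
  pow_comp (φ := fun M : Vec d →ₗ[ℝ] Vec d => M y) (fun _ _ _ => rfl) F m LinearMap.id

theorem Good.mono (h : Good μ c κ θ) (hμ : IsProb μ) (a : ℝ) (j : ℕ) (y : Vec d) :
    (KY μ θ ^ j) (fun z => if a ≤ N2 z then 1 else 0) y ≤ if a ≤ N2 y then 1 else 0 := by
  refine (pow_le_on hμ (I := fun z => N2 z ≤ N2 y) (fun σ _ z _ hz => (h.le σ z).trans hz)
    (fun z hz => ?_) j le_rfl).trans_eq (pow_const hμ _ j y)
  split_ifs with a1 a2
  · exact le_rfl
  · exact absurd (a1.trans hz) a2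
  · exact zero_le_one
  · exact le_rfl

theorem Good.fast (hμ : IsProb μ) (hW : Inv μ W) (hi : Irr μ W) (c0 : 0 < c) (κ : ℝ) :
    ∃ C D, 0 ≤ D ∧ ∀ θ, Good μ c κ θ → ∀ (β ε δ p : ℝ) (m : ℕ), -κ ≤ β → β ≤ 0 → 0 ≤ ε → 0 < δ →
      ∀ x ∈ W, 0 < N2 x → (KY μ θ ^ m) lg x - lg x ≤ (β + ε) * m + 1 →
      (KY μ θ ^ m) (fun z => if ε * m ≤ -1 * (lg z - lg x - β * m) then 1 else 0) x ≤ p →
      ∀ y ∈ W, 0 < N2 y →
        (KY μ θ ^ m) lg y - lg y ≤ C + (β + δ) * m + D / δ * (2 * ε * m + 1 + κ * m * p) := by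
  classical
  obtain ⟨L, hL⟩ := spanning hW hi
  obtain ⟨m₁, m0, hm⟩ := exists_gap univ μ
  have m0' : 0 < min m₁ 1 := lt_min m0 one_pos
  let A := (List.finite_length_le (Perm (Fin d)) L).toFinset.filter fun l => ∀ σ ∈ l, μ σ ≠ 0
  refine ⟨|Real.log (d.factorial * (4 / c ^ 2) ^ L)|, |κ| * A.card / min m₁ 1 ^ L, by positivity,
    fun θ h β ε δ p m β0 β1 ε0 δ0 x hx x0 h1 h2 y hy y0 => ?_⟩
  have κ0 : 0 < κ := zero_lt_one.trans_le h.one
  have θ0 : 0 < θ := c0.trans_le h.lo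
  have mm : (0 : ℝ) ≤ m := Nat.cast_nonneg m
  set a := N2 x * Real.exp ((β + δ) * m) with ha
  have a0 : 0 < a := by positivity
  have a1 : δ * m * (KY μ θ ^ m) (fun z => if a ≤ N2 z then 1 else 0) x ≤
      2 * ε * m + 1 + κ * m * p := by
    have a2 := h.range hμ hW (F := fun z => δ * m * if a ≤ N2 z then 1 else 0) (F' := fun z =>
      lg z + (-lg x - (β - ε) * m) + κ * m * if ε * m ≤ -1 * (lg z - lg x - β * m) then 1 else 0)
      m hx x0 fun z _ z0 a2 a3 => by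
        have a4 := mul_nonneg ε0 mm
        have a5 := mul_nonneg κ0.le mm
        have a6 := mul_le_mul_of_nonneg_right β1 mm
        have a7 : a ≤ N2 z → lg x + (β + δ) * m ≤ lg z := fun a7 => by
          have := Real.log_le_log a0 a7
          rwa [ha, Real.log_mul x0.ne' (Real.exp_pos _).ne', Real.log_exp] at this
        split_ifs with b1 b2 b2
        · linarith [a7 b1]
        · linarith [a7 b1]
        · linarith
        · linarith
    rw [pow_mul_apply, pow_add_apply, pow_add_apply, pow_mul_apply, pow_const hμ] at a2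
    linarith [mul_le_mul_of_nonneg_left h2 (mul_nonneg κ0.le mm)]
  have a2 : ∀ l ∈ A, min m₁ 1 ^ L * (KY μ θ ^ m) (fun z => if a ≤ N2 z then 1 else 0) (AL θ l x) ≤
      (KY μ θ ^ m) (fun z => if a ≤ N2 z then 1 else 0) x := fun l hl => by
    obtain ⟨b1, b2⟩ := mem_filter.1 hl
    have b3 : ∀ z, 0 ≤ (KY μ θ ^ m) (fun z => if a ≤ N2 z then 1 else 0) z :=
      pow_nonneg' hμ (fun z => by split_ifs <;> norm_num) m
    have b4 := word_le (T := Unit) (θ := θ) hμ m0'.le b3 l (fun σ hσ => (min_le_left _ _).trans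
      (hm σ (mem_univ σ) ((hμ.1 σ).lt_of_ne' (b2 σ hσ)))) x
    rw [← Module.End.mul_apply, ← pow_add, add_comm, pow_add, Module.End.mul_apply] at b4
    refine le_trans (mul_le_mul_of_nonneg_right (pow_le_pow_of_le_one m0'.le (min_le_right _ _)
      (by simpa using b1)) (b3 _)) (b4.trans (pow_le hμ (h.mono hμ a _) m x))
  have a3 := pow_le_on hμ (st := stM θ) (I := fun M => 0 < N2 (M y) ∧ N2 (M y) ≤ N2 y)
    (fun σ _ M hσ hM => ⟨(h.step hσ hM.1).1, (h.le σ _).trans hM.2⟩) (F := fun M => lg (M y))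
    (F' := fun M => (lg y + |Real.log (d.factorial * (4 / c ^ 2) ^ L)| + (β + δ) * m) +
      κ * m * ∑ l ∈ A, if a ≤ N2 (M (AL θ l x)) then 1 else 0) (fun M hM => by
      have b0 := le_abs_self (Real.log (d.factorial * (4 / c ^ 2) ^ L))
      have b1 : ∀ l ∈ A, 0 ≤ if a ≤ N2 (M (AL θ l x)) then (1 : ℝ) else 0 := fun l _ => by
        split_ifs <;> norm_num
      by_cases b2 : ∃ l ∈ A, a ≤ N2 (M (AL θ l x))
      · obtain ⟨l, b2, b3⟩ := b2
        have b4 := single_le_sum b1 b2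
        rw [if_pos b3] at b4
        have b5 : lg (M y) ≤ lg y := Real.log_le_log hM.1 hM.2
        linarith [mul_le_mul_of_nonneg_left b4 (mul_nonneg κ0.le mm), abs_nonneg (Real.log
          (d.factorial * (4 / c ^ 2) ^ L)), mul_le_mul_of_nonneg_right β0 mm, mul_nonneg δ0.le mm]
      · push Not at b2
        have p : PSD (dot.compl₁₂ M M) := ⟨fun _ _ => psd_dot.symm _ _, fun _ => psd_dot.nonneg _⟩
        have b3 := hL _ p x hx y hy ((4 / c ^ 2) ^ L * a) fun l b3 b4 =>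
          (PL_bound p θ0 h.hi l b3 x (M := a) fun l' b5 b6 => (dot_self _).trans_le
            (b2 l' (mem_filter.2 ⟨by simpa using b6.trans b4, b5⟩)).le).trans (by
              have b5 : 1 ≤ 4 / c ^ 2 := by
                rw [le_div_iff₀ (by positivity)]; nlinarith [h.lo.trans h.hi]
              refine mul_le_mul_of_nonneg_right ((pow_le_pow_left₀ (by positivity) ?_ _).trans
                (pow_le_pow_right₀ b5 b4)) a0.le
              gcongr
              exact h.lo)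
        have b4 : N2 (M y) ≤ d.factorial * (4 / c ^ 2) ^ L * Real.exp ((β + δ) * m) * N2 y := by
          refine le_of_mul_le_mul_right ?_ x0
          rw [← dot_self (M y)]
          exact b3.trans_eq (by rw [ha]; ring)
        have b5 := Real.log_le_log hM.1 b4
        rw [Real.log_mul (by positivity) y0.ne', Real.log_mul (by positivity) (Real.exp_pos _).ne',
          Real.log_exp] at b5
        have b6 := mul_nonneg (mul_nonneg κ0.le mm) (sum_nonneg b1)
        unfold lg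
        linarith) m (s := LinearMap.id) ⟨y0, le_rfl⟩
  rw [pow_add_apply, pow_const hμ, pow_mul_apply, pow_sum_apply, pow_lin lg] at a3
  simp only [pow_lin fun z => if a ≤ N2 z then (1 : ℝ) else 0] at a3
  have a4 := sum_le_sum a2
  rw [← mul_sum, sum_const, nsmul_eq_mul] at a4
  generalize ∑ l ∈ A, (KY μ θ ^ m) (fun z => if a ≤ N2 z then (1 : ℝ) else 0) (AL θ l x) = Z at *
  generalize (KY μ θ ^ m) (fun z => if a ≤ N2 z then (1 : ℝ) else 0) x = P at *
  have a5 : κ * m * Z ≤ |κ| * A.card / min m₁ 1 ^ L / δ * (δ * m * P) := by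
    rw [abs_of_pos κ0, show κ * A.card / min m₁ 1 ^ L / δ * (δ * m * P) =
      κ * m * (A.card * P / min m₁ 1 ^ L) by field_simp]
    refine mul_le_mul_of_nonneg_left ?_ (by positivity)
    rw [le_div_iff₀ (by positivity)]
    linarith
  have a6 := mul_le_mul_of_nonneg_left a1 (show 0 ≤ |κ| * A.card / min m₁ 1 ^ L / δ by positivity)
  linarith

end Pool.Agent.P.MP_1e2081_pr
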