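import Pool.Agent.P.MP_1e2081_pr.Arith

/-!
Return to a cone around the image of a word of minimal rank, and the resulting moment bound.
-/

set_option autoImplicit false

namespace Pool.Agent.P.MP_1e2081_pr

open Finset Equiv

variable {d : ℕ} {μ : Perm (Fin d) → ℝ} {W : Submodule ℝ (Vec d)} {θ : ℝ}

theorem N2_le_norm (y : Vec d) : N2 y ≤ d * ‖y‖ ^ 2 := by
  refine (sum_le_card_nsmul _ _ (‖y‖ ^ 2) fun i _ => ?_).trans_eq (by simp)
  rw [← sq_abs]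
  exact pow_le_pow_left₀ (abs_nonneg _) (norm_le_pi_norm y i) 2

theorem norm_le_N2 (y : Vec d) : ‖y‖ ^ 2 ≤ N2 y := by
  rw [← Real.sq_sqrt (N2_nonneg y)]
  exact pow_le_pow_left₀ (norm_nonneg _) ((pi_norm_le_iff_of_nonneg (Real.sqrt_nonneg _)).2
    fun i => Real.abs_le_sqrt (sq_le_N2 y i)) 2

theorem AL_sub (θ0 : 0 ≤ θ) (θ1 : θ ≤ 1) (l : List (Perm (Fin d))) (y y' : Vec d) :
    ‖AL θ l y - AL (1 / 2) l y'‖ ≤ ‖y - y'‖ + 2 * l.length * |θ - 1 / 2| * ‖y‖ := by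
  induction l generalizing y y' with
  | nil => simp [AL]
  | cons σ l ih =>
    refine (ih (Av θ σ y) (Av (1 / 2) σ y')).trans ?_
    have h1 : Av θ σ y - Av (1 / 2) σ y' =
        Av (1 / 2) σ (y - y') + (θ - 1 / 2) • (Av 1 σ y - y) := by
      funext i
      simp only [Av, Bv, Pv, Pi.add_apply, Pi.smul_apply, Pi.sub_apply, smul_eq_mul]
      ring
    have h2 := norm_add_le (Av (1 / 2) σ (y - y')) ((θ - 1 / 2) • (Av 1 σ y - y))
    rw [← h1, norm_smul, Real.norm_eq_abs] at h2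
    have h3 := Av_norm (θ := 1 / 2) (by norm_num) (by norm_num) σ (y - y')
    have h4 := mul_le_mul_of_nonneg_left ((norm_sub_le (Av 1 σ y) y).trans
      (add_le_add (Av_norm zero_le_one le_rfl σ y) le_rfl)) (abs_nonneg (θ - 1 / 2))
    have h5 := mul_le_mul_of_nonneg_left (Av_norm θ0 θ1 σ y)
      (show 0 ≤ 2 * l.length * |θ - 1 / 2| by positivity)
    rw [List.length_cons]
    push_cast
    linarith

theorem Inv.AL (h : Inv μ W) (θ : ℝ) {l : List (Perm (Fin d))} (hl : ∀ σ ∈ l, μ σ ≠ 0) {y : Vec d}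
    (hy : y ∈ W) : AL θ l y ∈ W := by
  induction l generalizing y with
  | nil => exact hy
  | cons σ l ih =>
    exact ih (fun τ hτ => hl τ (List.mem_cons_of_mem _ hτ)) (h.Av (hl σ List.mem_cons_self) θ hy)

theorem far_le (θ0 : 0 ≤ θ) (θ1 : θ ≤ 1) (σ : Perm (Fin d)) (y : Vec d) :
    4 * |θ - 1 / 2| ^ 2 * N2 y ≤ N2 (Av θ σ y) := by
  have a1 := N2_sub (Pv σ y) y
  rw [N2_Pv] at a1
  rw [N2_Av, Bv, sq_abs]
  linarith [mul_le_mul_of_nonneg_left a1 (mul_nonneg θ0 (sub_nonneg.2 θ1))]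

theorem exists_return (hW : Inv μ W) (hi : Irr μ W) {w : List (Perm (Fin d))} {x : Vec d}
    (hx : x ∈ W) (h0 : AL (1 / 2) w x ≠ 0) : ∃ (L : ℕ) (c : ℝ), 0 < c ∧ ∀ y ∈ W,
      ∃ B : List (Perm (Fin d)), (∀ σ ∈ B, μ σ ≠ 0) ∧ B.length ≤ L ∧
        c * ‖y‖ ≤ ‖AL (1 / 2) w (AL (1 / 2) B y)‖ := by
  obtain ⟨L, hL⟩ := spanning hW hi
  have a0 := N2_pos h0
  have x0 := N2_nonneg x
  obtain ⟨c, c0, c1, c2⟩ := exists_small (d.factorial * (4 / (1 / 2) ^ 2) ^ L * d * N2 x)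
    (N2 (AL (1 / 2) w x) / 2) (by positivity)
  refine ⟨L, c, c0, fun y hy => by_contra fun h => ?_⟩
  push Not at h
  have y0 : 0 < N2 y := N2_pos fun e => by
    have := (norm_nonneg _).trans_lt (h [] (by simp) (Nat.zero_le _))
    simp [e] at this
  have p : PSD (dot.compl₁₂ (ALl (1 / 2) w) (ALl (1 / 2) w)) :=
    ⟨fun _ _ => psd_dot.symm _ _, fun _ => psd_dot.nonneg _⟩
  have b3 := hL _ p y hy x hx ((4 / (1 / 2) ^ 2) ^ L * (d * (c * N2 y))) fun l b3 b4 =>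
    (PL_bound p (show (0 : ℝ) < 1 / 2 by norm_num) (by norm_num) l b3 y (M := d * (c * N2 y))
      fun l' b5 b6 => (dot_self _).trans_le (by
        rw [ALl_apply]
        refine (N2_le_norm _).trans (mul_le_mul_of_nonneg_left ?_ (Nat.cast_nonneg d))
        refine (pow_le_pow_left₀ (norm_nonneg _) (h l' b5 (b6.trans b4)).le 2).trans ?_
        rw [mul_pow]
        exact mul_le_mul (by nlinarith) (norm_le_N2 y) (by positivity) c0.le)).trans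
      (mul_le_mul_of_nonneg_right (pow_le_pow_right₀ (by norm_num) b4) (by positivity))
  have b4 : (dot.compl₁₂ (ALl (1 / 2) w) (ALl (1 / 2) w)) x x = N2 (AL (1 / 2) w x) := by
    rw [← ALl_apply]; exact dot_self _
  rw [b4] at b3
  nlinarith [mul_le_mul_of_nonneg_right c2 y0.le, mul_pos a0 y0]

theorem safe_of_cone (hμ : IsProb μ) (hW : Inv μ W) (θ0 : 0 ≤ θ) (θ1 : θ ≤ 1) {Cn : Vec d → Prop}
    {L : ℕ} {C m : ℝ} (m0 : 0 < m) (m1 : m ≤ 1) (hm : ∀ σ, μ σ ≠ 0 → m ≤ μ σ) (C1 : 1 ≤ C)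
    (h1 : ∀ z, Cn z → z ∈ W ∧ z ≠ 0)
    (h2 : ∀ y ∈ W, y ≠ 0 → ∃ B : List (Perm (Fin d)), (∀ σ ∈ B, μ σ ≠ 0) ∧ B.length ≤ L ∧
      Cn (AL θ B y))
    (h3 : ∀ z, Cn z → ∀ B : List (Perm (Fin d)), (∀ σ ∈ B, μ σ ≠ 0) → ∀ σ, μ σ ≠ 0 →
      N2 (AL θ B z) ≤ Real.exp (C * (B.length + 1)) * N2 (Av θ σ (AL θ B z)))
    {x : Vec d} (hx : x ∈ W) (x0 : x ≠ 0) :
    Safe μ W ((2 * C ^ 2 / (m / 2) ^ L) ^ 2 + 2 * C ^ 2 / (m / 2) ^ L + C ^ 2) θ := by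
  let SA : Vec d → Set ℕ := fun y => {a | ∃ (z : Vec d) (B : List (Perm (Fin d))), Cn z ∧
    (∀ σ ∈ B, μ σ ≠ 0) ∧ B.length = a ∧ y = AL θ B z}
  let SR : Vec d → Set ℕ := fun y => {j | ∃ B : List (Perm (Fin d)), (∀ σ ∈ B, μ σ ≠ 0) ∧
    B.length = j ∧ Cn (AL θ B y)}
  set Γ := 2 * C ^ 2 / (m / 2) ^ L with hΓ
  have Γ0 : 0 ≤ Γ := by positivity
  have q0 : 0 < m / 2 := by positivity
  have q1 : ∀ j : ℕ, (m / 2) ^ j ≤ 1 := fun j => pow_le_one₀ q0.le (by linarith)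
  have a0 : ∀ z, Cn z → sInf (SA z) = 0 := fun z hz =>
    Nat.le_zero.1 (Nat.sInf_le ⟨z, [], hz, by simp, rfl, rfl⟩)
  obtain ⟨B₀, -, -, b0⟩ := h2 x hx x0
  refine ⟨fun y => 0 < N2 y ∧ (SA y).Nonempty,
    fun y => Γ * (1 - (m / 2) ^ sInf (SR y)) * (sInf (SA y) : ℕ) ^ 2, AL θ B₀ x,
    ⟨N2_pos (h1 _ b0).2, 0, _, [], b0, by simp, rfl, rfl⟩, by simp [a0 _ b0], fun y hy => ?_⟩
  obtain ⟨z, B, b1, b2, b3, b4⟩ := Nat.sInf_mem hy.2
  have y1 : y ∈ W := b4 ▸ hW.AL θ b2 (h1 z b1).1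
  have y0 : y ≠ 0 := fun e => by
    have := hy.1
    rw [e, N2_zero] at this
    exact lt_irrefl _ this
  have b5 : ∀ σ, μ σ ≠ 0 → sInf (SA y) + 1 ∈ SA (Av θ σ y) := fun σ hσ =>
    ⟨z, B ++ [σ], b1, List.forall_mem_append.2 ⟨b2, by simpa using hσ⟩, by simp [b3],
      by rw [AL_append, ← b4]; rfl⟩
  have b6 : ∀ σ, μ σ ≠ 0 → N2 y ≤ Real.exp (C * ((sInf (SA y) : ℕ) + 1)) * N2 (Av θ σ y) :=
    fun σ hσ => by
      have := h3 z b1 B b2 σ hσ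
      rwa [← b4, b3] at this
  have b7 : ∀ σ, μ σ ≠ 0 → 0 < N2 (Av θ σ y) := fun σ hσ =>
    (pos_iff_pos_of_mul_pos (hy.1.trans_le (b6 σ hσ))).1 (Real.exp_pos _)
  refine ⟨y1, hy.1, mul_nonneg (mul_nonneg Γ0 (sub_nonneg.2 (q1 _))) (sq_nonneg _),
    fun σ hσ => ⟨b7 σ hσ, _, b5 σ hσ⟩, ?_⟩
  obtain ⟨B₁, e1, e2, e3⟩ := h2 y y1 y0
  obtain ⟨B₂, e4, e5, e6⟩ := Nat.sInf_mem (s := SR y) ⟨_, B₁, e1, rfl, e3⟩
  have e7 : sInf (SR y) ≤ L := (Nat.sInf_le (s := SR y) ⟨B₁, e1, rfl, e3⟩).trans e2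
  have e8 : ∀ σ, μ σ ≠ 0 → Γ * (1 - (m / 2) ^ sInf (SR (Av θ σ y))) *
      (sInf (SA (Av θ σ y)) : ℕ) ^ 2 + (lg y - lg (Av θ σ y)) ^ 2 ≤
      -(Γ * ((sInf (SA y) : ℕ) + 1) ^ 2) * (m / 2) ^ sInf (SR (Av θ σ y)) +
        (Γ + C ^ 2) * ((sInf (SA y) : ℕ) + 1) ^ 2 := fun σ hσ => by
    have f1 : ((sInf (SA (Av θ σ y)) : ℕ) : ℝ) ≤ (sInf (SA y) : ℕ) + 1 := by
      exact_mod_cast Nat.sInf_le (b5 σ hσ)
    have f2 := mul_le_mul_of_nonneg_left (pow_le_pow_left₀ (Nat.cast_nonneg _) f1 2)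
      (mul_nonneg Γ0 (sub_nonneg.2 (q1 (sInf (SR (Av θ σ y))))))
    have f3 := Real.log_le_log hy.1 (b6 σ hσ)
    rw [Real.log_mul (Real.exp_pos _).ne' (b7 σ hσ).ne', Real.log_exp] at f3
    have f4 : lg (Av θ σ y) ≤ lg y := Real.log_le_log (b7 σ hσ) (Av_le θ0 θ1 σ y)
    have f5 := pow_le_pow_left₀ (sub_nonneg.2 f4)
      (show lg y - lg (Av θ σ y) ≤ C * ((sInf (SA y) : ℕ) + 1) by unfold lg; linarith) 2
    rw [mul_pow] at f5
    linarith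
  refine (hμ.sum_le e8).trans ?_
  simp only [mul_add (μ _), sum_add_distrib, hμ.sum_const, mul_left_comm (μ _), ← mul_sum]
  have e9 : ∀ σ ∈ univ, 0 ≤ μ σ * (m / 2) ^ sInf (SR (Av θ σ y)) := fun σ _ =>
    mul_nonneg (hμ.1 σ) (by positivity)
  rcases B₂ with _ | ⟨σ, B₂⟩
  · have f1 := sum_nonneg e9
    rw [a0 y e6]
    have f2 := mul_nonneg Γ0 f1
    simp only [Nat.cast_zero, zero_add, one_pow, mul_one]
    nlinarith [sq_nonneg Γ]
  · have f0 := e4 σ List.mem_cons_self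
    have f1 : sInf (SR (Av θ σ y)) ≤ B₂.length :=
      Nat.sInf_le ⟨B₂, fun τ hτ => e4 τ (List.mem_cons_of_mem _ hτ), rfl, e6⟩
    have f2 : 2 * (m / 2) ^ sInf (SR y) ≤ ∑ σ, μ σ * (m / 2) ^ sInf (SR (Av θ σ y)) := by
      refine le_trans ?_ (single_le_sum e9 (mem_univ σ))
      rw [← e5, List.length_cons, pow_succ, show 2 * ((m / 2) ^ B₂.length * (m / 2)) =
        m * (m / 2) ^ B₂.length by ring]
      exact mul_le_mul (hm σ f0) (pow_le_pow_of_le_one q0.le (by linarith) f1) (by positivity)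
        (hμ.1 σ)
    have f3 : (m / 2) ^ L ≤ (m / 2) ^ sInf (SR y) := pow_le_pow_of_le_one q0.le (by linarith) e7
    have f4 : Γ * (m / 2) ^ L = 2 * C ^ 2 := by rw [hΓ]; field_simp
    have f5 : 0 ≤ (m / 2) ^ sInf (SR y) := by positivity
    have f6 : (0 : ℝ) ≤ (sInf (SA y) : ℕ) := Nat.cast_nonneg _
    generalize ∑ σ, μ σ * (m / 2) ^ sInf (SR (Av θ σ y)) = Z at *
    generalize (m / 2) ^ sInf (SR y) = t at *
    generalize ((sInf (SA y) : ℕ) : ℝ) = u at *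
    have f7 := mul_le_mul_of_nonneg_left f2 (mul_nonneg Γ0 (sq_nonneg (u + 1)))
    have f8 := mul_le_mul_of_nonneg_right ((f4.ge.trans (mul_le_mul_of_nonneg_left f3 Γ0)))
      (sq_nonneg (u + 1))
    have f9 := mul_nonneg (mul_nonneg Γ0 f5) (show 0 ≤ 2 * u + 1 by positivity)
    have f10 := mul_le_mul_of_nonneg_right (one_le_pow₀ (n := 2) C1) (sq_nonneg (u + 1))
    nlinarith [sq_nonneg (Γ - (u + 1)), sq_nonneg C]

theorem exp_dom {a R : ℝ} (D : ℕ) (a0 : 0 ≤ a) (R1 : 1 ≤ R) : ∃ C, 1 ≤ C ∧ ∀ n : ℕ,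
    4 * (D + (a + 2 * (n + 1)) ^ 2) * (R ^ (n + 2)) ^ 2 ≤ Real.exp (C * (n + 1)) := by
  have h0 : 1 ≤ 4 * (D + (a + 2) ^ 2) := by nlinarith [Nat.cast_nonneg (α := ℝ) D]
  have h1 : 1 ≤ 4 * (D + (a + 2) ^ 2) * 2 ^ 2 * R ^ 4 := one_le_mul_of_one_le_of_one_le
    (one_le_mul_of_one_le_of_one_le h0 (by norm_num)) (one_le_pow₀ R1)
  refine ⟨_, h1, fun n => ?_⟩
  rw [← Nat.cast_add_one, mul_comm (_ * R ^ 4) ((n + 1 : ℕ) : ℝ), Real.exp_nat_mul]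
  refine le_trans ?_ (pow_le_pow_left₀ (by positivity)
    ((le_add_of_nonneg_right zero_le_one).trans (Real.add_one_le_exp _)) _)
  rw [mul_pow, mul_pow, ← pow_mul, ← pow_mul R, pow_right_comm]
  have h2 : ((n + 1 : ℕ) : ℝ) ≤ 2 ^ (n + 1) := by exact_mod_cast Nat.lt_two_pow_self.le
  have h3 : (1 : ℝ) ≤ (n + 1 : ℕ) := by exact_mod_cast Nat.le_add_left 1 n
  refine mul_le_mul (le_trans ?_ (mul_le_mul (le_self_pow₀ h0 (by omega))
    (pow_le_pow_left₀ (by positivity) h2 2) (by positivity) (by positivity)))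
    (pow_le_pow_right₀ R1 (by omega)) (by positivity) (by positivity)
  generalize ((n + 1 : ℕ) : ℝ) = N at *
  have h4 := pow_le_pow_left₀ (by positivity) (show a + 2 * N ≤ (a + 2) * N by nlinarith) 2
  have h5 := mul_le_mul_of_nonneg_left (one_le_pow₀ (n := 2) h3) (Nat.cast_nonneg (α := ℝ) D)
  rw [mul_pow] at h4
  linarith

theorem safe_near (hμ : IsProb μ) (hW : Inv μ W) (hi : Irr μ W) {w : List (Perm (Fin d))} {R : ℝ}
    (hw : ∀ σ ∈ w, μ σ ≠ 0) (R1 : 1 ≤ R)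
    (hR : ∀ B : List (Perm (Fin d)), (∀ σ ∈ B, μ σ ≠ 0) → ∀ x,
      ‖AL (1 / 2) w x‖ ≤ R ^ (B.length + 1) * ‖AL (1 / 2) B (AL (1 / 2) w x)‖)
    {x : Vec d} (hx : x ∈ W) (h0 : AL (1 / 2) w x ≠ 0) :
    ∃ C δ, 0 ≤ C ∧ 0 < δ ∧ ∀ θ, 0 ≤ θ → θ ≤ 1 → |θ - 1 / 2| ≤ δ → Safe μ W C θ := by
  obtain ⟨L, c, c0, hL⟩ := exists_return hW hi hx h0
  obtain ⟨m, m0, hm⟩ := exists_gap univ μ
  obtain ⟨δ, δ0, -, δ1⟩ := exists_small (4 * (L + w.length : ℕ)) c c0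
  set a : ℝ := 4 * (L + w.length : ℕ) / c with ha
  have a0 : 0 ≤ a := by positivity
  obtain ⟨C, C1, hC⟩ := exp_dom d a0 R1
  refine ⟨_, δ, ?_, δ0, fun θ θ0 θ1 hθ => safe_of_cone hμ hW θ0 θ1 (L := L + w.length) (C := C)
    (Cn := fun z => z ∈ W ∧ z ≠ 0 ∧ ∃ v, ‖z - AL (1 / 2) w v‖ ≤ a * |θ - 1 / 2| * ‖z‖)
    (lt_min m0 one_pos) (min_le_right _ _)
    (fun σ hσ => (min_le_left _ _).trans (hm σ (mem_univ σ) ((hμ.1 σ).lt_of_ne' hσ))) C1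
    (fun z hz => ⟨hz.1, hz.2.1⟩) (fun y hy y0 => ?_) (fun z ⟨_, _, v, hv⟩ B hB σ hσ => ?_) hx
    fun e => h0 (by rw [e, ← ALl_apply, map_zero])⟩
  · have := lt_min m0 one_pos
    positivity
  · obtain ⟨B, b1, b2, b3⟩ := hL y hy
    have b4 := List.forall_mem_append.2 ⟨b1, hw⟩
    have b5 : (B ++ w).length ≤ L + w.length := by rw [List.length_append]; omega
    have b6 := AL_sub θ0 θ1 (B ++ w) y y
    rw [sub_self, norm_zero, zero_add, AL_append (1 / 2)] at b6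
    have y1 := norm_pos_iff.2 y0
    have t0 := abs_nonneg (θ - 1 / 2)
    have b7 : ‖AL θ (B ++ w) y - AL (1 / 2) w (AL (1 / 2) B y)‖ ≤
        2 * (L + w.length : ℕ) * |θ - 1 / 2| * ‖y‖ := b6.trans (by gcongr)
    have b8 := norm_sub_norm_le (AL (1 / 2) w (AL (1 / 2) B y)) (AL θ (B ++ w) y)
    rw [norm_sub_rev] at b8
    have b9 : c / 2 * ‖y‖ ≤ ‖AL θ (B ++ w) y‖ := by
      have := mul_le_mul_of_nonneg_right ((mul_le_mul_of_nonneg_left hθ (by positivity)).trans δ1)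
        y1.le
      linarith
    refine ⟨B ++ w, b4, b5, hW.AL θ b4 hy, norm_pos_iff.1 (lt_of_lt_of_le (by positivity) b9), _,
      b7.trans (le_trans (le_of_eq ?_) (mul_le_mul_of_nonneg_left b9 (by positivity)))⟩
    rw [ha]
    field_simp
    ring
  · refine le_trans ?_ (mul_le_mul_of_nonneg_right (hC B.length) (N2_nonneg _))
    have t0 := abs_nonneg (θ - 1 / 2)
    have R0 : 1 ≤ R ^ (B.length + 2) := one_le_pow₀ R1
    have n0 := N2_nonneg (Av θ σ (AL θ B z))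
    have n1 : (0 : ℝ) ≤ B.length := Nat.cast_nonneg _
    rcases le_total ((a + 2 * (B.length + 1)) * |θ - 1 / 2| * R ^ (B.length + 2)) (1 / 4) with h | h
    · have b1 := AL_sub θ0 θ1 (B ++ [σ]) z (AL (1 / 2) w v)
      have b2 := hR (B ++ [σ]) (List.forall_mem_append.2 ⟨hB, by simpa using hσ⟩) v
      have b3 : AL θ (B ++ [σ]) z = Av θ σ (AL θ B z) := AL_append ..
      rw [List.length_append, List.length_singleton] at b1 b2
      rw [b3] at b1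
      push_cast at b1
      have b4 := norm_sub_norm_le (AL (1 / 2) (B ++ [σ]) (AL (1 / 2) w v)) (Av θ σ (AL θ B z))
      rw [norm_sub_rev] at b4
      have b5 := norm_sub_norm_le z (AL (1 / 2) w v)
      have b6 := mul_le_mul_of_nonneg_left (show ‖AL (1 / 2) (B ++ [σ]) (AL (1 / 2) w v)‖ ≤
        ‖Av θ σ (AL θ B z)‖ + (a + 2 * (B.length + 1)) * |θ - 1 / 2| * ‖z‖ by linarith)
        (zero_le_one.trans R0)
      have b7 := mul_le_mul_of_nonneg_right h (norm_nonneg z)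
      have b8 : a * |θ - 1 / 2| * ‖z‖ ≤
          (a + 2 * (B.length + 1)) * |θ - 1 / 2| * R ^ (B.length + 2) * ‖z‖ := by
        refine mul_le_mul_of_nonneg_right (le_trans ?_ (le_mul_of_one_le_right (by positivity) R0))
          (norm_nonneg z)
        gcongr
        linarith
      have b9 : ‖AL θ B z‖ ≤ 2 * R ^ (B.length + 2) * ‖Av θ σ (AL θ B z)‖ := by
        linarith [AL_norm θ0 θ1 B z]
      have b10 := pow_le_pow_left₀ (norm_nonneg _) b9 2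
      rw [mul_pow, mul_pow] at b10
      refine (N2_le_norm _).trans ((mul_le_mul_of_nonneg_left (b10.trans
        (mul_le_mul_of_nonneg_left (norm_le_N2 _) (by positivity))) (Nat.cast_nonneg d)).trans ?_)
      rw [← mul_assoc]
      refine mul_le_mul_of_nonneg_right ?_ n0
      nlinarith [mul_nonneg (sq_nonneg (a + 2 * (B.length + 1))) (sq_nonneg (R ^ (B.length + 2)))]
    · have b1 := mul_le_mul_of_nonneg_left (far_le θ0 θ1 σ (AL θ B z))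
        (show 0 ≤ 4 * (a + 2 * (B.length + 1)) ^ 2 * (R ^ (B.length + 2)) ^ 2 by positivity)
      have b2 := mul_le_mul_of_nonneg_right (pow_le_pow_left₀ (by norm_num) h 2)
        (N2_nonneg (AL θ B z))
      have b3 : 0 ≤ d * (R ^ (B.length + 2)) ^ 2 * N2 (Av θ σ (AL θ B z)) := by positivity
      rw [mul_pow, mul_pow] at b2
      linarith

end Pool.Agent.P.MP_1e2081_pr
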