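import Mathlib

/-!
Definitions used in the statements on the balanced multi-urn chain that moves `k` balls per urn.
-/

set_option autoImplicit false

namespace Pool.Agent.P.MP_1e2081_pr

open Finset

variable {d : ℕ}

/-- The matrix `U i j = P(σ i = j)` for `σ` of law `μ`. -/
def uMat (μ : Equiv.Perm (Fin d) → ℝ) : Matrix (Fin d) (Fin d) ℝ :=
  fun i j => ∑ σ, if σ i = j then μ σ else 0

/-- The numbers `1 - Re λ`, where `λ` is an eigenvalue of `U` with a non-constant eigenvector. -/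
def gapSet (U : Matrix (Fin d) (Fin d) ℝ) : Set ℝ :=
  {x | ∃ (l : ℂ) (v : Fin d → ℂ), (∃ i j, v i ≠ v j) ∧ (∀ i, ∑ j, (U i j : ℂ) * v j = l * v i) ∧
    x = 1 - l.re}

/-- States: `X i j` is the number of balls of colour `j` in urn `i`; every urn holds `n` balls
and there are `n` balls of every colour. -/
abbrev State (d n : ℕ) : Type :=
  {X : Fin d → Fin d → Fin (n + 1) // (∀ i, ∑ j, (X i j : ℕ) = n) ∧ ∀ j, ∑ i, (X i j : ℕ) = n}

/-- One jump: `σ` has law `μ`; the `k` balls chosen uniformly in urn `i` contain `S i j` balls of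
colour `j` with the hypergeometric probability, independently over the urns, and they move to urn
`σ i`. -/
noncomputable def jump (μ : Equiv.Perm (Fin d) → ℝ) (n k : ℕ) :
    Matrix (State d n) (State d n) ℝ :=
  fun X Y => ∑ σ, μ σ * ∑ S : Fin d → Fin d → Fin (k + 1),
    if (∀ i, ∑ j, (S i j : ℕ) = k) ∧
        ∀ i j, (Y.1 i j : ℕ) + S i j = X.1 i j + S (σ.symm i) j then
      ∏ i, (∏ j, ((X.1 i j : ℕ).choose (S i j) : ℝ)) / (n.choose k : ℝ)
    else 0

section

variable {Ω : Type} [Fintype Ω] [DecidableEq Ω]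

/-- Transition probabilities at time `t` of the chain that jumps according to `P` at rate `1`. -/
noncomputable def heat (P : Matrix Ω Ω ℝ) (t : ℝ) (x y : Ω) : ℝ :=
  ∑' m : ℕ, Real.exp (-t) * t ^ m / (m.factorial : ℝ) * (P ^ m) x y

/-- `π` is a stationary probability distribution of `P`. -/
def IsStationary (P : Matrix Ω Ω ℝ) (π : Ω → ℝ) : Prop :=
  (∀ x, 0 ≤ π x) ∧ ∑ x, π x = 1 ∧ ∀ y, ∑ x, π x * P x y = π y

/-- Worst case total variation distance to `π` at time `t`. -/
noncomputable def dist (P : Matrix Ω Ω ℝ) (π : Ω → ℝ) (t : ℝ) : ℝ :=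
  ⨆ x, (1 / 2) * ∑ y, |heat P t x y - π y|

/-- The mixing time. -/
noncomputable def tmix (P : Matrix Ω Ω ℝ) (π : Ω → ℝ) (ε : ℝ) : ℝ :=
  sInf {t | 0 ≤ t ∧ dist P π t ≤ ε}

end

end Pool.Agent.P.MP_1e2081_pr
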