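import Pool.Agent.P.MP_1e2081_pr.Product

/-!
Second moment of the fluctuations around the mean evolution.
-/

set_option autoImplicit false

namespace Pool.Agent.P.MP_1e2081_pr

open Finset Equiv

variable {d n k : ℕ} {μ : Perm (Fin d) → ℝ}

/-- Sums over the urns. -/
def vec (a : Sl d n → ℝ) : Vec d := fun l => ∑ p, a (l, p)

/-- Joint step of a function on the slots and of the mean evolution. -/
noncomputable def stJ (k : ℕ) (σ : Perm (Fin d)) (τ : Sh d n) (s : (Sl d n → ℝ) × Vec d) :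
    (Sl d n → ℝ) × Vec d :=
  (stC k σ τ s.1, Av ((k : ℝ) / n) σ s.2)

/-- Centred sums over the chosen balls. -/
noncomputable def sel (k : ℕ) (a : Sl d n → ℝ) (τ : Sh d n) : Vec d :=
  fun l => ∑ p ∈ low n k, a (l, τ l p) - (k : ℝ) / n * vec a l

theorem vec_step (a : Sl d n → ℝ) (σ : Perm (Fin d)) (τ : Sh d n) (y : Vec d) :
    vec (stC k σ τ a) - Av ((k : ℝ) / n) σ y =
      Av ((k : ℝ) / n) σ (vec a - y) + (1 : ℝ) • Bv σ (sel k a τ) := by
  funext l
  have := sum_mv a k σ τ l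
  simp only [vec, stC, Av, Bv, Pv, sel, Function.comp, Pi.add_apply, Pi.sub_apply, Pi.smul_apply,
    smul_eq_mul]
  linarith

theorem sum_vec (a : Sl d n → ℝ) : ∑ l, vec a l = ∑ s, a s := (Fintype.sum_prod_type a).symm

theorem sum_Av (θ : ℝ) (σ : Perm (Fin d)) (y : Vec d) : ∑ l, Av θ σ y l = ∑ l, y l := by
  simp only [Av, Bv, Pv, Pi.add_apply, Pi.sub_apply, Pi.smul_apply, smul_eq_mul, sum_add_distrib,
    ← mul_sum, sum_sub_distrib, Equiv.sum_comp σ.symm y, sub_self, mul_zero, add_zero]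

theorem N2_Pv (σ : Perm (Fin d)) (y : Vec d) : N2 (Pv σ y) = N2 y :=
  Equiv.sum_comp σ.symm fun i => y i ^ 2

theorem N2_sub (y z : Vec d) : N2 (y - z) ≤ 2 * N2 y + 2 * N2 z := by
  simp only [N2, mul_sum, ← sum_add_distrib, Pi.sub_apply]
  exact sum_le_sum fun i _ => by nlinarith [sq_nonneg (y i + z i)]

theorem avg_sel (hk : k ≤ n) (a : Sl d n → ℝ) (l : Fin d) : avg (fun τ => sel k a τ l) = 0 := by
  have h := hyper_mean (fun p => a (l, p)) (low n k)
  rw [card_low hk, Fintype.card_fin] at h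
  simp only [sel]
  rw [avg_sub, avg_const, avg_eval l fun π : Perm (Fin n) => ∑ p ∈ low n k, a (l, π p), h]
  exact sub_self _

theorem avg_sel_sq (hk : k ≤ n) (a : Sl d n → ℝ) :
    avg (fun τ => N2 (sel k a τ)) ≤ (k : ℝ) / n * ∑ s, a s ^ 2 := by
  simp only [N2]
  rw [avg_sum, Fintype.sum_prod_type, mul_sum]
  refine sum_le_sum fun l _ => ?_
  have h := hyper_var (fun p => a (l, p)) (low n k)
  rw [card_low hk, Fintype.card_fin] at h
  exact (avg_eval l fun π : Perm (Fin n) =>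
    (∑ p ∈ low n k, a (l, π p) - (k : ℝ) / n * vec a l) ^ 2).trans_le h

theorem avg_lin (hk : k ≤ n) (a : Sl d n → ℝ) (σ : Perm (Fin d)) (f : Vec d →ₗ[ℝ] ℝ) :
    avg (fun τ => f (Bv σ (sel k a τ))) = 0 := by
  have h : ∀ z : Vec d, f z = ∑ i, f (fun l => if i = l then 1 else 0) * z i := fun z => by
    conv_lhs => rw [pi_eq_sum_univ z]
    simp only [map_sum, map_smul, smul_eq_mul, mul_comm]
  simp only [h (Bv σ _)]
  rw [avg_sum]
  refine sum_eq_zero fun i _ => ?_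
  simp only [Bv, Pv, Pi.sub_apply]
  rw [avg_mul, avg_sub, avg_sel hk, avg_sel hk, sub_self, mul_zero]

/-- The second moment bound. -/
def Drift (μ : Perm (Fin d) → ℝ) (n k : ℕ) (r C : ℝ) : Prop :=
  ∀ (m : ℕ) (a : Sl d n → ℝ) (y : Vec d), ∑ l, (vec a - y) l = 0 →
    (op μ (stJ k) ^ m) (fun s => N2 (vec s.1 - s.2)) (a, y) ≤
      C * (r ^ m * N2 (vec a - y) + ∑ s, a s ^ 2)

theorem drift (hμ : IsProb μ) (hk : k ≤ n) {h : BF d} (p : PSD h) {r C : ℝ} (C1 : 1 ≤ C)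
    (h1 : ∀ z, ∑ l, z l = 0 → N2 z ≤ C * h z z) (h2 : ∀ z, h z z ≤ C * N2 z)
    (h3 : ∀ z, ∑ l, z l = 0 →
      ∑ σ, μ σ * h (Av ((k : ℝ) / n) σ z) (Av ((k : ℝ) / n) σ z) ≤ r * h z z)
    (r0 : 0 ≤ r) (r1 : (k : ℝ) / n ≤ C * (1 - r)) : Drift μ n k r (4 * C ^ 3) := by
  intro m a y hy
  have C0 : 0 ≤ C := zero_le_one.trans C1
  set b := ∑ s, a s ^ 2 with hb
  have b0 : 0 ≤ b := sum_nonneg fun _ _ => sq_nonneg _
  let I : (Sl d n → ℝ) × Vec d → Prop := fun s => ∑ l, (vec s.1 - s.2) l = 0 ∧ ∑ x, s.1 x ^ 2 = b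
  have hI : ∀ σ τ s, μ σ ≠ 0 → I s → I (stJ k σ τ s) := by
    rintro σ τ s - ⟨a1, a2⟩
    simp only [I, Pi.sub_apply, sum_sub_distrib, sum_vec, stJ, sum_Av] at a1 ⊢
    exact ⟨by rw [← a1]; exact congrArg (· - _) (Equiv.sum_comp (mv k σ τ) s.1),
      (Equiv.sum_comp (mv k σ τ) fun x => s.1 x ^ 2).trans a2⟩
  have a1 := lyap hμ hI (J := fun s => h (vec s.1 - s.2) (vec s.1 - s.2)) (b := 4 * C ^ 2 * b) r0
    (fun s hs => by
      have a2 : ∀ σ, μ σ ≠ 0 → avg (fun τ => h (vec (stJ k σ τ s).1 - (stJ k σ τ s).2)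
          (vec (stJ k σ τ s).1 - (stJ k σ τ s).2)) ≤ h (Av ((k : ℝ) / n) σ (vec s.1 - s.2))
          (Av ((k : ℝ) / n) σ (vec s.1 - s.2)) + (1 - r) * (4 * C ^ 2 * b) := by
        intro σ _
        simp only [stJ, vec_step, p.expand]
        rw [avg_add, avg_add, avg_const, avg_mul, avg_lin hk, avg_mul]
        have a3 : avg (fun τ => h (Bv σ (sel k s.1 τ)) (Bv σ (sel k s.1 τ))) ≤
            avg fun τ => 4 * C * N2 (sel k s.1 τ) := avg_mono fun τ => by
          have a4 := N2_sub (Pv σ (sel k s.1 τ)) (sel k s.1 τ)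
          rw [N2_Pv] at a4
          exact (h2 _).trans (by rw [Bv]; linarith [mul_le_mul_of_nonneg_left a4 C0])
        rw [avg_mul] at a3
        have a4 := avg_sel_sq hk s.1
        rw [hs.2] at a4
        have a5 := mul_le_mul_of_nonneg_left (a4.trans (mul_le_mul_of_nonneg_right r1 b0)) C0
        linarith
      refine (hμ.sum_le a2).trans ?_
      simp only [mul_add (μ _), sum_add_distrib, hμ.sum_const]
      linarith [h3 _ hs.1]) m (s := (a, y)) ⟨hy, rfl⟩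
  have a2 := pow_le_on hμ hI (fun s hs => h1 _ hs.1) m (s := (a, y)) ⟨hy, rfl⟩
  rw [pow_mul_apply] at a2
  have a3 := pow_nonneg r0 m
  have a4 := mul_le_mul_of_nonneg_left (h2 (vec a - y)) a3
  have a5 : 0 ≤ r ^ m * (4 * C ^ 2 * b) := by positivity
  have a6 : 0 ≤ r ^ m * N2 (vec a - y) := mul_nonneg a3 (N2_nonneg _)
  have a7 := mul_le_mul_of_nonneg_right (show C ≤ 4 * C ^ 2 by nlinarith) a6
  refine a2.trans ((mul_le_mul_of_nonneg_left (show _ ≤ 4 * C ^ 2 * (r ^ m * N2 (vec a - y) + b)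
    by dsimp only at a1; linarith) C0).trans (le_of_eq (by ring)))

theorem Drift.conf {r C : ℝ} (h : Drift μ n k r C) {β : Type} (f : β → ℝ) (c : Sl d n → β)
    (hc : ∑ s, f (c s) = 0) (m : ℕ) : (op μ (stC k) ^ m) (fun c => N2 (vec (f ∘ c))) c ≤
      C * (r ^ m * N2 (vec (f ∘ c)) + ∑ s, f (c s) ^ 2) := by
  have h1 := h m (f ∘ c) 0 (by rw [sub_zero, sum_vec]; exact hc)
  rw [← pow_comp (st := stC k) (φ := fun c : Sl d n → β => ((f ∘ c, 0) : (Sl d n → ℝ) × Vec d))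
    (fun σ τ s => by simp only [stJ]; congr 1; funext l; simp [Av, Bv, Pv])] at h1
  simp only [sub_zero] at h1
  exact h1

theorem cnt_cast (c : Sl d n → Fin d) (l j : Fin d) :
    (cnt c l j : ℝ) = ∑ p, if c (l, p) = j then 1 else 0 := by
  simp [cnt]

theorem Valid.sum {c : Sl d n → Fin d} (h : Valid c) (j : Fin d) :
    ∑ s, (if c s = j then (1 : ℝ) else 0) = n := by
  rw [Fintype.sum_prod_type, ← sum_congr rfl fun l _ => cnt_cast c l j, ← Nat.cast_sum, h j]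

/-- Squared distance of the counts from the uniform table. -/
noncomputable def Qu (c : Sl d n → Fin d) : ℝ := ∑ j, ∑ l, ((cnt c l j : ℝ) - n / d) ^ 2

/-- Squared distance of two tables of counts. -/
noncomputable def Qd (c c' : Sl d n → Fin d) : ℝ := ∑ j, ∑ l, ((cnt c l j : ℝ) - cnt c' l j) ^ 2

/-- Number of slots in which two configurations differ. -/
def ndiff (c c' : Sl d n → Fin d) : ℕ := (univ.filter fun s => c s ≠ c' s).card

theorem Qu_nonneg (c : Sl d n → Fin d) : 0 ≤ Qu c :=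
  sum_nonneg fun _ _ => sum_nonneg fun _ _ => sq_nonneg _

theorem Qd_nonneg (c c' : Sl d n → Fin d) : 0 ≤ Qd c c' :=
  sum_nonneg fun _ _ => sum_nonneg fun _ _ => sq_nonneg _

theorem Qu_le (c : Sl d n → Fin d) : Qu c ≤ d ^ 2 * n ^ 2 := by
  have h : ∀ j l, ((cnt c l j : ℝ) - n / d) ^ 2 ≤ n ^ 2 := fun j l => by
    have h1 : (cnt c l j : ℝ) ≤ n := by exact_mod_cast cnt_le c l j
    have h2 : (n : ℝ) / d ≤ n := div_le_self (Nat.cast_nonneg n) (by exact_mod_cast j.pos)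
    have h3 : (0 : ℝ) ≤ n / d := by positivity
    have h4 : (0 : ℝ) ≤ cnt c l j := Nat.cast_nonneg _
    exact sq_le_sq' (by linarith) (by linarith)
  refine (sum_le_sum fun j _ => sum_le_sum fun l _ => h j l).trans (le_of_eq ?_)
  simp only [sum_const, card_univ, Fintype.card_fin, nsmul_eq_mul]
  ring

theorem Drift.qu {r C : ℝ} (h : Drift μ n k r C) (C0 : 0 ≤ C) (r0 : 0 ≤ r) {c : Sl d n → Fin d}
    (hc : Valid c) (m : ℕ) : (op μ (stC k) ^ m) Qu c ≤ C * d ^ 2 * (r ^ m * n ^ 2 + n) := by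
  have e : ∀ c : Sl d n → Fin d, Qu c =
      ∑ j, N2 (vec ((fun i => (if i = j then (1 : ℝ) else 0) - 1 / d) ∘ c)) := fun c => by
    simp only [Qu, N2, vec, cnt_cast, Function.comp, sum_sub_distrib, sum_const, card_univ,
      Fintype.card_fin, nsmul_eq_mul, mul_one_div]
  rw [funext e, pow_sum_apply]
  have h1 : ∀ j : Fin d, ∑ s, ((if c s = j then (1 : ℝ) else 0) - 1 / d) ^ 2 ≤ (d : ℝ) * n := by
    intro j
    have h2 : (1 : ℝ) / d ≤ 1 := div_le_self zero_le_one (by exact_mod_cast j.pos)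
    have h3 : (0 : ℝ) ≤ 1 / d := by positivity
    refine (sum_le_sum (g := fun _ => 1) fun s _ => ?_).trans (by simp)
    split_ifs <;> nlinarith
  refine (sum_le_sum fun j _ => (h.conf _ c ?_ m).trans
    (mul_le_mul_of_nonneg_left (add_le_add_right (h1 j) _) C0)).trans ?_
  · have : (d : ℝ) ≠ 0 := by exact_mod_cast j.pos.ne'
    rw [sum_sub_distrib, hc.sum]
    simp only [sum_const, card_univ, Fintype.card_prod, Fintype.card_fin, nsmul_eq_mul]
    push_cast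
    field_simp
    ring
  · rw [← mul_sum, sum_add_distrib, ← mul_sum, ← e, sum_const, card_univ, Fintype.card_fin,
      nsmul_eq_mul, mul_assoc C]
    have := mul_le_mul_of_nonneg_left (Qu_le c) (pow_nonneg r0 m)
    exact mul_le_mul_of_nonneg_left (by linarith) C0

theorem Drift.qd {r C : ℝ} (h : Drift μ n k r C) (C0 : 0 ≤ C) {x : Sl d n → Fin d × Fin d}
    (h1 : Valid (Prod.fst ∘ x)) (h2 : Valid (Prod.snd ∘ x)) (m : ℕ) :
    (op μ (stC k) ^ m) (fun x => Qd (Prod.fst ∘ x) (Prod.snd ∘ x)) x ≤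
      C * (r ^ m * Qd (Prod.fst ∘ x) (Prod.snd ∘ x) + d * ndiff (Prod.fst ∘ x) (Prod.snd ∘ x)) := by
  have e : ∀ x : Sl d n → Fin d × Fin d, Qd (Prod.fst ∘ x) (Prod.snd ∘ x) = ∑ j, N2 (vec ((fun i =>
      (if i.1 = j then (1 : ℝ) else 0) - if i.2 = j then (1 : ℝ) else 0) ∘ x)) := fun x => by
    simp only [Qd, N2, vec, cnt_cast, Function.comp, sum_sub_distrib]
  rw [funext e, pow_sum_apply]
  have h3 : ∀ j : Fin d, ∑ s, ((if (x s).1 = j then (1 : ℝ) else 0) -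
      if (x s).2 = j then (1 : ℝ) else 0) ^ 2 ≤ ndiff (Prod.fst ∘ x) (Prod.snd ∘ x) := fun j => by
    rw [ndiff, card_filter, Nat.cast_sum]
    refine sum_le_sum fun s _ => ?_
    by_cases h4 : (x s).1 = (x s).2
    · simp [h4]
    · simp only [Function.comp, ne_eq, h4, not_false_eq_true, if_true]
      split_ifs <;> norm_num
  refine (sum_le_sum fun j _ => (h.conf _ x ?_ m).trans
    (mul_le_mul_of_nonneg_left (add_le_add_right (h3 j) _) C0)).trans (le_of_eq ?_)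
  · rw [sum_sub_distrib]
    exact sub_eq_zero.2 ((h1.sum j).trans (h2.sum j).symm)
  · rw [← mul_sum, sum_add_distrib, ← mul_sum, ← e, sum_const, card_univ, Fintype.card_fin,
      nsmul_eq_mul]

end Pool.Agent.P.MP_1e2081_pr
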