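import Pool.Agent.P.MP_1e2081_pr.Rho

/-!
The share of the slow form is rarely small.
-/

set_option autoImplicit false

namespace Pool.Agent.P.MP_1e2081_pr

open Finset Equiv

variable {d : ℕ} {μ : Perm (Fin d) → ℝ} {γ κ ε c θ : ℝ} {bS bF : BF d}

/-- One step of the mean evolution. -/
def stY (T : Type) (θ : ℝ) (σ : Perm (Fin d)) (_ : T) (y : Vec d) : Vec d := Av θ σ y

/-- The mean evolution along a word. -/
def AL (θ : ℝ) (l : List (Perm (Fin d))) (y : Vec d) : Vec d := l.foldl (fun y σ => Av θ σ y) y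

/-- The permutation of the coordinates along a word. -/
def PL (l : List (Perm (Fin d))) (y : Vec d) : Vec d := l.foldl (fun y σ => Pv σ y) y

theorem PL_lin (l : List (Perm (Fin d))) (s t : ℝ) (y z : Vec d) :
    PL l (s • (y - t • z)) = s • (PL l y - t • PL l z) := by
  induction l generalizing y z with
  | nil => rfl
  | cons σ l ih => exact ih (Pv σ y) (Pv σ z)

theorem PL_bound {b : BF d} (hb : PSD b) (θ0 : 0 < θ) (θ1 : θ ≤ 1) {M : ℝ}
    (l : List (Perm (Fin d))) (hl : ∀ σ ∈ l, μ σ ≠ 0) (y : Vec d)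
    (h : ∀ l' : List (Perm (Fin d)), (∀ σ ∈ l', μ σ ≠ 0) → l'.length ≤ l.length →
      b (AL θ l' y) (AL θ l' y) ≤ M) : b (PL l y) (PL l y) ≤ (4 / θ ^ 2) ^ l.length * M := by
  induction l generalizing y with
  | nil => simpa [AL, PL] using h [] (by simp) le_rfl
  | cons σ l ih =>
    have h1 := ih (fun τ hτ => hl τ (List.mem_cons_of_mem _ hτ)) (Av θ σ y) fun l' a1 a2 =>
      h (σ :: l') (List.forall_mem_cons.2 ⟨hl σ List.mem_cons_self, a1⟩) (by simpa using a2)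
    have h2 := ih (fun τ hτ => hl τ (List.mem_cons_of_mem _ hτ)) y fun l' a1 a2 =>
      h l' a1 (a2.trans (by simp))
    have h3 : Pv σ y = θ⁻¹ • (Av θ σ y - (1 - θ) • y) := by
      funext i
      simp only [Av, Bv, Pi.smul_apply, Pi.sub_apply, Pi.add_apply, smul_eq_mul]
      field_simp
      ring
    have h4 : PL (σ :: l) y = θ⁻¹ • (PL l (Av θ σ y) - (1 - θ) • PL l y) := by
      rw [← PL_lin, ← h3]; rfl
    have h5 := hb.sub_le (PL l (Av θ σ y)) ((1 - θ) • PL l y)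
    have h6 : b ((1 - θ) • PL l y) ((1 - θ) • PL l y) ≤ b (PL l y) (PL l y) := by
      simp only [map_smul, LinearMap.smul_apply, smul_eq_mul, ← mul_assoc]
      exact mul_le_of_le_one_left (hb.nonneg _) (by nlinarith)
    rw [h4, List.length_cons, pow_succ]
    simp only [map_smul, LinearMap.smul_apply, smul_eq_mul]
    rw [show (4 / θ ^ 2) ^ l.length * (4 / θ ^ 2) * M =
      θ⁻¹ * (θ⁻¹ * (4 * ((4 / θ ^ 2) ^ l.length * M))) by field_simp]
    gcongr
    linarith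

theorem Pair.AL_bound (h : Pair μ γ κ ε c bS bF) (θ0 : 0 < θ) (θ1 : θ * c ≤ 1 / 8)
    (l : List (Perm (Fin d))) (hl : ∀ σ ∈ l, μ σ ≠ 0) {y : Vec d} (hy : 0 < (bS + bF) y y) :
    0 < (bS + bF) (AL θ l y) (AL θ l y) ∧
      (bS + bF) (AL θ l y) (AL θ l y) ≤ 2 ^ l.length * (bS + bF) y y ∧
      rho bS bF (AL θ l y) ≤ rho bS bF y + l.length * (11 * (θ * c)) := by
  induction l generalizing y with
  | nil => simpa [AL] using hy
  | cons σ l ih =>
    have hσ := hl σ List.mem_cons_self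
    obtain ⟨a1, a2⟩ := h.q_step θ0 θ1 hσ hy
    obtain ⟨a3, a4, a5⟩ := ih (fun τ hτ => hl τ (List.mem_cons_of_mem _ hτ)) a1
    have a6 := (abs_le.1 (h.abs_step θ0 θ1 hσ hy)).2
    refine ⟨a3, a4.trans ?_, a5.trans ?_⟩
    · rw [List.length_cons, pow_succ, mul_assoc]; gcongr
    · rw [List.length_cons]; push_cast; linarith

variable {T : Type} [Fintype T] [Nonempty T]

theorem opY (F : Vec d → ℝ) (y : Vec d) :
    op μ (stY T θ) F y = ∑ σ, μ σ * F (Av θ σ y) := by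
  simp only [op_apply, stY, avg_const]

theorem word_le (hμ : IsProb μ) {m₀ : ℝ} (m0 : 0 ≤ m₀) {F : Vec d → ℝ} (hF : ∀ y, 0 ≤ F y)
    (l : List (Perm (Fin d))) (hl : ∀ σ ∈ l, m₀ ≤ μ σ) (y : Vec d) :
    m₀ ^ l.length * F (AL θ l y) ≤ (op μ (stY T θ) ^ l.length) F y := by
  induction l generalizing y with
  | nil => simp [AL]
  | cons σ l ih =>
    rw [List.length_cons, pow_succ_apply, opY, pow_succ', mul_assoc]
    refine le_trans ?_ (single_le_sum (f := fun σ => μ σ * (op μ (stY T θ) ^ l.length) F (Av θ σ y))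
      (fun σ _ => mul_nonneg (hμ.1 σ) (pow_nonneg' hμ hF _ _)) (mem_univ σ))
    exact mul_le_mul (hl σ List.mem_cons_self)
      (ih (fun τ hτ => hl τ (List.mem_cons_of_mem _ hτ)) _)
      (mul_nonneg (pow_nonneg m0 _) (hF _)) (hμ.1 σ)

/-- The escape property: the whole form is bounded by the slow form of the permuted vectors. -/
def Esc (μ : Perm (Fin d) → ℝ) (bS bF : BF d) (C : ℝ) (L : ℕ) : Prop :=
  ∀ y M, (∀ l : List (Perm (Fin d)), (∀ σ ∈ l, μ σ ≠ 0) → l.length ≤ L →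
    bS (PL l y) (PL l y) ≤ M) → (bS + bF) y y ≤ C * M

theorem Pair.escape (h : Pair μ γ κ ε c bS bF) {C : ℝ} {L : ℕ} (C0 : 0 ≤ C)
    (hE : Esc μ bS bF C L) (θ0 : 0 < θ) (θ1 : θ * c ≤ 1 / 8) {y : Vec d}
    (hy : 0 < (bS + bF) y y) : ∃ l : List (Perm (Fin d)), (∀ σ ∈ l, μ σ ≠ 0) ∧ l.length ≤ L ∧
      (θ ^ 2 / 8) ^ L / (C + 1) ≤ rho bS bF (AL θ l y) := by
  by_contra h1
  push Not at h1
  have θ2 : θ ≤ 1 := by nlinarith [h.one_le]
  have h2 : 1 ≤ 4 / θ ^ 2 := by rw [le_div_iff₀ (by positivity)]; nlinarith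
  have h3 := hE y ((4 / θ ^ 2) ^ L * ((θ ^ 2 / 8) ^ L / (C + 1) * (2 ^ L * (bS + bF) y y)))
    fun l a1 a2 => (PL_bound h.psdS θ0 θ2 l a1 y
      (M := (θ ^ 2 / 8) ^ L / (C + 1) * (2 ^ L * (bS + bF) y y)) fun l' a3 a4 => by
        obtain ⟨b1, b2, -⟩ := h.AL_bound θ0 θ1 l' a3 hy
        have b3 := (h1 l' a3 (a4.trans a2)).le
        rw [rho, div_le_iff₀ b1] at b3
        refine b3.trans (mul_le_mul_of_nonneg_left (b2.trans ?_) (by positivity))
        gcongr
        · exact one_le_two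
        · exact a4.trans a2).trans (by gcongr)
  have h4 : (4 / θ ^ 2) ^ L * ((θ ^ 2 / 8) ^ L / (C + 1) * (2 ^ L * (bS + bF) y y)) =
      (4 / θ ^ 2 * (θ ^ 2 / 8) * 2) ^ L * (bS + bF) y y / (C + 1) := by
    rw [mul_pow, mul_pow]; ring
  rw [h4, show 4 / θ ^ 2 * (θ ^ 2 / 8) * 2 = 1 by field_simp; ring, one_pow, one_mul,
    mul_div_assoc', le_div_iff₀ (by positivity)] at h3
  nlinarith

theorem Pair.bad_sum (h : Pair μ γ κ ε c bS bF) (hμ : IsProb μ) {C m₀ a : ℝ} {L : ℕ}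
    (C0 : 0 ≤ C) (hE : Esc μ bS bF C L) (m0 : 0 < m₀) (m1 : m₀ ≤ 1)
    (hm : ∀ σ, μ σ ≠ 0 → m₀ ≤ μ σ) (θ0 : 0 < θ) (θ1 : θ * c ≤ 1 / 8) (a0 : 0 < a)
    (a1 : 11 * (a * c) ≤ 1) (a2 : 800 * c ^ 2 * a ≤ κ) (θ2 : 584 * c ^ 2 * θ ≤ κ)
    (hε : 8 * ε ≤ κ) (θ3 : L * (11 * (θ * c)) ≤ 1 / 8) {y₀ : Vec d} (hy : 0 < (bS + bF) y₀ y₀)
    (hρ : 1 / 2 ≤ rho bS bF y₀) (m : ℕ) :
    m₀ ^ L * (a * κ / 4 * ((θ ^ 2 / 8) ^ L / (C + 1))) * ∑ t ∈ range m, (op μ (stY T θ) ^ t)
      (fun y => if rho bS bF y ≤ 1 / 8 then 1 else 0) y₀ ≤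
      (L + 1) * (m + L + 1) * Real.exp (1 - a / θ / 4) := by
  have c0 : 0 < c := zero_lt_one.trans_le h.one_le
  have κ0 : 0 < κ := lt_of_lt_of_le (by positivity) a2
  set δ := (θ ^ 2 / 8) ^ L / (C + 1) with hδ
  have δ0 : 0 < δ := by positivity
  set K := op μ (stY T θ) with hK
  let mid : Vec d → ℝ := fun y => if δ ≤ rho bS bF y ∧ rho bS bF y ≤ 1 / 4 then 1 else 0
  have mid0 : ∀ y, 0 ≤ mid y := fun y => by simp only [mid]; split_ifs <;> norm_num
  let V : Vec d → ℝ := fun y => Real.exp (-(a / θ) * rho bS bF y)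
  have hI : ∀ σ (τ : T) y, μ σ ≠ 0 → 0 < (bS + bF) y y →
      0 < (bS + bF) (stY T θ σ τ y) (stY T θ σ τ y) := fun σ τ y hσ hy =>
    (h.q_step θ0 θ1 hσ hy).1
  have aθ : 0 < a / θ := div_pos a0 θ0
  have h1 : ∀ y, 0 < (bS + bF) y y → a * κ / 4 * δ * Real.exp (-(a / θ / 4)) * mid y ≤
      V y - K V y + Real.exp (1 - a / θ / 2) := by
    intro y hy
    rw [hK, opY]
    have e0 := (Real.exp_pos (1 - a / θ / 2)).le
    rcases le_total (rho bS bF y) (1 / 2) with hρ | hρ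
    · have b1 := h.v_drift hμ θ0 θ1 a0 a1 a2 θ2 hε hy hρ
      have b2 : a * κ / 4 * δ * Real.exp (-(a / θ / 4)) * mid y ≤
          a * κ / 4 * rho bS bF y * V y := by
        have b3 := h.rho_nonneg y
        simp only [mid, V]
        split_ifs with b4
        · rw [mul_one]
          gcongr
          · exact b4.1
          · nlinarith [b4.2]
        · rw [mul_zero]; positivity
      simp only [V] at b2 ⊢
      linarith
    · have b1 : ∑ σ, μ σ * V (Av θ σ y) ≤ ∑ σ, μ σ * Real.exp (1 - a / θ / 2) := by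
        refine hμ.sum_le fun σ hσ => Real.exp_le_exp.2 ?_
        have b2 := (abs_le.1 (h.abs_step θ0 θ1 hσ hy)).1
        have b3 := mul_le_mul_of_nonneg_left
          (show 1 / 2 - 11 * (θ * c) ≤ rho bS bF (Av θ σ y) by linarith) aθ.le
        have b4 : a / θ * (1 / 2 - 11 * (θ * c)) = a / θ / 2 - 11 * (a * c) := by field_simp
        linarith
      rw [hμ.sum_const] at b1
      have b2 : mid y = 0 := if_neg fun b3 => by linarith [b3.2]
      have b3 : 0 ≤ V y := (Real.exp_pos _).le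
      rw [b2, mul_zero]
      linarith
  have h2 : ∀ N : ℕ, a * κ / 4 * δ * Real.exp (-(a / θ / 4)) * ∑ t ∈ range N, (K ^ t) mid y₀ ≤
      V y₀ - (K ^ N) V y₀ + N * Real.exp (1 - a / θ / 2) := by
    intro N
    induction N with
    | zero => simp
    | succ N ih =>
      have b1 := pow_le_on (st := stY T θ) hμ hI h1 N hy
      rw [pow_mul_apply, pow_add_apply, pow_sub_apply, pow_const hμ] at b1
      rw [sum_range_succ, pow_succ_apply', mul_add]
      push_cast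
      linarith
  have h3 : ∀ y, 0 < (bS + bF) y y → m₀ ^ L * (if rho bS bF y ≤ 1 / 8 then 1 else 0) ≤
      ∑ j ∈ range (L + 1), (K ^ j) mid y := by
    intro y hy
    split_ifs with b1
    · obtain ⟨l, b2, b3, b4⟩ := h.escape C0 hE θ0 θ1 hy
      have b5 := (h.AL_bound θ0 θ1 l b2 hy).2.2
      have b6 : (l.length : ℝ) * (11 * (θ * c)) ≤ L * (11 * (θ * c)) := by gcongr
      have b7 : mid (AL θ l y) = 1 := if_pos ⟨b4, by linarith⟩
      have b8 := word_le (T := T) (θ := θ) hμ m0.le mid0 l (fun σ hσ => hm σ (b2 σ hσ)) y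
      rw [b7] at b8
      refine le_trans (mul_le_mul_of_nonneg_right (pow_le_pow_of_le_one m0.le m1 b3) zero_le_one)
        (b8.trans ?_)
      exact single_le_sum (f := fun j => (K ^ j) mid y) (fun j _ => pow_nonneg' hμ mid0 j y)
        (mem_range.2 (Nat.lt_succ_of_le b3))
    · rw [mul_zero]
      exact sum_nonneg fun j _ => pow_nonneg' hμ mid0 j y
  have h4 : m₀ ^ L * ∑ t ∈ range m, (K ^ t) (fun y => if rho bS bF y ≤ 1 / 8 then 1 else 0) y₀ ≤
      (L + 1) * ∑ t ∈ range (m + L), (K ^ t) mid y₀ := by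
    calc _ ≤ ∑ t ∈ range m, ∑ j ∈ range (L + 1), (K ^ (t + j)) mid y₀ := by
          rw [mul_sum]
          refine sum_le_sum fun t _ => ?_
          have b1 := pow_le_on (st := stY T θ) hμ hI h3 t hy
          rw [pow_mul_apply, pow_sum_apply] at b1
          simpa only [pow_add, Module.End.mul_apply] using b1
      _ ≤ ∑ _j ∈ range (L + 1), ∑ t ∈ range (m + L), (K ^ t) mid y₀ := by
          rw [sum_comm]
          refine sum_le_sum fun j hj => ?_
          rw [range_eq_Ico, sum_Ico_add' (fun t => (K ^ t) mid y₀)]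
          refine sum_le_sum_of_subset_of_nonneg ?_ fun t _ _ => pow_nonneg' hμ mid0 t y₀
          intro x hx
          have := mem_range.1 hj
          simp only [mem_Ico, mem_range] at hx ⊢
          omega
      _ = _ := by rw [sum_const, card_range, nsmul_eq_mul]; push_cast; rfl
  have h5 := h2 (m + L)
  have h6 : 0 ≤ (K ^ (m + L)) V y₀ := pow_nonneg' hμ (fun y => (Real.exp_pos _).le) _ _
  have h7 : V y₀ ≤ Real.exp (1 - a / θ / 2) := Real.exp_le_exp.2 (by nlinarith)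
  have h8 : Real.exp (1 - a / θ / 2) = Real.exp (-(a / θ / 4)) * Real.exp (1 - a / θ / 4) := by
    rw [← Real.exp_add]; congr 1; ring
  have h9 : a * κ / 4 * δ * ∑ t ∈ range (m + L), (K ^ t) mid y₀ ≤
      (m + L + 1) * Real.exp (1 - a / θ / 4) := by
    apply le_of_mul_le_mul_left _ (Real.exp_pos (-(a / θ / 4)))
    push_cast at h5
    rw [h8] at h5 h7
    linarith
  have h10 := mul_le_mul_of_nonneg_left h4 (show 0 ≤ a * κ / 4 * δ by positivity)
  have h11 := mul_le_mul_of_nonneg_left h9 (show (0 : ℝ) ≤ L + 1 by positivity)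
  linarith

end Pool.Agent.P.MP_1e2081_pr
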