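import Pool.Agent.P.MP_1e2081_pr.Forms

/-!
Existence of a pair of adapted forms on an invariant subspace.
-/

set_option autoImplicit false

namespace Pool.Agent.P.MP_1e2081_pr

open Finset Equiv Complex

variable {d : ℕ}

/-- A slow form and a fast form. -/
structure Pair (μ : Perm (Fin d) → ℝ) (γ κ ε c : ℝ) (bS bF : BF d) : Prop where
  psdS : PSD bS
  psdF : PSD bF
  slow : ∀ y, |Dr μ bS y + γ * bS y y| ≤ ε * bS y y
  fast : ∀ y, Dr μ bF y ≤ -(γ + κ - ε) * bF y y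
  inv : ∀ σ, μ σ ≠ 0 → ∀ y, (bS + bF) (Bv σ y) (Bv σ y) ≤ c ^ 2 * (bS + bF) y y
  one_le : 1 ≤ c

theorem exists_gen (f : Module.End ℂ (Fin d → ℂ)) {V : Submodule ℂ (Fin d → ℂ)}
    (hV : ∀ v ∈ V, f v ∈ V) : ∃ (t : Finset (Fin d → ℂ)) (l : (Fin d → ℂ) → ℂ)
      (D : (Fin d → ℂ) → ℕ), Submodule.span ℂ (t : Set (Fin d → ℂ)) = V ∧
      ∀ w ∈ t, w ∈ V ∧ w ≠ 0 ∧ ((f - l w • 1) ^ D w) w = 0 := by
  let G : Set (Fin d → ℂ) := {w | w ∈ V ∧ w ≠ 0 ∧ ∃ (l : ℂ) (k : ℕ), ((f - l • 1) ^ k) w = 0}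
  have h1 : Submodule.span ℂ G = V := by
    refine le_antisymm (Submodule.span_le.2 fun w hw => hw.1) ?_
    refine (Submodule.eq_iSup_inf_genEigenspace ⊤ hV
      (Module.End.iSup_maxGenEigenspace_eq_top f)).le.trans (iSup_le fun l w hw => ?_)
    by_cases h0 : w = 0
    · rw [h0]; exact Submodule.zero_mem _
    · exact Submodule.subset_span ⟨hw.1, h0, l, (Module.End.mem_maxGenEigenspace f l w).1 hw.2⟩
  obtain ⟨t, h2, h3⟩ := (Submodule.fg_span_iff_fg_span_finset_subset G).1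
    (IsNoetherian.noetherian (Submodule.span ℂ G))
  have h4 : ∀ w, ∃ (l : ℂ) (k : ℕ), w ∈ t → ((f - l • 1) ^ k) w = 0 := fun w => by
    by_cases hw : w ∈ t
    · obtain ⟨l, k, h⟩ := (h2 hw).2.2
      exact ⟨l, k, fun _ => h⟩
    · exact ⟨0, 0, fun h => absurd h hw⟩
  choose l D h4 using h4
  exact ⟨t, l, D, h3.symm.trans h1, fun w hw => ⟨(h2 hw).1, (h2 hw).2.1, h4 w hw⟩⟩

theorem exists_gap {I : Type} (t : Finset I) (f : I → ℝ) :
    ∃ κ, 0 < κ ∧ ∀ w ∈ t, 0 < f w → κ ≤ f w := by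
  classical
  induction t using Finset.induction_on with
  | empty => exact ⟨1, one_pos, by simp⟩
  | insert a s _ ih =>
    obtain ⟨κ, h1, h2⟩ := ih
    by_cases h : 0 < f a
    · refine ⟨min κ (f a), lt_min h1 h, fun w hw h3 => ?_⟩
      rcases mem_insert.1 hw with rfl | hw
      · exact min_le_right _ _
      · exact (min_le_left _ _).trans (h2 w hw h3)
    · refine ⟨κ, h1, fun w hw h3 => ?_⟩
      rcases mem_insert.1 hw with rfl | hw
      · exact absurd h3 h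
      · exact h2 w hw h3

theorem exists_forms {μ : Perm (Fin d) → ℝ} (hμ : IsProb μ) {V : Submodule ℂ (Fin d → ℂ)}
    (hV : ∀ σ, μ σ ≠ 0 → ∀ v ∈ V, v ∘ σ ∈ V) {γ : ℝ}
    (hγ : ∀ (l : ℂ), ∀ v ∈ V, v ≠ 0 → Uc μ v = l • v → l.re ≤ 1 - γ) {v₀ : Fin d → ℂ} {l₀ : ℂ}
    (h₀ : v₀ ∈ V) (h₁ : Uc μ v₀ = l₀ • v₀) (h₂ : l₀.re = 1 - γ) {y₀ : Vec d}
    (h₃ : ell v₀ y₀ ≠ 0) : ∃ κ, 0 < κ ∧ ∀ ε, 0 < ε → ∃ c bS bF, Pair μ γ κ ε c bS bF ∧
      bF y₀ y₀ ≤ bS y₀ y₀ ∧ (∀ y, normSq (ell v₀ y) ≤ bS y y) ∧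
      (∀ v ∈ V, ∃ C, 0 ≤ C ∧ ∀ y, normSq (ell v y) ≤ C * (bS + bF) y y) ∧
      ∀ R : ℕ → Vec d → ℝ → Prop, (∀ L L' y M, L ≤ L' → R L' y M → R L y M) →
        (∀ v ∈ V, ∃ C L, 0 ≤ C ∧ ∀ y M, R L y M → normSq (ell v y) ≤ C * M) →
        ∃ C L, 0 ≤ C ∧ ∀ y M, R L y M → (bS + bF) y y ≤ C * M := by
  classical
  have hU : ∀ v ∈ V, Uc μ v ∈ V := fun v hv => by
    rw [Uc_eq]
    refine V.sum_mem fun σ _ => ?_
    by_cases h : μ σ = 0
    · simp [h]
    · exact V.smul_mem _ (hV σ h v hv)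
  have hU' : ∀ (l : ℂ), ∀ v ∈ V, (Uc μ - l • 1) v ∈ V := fun l v hv =>
    V.sub_mem (hU v hv) (V.smul_mem l hv)
  obtain ⟨t, l, D, ht, hw⟩ := exists_gen (Uc μ) hU
  have hl : ∀ w ∈ t, (l w).re ≤ 1 - γ := fun w h => by
    obtain ⟨v, a1, a2, a3⟩ := exists_eig _ (hU' (l w)) (hw w h).1 (hw w h).2.1 (hw w h).2.2
    exact hγ _ v a1 a2 (sub_eq_zero.1 a3)
  obtain ⟨κ, κ0, hκ⟩ := exists_gap t fun w => 1 - γ - (l w).re
  refine ⟨κ, κ0, fun ε ε0 => ?_⟩
  let b : (Fin d → ℂ) → BF d := fun w => ∑ j ∈ range (D w), bv (chain μ (l w) ε w j)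
  have pb : ∀ w, PSD (b w) := fun w => PSD.sum fun j _ => psd_bv _
  have db : ∀ w ∈ t, ∀ y, |Dr μ (b w) y - ((l w).re - 1) * b w y y| ≤ ε * b w y y :=
    fun w h y => Dr_chain hμ ε0 (hw w h).2.2 y
  let P : (Fin d → ℂ) → Prop := fun w => (l w).re = 1 - γ
  let b1 : BF d := ∑ w ∈ t.filter P, b w
  let b2 : BF d := ∑ w ∈ t.filter fun w => ¬ P w, b w
  have p1 : PSD b1 := PSD.sum fun w _ => pb w
  have p2 : PSD b2 := PSD.sum fun w _ => pb w
  have e12 : ∀ y, b1 y y + b2 y y = ∑ w ∈ t, b w y y := fun y => by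
    simp only [b1, b2, LinearMap.sum_apply]
    exact sum_filter_add_sum_filter_not _ _ _
  let bS : BF d := bv v₀ + b1
  have pS : PSD bS := (psd_bv v₀).add p1
  have eS : ∀ y, bS y y = normSq (ell v₀ y) + b1 y y := fun y => by
    simp only [bS, LinearMap.add_apply, bv_self]
  have S0 : 0 < bS y₀ y₀ := by
    have := normSq_pos.2 h₃
    have := p1.nonneg y₀
    rw [eS]; linarith
  have F0 := p2.nonneg y₀
  set s := bS y₀ y₀ / (bS y₀ y₀ + b2 y₀ y₀) with hs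
  have s0 : 0 < s := by positivity
  have s1 : s ≤ 1 := (div_le_one (by positivity)).2 (by linarith)
  have eq : ∀ y, (bS + s • b2) y y = normSq (ell v₀ y) + b1 y y + s * b2 y y := fun y => by
    rw [LinearMap.add_apply, LinearMap.add_apply, eS]; rfl
  have hdom : ∀ v ∈ V, ∃ C, 0 ≤ C ∧ ∀ y, normSq (ell v y) ≤ C * (bS + s • b2) y y := by
    intro v hv
    refine (span_bound (R := fun _ y M => M = (bS + s • b2) y y)
      (fun _ _ _ _ _ h => h) (fun w h => ⟨s⁻¹, 0, by positivity, ?_⟩) (ht.ge hv)).imp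
      fun C ⟨_, c0, h⟩ => ⟨c0, fun y => h y _ rfl⟩
    rintro y _ rfl
    have a1 : 0 < D w := Nat.pos_of_ne_zero fun h0 => (hw w h).2.1 (by
      have := (hw w h).2.2
      rwa [h0] at this)
    have a2 : normSq (ell w y) ≤ b w y y := by
      simp only [b, LinearMap.sum_apply, bv_self]
      have := single_le_sum (f := fun j => normSq (ell (chain μ (l w) ε w j) y))
        (fun j _ => normSq_nonneg _) (mem_range.2 a1)
      simpa [chain] using this
    have a3 : b w y y ≤ ∑ w ∈ t, b w y y :=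
      single_le_sum (f := fun w => b w y y) (fun w _ => (pb w).nonneg y) h
    rw [le_inv_mul_iff₀ s0, eq]
    have a4 := mul_le_mul_of_nonneg_left (a2.trans (a3.trans (e12 y).ge)) s0.le
    have a5 := mul_le_of_le_one_left (p1.nonneg y) s1
    have a6 := normSq_nonneg (ell v₀ y)
    linarith
  have htr : ∀ R : ℕ → Vec d → ℝ → Prop, (∀ L L' y M, L ≤ L' → R L' y M → R L y M) →
      (∀ v ∈ V, ∃ C L, 0 ≤ C ∧ ∀ y M, R L y M → normSq (ell v y) ≤ C * M) →
      ∃ C L, 0 ≤ C ∧ ∀ y M, R L y M → (bS + s • b2) y y ≤ C * M := by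
    intro R hR h
    choose! C L c0 h using h
    have a1 : ∀ w ∈ t, ∀ j, chain μ (l w) ε w j ∈ V := fun w hw' j => by
      refine V.smul_mem _ ?_
      induction j with
      | zero => exact (hw w hw').1
      | succ j ih => rw [pow_succ', Module.End.mul_apply]; exact hU' _ _ ih
    refine ⟨C v₀ + ∑ w ∈ t, ∑ j ∈ range (D w), C (chain μ (l w) ε w j),
      max (L v₀) (t.sup fun w => (range (D w)).sup fun j => L (chain μ (l w) ε w j)),
      add_nonneg (c0 _ h₀) (sum_nonneg fun w hw' => sum_nonneg fun j _ => c0 _ (a1 w hw' j)),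
      fun y M hy => ?_⟩
    have a2 := h v₀ h₀ y M (hR _ _ y M (le_max_left _ _) hy)
    have a3 : ∑ w ∈ t, b w y y ≤ (∑ w ∈ t, ∑ j ∈ range (D w), C (chain μ (l w) ε w j)) * M := by
      rw [sum_mul]
      refine sum_le_sum fun w hw' => ?_
      simp only [b, LinearMap.sum_apply, bv_self, sum_mul]
      refine sum_le_sum fun j hj => h _ (a1 w hw' j) y M (hR _ _ y M ?_ hy)
      exact le_trans (le_trans (le_sup (f := fun j => L (chain μ (l w) ε w j)) hj)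
        (le_sup (f := fun w => (range (D w)).sup fun j => L (chain μ (l w) ε w j)) hw'))
        (le_max_right _ _)
    have a4 := mul_le_of_le_one_left (p2.nonneg y) s1
    rw [eq, add_mul]
    linarith [e12 y]
  obtain ⟨C, -, c0, hC⟩ := htr
    (fun _ y M => ∃ σ y', μ σ ≠ 0 ∧ y = Bv σ y' ∧ M = (bS + s • b2) y' y')
    (fun _ _ _ _ _ h => h) fun v hv => by
      have a1 := fun σ (h : μ σ ≠ 0) => hdom _ (V.sub_mem (hV σ h v hv) hv)
      choose! C c0 h using a1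
      refine ⟨∑ σ, |C σ|, 0, sum_nonneg fun σ _ => abs_nonneg _, ?_⟩
      rintro _ _ ⟨σ, y, a2, rfl, rfl⟩
      rw [ell_Bv]
      refine (h σ a2 y).trans (mul_le_mul_of_nonneg_right ((le_abs_self _).trans ?_)
        ((pS.add (p2.smul s0.le)).nonneg y))
      exact single_le_sum (f := fun σ => |C σ|) (fun σ _ => abs_nonneg _) (mem_univ σ)
  refine ⟨C + 1, bS, s • b2, ⟨pS, p2.smul s0.le, fun y => ?_, fun y => ?_, fun σ h y => ?_,
    by linarith⟩, ?_, fun y => ?_, hdom, htr⟩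
  · have a1 := Dr_bv hμ (w := 0) (ε := 0) (l := l₀) (v := v₀) (by simpa using h₁) y
    have a2 : |Dr μ b1 y + γ * b1 y y| ≤ ε * b1 y y := by
      simp only [b1, Dr_sum, LinearMap.sum_apply, mul_sum, ← sum_add_distrib]
      refine (abs_sum_le_sum_abs _ _).trans (sum_le_sum fun w h => ?_)
      have a3 := db w (mem_filter.1 h).1 y
      rwa [(mem_filter.1 h).2, show Dr μ (b w) y - (1 - γ - 1) * b w y y =
        Dr μ (b w) y + γ * b w y y by ring] at a3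
    have a3 := mul_nonneg ε0.le (normSq_nonneg (ell v₀ y))
    rw [eS, Dr_add, a1, h₂, show (1 - γ - 1) * normSq (ell v₀ y) +
      0 * (ell v₀ y * (starRingEnd ℂ) (ell 0 y)).re + Dr μ b1 y +
      γ * (normSq (ell v₀ y) + b1 y y) = Dr μ b1 y + γ * b1 y y by ring]
    linarith
  · have a2 : Dr μ b2 y ≤ -(γ + κ - ε) * b2 y y := by
      simp only [b2, Dr_sum, LinearMap.sum_apply, mul_sum]
      refine sum_le_sum fun w h => ?_
      obtain ⟨a3, a4⟩ := mem_filter.1 h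
      have a5 := (abs_le.1 (db w a3 y)).2
      have a6 := hκ w a3 (sub_pos.2 (lt_of_le_of_ne (hl w a3) a4))
      have a7 := mul_le_mul_of_nonneg_right a6 ((pb w).nonneg y)
      linarith
    rw [Dr_smul]
    have := mul_le_mul_of_nonneg_left a2 s0.le
    simp only [LinearMap.smul_apply, smul_eq_mul]
    linarith
  · refine (hC _ _ ⟨σ, y, h, rfl, rfl⟩).trans
      (mul_le_mul_of_nonneg_right (by nlinarith) ((pS.add (p2.smul s0.le)).nonneg y))
  · simp only [LinearMap.smul_apply, smul_eq_mul]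
    rw [hs, div_mul_eq_mul_div, div_le_iff₀ (by positivity)]
    nlinarith
  · rw [eS]; linarith [p1.nonneg y]

end Pool.Agent.P.MP_1e2081_pr
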