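import Pool.Agent.P.MP_1e2081_pr.Slots

/-!
Quadratic forms adapted to the slow and to the fast eigenvalues of `U`.
-/

set_option autoImplicit false

namespace Pool.Agent.P.MP_1e2081_pr

open Finset Equiv Complex

variable {d : ℕ}

/-- Real vectors indexed by the urns. -/
abbrev Vec (d : ℕ) : Type := Fin d → ℝ

/-- Bilinear forms on these vectors. -/
abbrev BF (d : ℕ) : Type := LinearMap.BilinForm ℝ (Vec d)

/-- Moving the coordinates by `σ`. -/
def Pv (σ : Perm (Fin d)) (y : Vec d) : Vec d := fun l => y (σ.symm l)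

/-- The increment of the mean evolution. -/
def Bv (σ : Perm (Fin d)) (y : Vec d) : Vec d := Pv σ y - y

/-- The mean evolution of a vector of counts, given `σ`. -/
def Av (θ : ℝ) (σ : Perm (Fin d)) (y : Vec d) : Vec d := y + θ • Bv σ y

/-- Symmetric and nonnegative. -/
structure PSD (b : BF d) : Prop where
  symm : ∀ y z, b y z = b z y
  nonneg : ∀ y, 0 ≤ b y y

theorem PSD.expand {b : BF d} (h : PSD b) (y z : Vec d) (θ : ℝ) :
    b (y + θ • z) (y + θ • z) = b y y + 2 * θ * b y z + θ ^ 2 * b z z := by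
  simp only [map_add, map_smul, LinearMap.add_apply, LinearMap.smul_apply, smul_eq_mul,
    h.symm z y]
  ring

theorem PSD.cs {b : BF d} (h : PSD b) (y z : Vec d) : b y z ^ 2 ≤ b y y * b z z := by
  have := discrim_le_zero (a := b z z) (b := 2 * b y z) (c := b y y) fun x => by
    have := h.nonneg (y + x • z)
    rw [h.expand] at this
    linarith
  rw [discrim] at this
  linarith

theorem PSD.add {b b' : BF d} (h : PSD b) (h' : PSD b') : PSD (b + b') :=
  ⟨fun y z => by simp only [LinearMap.add_apply, h.symm y z, h'.symm y z],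
    fun y => by simp only [LinearMap.add_apply]; exact add_nonneg (h.nonneg y) (h'.nonneg y)⟩

theorem PSD.smul {b : BF d} (h : PSD b) {t : ℝ} (ht : 0 ≤ t) : PSD (t • b) :=
  ⟨fun y z => by simp only [LinearMap.smul_apply, h.symm y z],
    fun y => by simp only [LinearMap.smul_apply, smul_eq_mul]; exact mul_nonneg ht (h.nonneg y)⟩

theorem PSD.sum {I : Type} {s : Finset I} {b : I → BF d} (h : ∀ i ∈ s, PSD (b i)) :
    PSD (∑ i ∈ s, b i) :=
  ⟨fun y z => by
    simp only [LinearMap.sum_apply]; exact sum_congr rfl fun i hi => (h i hi).symm y z,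
    fun y => by simp only [LinearMap.sum_apply]; exact sum_nonneg fun i hi => (h i hi).nonneg y⟩

theorem PSD.sub_le {b : BF d} (h : PSD b) (y z : Vec d) :
    b (y - z) (y - z) ≤ 2 * b y y + 2 * b z z := by
  have h1 := h.expand y z (-1)
  have h2 := h.nonneg (y + (1 : ℝ) • z)
  rw [h.expand] at h2
  rw [neg_one_smul, ← sub_eq_add_neg] at h1
  linarith

/-- The complex linear functional with coefficients `v`. -/
noncomputable def ell (v : Fin d → ℂ) (y : Vec d) : ℂ := ∑ i, v i * y i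

theorem ell_add (v : Fin d → ℂ) (y z : Vec d) : ell v (y + z) = ell v y + ell v z := by
  simp [ell, mul_add, sum_add_distrib]

theorem ell_smul (v : Fin d → ℂ) (t : ℝ) (y : Vec d) : ell v (t • y) = t * ell v y := by
  simp only [ell, Pi.smul_apply, smul_eq_mul, ofReal_mul, mul_sum]
  exact sum_congr rfl fun i _ => by ring

theorem add_ell (v w : Fin d → ℂ) (y : Vec d) : ell (v + w) y = ell v y + ell w y := by
  simp [ell, add_mul, sum_add_distrib]

theorem smul_ell (c : ℂ) (v : Fin d → ℂ) (y : Vec d) : ell (c • v) y = c * ell v y := by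
  simp [ell, mul_sum, mul_assoc]

theorem ell_Pv (v : Fin d → ℂ) (σ : Perm (Fin d)) (y : Vec d) :
    ell v (Pv σ y) = ell (v ∘ σ) y := by
  unfold ell Pv
  rw [← Equiv.sum_comp σ]
  simp

theorem ell_Bv (v : Fin d → ℂ) (σ : Perm (Fin d)) (y : Vec d) :
    ell v (Bv σ y) = ell (v ∘ σ - v) y := by
  have h : Bv σ y = Pv σ y + (-1 : ℝ) • y := by rw [neg_one_smul, Bv, sub_eq_add_neg]
  rw [h, ell_add, ell_smul, ell_Pv, sub_eq_add_neg, add_ell, ← neg_one_smul ℂ v, smul_ell]
  simp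

/-- The form `Re (ell v y * conj (ell v z))`. -/
noncomputable def bv (v : Fin d → ℂ) : BF d :=
  LinearMap.mk₂ ℝ (fun y z => (ell v y * (starRingEnd ℂ) (ell v z)).re)
    (fun y y' z => by simp [ell_add, add_mul])
    (fun t y z => by simp [ell_smul, mul_assoc, mul_add])
    (fun y z z' => by simp [ell_add, mul_add])
    (fun t y z => by simp [ell_smul]; ring)

theorem bv_apply (v : Fin d → ℂ) (y z : Vec d) :
    bv v y z = (ell v y * (starRingEnd ℂ) (ell v z)).re := rfl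

theorem bv_self (v : Fin d → ℂ) (y : Vec d) : bv v y y = normSq (ell v y) := by
  rw [bv_apply, mul_conj, ofReal_re]

theorem psd_bv (v : Fin d → ℂ) : PSD (bv v) :=
  ⟨fun y z => by simp [bv_apply]; ring, fun y => by rw [bv_self]; exact normSq_nonneg _⟩

/-- The matrix `U` acting on complex vectors. -/
noncomputable def Uc (μ : Perm (Fin d) → ℝ) : Module.End ℂ (Fin d → ℂ) :=
  ∑ σ, (μ σ : ℂ) • LinearMap.funLeft ℂ ℂ σ

theorem Uc_eq (μ : Perm (Fin d) → ℝ) (v : Fin d → ℂ) : Uc μ v = ∑ σ, (μ σ : ℂ) • (v ∘ σ) := by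
  simp only [Uc, LinearMap.sum_apply, LinearMap.smul_apply]
  rfl

theorem Uc_apply (μ : Perm (Fin d) → ℝ) (v : Fin d → ℂ) (i : Fin d) :
    Uc μ v i = ∑ j, (uMat μ i j : ℂ) * v j := by
  simp only [Uc_eq, Finset.sum_apply, Pi.smul_apply, smul_eq_mul, uMat, ofReal_sum, sum_mul]
  rw [sum_comm]
  refine sum_congr rfl fun σ _ => ?_
  simp [apply_ite ((↑) : ℝ → ℂ)]

/-- The mean first order change of a form. -/
noncomputable def Dr (μ : Perm (Fin d) → ℝ) (b : BF d) (y : Vec d) : ℝ :=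
  ∑ σ, μ σ * b y (Bv σ y)

theorem Dr_add (μ : Perm (Fin d) → ℝ) (b b' : BF d) (y : Vec d) :
    Dr μ (b + b') y = Dr μ b y + Dr μ b' y := by
  simp only [Dr, LinearMap.add_apply, mul_add, sum_add_distrib]

theorem Dr_smul (μ : Perm (Fin d) → ℝ) (t : ℝ) (b : BF d) (y : Vec d) :
    Dr μ (t • b) y = t * Dr μ b y := by
  simp only [Dr, LinearMap.smul_apply, smul_eq_mul, mul_sum]
  exact sum_congr rfl fun σ _ => by ring

theorem Dr_sum (μ : Perm (Fin d) → ℝ) {I : Type} (s : Finset I) (b : I → BF d) (y : Vec d) :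
    Dr μ (∑ i ∈ s, b i) y = ∑ i ∈ s, Dr μ (b i) y := by
  simp only [Dr, LinearMap.sum_apply, mul_sum]
  exact sum_comm

theorem sum_ell {I : Type} (s : Finset I) (v : I → Fin d → ℂ) (y : Vec d) :
    ell (∑ i ∈ s, v i) y = ∑ i ∈ s, ell (v i) y := by
  simp only [ell, Finset.sum_apply, sum_mul]
  exact sum_comm

theorem Dr_bv {μ : Perm (Fin d) → ℝ} (hμ : IsProb μ) {v w : Fin d → ℂ} {l : ℂ} {ε : ℝ}
    (h : Uc μ v = l • v + (ε : ℂ) • w) (y : Vec d) :
    Dr μ (bv v) y = (l.re - 1) * normSq (ell v y) +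
      ε * (ell v y * (starRingEnd ℂ) (ell w y)).re := by
  have h2 : ∑ σ, (μ σ : ℂ) * ell v (Bv σ y) = (l - 1) * ell v y + ε * ell w y := by
    have h3 : ∑ σ, (μ σ : ℂ) = 1 := by exact_mod_cast congrArg ((↑) : ℝ → ℂ) hμ.2
    have h4 : ∑ σ, (μ σ : ℂ) • (v ∘ σ - v) = (l - 1) • v + (ε : ℂ) • w := by
      simp only [smul_sub, sum_sub_distrib, ← Uc_eq, ← sum_smul, h3, h, sub_smul]
      abel
    simp only [ell_Bv, ← smul_ell, ← sum_ell, h4, add_ell]
  have h5 : Dr μ (bv v) y =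
      (ell v y * (starRingEnd ℂ) (∑ σ, (μ σ : ℂ) * ell v (Bv σ y))).re := by
    simp only [Dr, bv_apply, map_sum, mul_sum, re_sum]
    exact sum_congr rfl fun σ _ => by simp; ring
  rw [h5, h2, normSq_apply]
  simp
  ring

/-- The scaled Jordan chain of `w`. -/
noncomputable def chain (μ : Perm (Fin d) → ℝ) (l : ℂ) (ε : ℝ) (w : Fin d → ℂ) (j : ℕ) :
    Fin d → ℂ :=
  ((ε : ℂ)⁻¹ ^ j) • ((Uc μ - l • 1) ^ j) w

theorem chain_succ (μ : Perm (Fin d) → ℝ) (l : ℂ) {ε : ℝ} (hε : ε ≠ 0) (w : Fin d → ℂ) (j : ℕ) :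
    Uc μ (chain μ l ε w j) = l • chain μ l ε w j + (ε : ℂ) • chain μ l ε w (j + 1) := by
  have h : (ε : ℂ) ≠ 0 := by exact_mod_cast hε
  simp only [chain, pow_succ', Module.End.mul_apply, LinearMap.sub_apply, LinearMap.smul_apply,
    Module.End.one_apply, map_smul, smul_smul, ← mul_assoc, mul_inv_cancel₀ h, one_mul, smul_sub]
  rw [mul_comm l]
  abel

theorem Dr_chain {μ : Perm (Fin d) → ℝ} (hμ : IsProb μ) {l : ℂ} {ε : ℝ} (hε : 0 < ε)
    {w : Fin d → ℂ} {D : ℕ} (hD : ((Uc μ - l • 1) ^ D) w = 0) (y : Vec d) :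
    |Dr μ (∑ j ∈ range D, bv (chain μ l ε w j)) y -
      (l.re - 1) * (∑ j ∈ range D, bv (chain μ l ε w j)) y y| ≤
      ε * (∑ j ∈ range D, bv (chain μ l ε w j)) y y := by
  simp only [Dr_sum, Dr_bv hμ (chain_succ μ l hε.ne' w _), LinearMap.sum_apply, bv_self,
    sum_add_distrib, ← mul_sum, add_sub_cancel_left, abs_mul, abs_of_pos hε]
  refine mul_le_mul_of_nonneg_left ((abs_sum_le_sum_abs _ _).trans ?_) hε.le
  set f : ℕ → ℝ := fun j => normSq (ell (chain μ l ε w j) y) with hf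
  have h1 : ∀ j, |(ell (chain μ l ε w j) y * (starRingEnd ℂ) (ell (chain μ l ε w (j + 1)) y)).re|
      ≤ (f j + f (j + 1)) / 2 := by
    intro j
    simp only [hf, normSq_apply, mul_re, conj_re, conj_im]
    generalize ell (chain μ l ε w j) y = a
    generalize ell (chain μ l ε w (j + 1)) y = b
    rw [abs_le]
    constructor <;> nlinarith [sq_nonneg (a.re + b.re), sq_nonneg (a.im + b.im),
      sq_nonneg (a.re - b.re), sq_nonneg (a.im - b.im)]
  have h2 : f D = 0 := by simp [hf, chain, hD, ell]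
  have h3 := sum_range_succ f D
  have h4 := sum_range_succ' f D
  have h5 : 0 ≤ f 0 := normSq_nonneg _
  refine (sum_le_sum fun j _ => h1 j).trans ?_
  rw [← sum_div, sum_add_distrib]
  linarith

theorem exists_eig (f : Module.End ℂ (Fin d → ℂ)) {V : Submodule ℂ (Fin d → ℂ)}
    (hV : ∀ v ∈ V, f v ∈ V) {w : Fin d → ℂ} (hw : w ∈ V) (h0 : w ≠ 0) {k : ℕ}
    (hk : (f ^ k) w = 0) : ∃ v ∈ V, v ≠ 0 ∧ f v = 0 := by
  induction k generalizing w with
  | zero => exact absurd hk h0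
  | succ k ih =>
    by_cases h : f w = 0
    · exact ⟨w, hw, h0, h⟩
    · exact ih (hV w hw) h (by rwa [pow_succ, Module.End.mul_apply] at hk)

theorem span_bound {s : Set (Fin d → ℂ)} {R : ℕ → Vec d → ℝ → Prop}
    (hR : ∀ L L' y M, L ≤ L' → R L' y M → R L y M)
    (h : ∀ v ∈ s, ∃ C L, 0 ≤ C ∧ ∀ y M, R L y M → normSq (ell v y) ≤ C * M) {v : Fin d → ℂ}
    (hv : v ∈ Submodule.span ℂ s) :
    ∃ C L, 0 ≤ C ∧ ∀ y M, R L y M → normSq (ell v y) ≤ C * M := by
  induction hv using Submodule.span_induction with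
  | mem v hv => exact h v hv
  | zero => exact ⟨0, 0, le_rfl, fun y M _ => by simp [ell]⟩
  | add v w _ _ h1 h2 =>
    obtain ⟨C, L, c0, h1⟩ := h1
    obtain ⟨C', L', c0', h2⟩ := h2
    refine ⟨2 * C + 2 * C', max L L', by positivity, fun y M hy => ?_⟩
    have h3 := h1 y M (hR _ _ y M (le_max_left _ _) hy)
    have h4 := h2 y M (hR _ _ y M (le_max_right _ _) hy)
    rw [add_ell]
    simp only [normSq_apply, add_re, add_im] at *
    nlinarith [sq_nonneg ((ell v y).re - (ell w y).re), sq_nonneg ((ell v y).im - (ell w y).im)]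
  | smul c v _ h1 =>
    obtain ⟨C, L, c0, h1⟩ := h1
    refine ⟨normSq c * C, L, mul_nonneg (normSq_nonneg c) c0, fun y M hy => ?_⟩
    rw [smul_ell, map_mul, mul_assoc]
    exact mul_le_mul_of_nonneg_left (h1 y M hy) (normSq_nonneg c)

end Pool.Agent.P.MP_1e2081_pr
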