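import Pool.Agent.P.MP_1e2081_pr.Large

/-!
No cutoff for `k = n / 2` when a product of the averaging maps vanishes.
-/

set_option autoImplicit false

namespace Pool.Agent.P.MP_1e2081_pr

open Finset Equiv Filter

variable {d : ℕ} {μ : Perm (Fin d) → ℝ}

theorem half_le (σ : Perm (Fin d)) (y : Vec d) : N2 (Av (1 / 2) σ y) ≤ N2 y := by
  rw [N2_Av]; linarith [N2_nonneg (Bv σ y)]

theorem killed (hμ : IsProb μ) {l : List (Perm (Fin d))} (hl : ∀ σ ∈ l, μ σ ≠ 0)
    (h0 : ∀ y : Vec d, ∑ i, y i = 0 → AL (1 / 2) l y = 0) {q : ℝ} (q0 : 0 < q) :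
    ∃ M : ℕ, ∀ m, M ≤ m → ∀ y : Vec d, ∑ i, y i = 0 →
      (KY μ (1 / 2) ^ m) (fun z => if 0 < N2 z then 1 else 0) y ≤ q := by
  obtain ⟨m₁, m0, hm⟩ := exists_gap univ μ
  have p0 : 0 < m₁ ^ l.length := pow_pos m0 _
  have hI : ∀ σ (τ : Unit) (y : Vec d), μ σ ≠ 0 → ∑ i, y i = 0 →
      ∑ i, stY Unit (1 / 2) σ τ y i = 0 := fun σ _ y _ hy => (sum_Av _ σ y).trans hy
  have h1 : ∀ (j : ℕ) (y : Vec d), (KY μ (1 / 2) ^ j) (fun z => if 0 < N2 z then 1 else 0) y ≤
      if 0 < N2 y then 1 else 0 := fun j y => by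
    refine (pow_le_on hμ (I := fun z => N2 z ≤ N2 y) (fun σ _ z _ hz => (half_le σ z).trans hz)
      (fun z hz => ?_) j le_rfl).trans_eq (pow_const hμ _ j y)
    split_ifs with a1 a2
    · exact le_rfl
    · exact absurd (a1.trans_le hz) a2
    · exact zero_le_one
    · exact le_rfl
  have h2 : ∀ y : Vec d, ∑ i, y i = 0 → (KY μ (1 / 2) ^ l.length)
      (fun z => if 0 < N2 z then 1 else 0) y ≤
      max 0 (1 - m₁ ^ l.length) * if 0 < N2 y then 1 else 0 := fun y hy => by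
    have a1 := word_le (T := Unit) (θ := 1 / 2) hμ m0.le
      (F := fun z => 1 - if 0 < N2 z then 1 else 0) (fun z => by split_ifs <;> norm_num) l
      (fun σ hσ => hm σ (mem_univ σ) ((hμ.1 σ).lt_of_ne' (hl σ hσ))) y
    rw [h0 y hy, pow_sub_apply, pow_const hμ, if_neg (by simp [N2])] at a1
    have a2 := h1 l.length y
    split_ifs at a2 ⊢
    · linarith [le_max_right 0 (1 - m₁ ^ l.length)]
    · linarith
  have h3 : ∀ (N : ℕ) (y : Vec d), ∑ i, y i = 0 → (KY μ (1 / 2) ^ (l.length * N))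
      (fun z => if 0 < N2 z then 1 else 0) y ≤ max 0 (1 - m₁ ^ l.length) ^ N := by
    intro N
    induction N with
    | zero => intro y _; simp only [mul_zero, pow_zero, Module.End.one_apply]; split_ifs <;> norm_num
    | succ N ih =>
      intro y hy
      rw [mul_add, mul_one, pow_add, Module.End.mul_apply, pow_succ']
      refine (pow_le_on hμ hI h2 _ hy).trans ?_
      rw [pow_mul_apply]
      exact mul_le_mul_of_nonneg_left (ih y hy) (le_max_left _ _)
  obtain ⟨N, hN⟩ := exists_pow_lt_of_lt_one q0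
    (max_lt one_pos (show 1 - m₁ ^ l.length < 1 by linarith))
  refine ⟨l.length * N, fun m hm y hy => ?_⟩
  obtain ⟨j, rfl⟩ := Nat.exists_eq_add_of_le hm
  rw [pow_add, Module.End.mul_apply]
  exact (pow_le hμ (h1 j) _ y).trans ((h3 N y hy).trans hN.le)

theorem half_bounds (hμ : IsProb μ) (hU : (uMat μ).IsIrreducible) (hd : 2 ≤ d)
    {l : List (Perm (Fin d))} (hl : ∀ σ ∈ l, μ σ ≠ 0)
    (h0 : ∀ y : Vec d, ∑ i, y i = 0 → AL (1 / 2) l y = 0) {ε : ℝ} (ε0 : 0 < ε) :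
    ∃ T, 0 < T ∧ ∀ᶠ k : ℕ in atTop, ∀ π, IsStationary (jump μ (2 * k) k) π →
      dist (jump μ (2 * k) k) π T ≤ ε ∧
        ∀ s, 0 ≤ s → Real.exp (-s) - ε ≤ dist (jump μ (2 * k) k) π s := by
  let i : Fin d := ⟨0, by omega⟩
  have d2 : (2 : ℝ) ≤ d := by exact_mod_cast hd
  obtain ⟨g, g0, g1, hg⟩ := contract hμ hU i (show (0 : ℝ) < 1 / 2 by norm_num) (by norm_num)
  have gi : 1 ≤ g⁻¹ := (one_le_inv₀ g0).2 g1
  have C0 : 0 ≤ 4 * g⁻¹ ^ 3 := by positivity
  have hθ : ∀ k : ℕ, 1 ≤ k → (k : ℝ) / (2 * k : ℕ) = 1 / 2 := fun k hk => by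
    have : (0 : ℝ) < k := by exact_mod_cast hk
    push_cast; field_simp
  have hD : ∀ k : ℕ, 1 ≤ k → Drift μ (2 * k) k (1 - g) (4 * g⁻¹ ^ 3) := fun k hk => by
    refine drift hμ (by omega) psd_dot gi (fun z _ => ?_) (fun z => ?_) (fun z hz => ?_)
      (by linarith) ?_
    · rw [dot_self]; exact le_mul_of_one_le_left (N2_nonneg z) gi
    · rw [dot_self]; exact le_mul_of_one_le_left (N2_nonneg z) gi
    · simpa only [dot_self, hθ k hk] using hg (1 / 2) le_rfl (by norm_num) z hz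
    · rw [sub_sub_cancel, inv_mul_cancel₀ g0.ne', hθ k hk]; norm_num
  generalize 4 * g⁻¹ ^ 3 = C at *
  obtain ⟨δ, δ0, -, δ2⟩ := exists_small (5 * (d + 1)) ε ε0
  obtain ⟨L, L0, hL⟩ := exists_big (4 * C * d ^ 2) δ δ0
  obtain ⟨t, ρ, t0, ρ0, h1⟩ := small_err d C0 L0.le δ0
  obtain ⟨m, hm⟩ := exists_pow_lt_of_lt_one ρ0 (show 1 - g < 1 by linarith)
  obtain ⟨M, hM⟩ := killed hμ hl h0 δ0
  have two : Tendsto (fun k : ℕ => 2 * k) atTop atTop := tendsto_id.const_mul_atTop' two_pos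
  refine ⟨2 * (M + (2 * m + 2)) + 4 / δ, by positivity, ?_⟩
  filter_upwards [two.eventually h1, eventually_ge_atTop 1,
    tendsto_natCast_atTop_atTop.eventually_gt_atTop (4 * L ^ 2)] with k h1 k1 h2 π hπ
  have k0 : (0 : ℝ) < k := by exact_mod_cast k1
  have a0 : 0 < 4 / δ := by positivity
  have a1 : (0 : ℝ) < M + (2 * m + 2) := by positivity
  refine ⟨(dist_upper hμ (by omega) (hD k k1) C0 (by linarith) (by linarith) i (by omega) hπ L0.le
    t0 (p := d * (2 * δ)) (M := M) (by positivity) hm.le (by positivity)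
    (fun N hN x hx => ((hD k k1).tail hμ C0 (by omega) i L0 (q := δ) (fun y b1 _ => ?_) hx).trans
      (mul_le_mul_of_nonneg_left (by linarith) (by linarith))) (by linarith)).trans ?_,
    fun s s0 => ?_⟩
  · rw [hθ k k1]
    refine le_trans (pow_le hμ (fun z => ?_) N y) (hM N (by exact_mod_cast hN) y b1)
    split_ifs with b5 b6
    · exact le_rfl
    · exact absurd (lt_of_le_of_lt (by positivity) b5) b6
    · exact zero_le_one
    · exact le_rfl
  · have a2 : δ * (4 / δ) = 4 := by field_simp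
    generalize (M : ℝ) + (2 * m + 2) = A at *
    have a3 : (2 * A + 4 / δ) / (2 * A + 4 / δ - A) ^ 2 ≤ δ := by
      rw [div_le_iff₀ (pow_pos (by linarith) 2)]
      nlinarith [mul_pos δ0 (mul_pos a1 a1)]
    nlinarith
  · obtain ⟨X, hX⟩ := (valid_fst (d := d) (n := 2 * k)).exists_rep
    refine le_trans (sub_le_sub_left ((stat_tail hμ (by omega) (hD k k1) C0 (by linarith)
      (by linarith) (by omega) hπ L0).trans ?_) _) (exp_le_dist (jump_stoch hμ (by omega)) hπ.2.1 s0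
      X (fun _ => by split_ifs <;> norm_num) (fun _ => by split_ifs <;> norm_num) (if_pos ?_))
    · have a2 : 2 * C * d ^ 2 / L ^ 2 ≤ 4 * C * d ^ 2 / L ^ 2 := by gcongr; norm_num
      nlinarith
    · have a3 : ((cnt (Prod.fst : Sl d (2 * k) → Fin d) i i : ℝ) - (2 * k : ℕ) / d) ^ 2 ≤
          Qu (Prod.fst : Sl d (2 * k) → Fin d) :=
        (single_le_sum (f := fun l => ((cnt (Prod.fst : Sl d (2 * k) → Fin d) l i : ℝ) -
          (2 * k : ℕ) / d) ^ 2) (fun _ _ => sq_nonneg _) (mem_univ i)).trans (single_le_sum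
          (f := fun j => ∑ l, ((cnt (Prod.fst : Sl d (2 * k) → Fin d) l j : ℝ) - (2 * k : ℕ) / d) ^ 2)
          (fun _ _ => sum_nonneg fun _ _ => sq_nonneg _) (mem_univ i))
      rw [show cnt Prod.fst i i = 2 * k by simp [cnt]] at a3
      rw [hX.qs]
      push_cast at a3 ⊢
      have a4 : 2 * (k : ℝ) / d ≤ k := by rw [div_le_iff₀ (by linarith)]; nlinarith
      have a5 := pow_le_pow_left₀ k0.le (show (k : ℝ) ≤ 2 * k - 2 * k / d by linarith) 2
      nlinarith [sq_nonneg L]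

theorem no_cutoff (hμ : IsProb μ) (hU : (uMat μ).IsIrreducible) (hd : 2 ≤ d)
    {l : List (Perm (Fin d))} (hl : ∀ σ ∈ l, μ σ ≠ 0)
    (h0 : ∀ y : Vec d, ∑ i, y i = 0 → AL (1 / 2) l y = 0) {π : ∀ n, State d n → ℝ}
    (hπ : ∀ᶠ n in atTop, IsStationary (jump μ n (n / 2)) (π n)) :
    (¬ ∀ ε : ℝ, 0 < ε → ε < 1 → Tendsto (fun n : ℕ => tmix (jump μ n (n / 2)) (π n) ε /
      tmix (jump μ n (n / 2)) (π n) (1 - ε)) atTop (nhds 1)) ∧
    ∃ B : ℝ, ∀ᶠ k : ℕ in atTop, tmix (jump μ (2 * k) (2 * k / 2)) (π (2 * k)) (1 / 4) ≤ B := by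
  have two : Tendsto (fun k : ℕ => 2 * k) atTop atTop := tendsto_id.const_mul_atTop' two_pos
  obtain ⟨T, T0, h1⟩ := half_bounds hμ hU hd hl h0 (show (0 : ℝ) < 1 / 4 by norm_num)
  have hπ' := two.eventually hπ
  simp only [Nat.mul_div_cancel_left _ two_pos] at hπ' ⊢
  refine ⟨fun h => ?_, T, ?_⟩
  · have e0 : 0 < Real.exp (-(2 * T)) / 4 := by positivity
    have e1 : Real.exp (-(2 * T)) ≤ 1 := Real.exp_le_one_iff.2 (by linarith)
    obtain ⟨T', T1, h2⟩ := half_bounds hμ hU hd hl h0 e0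
    have h3 := (h _ e0 (by linarith)).comp two
    simp only [Function.comp_def, Nat.mul_div_cancel_left _ two_pos] at h3
    obtain ⟨k, a1, a2, a3, a4, a5⟩ := (h1.and (h2.and (hπ'.and ((h3.eventually_lt_const
      one_lt_two).and (h3.eventually_const_lt zero_lt_one))))).exists
    have b1 := tmix_le T0.le ((a1 _ a3).1.trans (show _ ≤ 1 - Real.exp (-(2 * T)) / 4 by linarith))
    have b2 := le_tmix (T := 2 * T) T1.le (a2 _ a3).1 fun s s0 hs =>
      lt_of_lt_of_le (by linarith [Real.exp_le_exp.2 (neg_le_neg hs.le)]) ((a2 _ a3).2 s s0)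
    have b3 := (pos_iff_pos_of_mul_pos a5).1 (by linarith)
    rw [div_lt_iff₀ (inv_pos.1 b3)] at a4
    linarith
  · filter_upwards [h1, hπ'] with k a1 a2
    exact tmix_le T0.le (a1 _ a2).1

end Pool.Agent.P.MP_1e2081_pr
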