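import Pool.Agent.P.MP_1e2081_pr.Spec

/-!
Invariant subspaces, orthogonal splitting and a form of Schur's lemma.
-/

set_option autoImplicit false

namespace Pool.Agent.P.MP_1e2081_pr

open Finset Equiv

variable {d : ℕ} {μ : Perm (Fin d) → ℝ} {W W₁ : Submodule ℝ (Vec d)}

/-- The Euclidean form. -/
def dot : BF d := dotProductBilin ℝ ℝ

theorem dot_apply (y z : Vec d) : dot y z = ∑ i, y i * z i := rfl

theorem dot_self (y : Vec d) : dot y y = N2 y := by simp only [dot_apply, N2, sq]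

theorem psd_dot : PSD (dot : BF d) :=
  ⟨fun y z => by simp only [dot_apply, mul_comm], fun y => dot_self y ▸ N2_nonneg y⟩

theorem N2_pos {y : Vec d} (h : y ≠ 0) : 0 < N2 y := by
  obtain ⟨i, hi⟩ := Function.ne_iff.1 h
  exact (sq_pos_of_ne_zero hi).trans_le (sq_le_N2 y i)

theorem N2_smul (t : ℝ) (y : Vec d) : N2 (t • y) = t ^ 2 * N2 y := by
  simp only [N2, Pi.smul_apply, smul_eq_mul, mul_pow, mul_sum]

/-- The subspace is invariant under the permutations in the support. -/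
def Inv (μ : Perm (Fin d) → ℝ) (W : Submodule ℝ (Vec d)) : Prop :=
  ∀ σ, μ σ ≠ 0 → ∀ y ∈ W, Pv σ y ∈ W

theorem Inv.inv (h : Inv μ W) {σ : Perm (Fin d)} (hσ : μ σ ≠ 0) {y : Vec d} (hy : y ∈ W) :
    Pv σ⁻¹ y ∈ W := by
  have h1 : ∀ m : ℕ, Pv (σ ^ m) y ∈ W := fun m => by
    induction m with
    | zero => exact hy
    | succ m ih => rw [pow_succ']; exact h σ hσ _ ih
  have h2 : σ⁻¹ = σ ^ (orderOf σ - 1) := by
    rw [inv_eq_iff_mul_eq_one, ← pow_succ', Nat.sub_add_cancel (orderOf_pos σ), pow_orderOf_eq_one]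
  exact h2 ▸ h1 _

theorem Inv.Av (h : Inv μ W) {σ : Perm (Fin d)} (hσ : μ σ ≠ 0) (θ : ℝ) {y : Vec d} (hy : y ∈ W) :
    Av θ σ y ∈ W :=
  W.add_mem hy (W.smul_mem θ (W.sub_mem (h σ hσ y hy) hy))

theorem Inv.split (h : Inv μ W) (h₁ : Inv μ W₁) (hle : W₁ ≤ W) : ∃ W₂ ≤ W, Inv μ W₂ ∧
    Disjoint W₁ W₂ ∧ ∀ y ∈ W, ∃ y₁ ∈ W₁, ∃ y₂ ∈ W₂, y = y₁ + y₂ ∧ N2 y₁ + N2 y₂ = N2 y := by
  have h1 : Disjoint W₁ (LinearMap.BilinForm.orthogonal dot W₁) :=
    Submodule.disjoint_def.2 fun z a1 a2 => by_contra fun a3 =>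
      (N2_pos a3).ne' ((dot_self z).symm.trans (a2 z a1))
  have h2 := (LinearMap.BilinForm.restrict_nondegenerate_iff_isCompl_orthogonal
    (B := (dot : BF d)) (W := W₁) fun y z a => (psd_dot.symm z y).trans a).1
    (LinearMap.BilinForm.nondegenerate_restrict_of_disjoint_orthogonal _
      (fun y z a => (psd_dot.symm z y).trans a) h1)
  refine ⟨W ⊓ LinearMap.BilinForm.orthogonal dot W₁, inf_le_left, fun σ hσ y hy =>
    ⟨h σ hσ y hy.1, fun w hw => ?_⟩, h1.mono_right inf_le_right, fun y hy => ?_⟩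
  · refine Eq.trans ?_ (hy.2 _ (h₁.inv hσ hw))
    simp only [dot_apply, Pv]
    rw [← Equiv.sum_comp σ]
    simp [Perm.inv_def]
  · obtain ⟨y₁, a1, y₂, a2, rfl⟩ := Submodule.mem_sup.1 (h2.sup_eq_top ▸ Submodule.mem_top (x := y))
    refine ⟨y₁, a1, y₂, ⟨by simpa using W.sub_mem hy (hle a1), a2⟩, rfl, ?_⟩
    have a3 := psd_dot.expand y₁ y₂ 1
    rw [one_smul, show dot y₁ y₂ = 0 from a2 y₁ a1, dot_self, dot_self, dot_self] at a3
    linarith

/-- There is no proper invariant subspace. -/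
def Irr (μ : Perm (Fin d) → ℝ) (W : Submodule ℝ (Vec d)) : Prop :=
  ∀ W' ≤ W, Inv μ W' → W' = ⊥ ∨ W' = W

theorem schur (h : Inv μ W) (hi : Irr μ W) {q : BF d} (p : PSD q)
    (hq : ∀ σ, μ σ ≠ 0 → ∀ z, q (Pv σ z) (Pv σ z) = q z z) {x y : Vec d} (hx : x ∈ W)
    (hy : y ∈ W) : q y y * N2 x = q x x * N2 y := by
  by_cases h0 : x = 0
  · simp [h0, N2]
  have hn : ∀ z ∈ W, z ≠ 0 → (√(N2 z))⁻¹ • z ∈ {z : Vec d | z ∈ W ∧ N2 z = 1} := fun z a1 a2 =>
    ⟨W.smul_mem _ a1, by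
      rw [N2_smul, inv_pow, Real.sq_sqrt (N2_nonneg z), inv_mul_cancel₀ (N2_pos a2).ne']⟩
  have c1 : Continuous fun z : Vec d => N2 z := by unfold N2; fun_prop
  have c2 : Continuous fun z : Vec d => q z z := by
    have : (fun z : Vec d => q z z) = fun z => ∑ i, ∑ j, z i * (z j *
        q (fun l => if j = l then 1 else 0) fun l => if i = l then 1 else 0) := funext fun z => by
      conv_lhs => rw [pi_eq_sum_univ z]
      simp only [map_sum, map_smul, LinearMap.sum_apply, LinearMap.smul_apply, smul_eq_mul, mul_sum]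
    rw [this]; fun_prop
  have c3 : IsCompact {z : Vec d | z ∈ W ∧ N2 z = 1} := by
    refine (isCompact_closedBall (0 : Vec d) 1).of_isClosed_subset
      (W.closed_of_finiteDimensional.inter (isClosed_eq c1 continuous_const)) fun z hz => ?_
    rw [mem_closedBall_zero_iff, pi_norm_le_iff_of_nonneg zero_le_one]
    exact fun i => (sq_le_one_iff_abs_le_one _).1 ((sq_le_N2 z i).trans_eq hz.2)
  obtain ⟨z₀, a1, a2⟩ := c3.exists_isMinOn ⟨_, hn x hx h0⟩ c2.continuousOn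
  have a3 : ∀ z ∈ W, q z₀ z₀ * N2 z ≤ q z z := fun z hz => by
    by_cases h1 : z = 0
    · simp [h1, N2]
    have a4 : q z₀ z₀ ≤ _ := a2 (hn z hz h1)
    simp only [map_smul, LinearMap.smul_apply, smul_eq_mul, ← mul_assoc, ← mul_inv,
      Real.mul_self_sqrt (N2_nonneg z)] at a4
    rwa [le_inv_mul_iff₀ (N2_pos h1), mul_comm] at a4
  generalize hν : q z₀ z₀ = ν at a3
  have e : ∀ z w, (q - ν • dot : BF d) z w = q z w - ν * dot z w := fun z w => rfl
  have a4 : ∀ z ∈ W, q z z = ν * N2 z →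
      z ∈ W ⊓ LinearMap.BilinForm.orthogonal (q - ν • dot) W := fun z hz a5 => ⟨hz, fun w hw => by
    have a6 := discrim_le_zero (a := q w w - ν * N2 w) (b := 2 * (q z w - ν * dot z w)) (c := 0)
      fun t => by
        have a7 := a3 _ (W.add_mem hz (W.smul_mem t hw))
        rw [← dot_self, psd_dot.expand, p.expand, dot_self, dot_self] at a7
        linarith
    rw [discrim, mul_zero, sub_zero] at a6
    rw [e, p.symm w z, psd_dot.symm w z]
    nlinarith⟩
  have a5 : ∀ z ∈ W ⊓ LinearMap.BilinForm.orthogonal (q - ν • dot) W, q z z = ν * N2 z :=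
    fun z hz => by
      have := hz.2 z hz.1
      rw [e, dot_self] at this
      linarith
  rcases hi _ inf_le_left (fun σ hσ z hz => a4 _ (h σ hσ z hz.1)
    (by rw [hq σ hσ, N2_Pv, a5 z hz])) with a6 | a6
  · have a7 := a4 z₀ a1.1 (by rw [a1.2, mul_one, hν])
    rw [a6, Submodule.mem_bot] at a7
    have a8 := a1.2
    simp [a7, N2] at a8
  · rw [a6] at a5
    rw [a5 x hx, a5 y hy]
    ring

theorem spanning (h : Inv μ W) (hi : Irr μ W) : ∃ L : ℕ, ∀ b : BF d, PSD b → ∀ x ∈ W, ∀ y ∈ W,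
    ∀ M, (∀ l : List (Perm (Fin d)), (∀ σ ∈ l, μ σ ≠ 0) → l.length ≤ L →
      b (PL l x) (PL l x) ≤ M) → b y y * N2 x ≤ d.factorial * M * N2 y := by
  classical
  let G : Finset (Perm (Fin d)) := univ.filter fun g =>
    ∃ l : List (Perm (Fin d)), (∀ σ ∈ l, μ σ ≠ 0) ∧ ∀ y, PL l y = Pv g y
  have h1 : ∀ g, ∃ l : List (Perm (Fin d)), g ∈ G → (∀ σ ∈ l, μ σ ≠ 0) ∧ ∀ y, PL l y = Pv g y :=
    fun g => by
      by_cases hg : g ∈ G
      · exact (mem_filter.1 hg).2.imp fun l a _ => a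
      · exact ⟨[], fun a => absurd a hg⟩
  choose w hw using h1
  refine ⟨univ.sup fun g => (w g).length, fun b p x hx y hy M hM => ?_⟩
  let q : BF d := ∑ g ∈ G, b.compl₁₂ (LinearMap.funLeft ℝ ℝ g.symm) (LinearMap.funLeft ℝ ℝ g.symm)
  have e : ∀ z z', q z z' = ∑ g ∈ G, b (Pv g z) (Pv g z') := fun z z' => by
    simp only [q, LinearMap.sum_apply]; rfl
  have a1 := schur h hi (q := q) ⟨fun z z' => by simp only [e, p.symm (Pv _ z)],
    fun z => e z z ▸ sum_nonneg fun g _ => p.nonneg _⟩ (fun σ hσ z => by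
      have a2 : G.map (Equiv.mulRight σ).toEmbedding = G := by
        refine eq_of_subset_of_card_le (fun g hg => ?_) (card_map _).ge
        obtain ⟨g, a3, rfl⟩ := mem_map.1 hg
        obtain ⟨l, a4, a5⟩ := (mem_filter.1 a3).2
        exact mem_filter.2 ⟨mem_univ _, σ :: l, List.forall_mem_cons.2 ⟨hσ, a4⟩,
          fun y => a5 (Pv σ y)⟩
      rw [e, e]
      conv_rhs => rw [← a2, sum_map]
      rfl) hx hy
  have a2 : b y y ≤ q y y := by
    rw [e]
    exact single_le_sum (f := fun g => b (Pv g y) (Pv g y)) (fun g _ => p.nonneg _)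
      (show 1 ∈ G from mem_filter.2 ⟨mem_univ _, [], by simp, fun _ => rfl⟩)
  have M0 : 0 ≤ M := (p.nonneg _).trans (hM [] (by simp) (Nat.zero_le _))
  have a3 : q x x ≤ d.factorial * M := by
    rw [e]
    refine (sum_le_card_nsmul _ _ M fun g hg => ?_).trans ?_
    · rw [← (hw g hg).2]
      exact hM _ (hw g hg).1 (le_sup (f := fun g => (w g).length) (mem_univ g))
    · rw [nsmul_eq_mul]
      refine mul_le_mul_of_nonneg_right (Nat.cast_le.2 ((card_le_univ G).trans_eq ?_)) M0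
      rw [Fintype.card_perm, Fintype.card_fin]
  exact (mul_le_mul_of_nonneg_right a2 (N2_nonneg x)).trans
    (a1.trans_le (mul_le_mul_of_nonneg_right a3 (N2_nonneg y)))

end Pool.Agent.P.MP_1e2081_pr
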