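import Pool.Agent.P.MP_1e2081_pr.Lln

/-!
Cutoff when `k` and `n - k` are of order `n` and the steps are uniformly invertible.
-/

set_option autoImplicit false

namespace Pool.Agent.P.MP_1e2081_pr

open Finset Equiv Filter

variable {d n k : ℕ} {μ : Perm (Fin d) → ℝ} {c κ θ : ℝ}

theorem dirichlet (hμ : IsProb μ) (hU : (uMat μ).IsIrreducible) (i : Fin d) :
    ∃ C, 1 ≤ C ∧ ∀ y : Vec d, ∑ l, y l = 0 → N2 y ≤ C * ∑ σ, μ σ * N2 (Bv σ y) := by
  have D0 : ∀ y : Vec d, 0 ≤ ∑ σ, μ σ * N2 (Bv σ y) := fun y =>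
    sum_nonneg fun σ _ => mul_nonneg (hμ.1 σ) (N2_nonneg _)
  have h1 : ∀ a b, (∃ σ, μ σ ≠ 0 ∧ (σ a = b ∨ σ b = a)) →
      (∃ C, ∀ y : Vec d, (y a - y i) ^ 2 ≤ C * ∑ σ, μ σ * N2 (Bv σ y)) →
      ∃ C, ∀ y : Vec d, (y b - y i) ^ 2 ≤ C * ∑ σ, μ σ * N2 (Bv σ y) := by
    rintro a b ⟨σ, hσ, h⟩ ⟨C, hC⟩
    have m0 := (hμ.1 σ).lt_of_ne' hσ
    refine ⟨2 * C + 2 * (μ σ)⁻¹, fun y => ?_⟩
    have a1 : (y a - y b) ^ 2 ≤ N2 (Bv σ y) := by
      rcases h with rfl | rfl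
      · simpa [Bv, Pv] using sq_le_N2 (Bv σ y) (σ a)
      · rw [← neg_sub, neg_sq]; simpa [Bv, Pv] using sq_le_N2 (Bv σ y) (σ b)
    have a2 : N2 (Bv σ y) ≤ (μ σ)⁻¹ * ∑ σ, μ σ * N2 (Bv σ y) := by
      rw [le_inv_mul_iff₀ m0]
      exact single_le_sum (f := fun σ => μ σ * N2 (Bv σ y))
        (fun σ _ => mul_nonneg (hμ.1 σ) (N2_nonneg _)) (mem_univ σ)
    nlinarith [hC y, sq_nonneg (y a - y i + (y a - y b))]
  have h2 := const_of_inv hU
    (v := fun a => ∃ C, ∀ y : Vec d, (y a - y i) ^ 2 ≤ C * ∑ σ, μ σ * N2 (Bv σ y))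
    fun σ hσ a => propext ⟨h1 _ _ ⟨σ, hσ, Or.inr rfl⟩, h1 _ _ ⟨σ, hσ, Or.inl rfl⟩⟩
  choose C hC using fun a => (h2 i a).mp ⟨0, fun y => by simp⟩
  refine ⟨1 + |∑ a, C a|, by linarith [abs_nonneg (∑ a, C a)], fun y hy => ?_⟩
  have h3 := sum_le_sum fun a (_ : a ∈ univ) => hC a y
  simp only [sub_sq, sum_add_distrib, sum_sub_distrib, ← sum_mul, ← mul_sum, hy] at h3
  have h4 : 0 ≤ ∑ _a : Fin d, y i ^ 2 := sum_nonneg fun _ _ => sq_nonneg _
  have h5 := mul_le_mul_of_nonneg_right (le_abs_self (∑ a, C a)) (D0 y)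
  rw [N2]
  linarith [D0 y]

theorem contract (hμ : IsProb μ) (hU : (uMat μ).IsIrreducible) (i : Fin d) (c0 : 0 < c)
    (c1 : c ≤ 1) : ∃ g, 0 < g ∧ g ≤ 1 ∧ ∀ θ, c ≤ θ → θ ≤ 1 - c → ∀ y : Vec d, ∑ l, y l = 0 →
      ∑ σ, μ σ * N2 (Av θ σ y) ≤ (1 - g) * N2 y := by
  obtain ⟨C, C1, hC⟩ := dirichlet hμ hU i
  refine ⟨c ^ 2 / C, by positivity, (div_le_one (by linarith)).2 (by nlinarith),
    fun θ a1 a2 y hy => ?_⟩
  simp only [N2_Av, mul_sub (μ _), sum_sub_distrib, hμ.sum_const, mul_left_comm (μ _), ← mul_sum]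
  have h1 := (div_le_iff₀' (by linarith)).2 (hC y hy)
  have h2 : c ^ 2 ≤ θ * (1 - θ) := by nlinarith
  have h3 := mul_le_mul h2 h1 (div_nonneg (N2_nonneg y) (by linarith)) (by nlinarith)
  rw [sub_mul, div_mul_eq_mul_div, mul_div_assoc]
  linarith

theorem Drift.tail (hμ : IsProb μ) {r C : ℝ} (hd : Drift μ n k r C) (C0 : 0 ≤ C) (n1 : 1 ≤ n)
    (i : Fin d) {L q : ℝ} (L0 : 0 < L) {m : ℕ}
    (hq : ∀ y : Vec d, ∑ l, y l = 0 → N2 y ≤ d ^ 2 * n ^ 2 →
      (KY μ ((k : ℝ) / n) ^ m) (fun z => if L ^ 2 * n / (4 * d) < N2 z then 1 else 0) y ≤ q)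
    {c : Sl d n → Fin d} (hc : Valid c) :
    (op μ (stC k) ^ m) (fun x => if L ^ 2 * n < Qu x then 1 else 0) c ≤
      d * (4 * C * d ^ 2 / L ^ 2 + q) := by
  have n0 : (0 : ℝ) < n := by exact_mod_cast n1
  have d0 : (0 : ℝ) < d := by exact_mod_cast i.pos
  let f : Fin d → Fin d → ℝ := fun j i => (if i = j then (1 : ℝ) else 0) - 1 / d
  have e : ∀ c : Sl d n → Fin d, Qu c = ∑ j, N2 (vec (f j ∘ c)) := fun c => by
    simp only [f, Qu, N2, vec, cnt_cast, Function.comp, sum_sub_distrib, sum_const, card_univ,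
      Fintype.card_fin, nsmul_eq_mul, mul_one_div]
  refine (pow_le hμ (F' := fun x => ∑ j, if L ^ 2 * n / d < N2 (vec (f j ∘ x)) then 1 else 0)
    (fun x => ?_) m c).trans ?_
  · have a1 : ∀ j ∈ univ, 0 ≤ if L ^ 2 * n / d < N2 (vec (f j ∘ x)) then (1 : ℝ) else 0 :=
      fun j _ => by split_ifs <;> norm_num
    split_ifs with a2
    · obtain ⟨j, -, a3⟩ := exists_lt_of_sum_lt (s := univ) (f := fun _ : Fin d => L ^ 2 * n / d)
        (g := fun j => N2 (vec (f j ∘ x))) (by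
          rw [← e, sum_const, card_univ, Fintype.card_fin, nsmul_eq_mul, mul_div_cancel₀ _ d0.ne']
          exact a2)
      exact (if_pos a3).ge.trans (single_le_sum a1 (mem_univ j))
    · exact sum_nonneg a1
  rw [pow_sum_apply]
  refine (sum_le_sum (g := fun _ => 4 * C * d ^ 2 / L ^ 2 + q) fun j _ => ?_).trans_eq
    (by rw [sum_const, card_univ, Fintype.card_fin, nsmul_eq_mul])
  have a1 := pow_comp (μ := μ) (st := stC k) (st' := stC k) (φ := fun x : Sl d n → Fin d => f j ∘ x)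
    (fun _ _ _ => rfl) (fun a => if L ^ 2 * n / d < N2 (vec a) then 1 else 0) m c
  have a2 := pow_comp (μ := μ) (st := stJ k) (st' := stC k) (φ := Prod.fst) (fun _ _ _ => rfl)
    (fun a : Sl d n → ℝ => if L ^ 2 * n / d < N2 (vec a) then 1 else 0) m (f j ∘ c, vec (f j ∘ c))
  have a3 := pow_comp (μ := μ) (st := stJ k) (st' := stY (Sh d n) ((k : ℝ) / n)) (φ := Prod.snd)
    (fun _ _ _ => rfl) (fun z => if L ^ 2 * n / (4 * d) < N2 z then 1 else 0) m
    (f j ∘ c, vec (f j ∘ c))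
  have a4 := hd m (f j ∘ c) (vec (f j ∘ c)) (by simp)
  have a5 : ∑ s, (f j ∘ c) s ^ 2 ≤ (d : ℝ) * n := by
    have h2 : (1 : ℝ) / d ≤ 1 := div_le_self zero_le_one (by exact_mod_cast j.pos)
    have h3 : (0 : ℝ) ≤ 1 / d := by positivity
    refine (sum_le_sum (g := fun _ => 1) fun s _ => ?_).trans (by simp)
    simp only [f, Function.comp]
    split_ifs <;> nlinarith
  have a6 := hq (vec (f j ∘ c)) (by
      simp only [sum_vec, f, Function.comp, sum_sub_distrib, hc.sum, sum_const, card_univ,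
        Fintype.card_prod, Fintype.card_fin, nsmul_eq_mul]
      push_cast
      field_simp
      ring)
    ((single_le_sum (f := fun j => N2 (vec (f j ∘ c))) (fun _ _ => N2_nonneg _)
      (mem_univ j)).trans ((e c).ge.trans (Qu_le c)))
  rw [sub_self, show N2 (0 : Vec d) = 0 by simp [N2], mul_zero, zero_add] at a4
  rw [a1, ← a2]
  refine (pow_le hμ (F' := fun s => (L ^ 2 * n / (4 * d))⁻¹ * N2 (vec s.1 - s.2) +
    if L ^ 2 * n / (4 * d) < N2 s.2 then 1 else 0) (fun s => ?_) m _).trans ?_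
  · have b1 : 0 ≤ (L ^ 2 * n / (4 * d))⁻¹ * N2 (vec s.1 - s.2) :=
      mul_nonneg (by positivity) (N2_nonneg _)
    split_ifs with b2 b3 b3 <;> try linarith
    rw [add_zero, le_inv_mul_iff₀ (by positivity), mul_one]
    have b4 := N2_sub (vec s.1 - s.2) ((-1 : ℝ) • s.2)
    rw [N2_smul, neg_one_smul, sub_neg_eq_add, sub_add_cancel] at b4
    rw [show L ^ 2 * n / d = 4 * (L ^ 2 * n / (4 * d)) by field_simp] at b2
    linarith [not_lt.1 b3]
  · rw [pow_add_apply, pow_mul_apply, a3, opY_eq]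
    refine add_le_add ((mul_le_mul_of_nonneg_left (a4.trans (mul_le_mul_of_nonneg_left a5 C0))
      (by positivity)).trans_eq ?_) a6
    field_simp

theorem sandwich (hμ : IsProb μ) (hU : (uMat μ).IsIrreducible) (hd : 2 ≤ d) (c0 : 0 < c)
    (κ : ℝ) : ∃ g, 0 < g ∧ ∀ η ε : ℝ, 0 < η → η ≤ 1 → 0 < ε → ∀ᶠ n : ℕ in atTop, ∀ k : ℕ,
      Good μ c κ (k / n) → (k : ℝ) / n ≤ 1 - c → ∀ π, IsStationary (jump μ n k) π →
      ∃ T, Real.log n ≤ κ * T ∧ g * T ≤ Real.log n ∧ dist (jump μ n k) π ((1 + η) * T) ≤ ε ∧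
        ∀ s, 0 ≤ s → s < (1 - η) * T → 1 - ε < dist (jump μ n k) π s := by
  by_cases c1 : c ≤ 1 ∧ 1 ≤ κ
  swap
  · exact ⟨1, one_pos, fun _ _ _ _ _ => Eventually.of_forall fun n k h =>
      absurd ⟨h.lo.trans h.hi, h.one⟩ c1⟩
  obtain ⟨c1, κ1⟩ := c1
  let i : Fin d := ⟨0, by omega⟩
  have d0 : (0 : ℝ) < d := by exact_mod_cast i.pos
  obtain ⟨g, g0, g1, hg⟩ := contract hμ hU i c0 c1
  let W : Submodule ℝ (Vec d) := LinearMap.ker (∑ i, LinearMap.proj i : _ →ₗ[ℝ] ℝ)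
  have hW : ∀ v, v ∈ W ↔ ∑ i, v i = 0 := fun v => by simp [W]
  have hC : Conc μ W c κ := conc_all hμ
    (fun σ _ v hv => (hW _).2 ((Equiv.sum_comp σ.symm v).trans ((hW v).1 hv)))
    ((Submodule.ne_bot_iff W).2 ⟨fun l => (if l = i then 1 else 0) - if l = ⟨1, hd⟩ then 1 else 0,
      (hW _).2 (by simp), fun h => by simpa [i] using congrFun h i⟩)
  refine ⟨g / 2, by positivity, fun η ε η0 η1 ε0 => ?_⟩
  have gi : 1 ≤ g⁻¹ := (one_le_inv₀ g0).2 g1
  have C0 : 0 ≤ 4 * g⁻¹ ^ 3 := by positivity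
  have hD : ∀ n k : ℕ, 1 ≤ n → Good μ c κ (k / n) → (k : ℝ) / n ≤ 1 - c →
      k ≤ n ∧ Drift μ n k (1 - g) (4 * g⁻¹ ^ 3) := fun n k n1 h hk => by
    have kn : k ≤ n := by exact_mod_cast (div_le_one (by exact_mod_cast n1)).1 h.hi
    refine ⟨kn, drift hμ kn psd_dot gi (fun z _ => ?_) (fun z => ?_) (fun z hz => ?_)
      (by linarith) ?_⟩
    · rw [dot_self]; exact le_mul_of_one_le_left (N2_nonneg z) gi
    · rw [dot_self]; exact le_mul_of_one_le_left (N2_nonneg z) gi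
    · simpa only [dot_self] using hg _ h.lo hk z hz
    · rw [sub_sub_cancel, inv_mul_cancel₀ g0.ne']; exact h.hi
  generalize 4 * g⁻¹ ^ 3 = C at *
  obtain ⟨δ, δ0, δ1, δ2⟩ := exists_small (5 * (d + 1)) ε ε0
  obtain ⟨L, L0, hL⟩ := exists_big (4 * d ^ 3 + 4 * C * d ^ 2 + C) δ δ0
  obtain ⟨t, ρ, t0, ρ0, h1⟩ := small_err d C0 L0.le δ0
  obtain ⟨m, hm⟩ := exists_pow_lt_of_lt_one ρ0 (show 1 - g < 1 by linarith)
  obtain ⟨e, e0, -, e1⟩ := exists_small 1 (min δ (min (1 / 4) (g * η / 16))) (by positivity)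
  simp only [one_mul, le_min_iff] at e1
  obtain ⟨e1, e2, e3⟩ := e1
  obtain ⟨m₀, hm₀⟩ := hC e e0
  have L1 : 4 * C * d ^ 2 / L ^ 2 ≤ δ ∧ C / L ^ 2 + 2 * C * d ^ 2 / L ^ 2 ≤ δ ∧
      4 * d ^ 3 ≤ L ^ 2 := by
    rw [← add_div]
    simp only [div_le_iff₀ (pow_pos L0 2)] at hL ⊢
    have := mul_nonneg C0 (sq_nonneg (d : ℝ))
    have := pow_pos d0 3
    have := mul_le_of_le_one_left (sq_nonneg L) δ1
    exact ⟨by linarith, by linarith, by linarith⟩
  filter_upwards [h1, eventually_ge_atTop 1, log_ev 1, log_ev (κ * m₀),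
    log_ev (κ * (4 / η * (2 * m + 2))), log_ev (κ * (8 / (η ^ 2 * δ))), log_ev (16 * L ^ 2 / η),
    tendsto_natCast_atTop_atTop.eventually_gt_atTop (4 * L ^ 2 * Real.exp (κ * m₀))]
    with n h1 n1 l1 l2 l3 l4 l5 l6 k h hk π hπ
  obtain ⟨kn, hd'⟩ := hD n k n1 h hk
  have n0 : (0 : ℝ) < n := by exact_mod_cast n1
  obtain ⟨l, a1, a2, y₀, a3, a4, a5⟩ := hm₀ _ h
  have a6 : l ≤ -(g / 2) := by
    by_contra a6
    obtain ⟨M, b1⟩ := exists_nat_ge (max (m₀ : ℝ) (4 / g))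
    obtain ⟨b1, b2⟩ := max_le_iff.1 b1
    have b3 := lyap (st := stY Unit ((k : ℝ) / n)) hμ (I := fun y => ∑ l, y l = 0)
      (fun σ _ y _ hy => (sum_Av _ σ y).trans hy) (J := N2) (r := 1 - g) (b := 0) (by linarith)
      (fun y hy => by rw [opY, mul_zero, add_zero]; exact hg _ h.lo hk y hy) M ((hW y₀).1 a3)
    have b4 := pow_le hμ (st := stY Unit ((k : ℝ) / n)) (F' := N2)
      (F := fun z => Real.exp ((l - e) * M) * N2 y₀ *
        (1 - if N2 z ≤ Real.exp ((l - e) * M) * N2 y₀ then 1 else 0)) (fun z => by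
        split_ifs with b4
        · simpa using N2_nonneg z
        · simpa using (not_le.1 b4).le) M y₀
    rw [pow_mul_apply, pow_sub_apply, pow_const hμ] at b4
    have b5 := mul_le_mul_of_nonneg_left (a5 M (by exact_mod_cast b1))
      (mul_pos (Real.exp_pos ((l - e) * M)) a4).le
    have b6 := mul_le_mul_of_nonneg_right (one_sub_pow_le g1 M) a4.le
    have b7 : 2 * Real.exp (-(M * g)) ≤ Real.exp ((l - e) * M) := by
      rw [show (l - e) * M = (l - e + g) * M + -(M * g) by ring, Real.exp_add]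
      rw [div_le_iff₀ g0] at b2
      have b8 := mul_le_mul_of_nonneg_right (show g / 4 ≤ l - e + g by
        linarith [mul_le_of_le_one_right g0.le η1]) (Nat.cast_nonneg (α := ℝ) M)
      exact mul_le_mul_of_nonneg_right (by linarith [Real.add_one_le_exp ((l - e + g) * M)])
        (Real.exp_pos _).le
    have b8 := mul_le_mul_of_nonneg_right b7 a4.le
    have b9 := mul_pos (Real.exp_pos ((l - e) * M)) a4
    have b10 := mul_le_mul_of_nonneg_left e2 b9.le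
    linarith
  have l0 : 0 < -l := by linarith
  obtain ⟨T, T0, hT⟩ : ∃ T, 0 < T ∧ Real.log n = -l * T :=
    ⟨Real.log n / -l, by positivity, (mul_div_cancel₀ _ l0.ne').symm⟩
  have κ0 : 0 < κ := by linarith
  have T1 : Real.log n ≤ κ * T := hT ▸ mul_le_mul_of_nonneg_right (by linarith) T0.le
  have T2 : (m₀ : ℝ) ≤ T := le_of_mul_le_mul_left (l2.trans T1) κ0
  have T3 := le_of_mul_le_mul_left (l3.trans T1) κ0
  have T4 := le_of_mul_le_mul_left (l4.trans T1) κ0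
  rw [div_mul_eq_mul_div, div_le_iff₀ η0] at T3
  rw [div_le_iff₀ (by positivity)] at T4
  have ηT := mul_pos η0 T0
  have T5 : 2 * T / (η / 2 * T) ^ 2 ≤ δ := by
    rw [div_le_iff₀ (by positivity)]
    linarith [mul_le_mul_of_nonneg_right T4 T0.le]
  have e4 : e ≤ -l * η / 8 := by linarith [mul_le_mul_of_nonneg_right a6 η0.le]
  refine ⟨T, T1, hT ▸ mul_le_mul_of_nonneg_right (by linarith) T0.le, ?_, fun s s0 hs => ?_⟩
  · refine (dist_upper hμ kn hd' C0 (by linarith) (by linarith) i n1 hπ L0.le t0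
      (p := d * (2 * δ)) (M := (1 + η / 4) * T) (by positivity) hm.le (by positivity)
      (fun M hM x hx => (hd'.tail hμ C0 n1 i L0 (q := e) (fun y b1 b2 => ?_) hx).trans
        (mul_le_mul_of_nonneg_left (by linarith [L1.1]) d0.le)) (by linarith)).trans ?_
    · refine le_trans (pow_le hμ (fun z => ?_) M y)
        (a2 M (by exact_mod_cast (show (m₀ : ℝ) ≤ M by linarith)) y ((hW y).2 b1))
      have b3 : Real.exp ((l + e) * M) ≤ (n : ℝ)⁻¹ := by
        rw [← Real.exp_log n0, ← Real.exp_neg, Real.exp_le_exp, hT]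
        have b4 := mul_le_mul_of_nonneg_left η1 l0.le
        have b5 := mul_le_mul_of_nonneg_left hM (show 0 ≤ -(l + e) by linarith)
        have b6 := mul_le_mul_of_nonneg_right e4 T0.le
        have b7 := mul_le_mul_of_nonneg_left η1 (mul_pos e0 T0).le
        have b8 := mul_pos e0 T0
        linarith
      have b4 : Real.exp ((l + e) * M) * N2 y ≤ L ^ 2 * n / (4 * d) := by
        refine (mul_le_mul b3 b2 (N2_nonneg y) (by positivity)).trans ?_
        rw [le_div_iff₀ (by positivity), show (n : ℝ)⁻¹ * (d ^ 2 * n ^ 2) * (4 * d) =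
          4 * d ^ 3 * n by field_simp]
        exact mul_le_mul_of_nonneg_right L1.2.2 n0.le
      split_ifs with b5 b6
      · exact le_rfl
      · exact absurd (b4.trans_lt b5) b6
      · exact zero_le_one
      · exact le_rfl
    · have b1 : (1 + η) * T / ((1 + η) * T - ((1 + η / 4) * T + (2 * m + 2))) ^ 2 ≤
          2 * T / (η / 2 * T) ^ 2 := by
        gcongr <;> linarith
      linarith [mul_pos d0 δ0]
  · refine lt_of_lt_of_le ?_ (dist_lower hμ kn hd' C0 (by linarith) (by linarith) n1 hπ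
      ((hW y₀).1 a3) a4 L0 (q := e) (M := (1 - η / 2) * T) e0.le s0 (by linarith) fun M hM => ?_)
    · have b1 : s / ((1 - η / 2) * T - s) ^ 2 ≤ 2 * T / (η / 2 * T) ^ 2 := by
        gcongr <;> linarith
      linarith [mul_pos d0 δ0, L1.2.1]
    rw [opY_eq]
    rcases le_total m₀ M with b1 | b1
    · refine le_trans (pow_le hμ (fun z => ?_) M y₀) (a5 M b1)
      have b2 : 4 * L ^ 2 * N2 y₀ / n ≤ Real.exp ((l - e) * M) * N2 y₀ := by
        have b3 : Real.exp (η / 4 * Real.log n - Real.log n) ≤ Real.exp ((l - e) * M) := by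
          rw [Real.exp_le_exp, hT]
          have b5 := mul_le_mul_of_nonneg_left hM (show 0 ≤ -(l - e) by linarith)
          have b6 := mul_le_mul_of_nonneg_right e4 T0.le
          have b7 := mul_pos e0 ηT
          have b8 := mul_pos l0 ηT
          linarith
        rw [mul_div_right_comm]
        refine mul_le_mul_of_nonneg_right (le_trans ?_ b3) a4.le
        rw [Real.exp_sub, Real.exp_log n0]
        rw [div_le_iff₀ η0] at l5
        exact div_le_div_of_nonneg_right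
          (by linarith [Real.add_one_le_exp (η / 4 * Real.log n)]) n0.le
      split_ifs with b5 b6
      · exact le_rfl
      · exact absurd (b5.trans b2) b6
      · exact zero_le_one
      · exact le_rfl
    · refine (h.range hμ (W := ⊤) (fun _ _ _ _ => trivial) (F' := fun _ => e) M trivial a4
        fun z _ z0 b2 _ => ?_).trans_eq (pow_const hμ _ _ _)
      rw [if_neg fun b3 => ?_]
      · exact e0.le
      have b4 : N2 z < Real.exp (-(κ * m₀)) * N2 y₀ := by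
        refine b3.trans_lt ?_
        rw [mul_div_right_comm, Real.exp_neg]
        refine mul_lt_mul_of_pos_right ?_ a4
        rwa [div_lt_iff₀ n0, lt_inv_mul_iff₀ (Real.exp_pos _), mul_comm]
      have b5 := Real.log_lt_log z0 b4
      rw [Real.log_mul (Real.exp_pos _).ne' a4.ne', Real.log_exp] at b5
      have b6 := mul_le_mul_of_nonneg_left (Nat.cast_le (α := ℝ).2 b1) κ0.le
      unfold lg at b2
      linarith

theorem inv_far (c0 : 0 < c) (h0 : 0 ≤ θ) (h1 : θ ≤ 1) (h : c ≤ |2 * θ - 1|) (σ : Perm (Fin d))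
    (y : Vec d) : N2 y ≤ Real.exp (1 + (c ^ 2)⁻¹) * N2 (Av θ σ y) := by
  have a1 := N2_sub (Pv σ y) y
  have a2 := pow_le_pow_left₀ c0.le h 2
  rw [N2_Pv] at a1
  rw [sq_abs] at a2
  have a3 : c ^ 2 * N2 y ≤ N2 (Av θ σ y) := by
    rw [N2_Av, Bv]
    linarith [mul_le_mul_of_nonneg_left a1 (mul_nonneg h0 (sub_nonneg.2 h1)),
      mul_le_mul_of_nonneg_right a2 (N2_nonneg y)]
  rw [← le_inv_mul_iff₀ (by positivity)] at a3
  exact a3.trans (mul_le_mul_of_nonneg_right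
    (by linarith [Real.add_one_le_exp (1 + (c ^ 2)⁻¹)]) (N2_nonneg _))

theorem inv_odd {σ : Perm (Fin d)} (h : Odd (orderOf σ)) (θ : ℝ) (y : Vec d) :
    N2 y ≤ Real.exp (1 + d * d.factorial ^ 2) * N2 (Av θ σ y) := by
  have a1 : N2 (Pv σ y + y) ≤ 4 * N2 (Av θ σ y) := by
    have b1 : N2 (Pv σ y + y) + N2 (Bv σ y) = 2 * N2 (Pv σ y) + 2 * N2 y := by
      simp only [N2, Bv, Pi.add_apply, Pi.sub_apply, mul_sum, ← sum_add_distrib]
      exact sum_congr rfl fun i _ => by ring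
    rw [N2_Pv] at b1
    rw [N2_Av]
    linarith [mul_nonneg (sq_nonneg (2 * θ - 1)) (N2_nonneg (Bv σ y))]
  have a2 : ∀ (j : ℕ) i, |y i - (-1) ^ j * y ((σ⁻¹ ^ j) i)| ≤ j * √(N2 (Pv σ y + y)) := by
    intro j i
    induction j with
    | zero => simp
    | succ j ih =>
      have b1 := Real.abs_le_sqrt (sq_le_N2 (Pv σ y + y) ((σ⁻¹ ^ j) i))
      rw [show y i - (-1) ^ (j + 1) * y ((σ⁻¹ ^ (j + 1)) i) = y i - (-1) ^ j * y ((σ⁻¹ ^ j) i) +
        (-1) ^ j * (Pv σ y + y) ((σ⁻¹ ^ j) i) by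
          rw [pow_succ' σ⁻¹, Perm.mul_apply]; simp only [Pv, Pi.add_apply, Perm.inv_def]; ring]
      refine (abs_add_le _ _).trans ?_
      rw [abs_mul, abs_neg_one_pow, Nat.cast_succ]
      linarith
  have a3 : ∀ i, 4 * y i ^ 2 ≤ d.factorial ^ 2 * N2 (Pv σ y + y) := fun i => by
    have b1 := a2 (orderOf σ) i
    rw [inv_pow, pow_orderOf_eq_one, h.neg_one_pow] at b1
    have b2 : (orderOf σ : ℝ) ≤ d.factorial := by
      exact_mod_cast orderOf_le_card_univ.trans_eq (by rw [Fintype.card_perm, Fintype.card_fin])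
    have b3 := pow_le_pow_left₀ (abs_nonneg _) (b1.trans (mul_le_mul_of_nonneg_right b2
      (Real.sqrt_nonneg _))) 2
    rw [sq_abs, mul_pow, Real.sq_sqrt (N2_nonneg _), inv_one, Perm.one_apply] at b3
    linarith
  have a4 := sum_le_sum fun i (_ : i ∈ univ) => a3 i
  rw [← mul_sum, sum_const, card_univ, Fintype.card_fin, nsmul_eq_mul] at a4
  have a5 := mul_le_mul_of_nonneg_left a1 (show (0 : ℝ) ≤ d * d.factorial ^ 2 by positivity)
  have a6 := mul_le_mul_of_nonneg_right (Real.add_one_le_exp (1 + d * d.factorial ^ 2))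
    (N2_nonneg (Av θ σ y))
  rw [N2]
  linarith [N2_nonneg (Av θ σ y)]

theorem cutoff_good (hμ : IsProb μ) (hU : (uMat μ).IsIrreducible) (hd : 2 ≤ d) (c0 : 0 < c)
    {k : ℕ → ℕ} (hk : ∀ᶠ n : ℕ in atTop, Good μ c κ (k n / n) ∧ (k n : ℝ) / n ≤ 1 - c)
    {π : ∀ n, State d n → ℝ} (hπ : ∀ᶠ n in atTop, IsStationary (jump μ n (k n)) (π n)) :
    (∀ ε : ℝ, 0 < ε → ε < 1 → Tendsto (fun n : ℕ => tmix (jump μ n (k n)) (π n) ε /
      tmix (jump μ n (k n)) (π n) (1 - ε)) atTop (nhds 1)) ∧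
    ∃ a b : ℝ, 0 < a ∧ 0 < b ∧ ∀ᶠ n : ℕ in atTop,
      a * Real.log n ≤ tmix (jump μ n (k n)) (π n) (1 / 4) ∧
        tmix (jump μ n (k n)) (π n) (1 / 4) ≤ b * Real.log n := by
  obtain ⟨g, g0, h⟩ := sandwich hμ hU hd c0 κ
  have κ0 : 0 < κ := zero_lt_one.trans_le hk.exists.choose_spec.1.one
  have h1 : ∀ η ε : ℝ, 0 < η → η ≤ 1 → 0 < ε → ∀ᶠ n : ℕ in atTop, ∃ T, 0 < T ∧
      Real.log n ≤ κ * T ∧ g * T ≤ Real.log n ∧ ∀ ε', ε ≤ ε' → ε' ≤ 1 - ε →
        (1 - η) * T ≤ tmix (jump μ n (k n)) (π n) ε' ∧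
          tmix (jump μ n (k n)) (π n) ε' ≤ (1 + η) * T := fun η ε η0 η1 ε0 => by
    filter_upwards [h η ε η0 η1 ε0, hk, hπ, log_ev 1] with n a1 a2 a3 a4
    obtain ⟨T, b1, b2, b3, b4⟩ := a1 _ a2.1 a2.2 _ a3
    have T0 : 0 < T := (pos_iff_pos_of_mul_pos (zero_lt_one.trans_le (a4.trans b1))).1 κ0
    exact ⟨T, T0, b1, b2, fun ε' b5 b6 => ⟨le_tmix (by positivity) (b3.trans b5)
      fun s s0 hs => b6.trans_lt (b4 s s0 hs), tmix_le (by positivity) (b3.trans b5)⟩⟩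
  refine ⟨fun ε ε0 ε1 => ?_, 1 / (2 * κ), 2 / g, by positivity, by positivity, ?_⟩
  · have h2 : ∀ η : ℝ, 0 < η → η ≤ 1 / 2 → ∀ᶠ n : ℕ in atTop,
        1 - 2 * η ≤ tmix (jump μ n (k n)) (π n) ε / tmix (jump μ n (k n)) (π n) (1 - ε) ∧
        tmix (jump μ n (k n)) (π n) ε / tmix (jump μ n (k n)) (π n) (1 - ε) ≤ 1 + 4 * η := by
      intro η η0 η1
      filter_upwards [h1 η (min ε (1 - ε)) η0 (by linarith) (lt_min ε0 (by linarith))] with n hn
      obtain ⟨T, T0, -, -, a1⟩ := hn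
      obtain ⟨a2, a3⟩ := a1 ε (min_le_left _ _) (by linarith [min_le_right ε (1 - ε)])
      obtain ⟨a4, a5⟩ := a1 (1 - ε) (min_le_right _ _) (by linarith [min_le_left ε (1 - ε)])
      have a6 : 0 < tmix (jump μ n (k n)) (π n) (1 - ε) := (mul_pos (by linarith) T0).trans_le a4
      have a7 := mul_pos η0 T0
      rw [le_div_iff₀ a6, div_le_iff₀ a6]
      have a8 := mul_le_mul_of_nonneg_left a5 (show 0 ≤ 1 - 2 * η by linarith)
      have a9 := mul_le_mul_of_nonneg_left a4 (show 0 ≤ 1 + 4 * η by linarith)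
      exact ⟨by linarith [mul_pos η0 a7], by linarith [mul_le_mul_of_nonneg_right η1 a7.le]⟩
    refine tendsto_order.2 ⟨fun a ha => ?_, fun a ha => ?_⟩
    · filter_upwards [h2 (min ((1 - a) / 4) (1 / 2)) (lt_min (by linarith) (by norm_num))
        (min_le_right _ _)] with n hn
      linarith [hn.1, min_le_left ((1 - a) / 4) (1 / 2)]
    · filter_upwards [h2 (min ((a - 1) / 8) (1 / 2)) (lt_min (by linarith) (by norm_num))
        (min_le_right _ _)] with n hn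
      linarith [hn.2, min_le_left ((a - 1) / 8) (1 / 2)]
  · filter_upwards [h1 (1 / 2) (1 / 4) (by norm_num) (by norm_num) (by norm_num)] with n hn
    obtain ⟨T, T0, a1, a2, a3⟩ := hn
    obtain ⟨a4, a5⟩ := a3 (1 / 4) le_rfl (by norm_num)
    rw [← div_le_iff₀' κ0] at a1
    rw [← le_div_iff₀' g0] at a2
    exact ⟨by rw [show 1 / (2 * κ) * Real.log n = Real.log n / κ / 2 by field_simp]; linarith,
      by rw [show 2 / g * Real.log n = Real.log n / g * 2 by field_simp]; linarith⟩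

theorem good_ev (c0 : 0 < c) {k : ℕ → ℕ}
    (hk : ∀ᶠ n : ℕ in atTop, c * n ≤ k n ∧ (k n : ℝ) ≤ (1 - c) * n)
    (h : (∀ᶠ n : ℕ in atTop, c * n ≤ |2 * (k n : ℝ) - n|) ∨ ∀ σ, μ σ ≠ 0 → Odd (orderOf σ)) :
    ∃ κ, ∀ᶠ n : ℕ in atTop, Good μ c κ (k n / n) ∧ (k n : ℝ) / n ≤ 1 - c := by
  have h1 : ∀ᶠ n : ℕ in atTop, (0 : ℝ) < n ∧ c ≤ (k n : ℝ) / n ∧ (k n : ℝ) / n ≤ 1 - c := by
    filter_upwards [hk, eventually_gt_atTop 0] with n a1 a2
    have n0 : (0 : ℝ) < n := by exact_mod_cast a2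
    exact ⟨n0, (le_div_iff₀ n0).2 a1.1, (div_le_iff₀ n0).2 a1.2⟩
  rcases h with h | h
  · refine ⟨1 + (c ^ 2)⁻¹, ?_⟩
    filter_upwards [h1, h] with n ⟨n0, a1, a2⟩ a3
    refine ⟨⟨c0, a1, by linarith, le_add_of_nonneg_right (by positivity), fun σ _ =>
      inv_far c0 (by linarith) (by linarith) ?_ σ⟩, a2⟩
    rw [show 2 * ((k n : ℝ) / n) - 1 = (2 * k n - n) / n by field_simp, abs_div, abs_of_pos n0,
      le_div_iff₀ n0]
    exact a3
  · refine ⟨1 + d * d.factorial ^ 2, ?_⟩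
    filter_upwards [h1] with n ⟨_, a1, a2⟩
    exact ⟨⟨c0, a1, by linarith, le_add_of_nonneg_right (by positivity),
      fun σ hσ => inv_odd (h σ hσ) _⟩, a2⟩

end Pool.Agent.P.MP_1e2081_pr
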