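import Pool.Agent.P.MP_1e2081_pr.Conc

/-!
A law of large numbers for the random product, uniform in the parameter.
-/

set_option autoImplicit false

namespace Pool.Agent.P.MP_1e2081_pr

open Finset Equiv

variable {d : ℕ} {μ : Perm (Fin d) → ℝ} {W : Submodule ℝ (Vec d)} {c κ θ : ℝ}

/-- Uniform concentration of the growth rate on `W`. -/
def Conc (μ : Perm (Fin d) → ℝ) (W : Submodule ℝ (Vec d)) (c κ : ℝ) : Prop :=
  ∀ ε, 0 < ε → ∃ m₀ : ℕ, ∀ θ, Good μ c κ θ → ∃ l, -κ ≤ l ∧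
    (∀ m : ℕ, m₀ ≤ m → ∀ y ∈ W,
      (KY μ θ ^ m) (fun z => if Real.exp ((l + ε) * m) * N2 y < N2 z then 1 else 0) y ≤ ε) ∧
    ∃ y ∈ W, 0 < N2 y ∧ ∀ m : ℕ, m₀ ≤ m →
      (KY μ θ ^ m) (fun z => if N2 z ≤ Real.exp ((l - ε) * m) * N2 y then 1 else 0) y ≤ ε

theorem exp_small {a p : ℝ} (a0 : 0 < a) (p0 : 0 < p) :
    ∃ N : ℕ, 1 ≤ N ∧ ∀ t : ℕ, N ≤ t → Real.exp (2 - a * t) ≤ p := by
  refine ⟨⌈(2 - Real.log p) / a⌉₊ + 1, by omega, fun t ht => ?_⟩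
  rw [← Real.le_log_iff_exp_le p0]
  have h1 := (Nat.le_ceil ((2 - Real.log p) / a)).trans (Nat.cast_le.2 (Nat.le_of_succ_le ht))
  rw [div_le_iff₀ a0] at h1
  linarith

theorem pigeon {u : ℕ → ℝ} {e : ℝ} {J : ℕ} (h0 : -κ ≤ u 0) (h1 : u J ≤ 0) (hJ : κ < J * e) :
    ∃ j < J, u (j + 1) ≤ u j + e := by
  by_contra h
  push Not at h
  have h2 : ∀ j ≤ J, u 0 + j * e ≤ u j := fun j hj => by
    induction j with
    | zero => simp
    | succ j ih =>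
      push_cast
      linarith [ih (Nat.le_of_succ_le hj), h j hj]
  linarith [h2 J le_rfl]

theorem exists_small (B a : ℝ) (a0 : 0 < a) : ∃ e, 0 < e ∧ e ≤ 1 ∧ B * e ≤ a := by
  refine ⟨min 1 (a / (|B| + 1)), by positivity, min_le_left _ _, ?_⟩
  have h1 := min_le_right 1 (a / (|B| + 1))
  have h2 : 0 < min 1 (a / (|B| + 1)) := by positivity
  rw [le_div_iff₀ (by positivity)] at h1
  linarith [mul_le_mul_of_nonneg_right (le_abs_self B) h2.le]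

theorem conc_irr (hμ : IsProb μ) (hW : Inv μ W) (hi : Irr μ W) (h0 : W ≠ ⊥) : Conc μ W c κ := by
  intro ε ε0
  by_cases hc : 0 < c ∧ 1 ≤ κ
  swap
  · exact ⟨0, fun θ h => absurd ⟨h.pos, h.one⟩ hc⟩
  obtain ⟨c0, κ1⟩ := hc
  obtain ⟨x₀, x1, x2⟩ := Submodule.exists_mem_ne_zero_of_ne_bot h0
  obtain ⟨ε₁, e0, e1, e2⟩ := exists_small 2 ε ε0
  obtain ⟨C, D, D0, hf⟩ := Good.fast hμ hW hi c0 κ
  obtain ⟨e, e3, e4, e5⟩ := exists_small (D / (ε₁ / 4) * 2) (ε₁ / 4) (by positivity)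
  obtain ⟨p, p0, -, p1⟩ := exists_small (D / (ε₁ / 4) * κ) (ε₁ / 4) (by positivity)
  obtain ⟨N, N1, hN⟩ := exp_small (show 0 < e ^ 2 / (4 * κ ^ 2) by positivity) p0
  obtain ⟨b₀, b0, b1⟩ : ∃ b₀ : ℕ, 0 < b₀ ∧ C + D / (ε₁ / 4) ≤ ε₁ / 4 * b₀ := by
    refine ⟨⌈(C + D / (ε₁ / 4)) / (ε₁ / 4)⌉₊ + 1, by omega, ?_⟩
    have := Nat.le_ceil ((C + D / (ε₁ / 4)) / (ε₁ / 4))
    rw [div_le_iff₀ (by positivity)] at this
    push_cast
    linarith
  obtain ⟨J, hJ⟩ := exists_nat_gt (κ / e)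
  rw [div_lt_iff₀ e3] at hJ
  obtain ⟨m₀, -, hm⟩ := exp_small
    (show 0 < ε₁ ^ 2 / (4 * κ ^ 2 * (b₀ * N ^ J : ℕ)) by positivity) ε0
  have hm' : ∀ j ≤ J, ∀ t : ℕ, m₀ ≤ t →
      Real.exp (2 - ε₁ ^ 2 / (4 * κ ^ 2 * (b₀ * N ^ j : ℕ)) * t) ≤ ε := fun j hj t ht => by
    refine le_trans ?_ (hm t ht)
    gcongr
  refine ⟨m₀, fun θ h => ?_⟩
  let S : ℕ → Set ℝ := fun b => {g | ∃ y ∈ W, 0 < N2 y ∧ g = (KY μ θ ^ b) lg y - lg y}
  have S0 : ∀ b, (S b).Nonempty := fun b => ⟨_, x₀, x1, N2_pos x2, rfl⟩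
  have S1 : ∀ b : ℕ, ∀ g ∈ S b, -κ * b ≤ g ∧ g ≤ 0 := by
    rintro b _ ⟨y, a1, a2, rfl⟩
    have a3 := h.range hμ hW (F := fun _ => lg y - κ * b) b a1 a2 fun z _ _ a _ => a
    have a4 := h.range hμ hW (F' := fun _ => lg y) b a1 a2 fun z _ _ _ a => a
    rw [pow_const hμ] at a3 a4
    exact ⟨by linarith, by linarith⟩
  have S2 : ∀ b, ∀ g ∈ S b, sInf (S b) ≤ g := fun b g => csInf_le ⟨_, fun g hg => (S1 b g hg).1⟩
  have bp : ∀ j, 0 < b₀ * N ^ j := fun j => by positivity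
  have bp' : ∀ j, (0 : ℝ) < (b₀ * N ^ j : ℕ) := fun j => by exact_mod_cast bp j
  let u : ℕ → ℝ := fun j => sInf (S (b₀ * N ^ j)) / (b₀ * N ^ j : ℕ)
  have u0 : ∀ j, -κ ≤ u j := fun j =>
    (le_div_iff₀ (bp' j)).2 (le_csInf (S0 _) fun g hg => (S1 _ g hg).1)
  have u1 : ∀ j, u j ≤ 0 := fun j => div_nonpos_of_nonpos_of_nonneg
    ((S2 _ _ (S0 _).some_mem).trans (S1 _ _ (S0 _).some_mem).2) (bp' j).le
  have u2 : ∀ j, u j * (b₀ * N ^ j : ℕ) = sInf (S (b₀ * N ^ j)) := fun j =>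
    div_mul_cancel₀ _ (bp' j).ne'
  obtain ⟨j, j1, j2⟩ := pigeon (u0 0) (u1 J) hJ
  have a1 : ∀ y ∈ W, 0 < N2 y →
      -1 * ((KY μ θ ^ (b₀ * N ^ j)) lg y - lg y) ≤ -1 * u j * (b₀ * N ^ j : ℕ) := fun y a1 a2 => by
    linarith [S2 (b₀ * N ^ j) _ ⟨y, a1, a2, rfl⟩, u2 j]
  have a2 : |u j| ≤ κ := abs_le.2 ⟨u0 j, by linarith [u1 j]⟩
  obtain ⟨_, ⟨x, a3, a4, rfl⟩, a5⟩ := exists_lt_of_csInf_lt (S0 (b₀ * N ^ (j + 1))) (lt_add_one _)
  have a6 := hf θ h (u j) e (ε₁ / 4) p (b₀ * N ^ (j + 1)) (u0 j) (u1 j) e3.le (by positivity) x a3 a4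
    (by linarith [u2 (j + 1), mul_le_mul_of_nonneg_right j2 (bp' (j + 1)).le])
    ((h.tail hμ hW (bp j) (by simp) e3 e4 a2 a1 _ a3 a4).trans (le_of_eq_of_le (by
      have := (bp' j).ne'
      push_cast at this ⊢
      congr 2
      rw [pow_succ (N : ℝ) j]
      field_simp) (hN N le_rfl)))
  have a7 : ∀ y ∈ W, 0 < N2 y → 1 * ((KY μ θ ^ (b₀ * N ^ (j + 1))) lg y - lg y) ≤
      1 * (u j + ε₁) * (b₀ * N ^ (j + 1) : ℕ) := fun y a7 a8 => by
    have a9 : (b₀ : ℝ) ≤ (b₀ * N ^ (j + 1) : ℕ) := by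
      exact_mod_cast Nat.le_mul_of_pos_right _ (by positivity)
    linarith [a6 y a7 a8, mul_le_mul_of_nonneg_right e5 (bp' (j + 1)).le,
      mul_le_mul_of_nonneg_right p1 (bp' (j + 1)).le, mul_le_mul_of_nonneg_left a9 e0.le]
  refine ⟨u j, u0 j, fun m hm y hy => ?_, x₀, x1, N2_pos x2, fun m hm => ?_⟩
  · have mm := mul_le_mul_of_nonneg_right e2 (Nat.cast_nonneg (α := ℝ) m)
    by_cases y0 : y = 0
    · refine (pow_le_on hμ (I := fun z => N2 z ≤ N2 y) (fun σ _ z _ hz => (h.le σ z).trans hz)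
        (F' := fun _ => ε) (fun z hz => ?_) m le_rfl).trans_eq (pow_const hμ _ m y)
      rw [if_neg (by simpa [y0, show N2 (0 : Vec d) = 0 by simp [N2]] using hz)]
      exact ε0.le
    refine le_trans (pow_le hμ (fun z => ?_) m y) ((h.tail hμ hW (bp (j + 1)) abs_one e0 e1
      (abs_le.2 ⟨by linarith [u0 j], by linarith [u1 j]⟩) a7 m hy (N2_pos y0)).trans
      (hm' _ j1 m hm))
    split_ifs with d1 d2
    · exact le_rfl
    · have d3 := Real.log_le_log (mul_pos (Real.exp_pos _) (N2_pos y0)) d1.le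
      rw [Real.log_mul (Real.exp_pos _).ne' (N2_pos y0).ne', Real.log_exp] at d3
      exact absurd (by unfold lg; linarith) d2
    · exact zero_le_one
    · exact le_rfl
  · have mm := mul_le_mul_of_nonneg_right e2 (Nat.cast_nonneg (α := ℝ) m)
    have m1 := mul_nonneg e0.le (Nat.cast_nonneg (α := ℝ) m)
    refine le_trans (h.range hμ hW m x1 (N2_pos x2) fun z _ z0 _ _ => ?_)
      ((h.tail hμ hW (bp j) (by simp) e0 e1 a2 a1 m x1 (N2_pos x2)).trans (hm' _ j1.le m hm))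
    split_ifs with d1 d2
    · exact le_rfl
    · have d3 := Real.log_le_log z0 d1
      rw [Real.log_mul (Real.exp_pos _).ne' (N2_pos x2).ne', Real.log_exp] at d3
      exact absurd (by unfold lg; linarith) d2
    · exact zero_le_one
    · exact le_rfl

theorem conc_all (hμ : IsProb μ) (hW : Inv μ W) (h0 : W ≠ ⊥) : Conc μ W c κ := by
  induction hn : Module.finrank ℝ W using Nat.strong_induction_on generalizing W with
  | _ n ih =>
  by_cases hi : Irr μ W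
  · exact conc_irr hμ hW hi h0
  simp only [Irr, not_forall, not_or] at hi
  obtain ⟨W₁, a1, a2, a3, a4⟩ := hi
  obtain ⟨W₂, a5, a6, a7, a8⟩ := hW.split a2 a1
  have i1 := ih _ (hn ▸ Submodule.finrank_lt_finrank_of_lt (a1.lt_of_ne a4)) a2 a3 rfl
  have i2 := ih _ (hn ▸ Submodule.finrank_lt_finrank_of_lt (a5.lt_of_ne fun h =>
    a3 (a7.eq_bot_of_le (h ▸ a1)))) a6 (fun h => a4 (le_antisymm a1 fun y hy => by
      obtain ⟨y₁, b1, y₂, b2, rfl, -⟩ := a8 y hy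
      rw [h, Submodule.mem_bot] at b2
      simpa [b2] using b1)) rfl
  intro ε ε0
  obtain ⟨m₁, h1⟩ := i1 (ε / 2) (by positivity)
  obtain ⟨m₂, h2⟩ := i2 (ε / 2) (by positivity)
  obtain ⟨m₃, h3⟩ := exists_nat_ge (2 / ε)
  refine ⟨max (max m₁ m₂) m₃, fun θ h => ?_⟩
  obtain ⟨l₁, b1, b2, y₁, b3, b4, b5⟩ := h1 θ h
  obtain ⟨l₂, -, d2, y₂, d3, d4, d5⟩ := h2 θ h
  have hl : ∀ (l : ℝ) (y : Vec d) (m : ℕ),
      (KY μ θ ^ m) (fun z => if N2 z ≤ Real.exp ((l - ε) * m) * N2 y then 1 else 0) y ≤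
      (KY μ θ ^ m) (fun z => if N2 z ≤ Real.exp ((l - ε / 2) * m) * N2 y then 1 else 0) y :=
    fun l y m => pow_le hμ (fun z => by
      split_ifs with f1 f2
      · exact le_rfl
      · have := N2_nonneg y
        exact absurd (f1.trans (by gcongr; linarith)) f2
      · exact zero_le_one
      · exact le_rfl) m y
  refine ⟨max l₁ l₂, b1.trans (le_max_left _ _), fun m hm y hy => ?_, ?_⟩
  · simp only [max_le_iff] at hm
    obtain ⟨z₁, f1, z₂, f2, rfl, f3⟩ := a8 y hy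
    have f4 := add_le_add (b2 m hm.1.1 z₁ f1) (d2 m hm.1.2 z₂ f2)
    rw [← pow_lin, ← pow_lin, ← pow_add_apply, add_halves] at f4
    rw [← pow_lin]
    refine le_trans (pow_le hμ (fun M => ?_) m _) f4
    split_ifs with g1 g2 g3 g3 <;> try norm_num
    refine g1.not_ge ?_
    have g4 := N2_sub (M z₁) ((-1 : ℝ) • M z₂)
    rw [N2_smul, neg_one_smul, sub_neg_eq_add, ← map_add] at g4
    have g5 : 2 * Real.exp ((max l₁ l₂ + ε / 2) * m) ≤ Real.exp ((max l₁ l₂ + ε) * m) := by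
      rw [show (max l₁ l₂ + ε) * m = ε / 2 * m + (max l₁ l₂ + ε / 2) * m by ring, Real.exp_add]
      have g5 := h3.trans (Nat.cast_le.2 hm.2)
      rw [div_le_iff₀ ε0] at g5
      exact mul_le_mul_of_nonneg_right (by linarith [Real.add_one_le_exp (ε / 2 * m)])
        (Real.exp_pos _).le
    have g6 := N2_nonneg z₁
    have g7 := N2_nonneg z₂
    have g8 : N2 (M z₁) ≤ Real.exp ((max l₁ l₂ + ε / 2) * m) * N2 z₁ :=
      (not_lt.1 g2).trans (by gcongr; exact le_max_left _ _)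
    have g9 : N2 (M z₂) ≤ Real.exp ((max l₁ l₂ + ε / 2) * m) * N2 z₂ :=
      (not_lt.1 g3).trans (by gcongr; exact le_max_right _ _)
    rw [← f3]
    linarith [mul_le_mul_of_nonneg_right g5 (add_nonneg g6 g7)]
  · rcases le_total l₁ l₂ with f | f
    · rw [max_eq_right f]
      exact ⟨y₂, a5 d3, d4, fun m hm => (hl _ _ _).trans ((d5 m
        ((le_max_right _ _).trans ((le_max_left _ _).trans hm))).trans (by linarith))⟩
    · rw [max_eq_left f]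
      exact ⟨y₁, a1 b3, b4, fun m hm => (hl _ _ _).trans ((b5 m
        ((le_max_left _ _).trans ((le_max_left _ _).trans hm))).trans (by linarith))⟩

end Pool.Agent.P.MP_1e2081_pr
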