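import Pool.Agent.P.MP_1e2081_pr.Defs

/-!
Markov operators given by random maps.
-/

set_option autoImplicit false

namespace Pool.Agent.P.MP_1e2081_pr

open Finset

/-- Average over a finite type. -/
noncomputable def avg {T : Type} [Fintype T] (f : T → ℝ) : ℝ := (∑ t, f t) / Fintype.card T

section avg

variable {T : Type} [Fintype T]

theorem avg_add (f g : T → ℝ) : avg (fun t => f t + g t) = avg f + avg g := by
  simp only [avg, sum_add_distrib, add_div]

theorem avg_sub (f g : T → ℝ) : avg (fun t => f t - g t) = avg f - avg g := by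
  simp only [avg, sum_sub_distrib, sub_div]

theorem avg_mul (c : ℝ) (f : T → ℝ) : avg (fun t => c * f t) = c * avg f := by
  simp only [avg, ← mul_sum, mul_div_assoc]

theorem avg_sum {I : Type} (s : Finset I) (f : I → T → ℝ) :
    avg (fun t => ∑ i ∈ s, f i t) = ∑ i ∈ s, avg (f i) := by
  simp only [avg, sum_div]; exact sum_comm

theorem avg_mono {f g : T → ℝ} (h : ∀ t, f t ≤ g t) : avg f ≤ avg g :=
  div_le_div_of_nonneg_right (sum_le_sum fun t _ => h t) (Nat.cast_nonneg _)

theorem avg_const [Nonempty T] (c : ℝ) : avg (fun _ : T => c) = c := by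
  have : (Fintype.card T : ℝ) ≠ 0 := by exact_mod_cast Fintype.card_ne_zero
  simp only [avg, sum_const, card_univ, nsmul_eq_mul]
  field_simp

theorem avg_nonneg {f : T → ℝ} (h : ∀ t, 0 ≤ f t) : 0 ≤ avg f :=
  div_nonneg (sum_nonneg fun t _ => h t) (Nat.cast_nonneg _)

theorem avg_equiv (e : T ≃ T) (f : T → ℝ) : avg (fun t => f (e t)) = avg f := by
  simp only [avg, e.sum_comp]

theorem abs_avg_le (f : T → ℝ) : |avg f| ≤ avg fun t => |f t| := by
  rw [avg, abs_div, Nat.abs_cast]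
  exact div_le_div_of_nonneg_right (abs_sum_le_sum_abs _ _) (Nat.cast_nonneg _)

theorem avg_pi {I : Type} [Fintype I] [DecidableEq I] (f : I → T → ℝ) :
    avg (fun τ : I → T => ∏ i, f i (τ i)) = ∏ i, avg (f i) := by
  simp only [avg, prod_div_distrib, prod_const, card_univ, Fintype.card_fun, Nat.cast_pow]
  rw [Fintype.prod_sum]

theorem avg_eval [Nonempty T] {I : Type} [Fintype I] [DecidableEq I] (i : I) (f : T → ℝ) :
    avg (fun τ : I → T => f (τ i)) = avg f := by
  have h := avg_pi fun j (t : T) => if j = i then f t else 1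
  simp only [prod_ite_eq', mem_univ, if_true] at h
  rw [h, prod_eq_single i (fun j _ hj => by simp [hj, avg_const]) (by simp)]
  simp

end avg

variable {G T S : Type} [Fintype G] [Fintype T]

/-- The Markov operator of the random map `st σ τ`, with `σ` of law `μ` and `τ` uniform. -/
noncomputable def op (μ : G → ℝ) (st : G → T → S → S) : Module.End ℝ (S → ℝ) where
  toFun F s := ∑ σ, μ σ * avg fun τ => F (st σ τ s)
  map_add' F F' := by
    funext s
    simp only [Pi.add_apply, avg_add, mul_add, sum_add_distrib]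
  map_smul' c F := by
    funext s
    simp only [Pi.smul_apply, smul_eq_mul, avg_mul, RingHom.id_apply, mul_sum]
    exact sum_congr rfl fun σ _ => by ring

theorem op_apply (μ : G → ℝ) (st : G → T → S → S) (F : S → ℝ) (s : S) :
    op μ st F s = ∑ σ, μ σ * avg fun τ => F (st σ τ s) := rfl

/-- A probability vector. -/
def IsProb (μ : G → ℝ) : Prop := (∀ σ, 0 ≤ μ σ) ∧ ∑ σ, μ σ = 1

variable {μ : G → ℝ} {st : G → T → S → S}

theorem IsProb.sum_le (h : IsProb μ) {f g : G → ℝ} (hf : ∀ σ, μ σ ≠ 0 → f σ ≤ g σ) :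
    ∑ σ, μ σ * f σ ≤ ∑ σ, μ σ * g σ :=
  sum_le_sum fun σ _ => by
    by_cases h0 : μ σ = 0
    · simp [h0]
    · exact mul_le_mul_of_nonneg_left (hf σ h0) (h.1 σ)

theorem IsProb.sum_const (h : IsProb μ) (c : ℝ) : ∑ σ, μ σ * c = c := by
  rw [← sum_mul, h.2, one_mul]

theorem op_le (h : IsProb μ) {F F' : S → ℝ} {s : S}
    (hF : ∀ σ τ, μ σ ≠ 0 → F (st σ τ s) ≤ F' (st σ τ s)) : op μ st F s ≤ op μ st F' s :=
  h.sum_le fun σ h0 => avg_mono fun τ => hF σ τ h0

theorem pow_succ_apply (K : Module.End ℝ (S → ℝ)) (m : ℕ) (F : S → ℝ) :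
    (K ^ (m + 1)) F = K ((K ^ m) F) := by
  rw [pow_succ']; rfl

theorem pow_succ_apply' (K : Module.End ℝ (S → ℝ)) (m : ℕ) (F : S → ℝ) :
    (K ^ (m + 1)) F = (K ^ m) (K F) := by
  rw [pow_succ]; rfl

theorem pow_le_on (h : IsProb μ) {I : S → Prop} (hI : ∀ σ τ s, μ σ ≠ 0 → I s → I (st σ τ s))
    {F F' : S → ℝ} (hF : ∀ s, I s → F s ≤ F' s) (m : ℕ) {s : S} (hs : I s) :
    (op μ st ^ m) F s ≤ (op μ st ^ m) F' s := by
  induction m generalizing s with
  | zero => exact hF s hs
  | succ m ih =>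
    rw [pow_succ_apply, pow_succ_apply]
    exact op_le h fun σ τ h0 => ih (hI σ τ s h0 hs)

theorem pow_le (h : IsProb μ) {F F' : S → ℝ} (hF : ∀ s, F s ≤ F' s) (m : ℕ) (s : S) :
    (op μ st ^ m) F s ≤ (op μ st ^ m) F' s :=
  pow_le_on h (I := fun _ => True) (fun _ _ _ _ _ => trivial) (fun s _ => hF s) m trivial

theorem pow_comp {S' : Type} {st' : G → T → S' → S'} {φ : S → S'}
    (h : ∀ σ τ s, φ (st σ τ s) = st' σ τ (φ s)) (F : S' → ℝ) (m : ℕ) (s : S) :
    (op μ st ^ m) (fun s => F (φ s)) s = (op μ st' ^ m) F (φ s) := by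
  induction m generalizing s with
  | zero => rfl
  | succ m ih =>
    rw [pow_succ_apply, pow_succ_apply, op_apply, op_apply]
    simp only [ih, h]

theorem pow_add_apply (K : Module.End ℝ (S → ℝ)) (m : ℕ) (F F' : S → ℝ) (s : S) :
    (K ^ m) (fun s => F s + F' s) s = (K ^ m) F s + (K ^ m) F' s :=
  congrFun (map_add (K ^ m) F F') s

theorem pow_sub_apply (K : Module.End ℝ (S → ℝ)) (m : ℕ) (F F' : S → ℝ) (s : S) :
    (K ^ m) (fun s => F s - F' s) s = (K ^ m) F s - (K ^ m) F' s :=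
  congrFun (map_sub (K ^ m) F F') s

theorem pow_mul_apply (K : Module.End ℝ (S → ℝ)) (m : ℕ) (c : ℝ) (F : S → ℝ) (s : S) :
    (K ^ m) (fun s => c * F s) s = c * (K ^ m) F s :=
  congrFun (map_smul (K ^ m) c F) s

theorem pow_sum_apply (K : Module.End ℝ (S → ℝ)) (m : ℕ) {I : Type} (t : Finset I)
    (F : I → S → ℝ) (s : S) :
    (K ^ m) (fun s => ∑ i ∈ t, F i s) s = ∑ i ∈ t, (K ^ m) (F i) s := by
  have : (fun s => ∑ i ∈ t, F i s) = ∑ i ∈ t, F i := by funext s; simp
  rw [this, map_sum, Finset.sum_apply]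

variable [Nonempty T]

theorem op_const (h : IsProb μ) (c : ℝ) (s : S) : op μ st (fun _ => c) s = c := by
  rw [op_apply]; simp only [avg_const]; exact h.sum_const c

theorem pow_const (h : IsProb μ) (c : ℝ) (m : ℕ) (s : S) : (op μ st ^ m) (fun _ => c) s = c := by
  induction m generalizing s with
  | zero => rfl
  | succ m ih =>
    rw [pow_succ_apply, show (op μ st ^ m) (fun _ => c) = fun _ => c from funext ih, op_const h]

theorem pow_nonneg' (h : IsProb μ) {F : S → ℝ} (hF : ∀ s, 0 ≤ F s) (m : ℕ) (s : S) :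
    0 ≤ (op μ st ^ m) F s :=
  (pow_const h 0 m s).ge.trans (pow_le h hF m s)

theorem lyap (h : IsProb μ) {I : S → Prop} (hI : ∀ σ τ s, μ σ ≠ 0 → I s → I (st σ τ s))
    {J : S → ℝ} {r b : ℝ} (hr : 0 ≤ r)
    (hJ : ∀ s, I s → op μ st J s ≤ r * J s + (1 - r) * b) (m : ℕ) {s : S} (hs : I s) :
    (op μ st ^ m) J s ≤ r ^ m * J s + (1 - r ^ m) * b := by
  induction m with
  | zero => simp
  | succ m ih =>
    rw [pow_succ_apply']
    refine (pow_le_on h hI hJ m hs).trans ?_
    rw [pow_add_apply, pow_mul_apply, pow_const h]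
    have := mul_le_mul_of_nonneg_left ih hr
    rw [pow_succ]
    nlinarith

end Pool.Agent.P.MP_1e2081_pr
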