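import Pool.Agent.P.MP_1e2081_pr.Cone

/-!
Uniform concentration of the growth rate for parameters near one half.
-/

set_option autoImplicit false

namespace Pool.Agent.P.MP_1e2081_pr

open Finset Equiv

variable {d : ℕ} {μ : Perm (Fin d) → ℝ} {W W₁ W₂ : Submodule ℝ (Vec d)} {θ ε l κ δ : ℝ} {m₀ : ℕ}

theorem up_killed (hμ : IsProb μ) (hW : Inv μ W) {w : List (Perm (Fin d))}
    (hw : ∀ σ ∈ w, μ σ ≠ 0) (h0 : ∀ y ∈ W, AL (1 / 2) w y = 0) (κ0 : 0 ≤ κ) :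
    ∃ δ, 0 < δ ∧ ∀ ε, 0 < ε → ∃ m₀ : ℕ, ∀ θ, 0 ≤ θ → θ ≤ 1 → |θ - 1 / 2| ≤ δ →
      Up μ W θ (-κ) ε m₀ := by
  rcases Nat.eq_zero_or_pos w.length with b0 | b0
  · refine ⟨1, one_pos, fun ε ε0 => ⟨0, fun θ θ0 θ1 _ m _ y hy => ?_⟩⟩
    have y0 : y = 0 := by simpa [List.length_eq_zero_iff.1 b0, AL] using h0 y hy
    refine (monoY hμ θ0 θ1 (F' := fun _ => ε) m y fun z hz => ?_).trans_eq (pow_const hμ _ m y)
    rw [if_neg (by simpa [y0, N2_zero] using hz)]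
    exact ε0.le
  obtain ⟨m₁, m0, hm⟩ := exists_gap univ μ
  have m0' : 0 < min m₁ 1 := lt_min m0 one_pos
  have b1 : (0 : ℝ) < w.length := by exact_mod_cast b0
  set p := min m₁ 1 ^ w.length with hp
  have p0 : 0 < p := by positivity
  have p1 : p ≤ 1 := pow_le_one₀ m0'.le (min_le_right _ _)
  set s := p / (4 * w.length * (κ + 1)) with hs
  have s0 : 0 < s := by positivity
  obtain ⟨δ, δ0, δ1, δ2⟩ := exists_small (d * (2 * w.length) ^ 2) _ (Real.exp_pos (-s⁻¹))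
  refine ⟨δ, δ0, fun ε ε0 => ?_⟩
  obtain ⟨N, -, hN⟩ := exp_small (show 0 < p / (4 * w.length) by positivity) ε0
  refine ⟨N, fun θ θ0 θ1 hθ m hm' y hy => (moment hμ hW θ0 θ1 s0 (b := w.length) (r := -(p / 2))
    (fun y hy => ?_) m _ hy).trans (le_trans (Real.exp_le_exp.2 ?_) (hN m hm'))⟩
  · have y0 := N2_nonneg y
    have y1 : 0 ≤ N2 y ^ s := by positivity
    have a1 := word_le (T := Unit) (θ := θ) hμ m0'.le (F := fun z => max 0 (N2 y ^ s - N2 z ^ s))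
      (fun z => le_max_left _ _) w (fun σ hσ => (min_le_left _ _).trans
      (hm σ (mem_univ σ) ((hμ.1 σ).lt_of_ne' (hw σ hσ)))) y
    have a2 := monoY hμ θ0 θ1 (F := fun z => max 0 (N2 y ^ s - N2 z ^ s))
      (F' := fun z => N2 y ^ s - N2 z ^ s) w.length y fun z hz =>
        max_le (sub_nonneg.2 (Real.rpow_le_rpow (N2_nonneg z) hz s0.le)) le_rfl
    rw [pow_sub_apply, pow_const hμ] at a2
    have a3 := AL_sub θ0 θ1 w y y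
    rw [h0 y hy, sub_zero, sub_self, norm_zero, zero_add] at a3
    have a4 : N2 (AL θ w y) ≤ Real.exp (-s⁻¹) * N2 y := by
      refine (N2_le_norm _).trans ((mul_le_mul_of_nonneg_left (pow_le_pow_left₀ (norm_nonneg _) a3 2)
        (Nat.cast_nonneg d)).trans ?_)
      rw [mul_pow, mul_pow, ← mul_assoc, ← mul_assoc]
      refine mul_le_mul (le_trans (mul_le_mul_of_nonneg_left ?_ (by positivity)) δ2) (norm_le_N2 y)
        (by positivity) (Real.exp_pos _).le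
      nlinarith [abs_nonneg (θ - 1 / 2)]
    have a5 := Real.rpow_le_rpow (N2_nonneg _) a4 s0.le
    rw [Real.mul_rpow (Real.exp_pos _).le y0, ← Real.exp_mul, neg_mul, inv_mul_cancel₀ s0.ne'] at a5
    have a6 : Real.exp (-1) ≤ 1 / 2 := by
      rw [Real.exp_neg, inv_le_comm₀ (Real.exp_pos _) (by norm_num)]
      linarith [Real.add_one_le_exp (1 : ℝ)]
    have a7 := mul_le_mul_of_nonneg_left ((show N2 y ^ s / 2 ≤ N2 y ^ s - N2 (AL θ w y) ^ s by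
      linarith [mul_le_mul_of_nonneg_right a6 y1]).trans (le_max_right 0 _)) p0.le
    linarith [mul_le_mul_of_nonneg_right (Real.add_one_le_exp (-(p / 2))) y1]
  · have f5 : (m : ℝ) = w.length * (m / w.length : ℕ) + (m % w.length : ℕ) := by
      exact_mod_cast (Nat.div_add_mod m w.length).symm
    have f6 : ((m % w.length : ℕ) : ℝ) ≤ w.length := by exact_mod_cast (Nat.mod_lt m b0).le
    have f7 : s * (κ + 1) = p / (4 * w.length) := by rw [hs]; field_simp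
    have f8 : p / (4 * w.length) * w.length = p / 4 := by field_simp
    have f9 : (0 : ℝ) ≤ m := Nat.cast_nonneg m
    have f10 : 0 ≤ p / (4 * w.length) := by positivity
    have f11 := mul_le_mul_of_nonneg_left f6 f10
    have f12 : p / (4 * w.length) * m =
        p / 4 * (m / w.length : ℕ) + p / (4 * w.length) * (m % w.length : ℕ) := by
      conv_lhs => rw [f5]
      rw [mul_add, ← mul_assoc, f8]
    have f13 : s * (κ + 1) * m = p / (4 * w.length) * m := by rw [f7]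
    have f14 := mul_nonneg (mul_nonneg s0.le ε0.le) f9
    have f15 := mul_nonneg s0.le f9
    linarith

theorem up_add (hμ : IsProb μ) (ε0 : 0 < ε) (hm : 2 / ε ≤ m₀)
    (h : ∀ y ∈ W, ∃ y₁ ∈ W₁, ∃ y₂ ∈ W₂, y = y₁ + y₂ ∧ N2 y₁ + N2 y₂ = N2 y)
    (h1 : Up μ W₁ θ l (ε / 2) m₀) (h2 : Up μ W₂ θ l (ε / 2) m₀) : Up μ W θ l ε m₀ := by
  intro m hm' y hy
  obtain ⟨z₁, f1, z₂, f2, rfl, f3⟩ := h y hy
  have f4 := add_le_add (h1 m hm' z₁ f1) (h2 m hm' z₂ f2)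
  rw [← pow_lin, ← pow_lin, ← pow_add_apply, add_halves] at f4
  rw [← pow_lin]
  refine le_trans (pow_le hμ (fun M => ?_) m _) f4
  split_ifs with g1 g2 g3 g3 <;> try norm_num
  refine g1.not_ge ?_
  have g4 := N2_sub (M z₁) ((-1 : ℝ) • M z₂)
  rw [N2_smul, neg_one_smul, sub_neg_eq_add, ← map_add] at g4
  have g5 : 2 * Real.exp ((l + ε / 2) * m) ≤ Real.exp ((l + ε) * m) := by
    rw [show (l + ε) * m = ε / 2 * m + (l + ε / 2) * m by ring, Real.exp_add]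
    have g5 := hm.trans (Nat.cast_le.2 hm')
    rw [div_le_iff₀ ε0] at g5
    exact mul_le_mul_of_nonneg_right (by linarith [Real.add_one_le_exp (ε / 2 * m)])
      (Real.exp_pos _).le
  rw [← f3]
  linarith [mul_le_mul_of_nonneg_right g5 (add_nonneg (N2_nonneg z₁) (N2_nonneg z₂)),
    not_lt.1 g2, not_lt.1 g3]

/-- Uniform concentration of the growth rate on `W` for parameters near one half. -/
def CN (μ : Perm (Fin d) → ℝ) (W : Submodule ℝ (Vec d)) (κ δ : ℝ) : Prop :=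
  ∀ ε, 0 < ε → ∃ m₀ : ℕ, ∀ θ, 1 / 4 ≤ θ → θ ≤ 1 → |θ - 1 / 2| ≤ δ →
    ∃ l, -κ ≤ l ∧ Up μ W θ l ε m₀ ∧ Low μ W θ l ε m₀

theorem cn_add (hμ : IsProb μ) (a1 : W₁ ≤ W) (a2 : W₂ ≤ W)
    (h : ∀ y ∈ W, ∃ y₁ ∈ W₁, ∃ y₂ ∈ W₂, y = y₁ + y₂ ∧ N2 y₁ + N2 y₂ = N2 y) {δ' : ℝ}
    (h1 : CN μ W₁ κ δ) (h2 : ∀ ε, 0 < ε → ∃ m₀ : ℕ, ∀ θ, 1 / 4 ≤ θ → θ ≤ 1 → |θ - 1 / 2| ≤ δ' →
      ∃ l, Up μ W₂ θ l ε m₀ ∧ (l ≤ -κ ∨ Low μ W₂ θ l ε m₀)) : CN μ W κ (min δ δ') := by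
  intro ε ε0
  obtain ⟨m₁, h1⟩ := h1 (ε / 2) (by positivity)
  obtain ⟨m₂, h2⟩ := h2 (ε / 2) (by positivity)
  obtain ⟨m₃, h3⟩ := exists_nat_ge (2 / ε)
  have e1 : m₁ ≤ max (max m₁ m₂) m₃ := (le_max_left _ _).trans (le_max_left _ _)
  have e2 : m₂ ≤ max (max m₁ m₂) m₃ := (le_max_right _ _).trans (le_max_left _ _)
  refine ⟨max (max m₁ m₂) m₃, fun θ θ0 θ1 hθ => ?_⟩
  obtain ⟨l₁, b1, b2, b3⟩ := h1 θ θ0 θ1 (hθ.trans (min_le_left _ _))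
  obtain ⟨l₂, b4, b5⟩ := h2 θ θ0 θ1 (hθ.trans (min_le_right _ _))
  refine ⟨max l₁ l₂, b1.trans (le_max_left _ _),
    up_add hμ ε0 (h3.trans (Nat.cast_le.2 (le_max_right _ _))) h
      (b2.mono hμ (le_max_left _ _) le_rfl e1) (b4.mono hμ (le_max_right _ _) le_rfl e2), ?_⟩
  rcases le_or_gt l₂ l₁ with f | f
  · rw [max_eq_left f]
    exact b3.mono hμ a1 (by linarith) e1
  · rw [max_eq_right f.le]
    exact (b5.resolve_left (by linarith)).mono hμ a2 (by linarith) e2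

theorem conc_near (hμ : IsProb μ) {w : List (Perm (Fin d))} {R : ℝ}
    (hw : ∀ σ ∈ w, μ σ ≠ 0) (R1 : 1 ≤ R)
    (hR : ∀ B : List (Perm (Fin d)), (∀ σ ∈ B, μ σ ≠ 0) → ∀ x,
      ‖AL (1 / 2) w x‖ ≤ R ^ (B.length + 1) * ‖AL (1 / 2) B (AL (1 / 2) w x)‖) (hW : Inv μ W) :
    (∀ y ∈ W, AL (1 / 2) w y = 0) ∨ ∃ κ δ, 0 ≤ κ ∧ 0 < δ ∧ CN μ W κ δ := by
  induction hn : Module.finrank ℝ W using Nat.strong_induction_on generalizing W with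
  | _ n ih =>
  refine or_iff_not_imp_left.2 fun h0 => ?_
  by_cases hi : Irr μ W
  · push Not at h0
    obtain ⟨x, hx, h0⟩ := h0
    obtain ⟨C, δ, C0, δ0, h⟩ := safe_near hμ hW hi hw R1 hR hx h0
    refine ⟨4 * C + 5, δ, by positivity, δ0, fun ε ε0 => ?_⟩
    obtain ⟨m₀, hm⟩ := conc_safe hμ hW hi (c := 1 / 4) (by norm_num) (by norm_num) C0 ε0
    exact ⟨m₀, fun θ θ0 θ1 hθ => hm θ θ0 θ1 (h θ (by linarith) θ1 hθ)⟩
  simp only [Irr, not_forall, not_or] at hi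
  obtain ⟨W₁, a1, a2, a3, a4⟩ := hi
  obtain ⟨W₂, a5, a6, a7, a8⟩ := hW.split a2 a1
  have i1 := ih _ (hn ▸ Submodule.finrank_lt_finrank_of_lt (a1.lt_of_ne a4)) a2 rfl
  have i2 := ih _ (hn ▸ Submodule.finrank_lt_finrank_of_lt (a5.lt_of_ne fun h =>
    a3 (a7.eq_bot_of_le (h ▸ a1)))) a6 rfl
  have a9 : ∀ y ∈ W, ∃ y₁ ∈ W₂, ∃ y₂ ∈ W₁, y = y₁ + y₂ ∧ N2 y₁ + N2 y₂ = N2 y := fun y hy => by
    obtain ⟨y₁, b1, y₂, b2, b3, b4⟩ := a8 y hy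
    exact ⟨y₂, b2, y₁, b1, b3.trans (add_comm _ _), (add_comm _ _).trans b4⟩
  have key : ∀ {U U' : Submodule ℝ (Vec d)}, U ≤ W → U' ≤ W → Inv μ U' →
      (∀ y ∈ W, ∃ y₁ ∈ U, ∃ y₂ ∈ U', y = y₁ + y₂ ∧ N2 y₁ + N2 y₂ = N2 y) →
      (∃ κ δ, 0 ≤ κ ∧ 0 < δ ∧ CN μ U κ δ) → (∀ y ∈ U', AL (1 / 2) w y = 0) →
      ∃ κ δ, 0 ≤ κ ∧ 0 < δ ∧ CN μ W κ δ := by
    rintro U U' b1 b2 b3 b4 ⟨κ, δ, κ0, δ0, b5⟩ b6
    obtain ⟨δ', δ1, b7⟩ := up_killed hμ b3 hw b6 κ0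
    exact ⟨κ, _, κ0, lt_min δ0 δ1, cn_add hμ b1 b2 b4 b5 fun ε ε0 => (b7 ε ε0).imp
      fun m₀ b8 θ θ0 θ1 hθ => ⟨-κ, b8 θ (by linarith) θ1 hθ, Or.inl le_rfl⟩⟩
  rcases i1 with i1 | i1 <;> rcases i2 with i2 | i2
  · refine absurd (fun y hy => ?_) h0
    obtain ⟨y₁, b1, y₂, b2, rfl, -⟩ := a8 y hy
    rw [← ALl_apply, map_add, ALl_apply, ALl_apply, i1 y₁ b1, i2 y₂ b2, add_zero]
  · exact key a5 a1 a2 a9 i2 i1
  · exact key a1 a5 a6 a8 i1 i2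
  · obtain ⟨κ, δ, κ0, δ0, b1⟩ := i1
    obtain ⟨κ', δ', -, δ1, b2⟩ := i2
    exact ⟨κ, _, κ0, lt_min δ0 δ1, cn_add hμ a1 a5 a8 b1 fun ε ε0 => (b2 ε ε0).imp
      fun m₀ b3 θ θ0 θ1 hθ => (b3 θ θ0 θ1 hθ).imp fun l b4 => ⟨b4.2.1, Or.inr b4.2.2⟩⟩

theorem conc_range (hμ : IsProb μ) (hW : Inv μ W)
    (h0 : ∀ w : List (Perm (Fin d)), (∀ σ ∈ w, μ σ ≠ 0) → ¬ ∀ y ∈ W, AL (1 / 2) w y = 0)
    {c : ℝ} (c0 : 0 < c) : ∃ κ, 1 ≤ κ ∧ ∀ ε, 0 < ε → ∃ m₀ : ℕ, ∀ θ, c ≤ θ → θ ≤ 1 →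
      ∃ l, -κ ≤ l ∧ Up μ W θ l ε m₀ ∧ Low μ W θ l ε m₀ := by
  obtain ⟨w, R, hw, R1, hR⟩ := exists_word μ
  obtain ⟨κ, δ, κ0, δ0, h1⟩ := (conc_near hμ hw R1 hR hW).resolve_left (h0 w hw)
  have δ1 : 0 < min δ (1 / 4) := lt_min δ0 (by norm_num)
  have h2 : Conc μ W c (1 + (min δ (1 / 4) ^ 2)⁻¹) := conc_all hμ hW fun h =>
    h0 [] (by simp) fun y hy => by rw [h, Submodule.mem_bot] at hy; exact hy
  have κ1 : 0 ≤ (min δ (1 / 4) ^ 2)⁻¹ := by positivity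
  refine ⟨κ + (1 + (min δ (1 / 4) ^ 2)⁻¹), by linarith, fun ε ε0 => ?_⟩
  obtain ⟨m₁, h1⟩ := h1 ε ε0
  obtain ⟨m₂, h2⟩ := h2 ε ε0
  refine ⟨max m₁ m₂, fun θ θ0 θ1 => ?_⟩
  rcases le_total |θ - 1 / 2| (min δ (1 / 4)) with h | h
  · obtain ⟨l, b1, b2, b3⟩ := h1 θ (by linarith [(abs_le.1 (h.trans (min_le_right _ _))).1]) θ1
      (h.trans (min_le_left _ _))
    exact ⟨l, by linarith, b2.mono hμ le_rfl le_rfl (le_max_left _ _),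
      b3.mono hμ le_rfl le_rfl (le_max_left _ _)⟩
  · obtain ⟨l, b1, b2, b3⟩ := h2 θ ⟨c0, θ0, θ1, by linarith, fun σ _ =>
      inv_far δ1 (by linarith) θ1 (h.trans (by
        rw [show 2 * θ - 1 = 2 * (θ - 1 / 2) by ring, abs_mul, abs_two]
        linarith [abs_nonneg (θ - 1 / 2)])) σ⟩
    exact ⟨l, by linarith, Up.mono hμ b2 le_rfl le_rfl (le_max_right _ _),
      Low.mono hμ b3 le_rfl le_rfl (le_max_right _ _)⟩

end Pool.Agent.P.MP_1e2081_pr
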