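import Pool.Agent.P.MP_1e2081_pr.Large

set_option autoImplicit false

namespace Pool.Agent.P.MP_1e2081_pr.OldLargeK

open Pool.Agent.P.MP_1e2081_pr Filter

/-- Cutoff and mixing time of order `log n` when `c n ≤ k ≤ (1 - c) n`, provided `k / n` stays away
from `1 / 2` or all permutations in the support of `μ` have odd order. -/
theorem result (d : ℕ) (hd : 2 ≤ d) (μ : Equiv.Perm (Fin d) → ℝ) (hμ0 : ∀ σ, 0 ≤ μ σ)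
    (hμ1 : ∑ σ, μ σ = 1) (hU : (uMat μ).IsIrreducible) (c : ℝ) (hc : 0 < c) (k : ℕ → ℕ)
    (hk : ∀ᶠ n : ℕ in atTop, c * (n : ℝ) ≤ (k n : ℝ) ∧ (k n : ℝ) ≤ (1 - c) * (n : ℝ))
    (hhalf : (∀ᶠ n : ℕ in atTop, c * (n : ℝ) ≤ |2 * (k n : ℝ) - (n : ℝ)|) ∨
      ∀ σ, μ σ ≠ 0 → Odd (orderOf σ))
    (π : ∀ n, State d n → ℝ) (hπ : ∀ᶠ n in atTop, IsStationary (jump μ n (k n)) (π n)) :
    (∀ ε : ℝ, 0 < ε → ε < 1 → Tendsto (fun n : ℕ => tmix (jump μ n (k n)) (π n) ε /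
      tmix (jump μ n (k n)) (π n) (1 - ε)) atTop (nhds 1)) ∧
    ∃ a b : ℝ, 0 < a ∧ 0 < b ∧ ∀ᶠ n : ℕ in atTop,
      a * Real.log (n : ℝ) ≤ tmix (jump μ n (k n)) (π n) (1 / 4) ∧
        tmix (jump μ n (k n)) (π n) (1 / 4) ≤ b * Real.log (n : ℝ) := by
  obtain ⟨κ, h⟩ := good_ev hc hk hhalf
  exact cutoff_good ⟨hμ0, hμ1⟩ hU hd hc h hπ

end Pool.Agent.P.MP_1e2081_pr.OldLargeK
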