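import Pool.Agent.P.MP_1e2081_pr.Markov

/-!
Averages over a uniform random permutation.
-/

set_option autoImplicit false

namespace Pool.Agent.P.MP_1e2081_pr

open Finset Equiv

variable {α : Type} [Fintype α] [DecidableEq α]

theorem avg_perm_eq (F : α → ℝ) (p q : α) :
    avg (fun π : Perm α => F (π p)) = avg fun π : Perm α => F (π q) := by
  rw [← avg_equiv (Equiv.mulRight (swap p q))]
  simp

theorem avg_perm_one (F : α → ℝ) (p : α) :
    avg (fun π : Perm α => F (π p)) = (∑ x, F x) / Fintype.card α := by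
  have h0 : (Fintype.card α : ℝ) ≠ 0 := by
    have : Nonempty α := ⟨p⟩
    exact_mod_cast Fintype.card_ne_zero
  rw [eq_div_iff h0, ← avg_const (T := Perm α) (∑ x, F x)]
  have h1 : (fun _ : Perm α => ∑ x, F x) = fun π : Perm α => ∑ q, F (π q) :=
    funext fun π => (Equiv.sum_comp π F).symm
  rw [h1, avg_sum, sum_congr rfl fun q _ => avg_perm_eq F q p]
  simp [mul_comm]

theorem avg_perm_two {F : α → ℝ} (hF : ∑ x, F x = 0) {p q : α} (h : q ≠ p) :
    avg (fun π : Perm α => F (π p) * F (π q)) ≤ 0 := by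
  have h1 : ∀ q', q' ≠ p → avg (fun π : Perm α => F (π p) * F (π q')) =
      avg fun π : Perm α => F (π p) * F (π q) := by
    intro q' hq'
    rw [← avg_equiv (Equiv.mulRight (swap q q'))]
    simp [swap_apply_of_ne_of_ne h.symm hq'.symm]
  have h2 : ∑ q', avg (fun π : Perm α => F (π p) * F (π q')) = 0 := by
    rw [← avg_sum]
    simp only [← mul_sum, Equiv.sum_comp _ F, hF, mul_zero, avg_const]
  rw [← add_sum_erase _ _ (mem_univ p), sum_congr rfl fun q' hq' => h1 q' (ne_of_mem_erase hq'),
    sum_const, nsmul_eq_mul] at h2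
  have h3 : 0 ≤ avg fun π : Perm α => F (π p) * F (π p) := avg_nonneg fun π => mul_self_nonneg _
  have h4 : (0 : ℝ) < (univ.erase p).card := by
    exact_mod_cast card_pos.2 ⟨q, mem_erase.2 ⟨h, mem_univ q⟩⟩
  by_contra h5
  have := mul_pos h4 (not_le.1 h5)
  linarith

theorem hyper_mean (a : α → ℝ) (B : Finset α) :
    avg (fun π : Perm α => ∑ p ∈ B, a (π p)) = B.card / Fintype.card α * ∑ x, a x := by
  rw [avg_sum, sum_congr rfl fun p _ => avg_perm_one a p, sum_const, nsmul_eq_mul]
  ring

theorem hyper_var (a : α → ℝ) (B : Finset α) :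
    avg (fun π : Perm α => (∑ p ∈ B, a (π p) - B.card / Fintype.card α * ∑ x, a x) ^ 2) ≤
      B.card / Fintype.card α * ∑ x, a x ^ 2 := by
  rcases isEmpty_or_nonempty α with hα | hα
  · simp [avg, Subsingleton.elim B ∅]
  have h0 : (0 : ℝ) < Fintype.card α := by exact_mod_cast Fintype.card_pos
  set c := (∑ x, a x) / Fintype.card α with hc
  have h1 : ∑ x, (a x - c) = 0 := by
    rw [sum_sub_distrib, sum_const, card_univ, nsmul_eq_mul, hc]; field_simp; ring
  have h2 : ∀ π : Perm α, (∑ p ∈ B, a (π p) - B.card / Fintype.card α * ∑ x, a x) ^ 2 =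
      ∑ p ∈ B, ∑ q ∈ B, (a (π p) - c) * (a (π q) - c) := by
    intro π
    rw [← sum_mul_sum, sum_sub_distrib, sum_const, nsmul_eq_mul, hc]
    ring
  have h3 : ∑ x, (a x - c) * (a x - c) ≤ ∑ x, a x ^ 2 := by
    have h4 : ∑ x, (a x - c) * (a x - c) = ∑ x, a x ^ 2 - 2 * c * ∑ x, (a x - c) - ∑ _x : α, c ^ 2 := by
      rw [mul_sum, ← sum_sub_distrib, ← sum_sub_distrib]
      exact sum_congr rfl fun x _ => by ring
    rw [h4, h1]
    have : 0 ≤ ∑ _x : α, c ^ 2 := sum_nonneg fun _ _ => sq_nonneg c
    linarith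
  simp only [h2]
  rw [avg_sum]
  calc _ ≤ ∑ _p ∈ B, (∑ x, a x ^ 2) / Fintype.card α := by
        refine sum_le_sum fun p hp => ?_
        rw [avg_sum, ← add_sum_erase _ _ hp]
        have h5 := avg_perm_one (fun x => (a x - c) * (a x - c)) p
        have h6 : ∑ q ∈ B.erase p, avg (fun π : Perm α => (a (π p) - c) * (a (π q) - c)) ≤ 0 :=
          sum_nonpos fun q hq => avg_perm_two (F := fun x => a x - c) h1 (ne_of_mem_erase hq)
        have h7 := div_le_div_of_nonneg_right h3 h0.le
        linarith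
    _ = _ := by rw [sum_const, nsmul_eq_mul]; ring

theorem avg_image (B : Finset α) (Φ : Finset α → ℝ) :
    avg (fun π : Perm α => Φ (B.map π.toEmbedding)) =
      (∑ A ∈ powersetCard B.card univ, Φ A) / ((Fintype.card α).choose B.card) := by
  have h1 : ∀ A ∈ powersetCard B.card (univ : Finset α),
      avg (fun π : Perm α => if B.map π.toEmbedding = A then (1 : ℝ) else 0) =
        avg fun π : Perm α => if B.map π.toEmbedding = B then (1 : ℝ) else 0 := by
    intro A hA
    obtain ⟨ρ, hρ⟩ := Equiv.Perm.exists_map_finset_eq B A (mem_powersetCard.1 hA).2.symm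
    rw [← avg_equiv (Equiv.mulLeft ρ)]
    refine congrArg avg (funext fun π => if_congr ?_ rfl rfl)
    rw [← hρ, show (Equiv.mulLeft ρ π).toEmbedding = π.toEmbedding.trans ρ.toEmbedding from rfl,
      ← map_map, map_inj]
  have h2 : ∀ Ψ : Finset α → ℝ, avg (fun π : Perm α => Ψ (B.map π.toEmbedding)) =
      (∑ A ∈ powersetCard B.card univ, Ψ A) *
        avg fun π : Perm α => if B.map π.toEmbedding = B then (1 : ℝ) else 0 := by
    intro Ψ
    rw [sum_mul, ← sum_congr rfl fun A hA => congrArg (Ψ A * ·) (h1 A hA)]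
    simp only [← avg_mul]
    rw [← avg_sum]
    refine congrArg avg (funext fun π => ?_)
    simp
  have h3 := h2 fun _ => 1
  rw [avg_const, sum_const, card_powersetCard, card_univ, nsmul_eq_mul, mul_one] at h3
  have h4 : (((Fintype.card α).choose B.card : ℕ) : ℝ) ≠ 0 := left_ne_zero_of_mul_eq_one h3.symm
  rw [h2, eq_div_iff h4, mul_assoc, mul_comm (avg _), ← h3, mul_one]

theorem card_comp {β : Type} [Fintype β] [DecidableEq β] (x : α → β) (s : β → ℕ) {k : ℕ}
    (hs : ∑ j, s j = k) :
    ((powersetCard k univ).filter fun A : Finset α => ∀ j, (A.filter fun p => x p = j).card = s j).card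
      = ∏ j, (univ.filter fun p => x p = j).card.choose (s j) := by
  simp only [← card_powersetCard]
  rw [← Fintype.card_piFinset]
  refine card_nbij' (fun A j => A.filter fun p => x p = j)
    (fun f => univ.filter fun p => p ∈ f (x p)) ?_ ?_ ?_ ?_
  · intro A hA
    refine mem_coe.2 (Fintype.mem_piFinset.2 fun j => mem_powersetCard.2 ⟨?_, ?_⟩)
    · exact filter_subset_filter _ (subset_univ A)
    · exact (mem_filter.1 (mem_coe.1 hA)).2 j
  · intro f hf
    have h1 : ∀ j, ((univ.filter fun p => p ∈ f (x p)).filter fun p => x p = j) = f j := by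
      intro j
      ext p
      have := (mem_powersetCard.1 (Fintype.mem_piFinset.1 (mem_coe.1 hf) j)).1
      simp only [mem_filter, mem_univ, true_and]
      constructor
      · rintro ⟨h, rfl⟩; exact h
      · intro h
        have h2 := (mem_filter.1 (this h)).2
        exact ⟨h2 ▸ h, h2⟩
    have h2 : ∀ j, ((univ.filter fun p => p ∈ f (x p)).filter fun p => x p = j).card = s j :=
      fun j => by rw [h1, (mem_powersetCard.1 (Fintype.mem_piFinset.1 (mem_coe.1 hf) j)).2]
    refine mem_coe.2 (mem_filter.2 ⟨mem_powersetCard.2 ⟨subset_univ _, ?_⟩, h2⟩)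
    rw [card_eq_sum_card_fiberwise (f := x) (t := univ) fun _ _ => mem_coe.2 (mem_univ _), ← hs]
    exact sum_congr rfl fun j _ => h2 j
  · intro A _
    ext p
    simp
  · intro f hf
    funext j
    ext p
    have := (mem_powersetCard.1 (Fintype.mem_piFinset.1 (mem_coe.1 hf) j)).1
    simp only [mem_filter, mem_univ, true_and]
    constructor
    · rintro ⟨h, rfl⟩; exact h
    · intro h
      have h2 := (mem_filter.1 (this h)).2
      exact ⟨h2 ▸ h, h2⟩

theorem hyper_prob {β : Type} [Fintype β] [DecidableEq β] (x : α → β) (s : β → ℕ) (B : Finset α)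
    (hs : ∑ j, s j = B.card) :
    avg (fun π : Perm α => if ∀ j, (B.filter fun p => x (π p) = j).card = s j then (1 : ℝ) else 0) =
      (∏ j, ((univ.filter fun p => x p = j).card.choose (s j) : ℝ)) /
        ((Fintype.card α).choose B.card) := by
  have h1 := avg_image B fun A => if ∀ j, (A.filter fun p => x p = j).card = s j then 1 else 0
  simp only [filter_map, card_map] at h1
  rw [sum_boole, card_comp x s hs, Nat.cast_prod] at h1
  exact h1

end Pool.Agent.P.MP_1e2081_pr
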