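import Pool.Agent.P.MP_1e2081_pr.Smooth

/-!
From the jump chain to continuous time.
-/

set_option autoImplicit false

namespace Pool.Agent.P.MP_1e2081_pr

open Finset

/-- Poisson weights. -/
noncomputable def pois (t : ℝ) (m : ℕ) : ℝ := Real.exp (-t) * t ^ m / (m.factorial : ℝ)

theorem pois_nonneg {t : ℝ} (h : 0 ≤ t) (m : ℕ) : 0 ≤ pois t m := by unfold pois; positivity

theorem pois_sum {t : ℝ} (h : 0 ≤ t) : HasSum (pois t) 1 :=
  ProbabilityTheory.hasSum_one_poissonMeasure ⟨t, h⟩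

theorem pois_succ (t : ℝ) (m : ℕ) : pois t (m + 1) * (m + 1) = t * pois t m := by
  simp only [pois, Nat.factorial_succ, pow_succ]
  push_cast
  field_simp

theorem pois_mean {t : ℝ} (h : 0 ≤ t) : HasSum (fun m : ℕ => pois t m * m) t := by
  rw [← hasSum_nat_add_iff' 1]
  simp only [Nat.cast_add, Nat.cast_one, pois_succ]
  simpa using (pois_sum h).mul_left t

theorem pois_var {t : ℝ} (h : 0 ≤ t) : HasSum (fun m : ℕ => pois t m * (m - t) ^ 2) t := by
  have h1 : HasSum (fun m : ℕ => pois t m * m * m) (t * t + t) := by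
    rw [← hasSum_nat_add_iff' 1]
    simp only [Nat.cast_add, Nat.cast_one, pois_succ]
    convert! ((pois_mean h).mul_left t).add ((pois_sum h).mul_left t) using 1
    · funext m; ring
    · simp
  convert! (h1.sub ((pois_mean h).mul_left (2 * t))).add ((pois_sum h).mul_left (t ^ 2)) using 1
  · funext m; ring
  · ring

variable {Ω : Type} [Fintype Ω] [DecidableEq Ω] {P : Matrix Ω Ω ℝ} {π : Ω → ℝ}

theorem heat_test (hP : P ∈ Matrix.rowStochastic ℝ Ω) {t : ℝ} (h : 0 ≤ t) (x : Ω) (F : Ω → ℝ) :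
    HasSum (fun m => pois t m * (P ^ m).mulVec F x) (∑ y, heat P t x y * F y) := by
  simp only [Matrix.mulVec, dotProduct, mul_sum, ← mul_assoc]
  refine hasSum_sum fun y _ => HasSum.mul_right _ (Summable.hasSum ?_)
  exact Summable.of_nonneg_of_le (fun m => mul_nonneg (pois_nonneg h m)
    (Matrix.nonneg_of_mem_rowStochastic (pow_mem hP m))) (fun m => mul_le_of_le_one_right
    (pois_nonneg h m) (Matrix.le_one_of_mem_rowStochastic (pow_mem hP m))) (pois_sum h).summable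

theorem heat_sum (hP : P ∈ Matrix.rowStochastic ℝ Ω) {t : ℝ} (h : 0 ≤ t) (x : Ω) :
    ∑ y, heat P t x y = 1 := by
  have h1 := heat_test hP h x 1
  simp only [Matrix.one_vecMul_of_mem_rowStochastic (pow_mem hP _), Pi.one_apply, mul_one] at h1
  exact h1.unique (pois_sum h)

theorem mulVec_le (hP : P ∈ Matrix.rowStochastic ℝ Ω) {F : Ω → ℝ} {b : ℝ} (h : ∀ y, F y ≤ b)
    (x : Ω) : P.mulVec F x ≤ b := by
  refine (sum_le_sum fun y _ => mul_le_mul_of_nonneg_left (h y)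
    (Matrix.nonneg_of_mem_rowStochastic hP)).trans_eq ?_
  rw [← sum_mul, Matrix.sum_row_of_mem_rowStochastic hP, one_mul]

theorem mulVec_nonneg (hP : P ∈ Matrix.rowStochastic ℝ Ω) {F : Ω → ℝ} (h : ∀ y, 0 ≤ F y)
    (x : Ω) : 0 ≤ P.mulVec F x :=
  sum_nonneg fun y _ => mul_nonneg (Matrix.nonneg_of_mem_rowStochastic hP) (h y)

theorem IsStationary.pow (h : IsStationary P π) (F : Ω → ℝ) (m : ℕ) :
    ∑ x, π x * (P ^ m).mulVec F x = ∑ x, π x * F x := by
  induction m with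
  | zero => simp
  | succ m ih =>
    rw [pow_succ', ← Matrix.mulVec_mulVec, ← ih]
    generalize (P ^ m).mulVec F = G
    simp only [Matrix.mulVec, dotProduct, mul_sum, ← mul_assoc]
    rw [sum_comm]
    simp only [← sum_mul, h.2.2]

theorem test_le_dist (hP : P ∈ Matrix.rowStochastic ℝ Ω) (hπ : ∑ x, π x = 1) {t : ℝ} (h : 0 ≤ t)
    (x : Ω) {F : Ω → ℝ} (F0 : ∀ y, 0 ≤ F y) (F1 : ∀ y, F y ≤ 1) :
    ∑ y, heat P t x y * F y - ∑ y, π y * F y ≤ dist P π t := by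
  refine le_trans ?_ (le_ciSup (Finite.bddAbove_range
    fun x => (1 / 2 : ℝ) * ∑ y, |heat P t x y - π y|) x)
  have h1 : ∑ y, heat P t x y * F y - ∑ y, π y * F y =
      ∑ y, (heat P t x y - π y) * (F y - 1 / 2) := by
    simp only [mul_sub, sub_mul, sum_sub_distrib, ← sum_mul, heat_sum hP h, hπ]
    ring
  rw [h1, mul_sum]
  refine sum_le_sum fun y _ => (le_abs_self _).trans ?_
  rw [abs_mul, mul_comm]
  exact mul_le_mul_of_nonneg_right (abs_le.2 ⟨by linarith [F0 y], by linarith [F1 y]⟩)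
    (abs_nonneg _)

theorem le_dist (hP : P ∈ Matrix.rowStochastic ℝ Ω) (hπ : ∑ x, π x = 1) {t M δ : ℝ} (h : 0 ≤ t)
    (hM : t < M) (δ0 : 0 ≤ δ) (x : Ω) {F : Ω → ℝ} (F0 : ∀ y, 0 ≤ F y) (F1 : ∀ y, F y ≤ 1)
    (hF : ∀ m : ℕ, (m : ℝ) ≤ M → 1 - δ ≤ (P ^ m).mulVec F x) :
    1 - δ - t / (M - t) ^ 2 - ∑ y, π y * F y ≤ dist P π t := by
  refine le_trans (sub_le_sub_right ?_ _) (test_le_dist hP hπ h x F0 F1)
  have M0 : 0 < (M - t) ^ 2 := pow_pos (sub_pos.2 hM) 2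
  refine hasSum_le (fun m => ?_) (by simpa using
    ((pois_sum h).mul_left (1 - δ)).sub ((pois_var h).div_const ((M - t) ^ 2))) (heat_test hP h x F)
  rw [mul_comm, mul_div_assoc, ← mul_sub]
  refine mul_le_mul_of_nonneg_left ?_ (pois_nonneg h m)
  have h1 : 0 ≤ ((m : ℝ) - t) ^ 2 / (M - t) ^ 2 := by positivity
  rcases le_or_gt (m : ℝ) M with h2 | h2
  · linarith [hF m h2]
  · have h3 : 1 ≤ ((m : ℝ) - t) ^ 2 / (M - t) ^ 2 :=
      (one_le_div M0).2 (pow_le_pow_left₀ (by linarith) (by linarith) 2)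
    linarith [mulVec_nonneg (pow_mem hP m) F0 x]

theorem exp_le_dist (hP : P ∈ Matrix.rowStochastic ℝ Ω) (hπ : ∑ x, π x = 1) {t : ℝ} (h : 0 ≤ t)
    (x : Ω) {F : Ω → ℝ} (F0 : ∀ y, 0 ≤ F y) (F1 : ∀ y, F y ≤ 1) (hF : F x = 1) :
    Real.exp (-t) - ∑ y, π y * F y ≤ dist P π t := by
  refine le_trans (sub_le_sub_right ?_ _) (test_le_dist hP hπ h x F0 F1)
  have := le_hasSum (heat_test hP h x F) 0 fun m _ =>
    mul_nonneg (pois_nonneg h m) (mulVec_nonneg (pow_mem hP m) F0 x)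
  simpa [pois, hF] using this

theorem dist_le (hP : P ∈ Matrix.rowStochastic ℝ Ω) (hπ : IsStationary P π) {t M δ : ℝ}
    (h : 0 ≤ t) (hM : M < t) (δ0 : 0 ≤ δ) (hF : ∀ m : ℕ, M ≤ m → ∀ F : Ω → ℝ, (∀ y, 0 ≤ F y) →
      (∀ y, F y ≤ 1) → ∀ x x', (P ^ m).mulVec F x - (P ^ m).mulVec F x' ≤ δ) :
    dist P π t ≤ δ + t / (t - M) ^ 2 := by
  have M0 : 0 < (t - M) ^ 2 := pow_pos (sub_pos.2 hM) 2
  refine Real.iSup_le (fun x => ?_) (by positivity)
  let F : Ω → ℝ := fun y => if π y ≤ heat P t x y then 1 else 0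
  have F0 : ∀ y, 0 ≤ F y := fun y => by simp only [F]; split_ifs <;> norm_num
  have F1 : ∀ y, F y ≤ 1 := fun y => by simp only [F]; split_ifs <;> norm_num
  have h1 : (1 / 2 : ℝ) * ∑ y, |heat P t x y - π y| =
      ∑ y, heat P t x y * F y - ∑ y, π y * F y := by
    have h2 : ∀ y, |heat P t x y - π y| =
        2 * (heat P t x y * F y - π y * F y) - (heat P t x y - π y) := fun y => by
      simp only [F]
      split_ifs with h3
      · rw [abs_of_nonneg (by linarith)]; ring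
      · rw [abs_of_neg (by linarith)]; ring
    simp only [h2, sum_sub_distrib, ← mul_sum, heat_sum hP h, hπ.2.1]
    ring
  rw [h1, sub_le_iff_le_add']
  refine (hasSum_le (fun m => ?_) (heat_test hP h x F)
    (((pois_sum h).mul_left (∑ y, π y * F y + δ)).add
      ((pois_var h).div_const ((t - M) ^ 2)))).trans_eq (by ring)
  rw [mul_comm (_ + δ), mul_div_assoc, ← mul_add]
  refine mul_le_mul_of_nonneg_left ?_ (pois_nonneg h m)
  have h2 : 0 ≤ ((m : ℝ) - t) ^ 2 / (t - M) ^ 2 := by positivity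
  rcases le_or_gt M m with h3 | h3
  · have h4 := sum_le_sum fun x' (_ : x' ∈ univ) =>
      mul_le_mul_of_nonneg_left (hF m h3 F F0 F1 x x') (hπ.1 x')
    simp only [mul_sub, sum_sub_distrib, ← sum_mul, hπ.2.1, hπ.pow] at h4
    linarith
  · have h4 : 1 ≤ ((m : ℝ) - t) ^ 2 / (t - M) ^ 2 := by
      rw [one_le_div M0, ← neg_sub t, neg_sq]
      exact pow_le_pow_left₀ (by linarith) (by linarith) 2
    have h5 : 0 ≤ ∑ y, π y * F y := sum_nonneg fun y _ => mul_nonneg (hπ.1 y) (F0 y)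
    linarith [mulVec_le (pow_mem hP m) F1 x]

theorem tmix_le {t ε : ℝ} (h : 0 ≤ t) (h1 : dist P π t ≤ ε) : tmix P π ε ≤ t :=
  csInf_le ⟨0, fun _ h => h.1⟩ ⟨h, h1⟩

theorem le_tmix {t T ε : ℝ} (h : 0 ≤ t) (h1 : dist P π t ≤ ε)
    (h2 : ∀ s, 0 ≤ s → s < T → ε < dist P π s) : T ≤ tmix P π ε :=
  le_csInf ⟨t, h, h1⟩ fun s hs => not_lt.1 fun h3 => (h2 s hs.1 h3).not_ge hs.2

end Pool.Agent.P.MP_1e2081_pr
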