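import Pool.Agent.P.MP_1e2081_pr.Escape

/-!
The random product of the mean evolutions does not decay faster than the spectral gap allows.
-/

set_option autoImplicit false

namespace Pool.Agent.P.MP_1e2081_pr

open Finset Equiv

variable {d : ℕ} {μ : Perm (Fin d) → ℝ} {γ κ ε c θ η : ℝ} {bS bF : BF d}

/-- Squared Euclidean norm. -/
def N2 (y : Vec d) : ℝ := ∑ i, y i ^ 2

theorem N2_nonneg (y : Vec d) : 0 ≤ N2 y := sum_nonneg fun _ _ => sq_nonneg _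

theorem sq_le_N2 (y : Vec d) (i : Fin d) : y i ^ 2 ≤ N2 y :=
  single_le_sum (f := fun i => y i ^ 2) (fun _ _ => sq_nonneg _) (mem_univ i)

theorem bf_bound (b : BF d) : ∃ C, 0 < C ∧ ∀ y, b y y ≤ C * N2 y := by
  refine ⟨1 + ∑ i, ∑ j, |b (fun l => if i = l then 1 else 0) fun l => if j = l then 1 else 0|,
    by positivity, fun y => ?_⟩
  have h1 : b y y = ∑ i, ∑ j, y i * y j *
      b (fun l => if i = l then 1 else 0) fun l => if j = l then 1 else 0 := by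
    conv_lhs => rw [pi_eq_sum_univ y]
    simp only [map_sum, map_smul, LinearMap.sum_apply, LinearMap.smul_apply, smul_eq_mul, mul_sum]
    rw [sum_comm]
    exact sum_congr rfl fun i _ => sum_congr rfl fun j _ => by ring
  rw [h1, add_mul, sum_mul]
  refine le_add_of_nonneg_of_le (by rw [one_mul]; exact N2_nonneg y) (sum_le_sum fun i _ => ?_)
  rw [sum_mul]
  refine sum_le_sum fun j _ => (le_abs_self _).trans ?_
  rw [abs_mul, mul_comm]
  refine mul_le_mul_of_nonneg_left (abs_le.2 ?_) (abs_nonneg _)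
  have := sq_le_N2 y i
  have := sq_le_N2 y j
  constructor <;> nlinarith [sq_nonneg (y i + y j), sq_nonneg (y i - y j)]

theorem Pair.mean (h : Pair μ γ κ ε c bS bF) (hμ : IsProb μ) (κ0 : 0 ≤ κ) (θ0 : 0 ≤ θ)
    (y : Vec d) : ∑ σ, μ σ * (bS + bF) (Av θ σ y) (Av θ σ y) ≤
      (1 - 2 * θ * (γ - ε) + θ ^ 2 * c ^ 2) * (bS + bF) y y := by
  have h1 : ∀ σ, μ σ ≠ 0 → (bS + bF) (Av θ σ y) (Av θ σ y) ≤
      (1 + θ ^ 2 * c ^ 2) * (bS + bF) y y + 2 * θ * (bS + bF) y (Bv σ y) := fun σ hσ => by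
    rw [Av, h.psd.expand]
    have := mul_le_mul_of_nonneg_left (h.inv σ hσ y) (sq_nonneg θ)
    linarith
  refine (hμ.sum_le h1).trans ?_
  have e : ∑ σ, μ σ * ((1 + θ ^ 2 * c ^ 2) * (bS + bF) y y + 2 * θ * (bS + bF) y (Bv σ y)) =
      (1 + θ ^ 2 * c ^ 2) * (bS + bF) y y + 2 * θ * (Dr μ bS y + Dr μ bF y) := by
    rw [← Dr_add]
    simp only [mul_add (μ _), sum_add_distrib, hμ.sum_const, mul_left_comm (μ _), ← mul_sum, Dr]
  have h2 := (abs_le.1 (h.slow y)).2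
  have h3 := h.fast y
  have h4 := mul_nonneg κ0 (h.psdF.nonneg y)
  have h5 : Dr μ bS y + Dr μ bF y ≤ -(γ - ε) * (bS + bF) y y := by
    rw [LinearMap.add_apply, LinearMap.add_apply]; linarith
  have h6 := mul_le_mul_of_nonneg_left h5 θ0
  rw [e]
  linarith

theorem log_ge {x : ℝ} (h : x ^ 2 ≤ 1 / 4) : x - 2 * x ^ 2 ≤ Real.log (1 + x) := by
  have h1 : 1 / 2 ≤ 1 + x := by nlinarith
  refine le_trans ?_ (Real.one_sub_inv_le_log_of_pos (by linarith))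
  rw [le_sub_comm, inv_eq_one_div, div_le_iff₀ (by linarith)]
  nlinarith [mul_nonneg (sq_nonneg x) (show 0 ≤ 1 + 2 * x by linarith)]

theorem Pair.log_step (h : Pair μ γ κ ε c bS bF) (hμ : IsProb μ) (γ0 : 0 ≤ γ + ε) (θ0 : 0 < θ)
    (η0 : 0 < η) (η1 : η ≤ 1) (θ1 : 16 * θ ^ 2 * c ^ 2 ≤ η) {y : Vec d}
    (hy : 0 < (bS + bF) y y) :
    Real.log ((bS + η • bF) y y) - (2 * θ * (γ + ε) + 16 * θ * c * η + 8 * θ ^ 2 * c ^ 2 / η) -
      2 * θ * c * (if rho bS bF y ≤ 1 / 8 then 1 else 0) ≤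
      ∑ σ, μ σ * Real.log ((bS + η • bF) (Av θ σ y) (Av θ σ y)) := by
  have p : PSD (bS + η • bF) := h.psdS.add (h.psdF.smul η0.le)
  have e : ∀ z, (bS + η • bF) z z = bS z z + η * bF z z := fun z => rfl
  have e' : ∀ z, (bS + bF) z z = bS z z + bF z z := fun z => rfl
  have c0 : 0 < c := zero_lt_one.trans_le h.one_le
  have S0 := h.psdS.nonneg y
  have F0 := h.psdF.nonneg y
  have q1 : η * (bS + bF) y y ≤ (bS + η • bF) y y := by rw [e, e']; nlinarith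
  have q0 : 0 < (bS + η • bF) y y := (mul_pos η0 hy).trans_le q1
  set q := (bS + η • bF) y y with hq
  have h1 : ∀ σ, μ σ ≠ 0 → Real.log q - 8 * θ ^ 2 * c ^ 2 / η +
      2 * θ / q * (bS + η • bF) y (Bv σ y) ≤
      Real.log ((bS + η • bF) (Av θ σ y) (Av θ σ y)) := by
    intro σ hσ
    have a1 := p.cs y (Bv σ y)
    have a2 : (bS + η • bF) (Bv σ y) (Bv σ y) ≤ c ^ 2 * (q / η) := by
      have a3 := h.inv σ hσ y
      have a4 : (bS + bF) y y ≤ q / η := by rw [le_div_iff₀ η0]; linarith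
      have a5 := mul_le_mul_of_nonneg_left a4 (sq_nonneg c)
      have a6 := mul_le_of_le_one_left (h.psdF.nonneg (Bv σ y)) η1
      rw [e]; rw [e'] at a3
      linarith
    have a3 := p.nonneg (Bv σ y)
    rw [Av, p.expand, ← hq]
    rw [← hq] at a1
    generalize (bS + η • bF) y (Bv σ y) = s at *
    generalize (bS + η • bF) (Bv σ y) (Bv σ y) = bb at *
    have a4 : (2 * θ / q * s) ^ 2 ≤ 4 * θ ^ 2 * c ^ 2 / η := by
      have a5 : s ^ 2 ≤ q * (c ^ 2 * (q / η)) := a1.trans (by gcongr)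
      calc _ = 4 * θ ^ 2 / q ^ 2 * s ^ 2 := by field_simp; ring
        _ ≤ 4 * θ ^ 2 / q ^ 2 * (q * (c ^ 2 * (q / η))) := by gcongr
        _ = _ := by field_simp
    have a5 : 4 * θ ^ 2 * c ^ 2 / η ≤ 1 / 4 := by rw [div_le_iff₀ η0]; linarith
    have a6 := log_ge (a4.trans a5)
    have a7 : 0 < 1 + 2 * θ / q * s := by nlinarith
    have a8 : Real.log (q * (1 + 2 * θ / q * s)) ≤ Real.log (q + 2 * θ * s + θ ^ 2 * bb) := by
      refine Real.log_le_log (mul_pos q0 a7) ?_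
      rw [show q * (1 + 2 * θ / q * s) = q + 2 * θ * s by field_simp]
      nlinarith [sq_nonneg θ]
    rw [Real.log_mul q0.ne' a7.ne'] at a8
    have a9 : 8 * θ ^ 2 * c ^ 2 / η = 2 * (4 * θ ^ 2 * c ^ 2 / η) := by ring
    linarith
  refine le_trans ?_ (hμ.sum_le h1)
  have e1 : ∑ σ, μ σ * (Real.log q - 8 * θ ^ 2 * c ^ 2 / η +
      2 * θ / q * (bS + η • bF) y (Bv σ y)) = Real.log q - 8 * θ ^ 2 * c ^ 2 / η +
      2 * θ / q * (Dr μ bS y + η * Dr μ bF y) := by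
    rw [← Dr_smul, ← Dr_add]
    simp only [mul_add (μ _), sum_add_distrib, hμ.sum_const, mul_left_comm (μ _), ← mul_sum, Dr]
  have h2 := (abs_le.1 (h.slow y)).1
  have h3 : -(c * (bS + bF) y y) ≤ Dr μ bF y := by
    rw [← hμ.sum_const (-(c * (bS + bF) y y))]
    exact hμ.sum_le fun σ hσ => (abs_le.1 (h.cross h.psdF h.F_le hσ y)).1
  have h4 : η * (bS + bF) y y ≤ (8 * η + if rho bS bF y ≤ 1 / 8 then 1 else 0) * q := by
    split_ifs with h5
    · nlinarith [mul_pos η0 q0]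
    · rw [rho, not_le, lt_div_iff₀ hy] at h5
      have h6 : bS y y ≤ q := by rw [hq, e]; nlinarith
      nlinarith
  have h5 : bS y y ≤ q := by rw [hq, e]; nlinarith
  have h6 : -((γ + ε) + c * (8 * η + if rho bS bF y ≤ 1 / 8 then 1 else 0)) * q ≤
      Dr μ bS y + η * Dr μ bF y := by
    have := mul_le_mul_of_nonneg_left h3 η0.le
    have := mul_le_mul_of_nonneg_left h4 c0.le
    have := mul_le_mul_of_nonneg_left h5 γ0
    linarith
  have h7 := mul_le_mul_of_nonneg_left h6 (show 0 ≤ 2 * θ / q by positivity)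
  rw [← mul_assoc, mul_right_comm, div_mul_cancel₀ _ q0.ne'] at h7
  rw [e1]
  linarith

variable {T : Type} [Fintype T] [Nonempty T]

theorem Pair.low_tail (h : Pair μ γ κ ε c bS bF) (hμ : IsProb μ) (κ0 : 0 ≤ κ) (γ0 : 0 ≤ γ)
    (ε0 : 0 ≤ ε) (θ0 : 0 < θ) (θ1 : θ * c ≤ 1 / 8) (η0 : 0 < η) (η1 : η ≤ 1)
    (θ2 : 16 * θ ^ 2 * c ^ 2 ≤ η) {y₀ : Vec d} (hy : 0 < (bS + bF) y₀ y₀)
    (hF : bF y₀ y₀ ≤ bS y₀ y₀) (m : ℕ) (A : ℝ) :
    A * (op μ (stY T θ) ^ m) (fun y => if (bS + bF) y y ≤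
      (bS + bF) y₀ y₀ * Real.exp (-(2 * γ * θ * m) - A) then 1 else 0) y₀ ≤
      2 + m * (4 * θ * ε + 16 * θ * c * η + 9 * θ ^ 2 * c ^ 2 / η) + 2 * θ * c *
        ∑ t ∈ range m, (op μ (stY T θ) ^ t) (fun y => if rho bS bF y ≤ 1 / 8 then 1 else 0) y₀ := by
  set K := op μ (stY T θ) with hK
  have hI : ∀ σ (τ : T) y, μ σ ≠ 0 → 0 < (bS + bF) y y →
      0 < (bS + bF) (stY T θ σ τ y) (stY T θ σ τ y) := fun σ τ y hσ hy =>
    (h.q_step θ0 θ1 hσ hy).1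
  let Φ : Vec d → ℝ := fun y => Real.log ((bS + η • bF) y y)
  have e : ∀ z, (bS + η • bF) z z = bS z z + η * bF z z := fun z => rfl
  have e' : ∀ z, (bS + bF) z z = bS z z + bF z z := fun z => rfl
  have h1 : ∀ N : ℕ, Φ y₀ - N * (2 * θ * (γ + ε) + 16 * θ * c * η + 8 * θ ^ 2 * c ^ 2 / η) -
      2 * θ * c * ∑ t ∈ range N, (K ^ t) (fun y => if rho bS bF y ≤ 1 / 8 then 1 else 0) y₀ ≤
      (K ^ N) Φ y₀ := by
    intro N
    induction N with
    | zero => simp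
    | succ N ih =>
      have b1 := pow_le_on (st := stY T θ) hμ hI (F' := K Φ) (fun y hy =>
        (h.log_step hμ (add_nonneg γ0 ε0) θ0 η0 η1 θ2 hy).trans_eq (opY Φ y).symm) N hy
      rw [pow_sub_apply, pow_sub_apply, pow_mul_apply, pow_const hμ] at b1
      rw [sum_range_succ, pow_succ_apply', mul_add (2 * θ * c)]
      push_cast
      linarith
  set r := Real.exp (-(2 * θ * (γ - ε)) + θ ^ 2 * c ^ 2) with hr
  have h2 := lyap (st := stY T θ) hμ (I := fun _ => True) (fun _ _ _ _ _ => trivial)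
    (J := fun y => (bS + bF) y y) (r := r) (b := 0) (Real.exp_pos _).le (fun y _ => by
      rw [opY, mul_zero, add_zero]
      refine (h.mean hμ κ0 θ0.le y).trans (mul_le_mul_of_nonneg_right ?_ (h.psd.nonneg y))
      linarith [Real.add_one_le_exp (-(2 * θ * (γ - ε)) + θ ^ 2 * c ^ 2)]) m (s := y₀) trivial
  rw [mul_zero, add_zero] at h2
  have r0 : 0 < r ^ m * (bS + bF) y₀ y₀ := by positivity
  set B := r ^ m * (bS + bF) y₀ y₀ with hB
  have h3 : Real.log B = m * (-(2 * θ * (γ - ε)) + θ ^ 2 * c ^ 2) + Real.log ((bS + bF) y₀ y₀) := by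
    rw [hB, Real.log_mul (by positivity) hy.ne', Real.log_pow, hr, Real.log_exp]
  have h4 : ∀ y, 0 < (bS + bF) y y → A * (if (bS + bF) y y ≤
      (bS + bF) y₀ y₀ * Real.exp (-(2 * γ * θ * m) - A) then 1 else 0) ≤
      B⁻¹ * (bS + bF) y y - Φ y + Real.log B := by
    intro y hy'
    have S0 := h.psdS.nonneg y
    have F0 := h.psdF.nonneg y
    have q0 : 0 < (bS + η • bF) y y := (mul_pos η0 hy').trans_le (by rw [e, e']; nlinarith)
    have q1 : (bS + η • bF) y y ≤ (bS + bF) y y := by rw [e, e']; nlinarith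
    have q2 := Real.log_le_log q0 q1
    split_ifs with b1
    · have b2 := Real.log_le_log hy' b1
      rw [Real.log_mul hy.ne' (Real.exp_pos _).ne', Real.log_exp] at b2
      have b3 : 0 ≤ B⁻¹ * (bS + bF) y y := by positivity
      have b4 : 0 ≤ m * (2 * θ * ε + θ ^ 2 * c ^ 2) := by positivity
      simp only [Φ]
      linarith
    · have b2 := Real.log_le_sub_one_of_pos (mul_pos (inv_pos.2 r0) hy')
      rw [Real.log_mul (inv_pos.2 r0).ne' hy'.ne', Real.log_inv] at b2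
      simp only [Φ]
      linarith
  have h5 := pow_le_on (st := stY T θ) hμ hI h4 m hy
  rw [pow_mul_apply, pow_add_apply, pow_sub_apply, pow_mul_apply, pow_const hμ] at h5
  have h6 : B⁻¹ * (K ^ m) (fun y => (bS + bF) y y) y₀ ≤ 1 := by
    rw [inv_mul_le_iff₀ r0, mul_one]; exact h2
  have h7 : Real.log ((bS + bF) y₀ y₀) ≤ 1 + Φ y₀ := by
    have F0 := h.psdF.nonneg y₀
    have q0 : 0 < (bS + η • bF) y₀ y₀ := by rw [e]; rw [e'] at hy; nlinarith
    have b1 : (bS + bF) y₀ y₀ ≤ 2 * (bS + η • bF) y₀ y₀ := by rw [e, e']; nlinarith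
    have b2 := Real.log_le_log hy b1
    rw [Real.log_mul two_ne_zero q0.ne'] at b2
    have b3 := Real.log_le_sub_one_of_pos two_pos
    simp only [Φ]
    linarith
  have h8 : θ ^ 2 * c ^ 2 ≤ θ ^ 2 * c ^ 2 / η := by
    rw [le_div_iff₀ η0]; exact mul_le_of_le_one_right (by positivity) η1
  have h9 := mul_le_mul_of_nonneg_left h8 (Nat.cast_nonneg (α := ℝ) m)
  have h10 := h1 m
  have e1 : 8 * θ ^ 2 * c ^ 2 / η = 8 * (θ ^ 2 * c ^ 2 / η) := by ring
  have e2 : 9 * θ ^ 2 * c ^ 2 / η = 9 * (θ ^ 2 * c ^ 2 / η) := by ring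
  rw [e1] at h10
  rw [e2]
  linarith

theorem small_exp {a B : ℝ} (a0 : 0 < a) (B0 : 0 < B) (L : ℕ) : ∃ θ₀, 0 < θ₀ ∧ ∀ θ, 0 < θ →
    θ ≤ θ₀ → Real.exp (1 - a / θ / 4) ≤ B * (θ ^ 2 / 8) ^ L := by
  refine ⟨B * (a / 4) ^ (2 * L + 1) / (8 ^ L * Real.exp 1 * (2 * L + 1).factorial),
    by positivity, fun θ θ0 θ1 => ?_⟩
  have h1 := Real.pow_div_factorial_le_exp (a / θ / 4) (by positivity) (2 * L + 1)
  rw [le_div_iff₀ (by positivity)] at θ1
  rw [Real.exp_sub, div_le_iff₀ (Real.exp_pos _)]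
  refine le_trans ?_ (mul_le_mul_of_nonneg_left h1 (by positivity))
  have e : B * (θ ^ 2 / 8) ^ L * ((a / θ / 4) ^ (2 * L + 1) / (2 * L + 1).factorial) =
      B * (a / 4) ^ (2 * L + 1) / (θ * (8 ^ L * (2 * L + 1).factorial)) := by
    rw [div_right_comm a, div_pow (a / 4), div_pow, ← pow_mul, pow_succ θ]
    field_simp
  rw [e, le_div_iff₀ (by positivity)]
  linarith

/-- The coefficients moved along a word. -/
def VL (l : List (Perm (Fin d))) (v : Fin d → ℂ) : Fin d → ℂ := l.foldr (fun σ w => w ∘ σ) v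

theorem ell_PL (l : List (Perm (Fin d))) (v : Fin d → ℂ) (y : Vec d) :
    ell v (PL l y) = ell (VL l v) y := by
  induction l generalizing y with
  | nil => rfl
  | cons σ l ih => exact (ih (Pv σ y)).trans (ell_Pv _ σ y)

theorem sum_VL (l : List (Perm (Fin d))) (v : Fin d → ℂ) : ∑ i, VL l v i = ∑ i, v i := by
  induction l with
  | nil => rfl
  | cons σ l ih => exact (Equiv.sum_comp σ (VL l v)).trans ih

theorem product (hμ : IsProb μ) (γ0 : 0 ≤ γ)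
    (hγ : ∀ (l : ℂ) (v : Fin d → ℂ), ∑ i, v i = 0 → v ≠ 0 → Uc μ v = l • v → l.re ≤ 1 - γ)
    {v₀ : Fin d → ℂ} {l₀ : ℂ} (h₀ : ∑ i, v₀ i = 0) (h₁ : Uc μ v₀ = l₀ • v₀) (h₂ : l₀.re = 1 - γ)
    {y₀ : Vec d} (h₃ : ell v₀ y₀ ≠ 0) {δ : ℝ} (δ0 : 0 < δ) :
    ∃ c₀ θ₀, 0 < c₀ ∧ 0 < θ₀ ∧ ∀ θ, 0 < θ → θ ≤ θ₀ → ∀ (T : Type) [Fintype T] [Nonempty T]
      (m : ℕ) (A : ℝ), 0 ≤ A → A * (op μ (stY T θ) ^ m)
        (fun y => if N2 y ≤ c₀ * Real.exp (-(2 * γ * θ * m) - A) then 1 else 0) y₀ ≤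
        3 + δ * θ * m := by
  let G : Set (Fin d → ℂ) := {v | ∃ l : List (Perm (Fin d)), (∀ σ ∈ l, μ σ ≠ 0) ∧ v = VL l v₀}
  have hV : ∀ σ, μ σ ≠ 0 → ∀ v ∈ Submodule.span ℂ G, v ∘ σ ∈ Submodule.span ℂ G := by
    intro σ hσ v hv
    induction hv using Submodule.span_induction with
    | mem v hv =>
      obtain ⟨l, a1, rfl⟩ := hv
      exact Submodule.subset_span ⟨σ :: l, List.forall_mem_cons.2 ⟨hσ, a1⟩, rfl⟩
    | zero => exact Submodule.zero_mem _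
    | add v w _ _ a1 a2 => exact Submodule.add_mem _ a1 a2
    | smul a v _ a1 => exact Submodule.smul_mem _ a a1
  have hS : ∀ v ∈ Submodule.span ℂ G, ∑ i, v i = 0 := by
    intro v hv
    induction hv using Submodule.span_induction with
    | mem v hv =>
      obtain ⟨l, -, rfl⟩ := hv
      rw [sum_VL, h₀]
    | zero => simp
    | add v w _ _ a1 a2 => simp [sum_add_distrib, a1, a2]
    | smul a v _ a1 => simp [← mul_sum, a1]
  obtain ⟨κ, κ0, h⟩ := exists_forms hμ hV (fun l v hv => hγ l v (hS v hv))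
    (Submodule.subset_span ⟨[], by simp, rfl⟩) h₁ h₂ h₃
  obtain ⟨c, bS, bF, h, hF, hv, -, htr⟩ := h (min (δ / 16) (κ / 8)) (by positivity)
  have ε1 := min_le_left (δ / 16) (κ / 8)
  have ε2 := min_le_right (δ / 16) (κ / 8)
  have ε0 : 0 < min (δ / 16) (κ / 8) := by positivity
  generalize min (δ / 16) (κ / 8) = ε at *
  obtain ⟨C, L, C0, hE⟩ := htr (fun L y M => ∀ l : List (Perm (Fin d)), (∀ σ ∈ l, μ σ ≠ 0) →
      l.length ≤ L → bS (PL l y) (PL l y) ≤ M) (fun L L' y M a1 a2 l a3 a4 => a2 l a3 (a4.trans a1))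
    fun v hv' => span_bound (fun L L' y M a1 a2 l a3 a4 => a2 l a3 (a4.trans a1)) (by
      rintro _ ⟨l, a1, rfl⟩
      refine ⟨1, l.length, zero_le_one, fun y M a2 => ?_⟩
      rw [← ell_PL, one_mul]
      exact (hv _).trans (a2 l a1 le_rfl)) hv'
  obtain ⟨m₁, m0, hm⟩ := exists_gap univ μ
  have c0 : 0 < c := zero_lt_one.trans_le h.one_le
  obtain ⟨C', C0', hC'⟩ := bf_bound (bS + bF)
  have hy : 0 < (bS + bF) y₀ y₀ := ((Complex.normSq_pos.2 h₃).trans_le (hv y₀)).trans_le (h.S_le y₀)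
  obtain ⟨a, a0, a1, a2⟩ : ∃ a, 0 < a ∧ 11 * (a * c) ≤ 1 ∧ 800 * c ^ 2 * a ≤ κ := by
    refine ⟨min (1 / (11 * c)) (κ / (800 * c ^ 2)), by positivity, ?_, ?_⟩
    · have := min_le_left (1 / (11 * c)) (κ / (800 * c ^ 2))
      rw [le_div_iff₀ (by positivity)] at this
      linarith
    · have := min_le_right (1 / (11 * c)) (κ / (800 * c ^ 2))
      rw [le_div_iff₀ (by positivity)] at this
      linarith
  obtain ⟨η, η0, η1, η2⟩ : ∃ η, 0 < η ∧ η ≤ 1 ∧ 64 * c * η ≤ δ := by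
    refine ⟨min 1 (δ / (64 * c)), by positivity, min_le_left _ _, ?_⟩
    have := min_le_right 1 (δ / (64 * c))
    rw [le_div_iff₀ (by positivity)] at this
    linarith
  obtain ⟨ζ, ζ0, ζ1, ζ2⟩ : ∃ ζ, 0 < ζ ∧ ζ ≤ 1 ∧ 8 * c * ζ ≤ δ := by
    refine ⟨min 1 (δ / (8 * c)), by positivity, min_le_left _ _, ?_⟩
    have := min_le_right 1 (δ / (8 * c))
    rw [le_div_iff₀ (by positivity)] at this
    linarith
  have m0' : 0 < min m₁ 1 := lt_min m0 one_pos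
  obtain ⟨θ₁, θ10, hθ⟩ := small_exp a0
    (B := min m₁ 1 ^ L * (a * κ / 4 / (C + 1)) * ζ / (L + 1)) (by positivity) L
  obtain ⟨θ₂, θ20, hθ2⟩ : ∃ θ₂, 0 < θ₂ ∧ ∀ θ, 0 < θ → θ ≤ θ₂ → (L + 1) * (11 * (θ * c)) ≤ 1 / 8 ∧
      584 * c ^ 2 * θ ≤ κ ∧ 36 * c ^ 2 * θ ≤ δ * η ∧ 16 * c ^ 2 * θ ≤ η := by
    refine ⟨min (min (1 / (88 * (L + 1) * c)) (κ / (584 * c ^ 2)))
      (min (δ * η / (36 * c ^ 2)) (η / (16 * c ^ 2))), by positivity, fun θ _ b => ?_⟩
    simp only [le_min_iff] at b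
    obtain ⟨⟨b1, b2⟩, b3, b4⟩ := b
    rw [le_div_iff₀ (by positivity)] at b1 b2 b3 b4
    exact ⟨by linarith, by linarith, by linarith, by linarith⟩
  refine ⟨(bS + bF) y₀ y₀ / C', min θ₁ θ₂, by positivity, by positivity,
    fun θ θ0 θ1 T _ _ m A A0 => ?_⟩
  obtain ⟨b1, b2, b3, b4⟩ := hθ2 θ θ0 (θ1.trans (min_le_right _ _))
  have b5 := hθ θ θ0 (θ1.trans (min_le_left _ _))
  have tc : 0 < θ * c := mul_pos θ0 c0
  have b6 : θ * c ≤ 1 / 8 := by nlinarith [mul_nonneg (Nat.cast_nonneg (α := ℝ) L) tc.le]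
  have b7 : θ ≤ 1 := by nlinarith [h.one_le]
  have b8 := h.bad_sum (T := T) hμ C0 hE m0' (min_le_right _ _)
    (fun σ hσ => (min_le_left _ _).trans (hm σ (mem_univ σ) ((hμ.1 σ).lt_of_ne' hσ))) θ0 b6 a0 a1 a2
    b2 (by linarith) (by linarith) hy
    (by rw [rho, le_div_iff₀ hy, LinearMap.add_apply, LinearMap.add_apply]; linarith) m
  have b9 := h.low_tail (T := T) hμ κ0.le γ0 ε0.le θ0 b6 η0 η1
    (by linarith [mul_le_mul_of_nonneg_left b4 θ0.le, mul_le_of_le_one_left η0.le b7]) hy hF m A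
  generalize ∑ t ∈ range m, (op μ (stY T θ) ^ t)
    (fun y => if rho bS bF y ≤ 1 / 8 then (1 : ℝ) else 0) y₀ = Z at b8 b9
  have b10 : Z ≤ (m + L + 1) * ζ := by
    refine le_of_mul_le_mul_left (b8.trans ?_)
      (show 0 < min m₁ 1 ^ L * (a * κ / 4 * ((θ ^ 2 / 8) ^ L / (C + 1))) by positivity)
    refine (mul_le_mul_of_nonneg_left b5 (by positivity)).trans (le_of_eq ?_)
    field_simp
  refine le_trans (mul_le_mul_of_nonneg_left (pow_le hμ (fun y => ?_) m y₀) A0) (b9.trans ?_)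
  · split_ifs with d1 d2
    · exact le_rfl
    · refine absurd ((hC' y).trans ?_) d2
      refine (mul_le_mul_of_nonneg_left d1 C0'.le).trans (le_of_eq ?_)
      field_simp
    · exact zero_le_one
    · exact le_rfl
  · have d1 : 9 * θ ^ 2 * c ^ 2 / η ≤ δ / 4 * θ := by
      rw [div_le_iff₀ η0]
      linarith [mul_le_mul_of_nonneg_left b3 θ0.le]
    have d2 : 4 * θ * ε + 16 * θ * c * η + 9 * θ ^ 2 * c ^ 2 / η ≤ 3 / 4 * δ * θ := by
      linarith [mul_le_mul_of_nonneg_left ε1 θ0.le, mul_le_mul_of_nonneg_left η2 θ0.le]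
    have d3 := mul_le_mul_of_nonneg_left d2 (Nat.cast_nonneg (α := ℝ) m)
    have d4 := mul_le_mul_of_nonneg_left b10 (show 0 ≤ 2 * θ * c by positivity)
    have d5 := mul_le_mul_of_nonneg_left ζ2 (show 0 ≤ θ * m by positivity)
    have d6 := mul_le_mul_of_nonneg_left ζ1 (show 0 ≤ (L + 1) * (θ * c) by positivity)
    linarith

end Pool.Agent.P.MP_1e2081_pr
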