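import Pool.Agent.P.MP_1e2081_pr.Family

/-!
The share of the slow form along the random product of the mean evolutions.
-/

set_option autoImplicit false

namespace Pool.Agent.P.MP_1e2081_pr

open Finset Equiv

theorem den_bound {t cc c θ : ℝ} (c0 : 0 ≤ cc) (c1 : cc ≤ c ^ 2) (ht : |t| ≤ c) (θ0 : 0 < θ)
    (θ1 : θ * c ≤ 1 / 8) : |2 * θ * t + θ ^ 2 * cc| ≤ 3 * (θ * c) := by
  obtain ⟨t1, t2⟩ := abs_le.1 ht
  have h0 : 0 ≤ θ * c := mul_nonneg θ0.le ((abs_nonneg t).trans ht)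
  have h1 : θ ^ 2 * cc ≤ (θ * c) ^ 2 := by rw [mul_pow]; gcongr
  have h2 : 0 ≤ θ ^ 2 * cc := by positivity
  have h3 := mul_le_mul_of_nonneg_left t1 θ0.le
  have h4 := mul_le_mul_of_nonneg_left t2 θ0.le
  rw [abs_le]
  constructor <;> nlinarith

theorem rho_step {ρ s bb t cc c θ : ℝ} (ρ0 : 0 ≤ ρ) (ρ1 : ρ ≤ 1) (hs : s ^ 2 ≤ ρ * bb)
    (b0 : 0 ≤ bb) (b1 : bb ≤ cc) (c1 : cc ≤ c ^ 2) (ht : |t| ≤ c) (θ0 : 0 < θ)
    (θ1 : θ * c ≤ 1 / 8) (hn : 0 ≤ ρ + 2 * θ * s + θ ^ 2 * bb) :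
    2 * θ * (s - ρ * t) + θ ^ 2 * bb / 2 - 73 * c ^ 2 * θ ^ 2 * ρ ≤
      (ρ + 2 * θ * s + θ ^ 2 * bb) / (1 + 2 * θ * t + θ ^ 2 * cc) - ρ ∧
    ((ρ + 2 * θ * s + θ ^ 2 * bb) / (1 + 2 * θ * t + θ ^ 2 * cc) - ρ) ^ 2 ≤
      100 * c ^ 2 * θ ^ 2 * ρ + 8 * c ^ 2 * θ ^ 4 * bb := by
  have hx := den_bound (b0.trans b1) c1 ht θ0 θ1
  rw [add_assoc 1]
  have e : ρ * (2 * θ * t + θ ^ 2 * cc) ≤ 2 * θ * (ρ * t) + c ^ 2 * θ ^ 2 * ρ := by
    have : ρ * (θ ^ 2 * cc) ≤ ρ * (θ ^ 2 * c ^ 2) := by gcongr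
    linarith
  generalize 2 * θ * t + θ ^ 2 * cc = x at *
  obtain ⟨x1, x2⟩ := abs_le.1 hx
  have hx2 : x ^ 2 ≤ 9 * (θ * c) ^ 2 := by nlinarith
  have d0 : 5 / 8 ≤ 1 + x := by linarith
  constructor
  · have h1 : (ρ + 2 * θ * s + θ ^ 2 * bb) * (1 - x) ≤ (ρ + 2 * θ * s + θ ^ 2 * bb) / (1 + x) := by
      rw [le_div_iff₀ (by linarith), mul_assoc]
      exact mul_le_of_le_one_right hn (by nlinarith [sq_nonneg x])
    have h2 : 2 * θ * s * x ≤ θ ^ 2 * (bb / 8 + 72 * c ^ 2 * ρ) := by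
      apply le_of_sq_le_sq _ (by positivity) |>.trans' (le_abs_self _)
      rw [sq_abs]
      have h3 : (2 * θ * s * x) ^ 2 ≤ 4 * θ ^ 2 * (ρ * bb) * (9 * (θ * c) ^ 2) := by
        rw [mul_pow, mul_pow, mul_pow]; norm_num; gcongr
      have h4 : 0 ≤ (θ ^ 2 * (bb / 8 - 72 * c ^ 2 * ρ)) ^ 2 := sq_nonneg _
      nlinarith
    have h3 : θ ^ 2 * bb * (5 / 8) ≤ θ ^ 2 * bb * (1 - x) :=
      mul_le_mul_of_nonneg_left (by linarith) (by positivity)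
    nlinarith
  · rw [div_sub' (by linarith), div_pow, div_le_iff₀ (by positivity)]
    have h1 : (ρ + 2 * θ * s + θ ^ 2 * bb - (1 + x) * ρ) ^ 2 ≤
        3 * ((2 * θ * s) ^ 2 + (θ ^ 2 * bb) ^ 2 + (ρ * x) ^ 2) := by
      nlinarith [sq_nonneg (2 * θ * s - θ ^ 2 * bb), sq_nonneg (2 * θ * s + ρ * x),
        sq_nonneg (θ ^ 2 * bb + ρ * x)]
    have h2 : (2 * θ * s) ^ 2 ≤ 4 * θ ^ 2 * (ρ * c ^ 2) := by
      rw [mul_pow, mul_pow]; norm_num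
      exact mul_le_mul_of_nonneg_left (hs.trans (by gcongr; exact b1.trans c1)) (by positivity)
    have h3 : (θ ^ 2 * bb) ^ 2 ≤ θ ^ 4 * bb * c ^ 2 := by
      rw [show (θ ^ 2 * bb) ^ 2 = θ ^ 4 * bb * bb by ring]
      gcongr; exact b1.trans c1
    have h4 : (ρ * x) ^ 2 ≤ ρ * (9 * (θ * c) ^ 2) := by
      rw [mul_pow]
      exact mul_le_mul (by nlinarith) hx2 (sq_nonneg x) ρ0
    have h5 : 25 / 64 ≤ (1 + x) ^ 2 := by nlinarith
    have h6 := mul_le_mul_of_nonneg_left h5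
      (show 0 ≤ 100 * c ^ 2 * θ ^ 2 * ρ + 8 * c ^ 2 * θ ^ 4 * bb by positivity)
    have h7 : 0 ≤ c ^ 2 * θ ^ 2 * ρ := by positivity
    have h8 : 0 ≤ c ^ 2 * θ ^ 4 * bb := by positivity
    nlinarith

variable {d : ℕ} {μ : Perm (Fin d) → ℝ} {γ κ ε c θ : ℝ} {bS bF : BF d}

/-- The share of the slow form. -/
noncomputable def rho (bS bF : BF d) (y : Vec d) : ℝ := bS y y / (bS + bF) y y

namespace Pair

theorem psd (h : Pair μ γ κ ε c bS bF) : PSD (bS + bF) := h.psdS.add h.psdF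

theorem S_le (h : Pair μ γ κ ε c bS bF) (y : Vec d) : bS y y ≤ (bS + bF) y y :=
  le_add_of_nonneg_right (h.psdF.nonneg y)

theorem F_le (h : Pair μ γ κ ε c bS bF) (y : Vec d) : bF y y ≤ (bS + bF) y y :=
  le_add_of_nonneg_left (h.psdS.nonneg y)

theorem rho_nonneg (h : Pair μ γ κ ε c bS bF) (y : Vec d) : 0 ≤ rho bS bF y :=
  div_nonneg (h.psdS.nonneg y) (h.psd.nonneg y)

theorem rho_le (h : Pair μ γ κ ε c bS bF) (y : Vec d) : rho bS bF y ≤ 1 :=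
  div_le_one_of_le₀ (h.S_le y) (h.psd.nonneg y)

theorem cross (h : Pair μ γ κ ε c bS bF) {b : BF d} (hb : PSD b)
    (hle : ∀ z, b z z ≤ (bS + bF) z z) {σ : Perm (Fin d)} (hσ : μ σ ≠ 0) (y : Vec d) :
    |b y (Bv σ y)| ≤ c * (bS + bF) y y := by
  apply abs_le_of_sq_le_sq' _ (mul_nonneg (zero_le_one.trans h.one_le) (h.psd.nonneg y)) |> abs_le.2
  have h1 := mul_le_mul (hle y) ((hle _).trans (h.inv σ hσ y)) (hb.nonneg _) (h.psd.nonneg y)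
  have h2 := hb.cs y (Bv σ y)
  nlinarith

theorem q_step (h : Pair μ γ κ ε c bS bF) (θ0 : 0 < θ) (θ1 : θ * c ≤ 1 / 8) {σ : Perm (Fin d)}
    (hσ : μ σ ≠ 0) {y : Vec d} (hy : 0 < (bS + bF) y y) :
    0 < (bS + bF) (Av θ σ y) (Av θ σ y) ∧
      (bS + bF) (Av θ σ y) (Av θ σ y) ≤ 2 * (bS + bF) y y := by
  have h1 := den_bound (t := (bS + bF) y (Bv σ y) / (bS + bF) y y)
    (cc := (bS + bF) (Bv σ y) (Bv σ y) / (bS + bF) y y) (div_nonneg (h.psd.nonneg _) hy.le)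
    ((div_le_iff₀ hy).2 (h.inv σ hσ y))
    (by rw [abs_div, abs_of_pos hy, div_le_iff₀ hy]; exact h.cross h.psd (fun _ => le_rfl) hσ y)
    θ0 θ1
  rw [← mul_div_assoc, ← mul_div_assoc, ← add_div, abs_div, abs_of_pos hy, div_le_iff₀ hy,
    abs_le] at h1
  have h2 := mul_le_mul_of_nonneg_right θ1 hy.le
  rw [Av, h.psd.expand]
  constructor <;> nlinarith [h1.1, h1.2]

theorem step (h : Pair μ γ κ ε c bS bF) (θ0 : 0 < θ) (θ1 : θ * c ≤ 1 / 8) {σ : Perm (Fin d)}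
    (hσ : μ σ ≠ 0) {y : Vec d} (hy : 0 < (bS + bF) y y) :
    2 * θ * (bS y (Bv σ y) / (bS + bF) y y -
        rho bS bF y * ((bS + bF) y (Bv σ y) / (bS + bF) y y)) +
      θ ^ 2 * (bS (Bv σ y) (Bv σ y) / (bS + bF) y y) / 2 - 73 * c ^ 2 * θ ^ 2 * rho bS bF y ≤
      rho bS bF (Av θ σ y) - rho bS bF y ∧
    (rho bS bF (Av θ σ y) - rho bS bF y) ^ 2 ≤ 100 * c ^ 2 * θ ^ 2 * rho bS bF y +
      8 * c ^ 2 * θ ^ 4 * (bS (Bv σ y) (Bv σ y) / (bS + bF) y y) := by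
  have e1 : rho bS bF y + 2 * θ * (bS y (Bv σ y) / (bS + bF) y y) +
      θ ^ 2 * (bS (Bv σ y) (Bv σ y) / (bS + bF) y y) =
      bS (Av θ σ y) (Av θ σ y) / (bS + bF) y y := by
    rw [Av, h.psdS.expand, rho]; field_simp
  have e2 : 1 + 2 * θ * ((bS + bF) y (Bv σ y) / (bS + bF) y y) +
      θ ^ 2 * ((bS + bF) (Bv σ y) (Bv σ y) / (bS + bF) y y) =
      (bS + bF) (Av θ σ y) (Av θ σ y) / (bS + bF) y y := by
    rw [Av, h.psd.expand]; field_simp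
  have h1 := rho_step (s := bS y (Bv σ y) / (bS + bF) y y)
    (bb := bS (Bv σ y) (Bv σ y) / (bS + bF) y y) (t := (bS + bF) y (Bv σ y) / (bS + bF) y y)
    (cc := (bS + bF) (Bv σ y) (Bv σ y) / (bS + bF) y y) (h.rho_nonneg y) (h.rho_le y)
    (by
      rw [rho, div_pow, div_mul_div_comm, ← sq]
      exact div_le_div_of_nonneg_right (h.psdS.cs _ _) (sq_nonneg _))
    (div_nonneg (h.psdS.nonneg _) hy.le) (div_le_div_of_nonneg_right (h.S_le _) hy.le)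
    ((div_le_iff₀ hy).2 (h.inv σ hσ y))
    (by rw [abs_div, abs_of_pos hy, div_le_iff₀ hy]; exact h.cross h.psd (fun _ => le_rfl) hσ y)
    θ0 θ1 (by rw [e1]; exact div_nonneg (h.psdS.nonneg _) hy.le)
  rwa [e1, e2, div_div_div_cancel_right₀ hy.ne'] at h1

theorem abs_step (h : Pair μ γ κ ε c bS bF) (θ0 : 0 < θ) (θ1 : θ * c ≤ 1 / 8) {σ : Perm (Fin d)}
    (hσ : μ σ ≠ 0) {y : Vec d} (hy : 0 < (bS + bF) y y) :
    |rho bS bF (Av θ σ y) - rho bS bF y| ≤ 11 * (θ * c) := by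
  have c0 : 0 < θ * c := mul_pos θ0 (zero_lt_one.trans_le h.one_le)
  refine abs_le.2 (abs_le_of_sq_le_sq' ((h.step θ0 θ1 hσ hy).2.trans ?_) (by positivity))
  have h1 : bS (Bv σ y) (Bv σ y) / (bS + bF) y y ≤ c ^ 2 :=
    (div_le_iff₀ hy).2 ((h.S_le _).trans (h.inv σ hσ y))
  have h2 : 100 * c ^ 2 * θ ^ 2 * rho bS bF y ≤ 100 * c ^ 2 * θ ^ 2 :=
    mul_le_of_le_one_right (by positivity) (h.rho_le y)
  have h3 : 8 * c ^ 2 * θ ^ 4 * (bS (Bv σ y) (Bv σ y) / (bS + bF) y y) ≤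
      8 * c ^ 2 * θ ^ 4 * c ^ 2 := by gcongr
  have h4 : (θ * c) ^ 2 * (θ * c) ^ 2 ≤ (θ * c) ^ 2 * 1 := by gcongr; nlinarith
  nlinarith

theorem v_drift (h : Pair μ γ κ ε c bS bF) (hμ : IsProb μ) (θ0 : 0 < θ) (θ1 : θ * c ≤ 1 / 8)
    {a : ℝ} (a0 : 0 < a) (a1 : 11 * (a * c) ≤ 1) (a2 : 800 * c ^ 2 * a ≤ κ)
    (θ2 : 584 * c ^ 2 * θ ≤ κ) (hε : 8 * ε ≤ κ) {y : Vec d} (hy : 0 < (bS + bF) y y)
    (hρ : rho bS bF y ≤ 1 / 2) :
    ∑ σ, μ σ * Real.exp (-(a / θ) * rho bS bF (Av θ σ y)) ≤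
      Real.exp (-(a / θ) * rho bS bF y) * (1 - a * κ / 4 * rho bS bF y) := by
  have ρ0 := h.rho_nonneg y
  have c0 : 0 < c := zero_lt_one.trans_le h.one_le
  set ρ := rho bS bF y with hρ'
  set q := (bS + bF) y y with hq
  have h1 : ∀ σ, μ σ ≠ 0 → Real.exp (-(a / θ) * rho bS bF (Av θ σ y)) ≤
      Real.exp (-(a / θ) * ρ) * (1 + a * κ / 4 * ρ) -
        Real.exp (-(a / θ) * ρ) * (2 * a / q) * bS y (Bv σ y) +
        Real.exp (-(a / θ) * ρ) * (2 * a / q * ρ) * (bS + bF) y (Bv σ y) := by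
    intro σ hσ
    obtain ⟨h2, h3⟩ := h.step θ0 θ1 hσ hy
    have h4 := h.abs_step θ0 θ1 hσ hy
    rw [← hρ', ← hq] at h2 h3
    rw [← hρ'] at h4
    have b0 : 0 ≤ bS (Bv σ y) (Bv σ y) / q := div_nonneg (h.psdS.nonneg _) hy.le
    generalize bS (Bv σ y) (Bv σ y) / q = bb at *
    set Δ := rho bS bF (Av θ σ y) - ρ with hΔ
    have h5 : |-(a / θ) * Δ| ≤ 1 := by
      rw [abs_mul, abs_neg, abs_of_pos (div_pos a0 θ0)]
      refine (mul_le_mul_of_nonneg_left h4 (div_pos a0 θ0).le).trans (le_of_eq_of_le ?_ a1)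
      field_simp
    have h6 := (abs_le.1 (Real.abs_exp_sub_one_sub_id_le h5)).2
    have h7 := mul_le_mul_of_nonneg_left h2 (div_pos a0 θ0).le
    have h8 := mul_le_mul_of_nonneg_left h3 (sq_nonneg (a / θ))
    have e7 : a / θ * (2 * θ * (bS y (Bv σ y) / q - ρ * ((bS + bF) y (Bv σ y) / q)) +
        θ ^ 2 * bb / 2 - 73 * c ^ 2 * θ ^ 2 * ρ) = 2 * a / q * bS y (Bv σ y) -
        2 * a / q * ρ * (bS + bF) y (Bv σ y) + a * θ * bb / 2 - a * ρ * (73 * c ^ 2 * θ) := by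
      field_simp
    have e8 : (a / θ) ^ 2 * (100 * c ^ 2 * θ ^ 2 * ρ + 8 * c ^ 2 * θ ^ 4 * bb) =
        a * ρ * (100 * c ^ 2 * a) + a * θ * bb * (8 * (a * c) * (θ * c)) := by
      field_simp
    rw [e7] at h7
    rw [e8] at h8
    have h9 : a * ρ * (73 * c ^ 2 * θ) ≤ a * ρ * (κ / 8) :=
      mul_le_mul_of_nonneg_left (by linarith) (by positivity)
    have h10 : a * ρ * (100 * c ^ 2 * a) ≤ a * ρ * (κ / 8) :=
      mul_le_mul_of_nonneg_left (by linarith) (by positivity)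
    have h11 : a * θ * bb * (8 * (a * c) * (θ * c)) ≤ a * θ * bb * (1 / 2) :=
      mul_le_mul_of_nonneg_left (by nlinarith [mul_pos a0 c0, mul_pos θ0 c0]) (by positivity)
    have h12 : Real.exp (-(a / θ) * Δ) ≤ 1 + a * κ / 4 * ρ - 2 * a / q * bS y (Bv σ y) +
        2 * a / q * ρ * (bS + bF) y (Bv σ y) := by
      rw [mul_pow, neg_sq] at h6
      linarith
    rw [show -(a / θ) * rho bS bF (Av θ σ y) = -(a / θ) * ρ + -(a / θ) * Δ by rw [hΔ]; ring,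
      Real.exp_add]
    have h13 := mul_le_mul_of_nonneg_left h12 (Real.exp_pos (-(a / θ) * ρ)).le
    linarith
  refine (hμ.sum_le h1).trans ?_
  have e1 : ∑ σ, μ σ * (Real.exp (-(a / θ) * ρ) * (1 + a * κ / 4 * ρ) -
        Real.exp (-(a / θ) * ρ) * (2 * a / q) * bS y (Bv σ y) +
        Real.exp (-(a / θ) * ρ) * (2 * a / q * ρ) * (bS + bF) y (Bv σ y)) =
      Real.exp (-(a / θ) * ρ) * (1 + a * κ / 4 * ρ -
        2 * a / q * (Dr μ bS y - ρ * (Dr μ bS y + Dr μ bF y))) := by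
    rw [← Dr_add]
    simp only [mul_add (μ _), mul_sub (μ _), sum_add_distrib, sum_sub_distrib, hμ.sum_const,
      mul_left_comm (μ _), ← mul_sum, Dr]
    ring
  rw [e1]
  refine mul_le_mul_of_nonneg_left ?_ (Real.exp_pos _).le
  have e2 : bS y y = ρ * q := by rw [hρ', rho, ← hq]; field_simp
  have e3 : bF y y = (1 - ρ) * q := by
    have : q = bS y y + bF y y := rfl
    linarith
  obtain ⟨s1, s2⟩ := abs_le.1 (h.slow y)
  have s3 := h.fast y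
  rw [e2] at s1 s2
  rw [e3] at s3
  have κ0 : 0 ≤ κ := le_trans (by positivity) a2
  have h2 : κ / 4 * ρ * q ≤ Dr μ bS y - ρ * (Dr μ bS y + Dr μ bF y) := by
    have h3 := mul_le_mul_of_nonneg_left (add_le_add s2 s3) ρ0
    have h4 : 0 ≤ ρ * q * (κ * (1 / 2 - ρ)) := by
      have : 0 ≤ 1 / 2 - ρ := by linarith
      positivity
    have h5 : 0 ≤ ρ * q * (κ - 8 * ε) := by
      have : 0 ≤ κ - 8 * ε := by linarith
      positivity
    nlinarith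
  have h3 := mul_le_mul_of_nonneg_left h2 (show 0 ≤ 2 * a / q by positivity)
  have e4 : 2 * a / q * (κ / 4 * ρ * q) = a * κ / 2 * ρ := by field_simp; ring
  linarith

end Pair

end Pool.Agent.P.MP_1e2081_pr
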