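import Pool.Agent.P.MP_1e2081_pr.Perm

/-!
The chain on labelled balls and its projection to the chain of counts.
-/

set_option autoImplicit false

namespace Pool.Agent.P.MP_1e2081_pr

open Finset Equiv

variable {d n : ℕ}

/-- Slots: an urn and a position in it. -/
abbrev Sl (d n : ℕ) : Type := Fin d × Fin n

/-- Shuffles of all urns. -/
abbrev Sh (d n : ℕ) : Type := Fin d → Perm (Fin n)

/-- The slot from which the ball in a given slot comes after one jump. -/
def mv (k : ℕ) (σ : Perm (Fin d)) (τ : Sh d n) : Perm (Sl d n) :=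
  (Equiv.prodCongrLeft fun p : Fin n => if (p : ℕ) < k then σ.symm else Equiv.refl _).trans
    (Equiv.prodCongrRight τ)

theorem mv_apply (k : ℕ) (σ : Perm (Fin d)) (τ : Sh d n) (l : Fin d) (p : Fin n) :
    mv k σ τ (l, p) = if (p : ℕ) < k then (σ.symm l, τ (σ.symm l) p) else (l, τ l p) := by
  unfold mv
  split_ifs with h <;> simp [h]

/-- The first `k` positions. -/
def low (n k : ℕ) : Finset (Fin n) := univ.filter fun p => (p : ℕ) < k

theorem card_low {k : ℕ} (h : k ≤ n) : (low n k).card = k := by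
  rw [low, Fin.card_filter_val_lt, min_eq_right h]

theorem sum_mv {M : Type} [AddCommMonoid M] (a : Sl d n → M) (k : ℕ) (σ : Perm (Fin d))
    (τ : Sh d n) (l : Fin d) :
    ∑ p, a (mv k σ τ (l, p)) + ∑ p ∈ low n k, a (l, τ l p) =
      ∑ p, a (l, p) + ∑ p ∈ low n k, a (σ.symm l, τ (σ.symm l) p) := by
  rw [← Equiv.sum_comp (τ l) fun p => a (l, p), low, sum_filter, sum_filter, ← sum_add_distrib,
    ← sum_add_distrib]
  refine sum_congr rfl fun p _ => ?_
  rw [mv_apply]
  split_ifs
  · exact add_comm _ _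
  · rfl

/-- Number of balls of colour `j` in urn `i`. -/
def cnt (c : Sl d n → Fin d) (i j : Fin d) : ℕ := ∑ p, if c (i, p) = j then 1 else 0

theorem sum_cnt (c : Sl d n → Fin d) (i : Fin d) : ∑ j, cnt c i j = n := by
  unfold cnt
  rw [sum_comm]
  simp

theorem cnt_le (c : Sl d n → Fin d) (i j : Fin d) : cnt c i j ≤ n :=
  (single_le_sum (f := cnt c i) (fun _ _ => Nat.zero_le _) (mem_univ j)).trans (sum_cnt c i).le

/-- There are `n` balls of every colour. -/
def Valid (c : Sl d n → Fin d) : Prop := ∀ j, ∑ i, cnt c i j = n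

theorem sum_cnt_perm (c : Sl d n → Fin d) (r : Perm (Sl d n)) (j : Fin d) :
    ∑ i, cnt (c ∘ r) i j = ∑ i, cnt c i j := by
  unfold cnt
  rw [← Fintype.sum_prod_type' (f := fun i p => if (c ∘ r) (i, p) = j then 1 else 0),
    ← Fintype.sum_prod_type' (f := fun i p => if c (i, p) = j then 1 else 0)]
  exact Equiv.sum_comp r fun s => if c s = j then 1 else 0

theorem Valid.comp {c : Sl d n → Fin d} (h : Valid c) (r : Perm (Sl d n)) : Valid (c ∘ r) :=
  fun j => (sum_cnt_perm c r j).trans (h j)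

/-- The configuration `c` has the counts `X`. -/
def Rep (X : State d n) (c : Sl d n → Fin d) : Prop := ∀ i j, (X.1 i j : ℕ) = cnt c i j

theorem Rep.valid {X : State d n} {c : Sl d n → Fin d} (h : Rep X c) : Valid c := fun j =>
  (sum_congr rfl fun i _ => (h i j).symm).trans (X.2.2 j)

theorem Valid.exists_rep {c : Sl d n → Fin d} (h : Valid c) : ∃ X : State d n, Rep X c :=
  ⟨⟨fun i j => ⟨cnt c i j, Nat.lt_succ_of_le (cnt_le c i j)⟩, sum_cnt c, h⟩, fun _ _ => rfl⟩

/-- Extension by zero of a function on states to all matrices. -/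
noncomputable def ext (F : State d n → ℝ) (M : Fin d → Fin d → ℕ) : ℝ :=
  ∑ Y : State d n, if ∀ i j, (Y.1 i j : ℕ) = M i j then F Y else 0

theorem Rep.ext_eq {X : State d n} {c : Sl d n → Fin d} (h : Rep X c) (F : State d n → ℝ) :
    ext F (cnt c) = F X := by
  unfold ext
  rw [sum_eq_single X (fun Y _ hY => if_neg fun h1 => hY ?_) (by simp)]
  · exact if_pos h
  exact Subtype.ext (funext fun i => funext fun j => Fin.ext ((h1 i j).trans (h i j).symm))

/-- One jump of a configuration. -/
def stC {β : Type} (k : ℕ) (σ : Perm (Fin d)) (τ : Sh d n) (c : Sl d n → β) : Sl d n → β :=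
  c ∘ mv k σ τ

theorem avg_hit {k : ℕ} (hk : k ≤ n) {X : State d n} {c : Sl d n → Fin d} (h : Rep X c)
    (σ : Perm (Fin d)) (Y : State d n) :
    avg (fun τ : Sh d n => if ∀ i j, (Y.1 i j : ℕ) = cnt (stC k σ τ c) i j then (1 : ℝ) else 0) =
      ∑ S : Fin d → Fin d → Fin (k + 1),
        if (∀ i, ∑ j, (S i j : ℕ) = k) ∧
            ∀ i j, (Y.1 i j : ℕ) + S i j = X.1 i j + S (σ.symm i) j then
          ∏ i, (∏ j, ((X.1 i j : ℕ).choose (S i j) : ℝ)) / (n.choose k : ℝ)
        else 0 := by
  let sel : Sh d n → Fin d → Fin d → ℕ := fun τ i j =>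
    ((low n k).filter fun p => c (i, τ i p) = j).card
  have hle : ∀ τ i j, sel τ i j < k + 1 := fun τ i j =>
    Nat.lt_succ_of_le ((card_filter_le _ _).trans (card_low hk).le)
  have hsum : ∀ τ i, ∑ j, sel τ i j = k := fun τ i => by
    rw [← card_low hk]
    exact (card_eq_sum_card_fiberwise fun _ _ => mem_coe.2 (mem_univ _)).symm
  have hmv : ∀ τ i j, cnt (stC k σ τ c) i j + sel τ i j = X.1 i j + sel τ (σ.symm i) j := by
    intro τ i j
    rw [h i j]
    simp only [sel, card_filter]
    exact sum_mv (fun s => if c s = j then 1 else 0) k σ τ i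
  have h1 : ∀ τ : Sh d n, (if ∀ i j, (Y.1 i j : ℕ) = cnt (stC k σ τ c) i j then (1 : ℝ) else 0) =
      ∑ S : Fin d → Fin d → Fin (k + 1),
        (if (∀ i, ∑ j, (S i j : ℕ) = k) ∧
            ∀ i j, (Y.1 i j : ℕ) + S i j = X.1 i j + S (σ.symm i) j then (1 : ℝ) else 0) *
          ∏ i, if ∀ j, sel τ i j = S i j then (1 : ℝ) else 0 := by
    intro τ
    rw [sum_eq_single (fun i j => (⟨sel τ i j, hle τ i j⟩ : Fin (k + 1))) ?_ (by simp)]
    · simp only [implies_true, if_true, prod_const_one, mul_one]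
      refine if_congr ⟨fun h2 => ⟨hsum τ, fun i j => ?_⟩, fun h2 i j => ?_⟩ rfl rfl
      · rw [h2, hmv]
      · have := h2.2 i j
        have := hmv τ i j
        omega
    · intro S _ hS
      rw [prod_boole, if_neg (c := ∀ i ∈ univ, _), mul_zero]
      intro h2
      exact hS (funext fun i => funext fun j => Fin.ext (h2 i (mem_univ i) j).symm)
  simp only [h1]
  rw [avg_sum]
  refine sum_congr rfl fun S _ => ?_
  rw [avg_mul]
  split_ifs with h2
  · rw [one_mul, avg_pi fun i (π : Perm (Fin n)) => if ∀ j,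
      ((low n k).filter fun p => c (i, π p) = j).card = S i j then (1 : ℝ) else 0]
    refine prod_congr rfl fun i _ => ?_
    have h3 := hyper_prob (fun p => c (i, p)) (fun j => S i j) (low n k)
      (by rw [card_low hk, h2.1])
    rw [card_low hk, Fintype.card_fin] at h3
    simp only [h i, cnt, ← card_filter]
    convert h3
  · exact zero_mul _

theorem lump_one (μ : Perm (Fin d) → ℝ) {k : ℕ} (hk : k ≤ n) {X : State d n}
    {c : Sl d n → Fin d} (h : Rep X c) (F : State d n → ℝ) :
    (jump μ n k).mulVec F X = op μ (stC k) (fun c => ext F (cnt c)) c := by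
  rw [op_apply]
  simp only [Matrix.mulVec, dotProduct, jump, ← avg_hit hk h, sum_mul]
  rw [sum_comm]
  refine sum_congr rfl fun σ _ => ?_
  simp only [ext, mul_assoc, ← mul_sum]
  rw [avg_sum]
  refine congrArg _ (sum_congr rfl fun Y _ => ?_)
  rw [mul_comm, ← avg_mul]
  simp only [mul_ite, mul_one, mul_zero]

theorem lump (μ : Perm (Fin d) → ℝ) {k : ℕ} (hk : k ≤ n) (F : State d n → ℝ) (m : ℕ)
    {X : State d n} {c : Sl d n → Fin d} (h : Rep X c) :
    (jump μ n k ^ m).mulVec F X = (op μ (stC k) ^ m) (fun c => ext F (cnt c)) c := by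
  induction m generalizing X c with
  | zero => rw [pow_zero, pow_zero, Matrix.one_mulVec]; exact (h.ext_eq F).symm
  | succ m ih =>
    rw [pow_succ', ← Matrix.mulVec_mulVec, lump_one μ hk h, pow_succ_apply, op_apply, op_apply]
    refine sum_congr rfl fun σ _ => congrArg _ (congrArg avg (funext fun τ => ?_))
    obtain ⟨Y, hY⟩ := (h.valid.comp (mv k σ τ)).exists_rep
    exact (hY.ext_eq _).trans (ih hY)

end Pool.Agent.P.MP_1e2081_pr
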