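import Pool.Agent.P.MP_1e2081_pr.Stein

/-!
Close tables of counts have close laws after the balls have spread, and the upper bound.
-/

set_option autoImplicit false

namespace Pool.Agent.P.MP_1e2081_pr

open Finset Equiv

section

variable {α β : Type} [Fintype α] [DecidableEq α] [DecidableEq β]

theorem diff_swap {x y : α → β} {u v : α} (h1 : x u ≠ y u) (h2 : y v = x u) (h3 : x v ≠ y v) :
    (univ.filter fun s => x s ≠ (y ∘ swap u v) s).card < (univ.filter fun s => x s ≠ y s).card := by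
  refine card_lt_card ⟨fun s hs => ?_, fun h => ?_⟩
  · simp only [mem_filter, mem_univ, true_and, Function.comp] at hs ⊢
    by_cases a1 : s = u
    · rwa [a1]
    by_cases a2 : s = v
    · rwa [a2]
    rwa [swap_apply_of_ne_of_ne a1 a2] at hs
  · have := h (mem_filter.2 ⟨mem_univ u, h1⟩)
    simp [h2] at this

omit [DecidableEq α] in
theorem diff_split (x y : α → β) (j : β) :
    (univ.filter fun s => x s = j).card + (univ.filter fun s => x s ≠ y s ∧ y s = j).card =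
      (univ.filter fun s => y s = j).card + (univ.filter fun s => x s ≠ y s ∧ x s = j).card := by
  simp only [card_filter, ← sum_add_distrib]
  refine sum_congr rfl fun s _ => ?_
  by_cases h : x s = y s
  · simp [h]
  · simp [h, add_comm]

theorem rearr_one [Fintype β] (x y : α → β) : ∃ π : Perm α,
    ((univ.filter fun s => x s ≠ y (π s)).card : ℝ) ≤ ∑ j,
      |((univ.filter fun s => x s = j).card : ℝ) - (univ.filter fun s => y s = j).card| := by
  obtain ⟨π, -, h⟩ := exists_min_image univ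
    (fun π : Perm α => (univ.filter fun s => x s ≠ y (π s)).card) univ_nonempty
  refine ⟨π, ?_⟩
  rw [card_eq_sum_card_fiberwise (f := x) (t := univ) fun _ _ => mem_coe.2 (mem_univ _),
    Nat.cast_sum]
  refine sum_le_sum fun j _ => ?_
  have h1 := diff_split x (y ∘ π) j
  have h2 : (univ.filter fun s => (y ∘ π) s = j).card = (univ.filter fun s => y s = j).card :=
    card_equiv π (by simp)
  rw [filter_filter]
  rcases (univ.filter fun s => x s ≠ y (π s) ∧ x s = j).eq_empty_or_nonempty with h3 | ⟨u, h3⟩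
  · rw [h3]; simp
  have h4 : (univ.filter fun s => x s ≠ (y ∘ π) s ∧ (y ∘ π) s = j) = ∅ := by
    refine eq_empty_of_forall_notMem fun v h4 => ?_
    obtain ⟨a1, a2⟩ := (mem_filter.1 h3).2
    obtain ⟨a3, a4⟩ := (mem_filter.1 h4).2
    exact (diff_swap (y := y ∘ π) a1 (a4.trans a2.symm) a3).not_ge (h (π * swap u v) (mem_univ _))
  rw [h4, h2, card_empty, add_zero] at h1
  rw [h1, Nat.cast_add, add_sub_cancel_left]
  exact le_abs_self _

end

variable {d n k : ℕ} {μ : Perm (Fin d) → ℝ}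

theorem rearr (c c' : Sl d n → Fin d) : ∃ τ : Sh d n,
    (ndiff c (c' ∘ sh τ) : ℝ) ^ 2 ≤ d ^ 2 * Qd c c' := by
  choose τ h using fun l => rearr_one (fun p => c (l, p)) fun p => c' (l, p)
  refine ⟨τ, ?_⟩
  have h1 : (ndiff c (c' ∘ sh τ) : ℝ) ≤ ∑ x : Fin d × Fin d,
      |(cnt c x.2 x.1 : ℝ) - cnt c' x.2 x.1| := by
    rw [ndiff, card_filter, Fintype.sum_prod_type, Fintype.sum_prod_type_right, Nat.cast_sum]
    refine sum_le_sum fun l _ => ?_
    have := h l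
    simp only [card_filter] at this
    exact this
  refine (pow_le_pow_left₀ (Nat.cast_nonneg _) h1 2).trans (sq_sum_le_card_mul_sum_sq.trans
    (le_of_eq ?_))
  simp only [sq_abs, Qd, Fintype.sum_prod_type, card_univ, Fintype.card_prod, Fintype.card_fin]
  push_cast
  ring

theorem Valid.card {c : Sl d n → Fin d} (h : Valid c) (j : Fin d) :
    (univ.filter fun s => c s = j).card = n := by
  have := h.sum j
  rw [sum_boole] at this
  exact_mod_cast this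

theorem cnt_le_add (c c' : Sl d n → Fin d) (i j : Fin d) : cnt c i j ≤ cnt c' i j + ndiff c c' := by
  have h : ∑ p, (if c (i, p) ≠ c' (i, p) then 1 else 0) ≤ ndiff c c' := by
    rw [ndiff, card_filter, Fintype.sum_prod_type]
    exact single_le_sum (f := fun l => ∑ p, if c (l, p) ≠ c' (l, p) then 1 else 0)
      (fun _ _ => Nat.zero_le _) (mem_univ i)
  refine le_trans ?_ (Nat.add_le_add_left h _)
  rw [cnt, cnt, ← sum_add_distrib]
  refine sum_le_sum fun p _ => ?_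
  by_cases h1 : c (i, p) = c' (i, p)
  · simp [h1]
  · simp only [ne_eq, h1, not_false_eq_true, if_true]
    split_ifs <;> omega

theorem chain_bound {c : Sl d n → Fin d} (hv : Valid c) (r : Perm (Sl d n)) (i : Fin d) {s : ℝ}
    (s1 : 1 ≤ s) (s2 : s ^ 2 = n) {F : (Fin d → Fin d → ℕ) → ℝ} (F0 : ∀ M, 0 ≤ F M)
    (F1 : ∀ M, F M ≤ 1) (hc : ∀ j, (n : ℝ) / (2 * d) ≤ cnt c i j)
    (hr : ∀ l, (n : ℝ) / (2 * d) ≤ cnt (Prod.fst ∘ r) l i) (D : ℕ) {c' : Sl d n → Fin d}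
    (hv' : Valid c') (hD : ndiff c c' ≤ D) :
    avg (fun τ => F (cnt ((c ∘ sh τ) ∘ r))) - (avg fun τ => F (cnt ((c' ∘ sh τ) ∘ r))) ≤
      768 * d ^ 6 / s * D := by
  have d1 : (1 : ℝ) ≤ d := by exact_mod_cast i.pos
  have β0 : 0 ≤ 768 * (d : ℝ) ^ 6 / s := by positivity
  induction D generalizing c' with
  | zero =>
    have : c = c' := funext fun x => by
      by_contra h
      exact (card_pos.2 ⟨x, mem_filter.2 ⟨mem_univ x, h⟩⟩).not_ge hD
    simp [this]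
  | succ D ih =>
    push_cast
    by_cases h : ndiff c c' ≤ D
    · linarith [ih hv' h]
    by_cases h1 : (n : ℝ) / (4 * d) < D
    · have a1 := (avg_mono fun τ : Sh d n => F1 (cnt ((c ∘ sh τ) ∘ r))).trans_eq (avg_const 1)
      have a2 := avg_nonneg fun τ : Sh d n => F0 (cnt ((c' ∘ sh τ) ∘ r))
      have a3 : 1 ≤ 768 * d ^ 6 / s * (n / (4 * d)) := by
        rw [show 768 * d ^ 6 / s * (n / (4 * d)) = 192 * (d ^ 5 * s) by rw [← s2]; field_simp; ring]
        have := one_le_mul_of_one_le_of_one_le (one_le_pow₀ (n := 5) d1) s1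
        linarith
      have a4 := mul_le_mul_of_nonneg_left h1.le β0
      linarith
    obtain ⟨u, hu⟩ := card_pos.1 ((Nat.zero_le D).trans_lt (not_le.1 h))
    have a1 := diff_split c c' (c u)
    rw [hv.card, hv'.card, add_right_inj] at a1
    obtain ⟨v, hv''⟩ := card_pos.1 (a1.ge.trans_lt'
      (card_pos.2 ⟨u, mem_filter.2 ⟨mem_univ u, (mem_filter.1 hu).2, rfl⟩⟩))
    obtain ⟨a2, a3⟩ := (mem_filter.1 hv'').2
    have a4 : ndiff c (c' ∘ swap u v) ≤ D :=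
      Nat.lt_succ_iff.1 ((diff_swap (mem_filter.1 hu).2 a3 a2).trans_le hD)
    have a5 := ih (hv'.comp (swap u v)) a4
    have a6 := swap_bound (c' ∘ swap u v) r i u v s1 s2 F0 F1 (fun j => by
      have b1 : (cnt c i j : ℝ) ≤ cnt (c' ∘ swap u v) i j + D := by
        exact_mod_cast (cnt_le_add c _ i j).trans (Nat.add_le_add_left a4 _)
      have b2 : (n : ℝ) / (2 * d) = n / (4 * d) + n / (4 * d) := by field_simp; ring
      linarith [hc j, not_lt.1 h1]) hr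
    rw [show (c' ∘ swap u v) ∘ swap u v = c' from funext fun x => by simp] at a6
    linarith [(abs_le.1 a6).1]

theorem typ (c : Sl d n → Fin d) {l j : Fin d} (h : (cnt c l j : ℝ) < n / (2 * d)) :
    1 ≤ 4 * d ^ 2 / n ^ 2 * Qu c := by
  have d0 : (0 : ℝ) < d := by exact_mod_cast l.pos
  have n0 : (0 : ℝ) < n := by
    have := (Nat.cast_nonneg (α := ℝ) _).trans_lt h
    exact (div_pos_iff_of_pos_right (by positivity)).1 this
  have h1 : ((cnt c l j : ℝ) - n / d) ^ 2 ≤ Qu c :=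
    (single_le_sum (f := fun l => ((cnt c l j : ℝ) - n / d) ^ 2) (fun _ _ => sq_nonneg _)
      (mem_univ l)).trans (single_le_sum (f := fun j => ∑ l, ((cnt c l j : ℝ) - n / d) ^ 2)
      (fun _ _ => sum_nonneg fun _ _ => sq_nonneg _) (mem_univ j))
  have h2 : (n : ℝ) / d = n / (2 * d) + n / (2 * d) := by field_simp; ring
  have h3 : (n / (2 * d) : ℝ) ^ 2 ≤ ((cnt c l j : ℝ) - n / d) ^ 2 := by
    rw [← neg_sub, neg_sq]
    exact pow_le_pow_left₀ (by positivity) (by linarith) 2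
  refine le_trans (le_of_eq ?_) (mul_le_mul_of_nonneg_left (h3.trans h1) (by positivity))
  field_simp
  ring

theorem pow_sh {β : Type} (G : (Sl d n → β) → ℝ) (m : ℕ) (c : Sl d n → β) (τ : Sh d n) :
    (op μ (stC k) ^ (m + 1)) G (c ∘ sh τ) = (op μ (stC k) ^ (m + 1)) G c := by
  rw [pow_succ_apply, op_apply, op_apply]
  refine sum_congr rfl fun σ _ => congrArg _ ?_
  rw [← avg_equiv (Equiv.mulLeft τ) fun τ' => (op μ (stC k) ^ m) G (stC k σ τ' c)]
  rfl

/-- One jump of the permutation of the slots. -/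
def stR (k : ℕ) (σ : Perm (Fin d)) (τ : Sh d n) (r : Perm (Sl d n)) : Perm (Sl d n) :=
  r * mv k σ τ

theorem pow_perm {β : Type} (G : (Sl d n → β) → ℝ) (m : ℕ) (c : Sl d n → β) :
    (op μ (stR k) ^ m) (fun r => G (c ∘ r)) 1 = (op μ (stC k) ^ m) G c :=
  pow_comp (φ := fun r : Perm (Sl d n) => c ∘ r) (fun _ _ _ => rfl) G m 1

theorem pow_avg {β : Type} (G : (Sl d n → β) → ℝ) (m : ℕ) (c : Sl d n → β) :
    (op μ (stC k) ^ (m + 1)) G c =
      (op μ (stR k) ^ (m + 1)) (fun r => avg fun τ => G ((c ∘ sh τ) ∘ r)) 1 := by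
  rw [← avg_const (T := Sh d n) ((op μ (stC k) ^ (m + 1)) G c)]
  simp only [avg, div_eq_inv_mul]
  rw [pow_mul_apply, pow_sum_apply]
  simp only [pow_perm, pow_sh]

theorem valid_fst : Valid (Prod.fst : Sl d n → Fin d) := fun j => by
  unfold cnt
  rw [sum_comm]
  simp

theorem smooth (hμ : IsProb μ) {r C : ℝ} (hd : Drift μ n k r C) (C0 : 0 ≤ C) (r0 : 0 ≤ r)
    (i : Fin d) {s : ℝ} (s1 : 1 ≤ s) (s2 : s ^ 2 = n) {F : (Fin d → Fin d → ℕ) → ℝ}
    (F0 : ∀ M, 0 ≤ F M) (F1 : ∀ M, F M ≤ 1) {t : ℝ} (t0 : 0 < t) (m : ℕ)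
    {c c' : Sl d n → Fin d} (hv : Valid c) (hv' : Valid c') :
    (op μ (stC k) ^ (m + 1)) (fun x => F (cnt x)) c -
      (op μ (stC k) ^ (m + 1)) (fun x => F (cnt x)) c' ≤
      (768 * d ^ 7 / s) ^ 2 / t * Qd c c' + 4 * d ^ 2 / n ^ 2 * Qu c +
        (t + 4 * d ^ 2 / n ^ 2 * (C * d ^ 2 * (r ^ (m + 1) * n ^ 2 + n))) := by
  obtain ⟨τ, h⟩ := rearr c c'
  have q0 : ∀ x : Sl d n → Fin d, 0 ≤ 4 * d ^ 2 / n ^ 2 * Qu x := fun x =>
    mul_nonneg (by positivity) (Qu_nonneg x)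
  have h1 : 768 * d ^ 6 / s * ndiff c (c' ∘ sh τ) ≤ (768 * d ^ 7 / s) ^ 2 / t * Qd c c' + t := by
    have a1 : (768 * d ^ 6 / s * ndiff c (c' ∘ sh τ)) ^ 2 / t ≤
        (768 * d ^ 7 / s) ^ 2 / t * Qd c c' := by
      rw [mul_pow, show (768 * d ^ 7 / s) ^ 2 / t * Qd c c' =
        (768 * d ^ 6 / s) ^ 2 * (d ^ 2 * Qd c c') / t by ring]
      gcongr
    refine le_trans ?_ (add_le_add_left a1 t)
    generalize 768 * d ^ 6 / s * ndiff c (c' ∘ sh τ) = x
    rw [div_add' _ _ _ t0.ne', le_div_iff₀ t0]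
    nlinarith [sq_nonneg (x - t), sq_nonneg x, sq_nonneg t]
  rw [← pow_sh _ m c' τ, pow_avg, pow_avg, ← pow_sub_apply]
  refine (pow_le hμ (F' := fun ρ : Perm (Sl d n) => ((768 * d ^ 7 / s) ^ 2 / t * Qd c c' + t +
    4 * d ^ 2 / n ^ 2 * Qu c) + 4 * d ^ 2 / n ^ 2 * Qu (Prod.fst ∘ ρ)) (fun ρ => ?_) _ _).trans ?_
  · have a1 := (avg_mono fun τ : Sh d n => F1 (cnt ((c ∘ sh τ) ∘ ρ))).trans_eq (avg_const 1)
    have a2 := avg_nonneg fun τ' : Sh d n => F0 (cnt (((c' ∘ sh τ) ∘ sh τ') ∘ ρ))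
    have a3 := q0 c
    have a4 := q0 (Prod.fst ∘ ρ)
    have a5 : 0 ≤ 768 * d ^ 6 / s * ndiff c (c' ∘ sh τ) := by positivity
    by_cases b1 : ∀ j, (n : ℝ) / (2 * d) ≤ cnt c i j
    · by_cases b2 : ∀ l, (n : ℝ) / (2 * d) ≤ cnt (Prod.fst ∘ ρ) l i
      · linarith [chain_bound hv ρ i s1 s2 F0 F1 b1 b2 _ (hv'.comp (sh τ)) le_rfl]
      · push Not at b2
        obtain ⟨l, b2⟩ := b2
        linarith [typ _ b2]
    · push Not at b1
      obtain ⟨j, b1⟩ := b1
      linarith [typ _ b1]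
  · rw [pow_add_apply, pow_const hμ, pow_mul_apply, pow_perm Qu]
    have := mul_le_mul_of_nonneg_left (hd.qu C0 r0 valid_fst (m + 1))
      (show (0 : ℝ) ≤ 4 * d ^ 2 / n ^ 2 by positivity)
    linarith

theorem Qd_le (c c' : Sl d n → Fin d) : Qd c c' ≤ 2 * Qu c + 2 * Qu c' := by
  simp only [Qd, Qu, mul_sum, ← sum_add_distrib]
  exact sum_le_sum fun j _ => sum_le_sum fun l _ => by
    nlinarith [sq_nonneg ((cnt c l j : ℝ) - n / d + (cnt c' l j - n / d))]

/-- The error term of the coupling. -/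
noncomputable def err (d : ℕ) (C L t ρ s : ℝ) : ℝ :=
  t + (768 * d ^ 7) ^ 2 / t * (C * (4 * ρ * L ^ 2 + 2 * d ^ 2 * L / s)) +
    8 * d ^ 4 * C * (ρ + 1 / s ^ 2)

theorem upper (hμ : IsProb μ) {r C : ℝ} (hd : Drift μ n k r C) (C0 : 0 ≤ C) (r0 : 0 ≤ r)
    (r1 : r ≤ 1) (i : Fin d) {s : ℝ} (s1 : 1 ≤ s) (s2 : s ^ 2 = n)
    {F : (Fin d → Fin d → ℕ) → ℝ} (F0 : ∀ M, 0 ≤ F M) (F1 : ∀ M, F M ≤ 1) {L t ρ p : ℝ}
    (L0 : 0 ≤ L) (t0 : 0 < t) {m₁ m : ℕ} (hρ : r ^ m ≤ ρ) (hp : ∀ c : Sl d n → Fin d, Valid c →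
      (op μ (stC k) ^ m₁) (fun x => if L ^ 2 * n < Qu x then 1 else 0) c ≤ p)
    {c c' : Sl d n → Fin d} (hv : Valid c) (hv' : Valid c') :
    (op μ (stC k) ^ (m₁ + (m + 1 + (m + 1)))) (fun x => F (cnt x)) c -
      (op μ (stC k) ^ (m₁ + (m + 1 + (m + 1)))) (fun x => F (cnt x)) c' ≤
      2 * p + err d C L t ρ s := by
  have n0 : (0 : ℝ) < n := by nlinarith
  have ρ1 : r ^ (m + 1) ≤ ρ := (pow_le_pow_of_le_one r0 r1 m.le_succ).trans hρ
  have ρ0 : 0 ≤ ρ := (pow_nonneg r0 _).trans hρ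
  have hI : ∀ σ τ (c : Sl d n → Fin d), μ σ ≠ 0 → Valid c → Valid (stC k σ τ c) :=
    fun σ τ c _ h => h.comp _
  set H := (op μ (stC k) ^ (m + 1)) fun x : Sl d n → Fin d => F (cnt x) with hH
  have h1 : ∀ c c' : Sl d n → Fin d, Valid c → Valid c' → Qu c ≤ L ^ 2 * n → Qu c' ≤ L ^ 2 * n →
      (op μ (stC k) ^ (m + 1)) H c - (op μ (stC k) ^ (m + 1)) H c' ≤ err d C L t ρ s := by
    intro c c' hv hv' a1 a2
    obtain ⟨τ, h⟩ := rearr c c'
    have a3 : Qd c c' ≤ 4 * L ^ 2 * n := by linarith [Qd_le c c']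
    have a4 : (ndiff c (c' ∘ sh τ) : ℝ) ≤ 2 * d * L * s := by
      refine abs_le_of_sq_le_sq' (h.trans ?_) (by positivity) |>.2
      rw [show (2 * d * L * s) ^ 2 = d ^ 2 * (4 * L ^ 2 * s ^ 2) by ring, s2]
      gcongr
    have a5 : Qd c (c' ∘ sh τ) = Qd c c' := by simp only [Qd, cnt_sh]
    let x : Sl d n → Fin d × Fin d := fun s => (c s, (c' ∘ sh τ) s)
    have a6 := pow_comp (μ := μ) (st := stC k) (st' := stC k)
      (φ := fun x : Sl d n → Fin d × Fin d => Prod.fst ∘ x) (fun _ _ _ => rfl) H (m + 1) x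
    have a7 := pow_comp (μ := μ) (st := stC k) (st' := stC k)
      (φ := fun x : Sl d n → Fin d × Fin d => Prod.snd ∘ x) (fun _ _ _ => rfl) H (m + 1) x
    have a8 := pow_comp (μ := μ) (st := stC k) (st' := stC k)
      (φ := fun x : Sl d n → Fin d × Fin d => Prod.fst ∘ x) (fun _ _ _ => rfl) Qu (m + 1) x
    have a9 := pow_le_on hμ (st := stC k)
      (I := fun x : Sl d n → Fin d × Fin d => Valid (Prod.fst ∘ x) ∧ Valid (Prod.snd ∘ x))
      (fun σ τ x _ h => ⟨h.1.comp (mv k σ τ), h.2.comp (mv k σ τ)⟩)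
      (fun x h => smooth hμ hd C0 r0 i s1 s2 F0 F1 t0 m h.1 h.2) (m + 1) (s := x)
      ⟨hv, hv'.comp (sh τ)⟩
    rw [pow_sub_apply, pow_add_apply, pow_add_apply, pow_mul_apply, pow_mul_apply, pow_const hμ,
      a6, a7, a8] at a9
    have b1 := hd.qd C0 (x := x) hv (hv'.comp (sh τ)) (m + 1)
    have b2 := hd.qu C0 r0 (c := Prod.fst ∘ x) hv (m + 1)
    have b3 : C * d ^ 2 * (r ^ (m + 1) * n ^ 2 + n) ≤ C * d ^ 2 * (ρ * n ^ 2 + n) := by gcongr
    have b4 : C * (r ^ (m + 1) * Qd c (c' ∘ sh τ) + d * ndiff c (c' ∘ sh τ)) ≤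
        C * (ρ * (4 * L ^ 2 * n) + d * (2 * d * L * s)) := by
      rw [a5]
      have := Qd_nonneg c c'
      gcongr
    have b5 := mul_le_mul_of_nonneg_left (b1.trans b4)
      (show 0 ≤ (768 * d ^ 7 / s) ^ 2 / t by positivity)
    have b6 := mul_le_mul_of_nonneg_left (b2.trans b3)
      (show (0 : ℝ) ≤ 4 * d ^ 2 / n ^ 2 by positivity)
    have b7 := mul_le_mul_of_nonneg_left b3 (show (0 : ℝ) ≤ 4 * d ^ 2 / n ^ 2 by positivity)
    have b8 : err d C L t ρ s = t + (768 * d ^ 7 / s) ^ 2 / t *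
        (C * (ρ * (4 * L ^ 2 * n) + d * (2 * d * L * s))) +
        2 * (4 * d ^ 2 / n ^ 2 * (C * d ^ 2 * (ρ * n ^ 2 + n))) := by
      rw [err, ← s2]; field_simp; ring
    rw [← pow_sh H m c' τ, b8]
    exact a9.trans (by linarith)
  have h2 : ∀ x, 0 ≤ (op μ (stC k) ^ (m + 1)) H x := fun x =>
    pow_nonneg' hμ (pow_nonneg' hμ (fun x => F0 _) _) _ x
  have h3 : ∀ x, (op μ (stC k) ^ (m + 1)) H x ≤ 1 := fun x =>
    (pow_le hμ (fun x => (pow_le hμ (fun x => F1 _) _ x).trans_eq (pow_const hμ 1 _ x)) _ x).trans_eq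
      (pow_const hμ 1 _ x)
  have e0 : 0 ≤ err d C L t ρ s := by unfold err; positivity
  simp only [pow_add _ m₁, pow_add _ (m + 1) (m + 1), Module.End.mul_apply, ← hH]
  generalize (op μ (stC k) ^ (m + 1)) H = H' at *
  have h4 : ∀ x' : Sl d n → Fin d, Valid x' → (op μ (stC k) ^ m₁) H' c - (p + err d C L t ρ s) -
      (if L ^ 2 * n < Qu x' then 1 else 0) ≤ H' x' := by
    intro x' hx'
    have a1 := pow_le_on hμ hI (F := H') (F' := fun x => (if L ^ 2 * n < Qu x then 1 else 0) +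
      (err d C L t ρ s + H' x' + if L ^ 2 * n < Qu x' then 1 else 0)) (fun x hx => by
        have := h2 x'
        have := h3 x
        split_ifs with b1 b2 b2 <;> try linarith
        linarith [h1 x x' hx hx' (not_lt.1 b1) (not_lt.1 b2)]) m₁ hv
    rw [pow_add_apply, pow_const hμ] at a1
    linarith [hp c hv]
  have h5 := pow_le_on hμ hI h4 m₁ hv'
  rw [pow_sub_apply, pow_const hμ] at h5
  linarith [hp c' hv']

end Pool.Agent.P.MP_1e2081_pr
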