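import Pool.Agent.P.MP_1e2081_pr.Bridge

/-!
Spectral facts and the cutoff for `k = o(n)`.
-/

set_option autoImplicit false

namespace Pool.Agent.P.MP_1e2081_pr

open Finset Equiv Filter

variable {d : ℕ} {μ : Perm (Fin d) → ℝ} {γ : ℝ}

theorem const_of_inv (hU : (uMat μ).IsIrreducible) {E : Type} {v : Fin d → E}
    (h : ∀ σ, μ σ ≠ 0 → ∀ i, v (σ i) = v i) (i j : Fin d) : v i = v j := by
  have h1 : ∀ m i j, (uMat μ ^ m) i j ≠ 0 → v i = v j := by
    intro m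
    induction m with
    | zero => intro i j h; rw [by_contra fun h' => h (Matrix.one_apply_ne h')]
    | succ m ih =>
      intro i j h2
      rw [pow_succ, Matrix.mul_apply] at h2
      obtain ⟨l, -, h3⟩ := exists_ne_zero_of_sum_ne_zero h2
      obtain ⟨σ, -, h4⟩ := exists_ne_zero_of_sum_ne_zero (right_ne_zero_of_mul h3)
      rw [ih i l (left_ne_zero_of_mul h3), ← (ite_ne_right_iff.1 h4).1,
        h σ (ite_ne_right_iff.1 h4).2]
  obtain ⟨m, -, hm⟩ := (Matrix.isIrreducible_iff_exists_pow_pos hU.nonneg).1 hU i j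
  exact h1 m i j hm.ne'

theorem re_lt_one (hμ : IsProb μ) (hU : (uMat μ).IsIrreducible) {v : Fin d → ℂ} {l : ℂ}
    (h : Uc μ v = l • v) {i j : Fin d} (hv : v i ≠ v j) : l.re < 1 := by
  by_contra h1
  have h2 : ∑ σ, μ σ * ∑ i, (v (σ i) * (starRingEnd ℂ) (v i)).re =
      l.re * ∑ i, Complex.normSq (v i) := by
    simp only [mul_sum]
    rw [sum_comm]
    refine sum_congr rfl fun i _ => ?_
    have h3 := congrArg (fun w => (w i * (starRingEnd ℂ) (v i)).re) h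
    simp only [Uc_eq, Finset.sum_apply, Pi.smul_apply, smul_eq_mul, sum_mul, Complex.re_sum,
      mul_assoc, Complex.re_ofReal_mul, Complex.mul_conj, Function.comp] at h3
    rw [h3]
    simp
  have h3 : ∑ σ, μ σ * ∑ i, Complex.normSq (v (σ i) - v i) =
      2 * (1 - l.re) * ∑ i, Complex.normSq (v i) := by
    simp only [Complex.normSq_sub, sum_sub_distrib, sum_add_distrib, ← mul_sum, mul_sub (μ _),
      Equiv.sum_comp _ fun i => Complex.normSq (v i), hμ.sum_const, mul_left_comm (μ _) 2, h2]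
    ring
  have h4 : ∀ σ ∈ univ, 0 ≤ μ σ * ∑ i, Complex.normSq (v (σ i) - v i) := fun σ _ =>
    mul_nonneg (hμ.1 σ) (sum_nonneg fun i _ => Complex.normSq_nonneg _)
  have h5 := (sum_eq_zero_iff_of_nonneg h4).1 (le_antisymm (h3.trans_le
    (mul_nonpos_of_nonpos_of_nonneg (by linarith) (sum_nonneg fun i _ => Complex.normSq_nonneg _)))
    (sum_nonneg h4))
  refine hv (const_of_inv hU (fun σ hσ i => ?_) i j)
  have h6 := (mul_eq_zero.1 (h5 σ (mem_univ σ))).resolve_left hσ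
  exact sub_eq_zero.1 (Complex.normSq_eq_zero.1 ((sum_eq_zero_iff_of_nonneg
    fun i _ => Complex.normSq_nonneg _).1 h6 i (mem_univ i)))

/-- The spectral data extracted from the definition of the gap. -/
structure Gap (μ : Perm (Fin d) → ℝ) (γ : ℝ) (v₀ : Fin d → ℂ) (l₀ : ℂ) (y₀ : Vec d) : Prop where
  pos : 0 < γ
  le : ∀ (l : ℂ) (v : Fin d → ℂ), ∑ i, v i = 0 → v ≠ 0 → Uc μ v = l • v → l.re ≤ 1 - γ
  sum : ∑ i, v₀ i = 0
  eig : Uc μ v₀ = l₀ • v₀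
  re : l₀.re = 1 - γ
  ne : ell v₀ y₀ ≠ 0
  sumy : ∑ i, y₀ i = 0
  posy : 0 < N2 y₀

theorem exists_Gap (hμ : IsProb μ) (hU : (uMat μ).IsIrreducible)
    (hγ : IsLeast (gapSet (uMat μ)) γ) : ∃ v₀ l₀ y₀, Gap μ γ v₀ l₀ y₀ := by
  obtain ⟨⟨l₀, v₀, ⟨i, j, h1⟩, h2, h3⟩, h4⟩ := hγ
  have h5 : Uc μ v₀ = l₀ • v₀ := funext fun i => (Uc_apply μ v₀ i).trans (h2 i)
  have h6 := re_lt_one hμ hU h5 h1
  have h7 : i ≠ j := fun h => h1 (h ▸ rfl)
  refine ⟨v₀, l₀, fun l => (if l = i then 1 else 0) - if l = j then 1 else 0, by linarith,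
    fun l v a1 a2 a3 => ?_, ?_, h5, by linarith, ?_, by simp, ?_⟩
  · have a4 : ∃ i j, v i ≠ v j := by
      by_contra a4
      push Not at a4
      refine a2 (funext fun a => ?_)
      rw [sum_congr rfl fun b _ => a4 b a] at a1
      simpa [a.pos.ne'] using a1
    have := h4 ⟨l, v, a4, fun i => (Uc_apply μ v i).symm.trans (congrFun a3 i), rfl⟩
    linarith
  · have a1 : ∑ σ, (μ σ : ℂ) = 1 := by exact_mod_cast congrArg ((↑) : ℝ → ℂ) hμ.2
    have a2 := congrArg (fun w => ∑ i, w i) h5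
    simp only [Uc_eq, Finset.sum_apply, Pi.smul_apply, smul_eq_mul, Function.comp] at a2
    rw [sum_comm] at a2
    simp only [← mul_sum, Equiv.sum_comp _ v₀, ← sum_mul, a1] at a2
    exact (mul_eq_mul_right_iff.1 a2).resolve_left fun h => by simp [← h] at h6
  · simpa [ell, mul_sub, sum_sub_distrib, apply_ite ((↑) : ℝ → ℂ), sub_eq_zero] using h1
  · refine lt_of_lt_of_le ?_ (sq_le_N2 _ i)
    simp [h7]

theorem coercive {b : BF d} (h : ∀ v : Fin d → ℂ, ∑ i, v i = 0 →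
    ∃ C, 0 ≤ C ∧ ∀ y, Complex.normSq (ell v y) ≤ C * b y y) :
    ∃ C, 0 ≤ C ∧ ∀ z : Vec d, ∑ l, z l = 0 → N2 z ≤ C * b z z := by
  choose C C0 hC using fun i : Fin d => h (fun l => (if l = i then 1 else 0) - 1 / d) (by
    have : (d : ℂ) ≠ 0 := by exact_mod_cast i.pos.ne'
    simp [this])
  refine ⟨∑ i, C i, sum_nonneg fun i _ => C0 i, fun z hz => ?_⟩
  rw [sum_mul]
  refine sum_le_sum fun i _ => le_of_eq_of_le ?_ (hC i z)
  have h1 : ∑ l, (z l : ℂ) = 0 := by exact_mod_cast congrArg ((↑) : ℝ → ℂ) hz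
  simp [ell, sub_mul, sum_sub_distrib, ← mul_sum, h1, sq]

theorem Gap.ctr (hμ : IsProb μ) {v₀ : Fin d → ℂ} {l₀ : ℂ} {y₀ : Vec d}
    (h : Gap μ γ v₀ l₀ y₀) {g : ℝ} (g0 : 0 < g) (g1 : g < 2 * γ) : ∃ C θ₀ : ℝ, 0 ≤ C ∧ 0 < θ₀ ∧
      θ₀ * g ≤ 1 ∧ θ₀ ≤ 1 ∧ ∀ n k : ℕ, 1 ≤ n → (k : ℝ) / n ≤ θ₀ → Drift μ n k (1 - k / n * g) C := by
  let V : Submodule ℂ (Fin d → ℂ) := LinearMap.ker (∑ i, LinearMap.proj i : _ →ₗ[ℂ] ℂ)
  have hV : ∀ v, v ∈ V ↔ ∑ i, v i = 0 := fun v => by simp [V]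
  obtain ⟨κ, κ0, h1⟩ := exists_forms hμ (V := V)
    (fun σ _ v hv => (hV _).2 ((Equiv.sum_comp σ v).trans ((hV v).1 hv)))
    (fun l v hv => h.le l v ((hV v).1 hv)) ((hV _).2 h.sum) h.eig h.re h.ne
  obtain ⟨c, bS, bF, p, -, -, h2, -⟩ := h1 ((2 * γ - g) / 3) (by linarith)
  obtain ⟨C₁, C1, h3⟩ := coercive fun v hv => h2 v ((hV v).2 hv)
  obtain ⟨C₂, C2, h4⟩ := bf_bound (bS + bF)
  have c0 : 0 < c := zero_lt_one.trans_le p.one_le
  have gi : 0 < g⁻¹ := inv_pos.2 g0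
  have g2 : 0 < 2 * γ - g := by linarith
  refine ⟨4 * (1 + C₁ + C₂ + g⁻¹) ^ 3, min (min 1 g⁻¹) ((2 * γ - g) / 3 / c ^ 2), by positivity,
    by positivity, ?_, (min_le_left _ _).trans (min_le_left _ _), fun n k n1 h5 => ?_⟩
  · rw [← le_div_iff₀ g0, one_div]; exact (min_le_left _ _).trans (min_le_right _ _)
  simp only [le_min_iff] at h5
  obtain ⟨⟨h5, h6⟩, h7⟩ := h5
  have θ0 : (0 : ℝ) ≤ k / n := by positivity
  refine drift hμ ?_ p.psd (by linarith) (fun z hz => (h3 z hz).trans ?_) (fun z => (h4 z).trans ?_)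
    (fun z _ => (p.mean hμ κ0.le θ0 z).trans ?_) ?_ ?_
  · exact_mod_cast (div_le_one (by exact_mod_cast n1)).1 h5
  · exact mul_le_mul_of_nonneg_right (by linarith) (p.psd.nonneg z)
  · exact mul_le_mul_of_nonneg_right (by linarith) (N2_nonneg z)
  · rw [le_div_iff₀ (by positivity)] at h7
    exact mul_le_mul_of_nonneg_right (by linarith [mul_le_mul_of_nonneg_left h7 θ0])
      (p.psd.nonneg z)
  · rw [inv_eq_one_div, le_div_iff₀ g0] at h6; linarith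
  · have : 0 ≤ (1 + C₁ + C₂) * (k / n * g) := by positivity
    have : g⁻¹ * (k / n * g) = k / n := by field_simp
    linarith

theorem small_err (d : ℕ) {C L ε : ℝ} (C0 : 0 ≤ C) (L0 : 0 ≤ L) (ε0 : 0 < ε) :
    ∃ t ρ, 0 < t ∧ 0 < ρ ∧ ∀ᶠ n : ℕ in atTop, err d C L t ρ √n ≤ ε := by
  set A := (768 * (d : ℝ) ^ 7) ^ 2 / (ε / 2) * C with hA
  have A0 : 0 ≤ A := by positivity
  set D := A * (4 * L ^ 2 + 2 * d ^ 2 * L) + 16 * d ^ 4 * C + 1 with hD
  have D0 : 0 < D := by positivity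
  refine ⟨ε / 2, ε / 2 / D, by positivity, by positivity, ?_⟩
  filter_upwards [(Real.tendsto_sqrt_atTop.comp tendsto_natCast_atTop_atTop).eventually_ge_atTop
    (max 1 (D / (ε / 2)))] with n hn
  simp only [Function.comp, max_le_iff] at hn
  generalize √n = s at hn
  have s0 : 0 < s := by linarith [hn.1]
  have h1 : 1 / s ≤ ε / 2 / D := by
    rw [div_le_div_iff₀ s0 D0, one_mul, mul_comm, ← div_le_iff₀ (by positivity)]; exact hn.2
  have h2 : 1 / s ^ 2 ≤ ε / 2 / D :=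
    (one_div_le_one_div_of_le s0 (by nlinarith [hn.1])).trans h1
  have h3 : ε / 2 / D * D = ε / 2 := by field_simp
  generalize ε / 2 / D = ρ at *
  have h4 := mul_le_mul_of_nonneg_left h1 (show 0 ≤ A * (2 * d ^ 2 * L) by positivity)
  have h5 := mul_le_mul_of_nonneg_left h2 (show 0 ≤ 8 * d ^ 4 * C by positivity)
  have h6 : 0 ≤ ρ := le_trans (by positivity) h1
  rw [err, ← mul_assoc _ C, ← hA, div_eq_mul_one_div _ s]
  rw [hD] at h3
  linarith

theorem exists_big (B ε : ℝ) (ε0 : 0 < ε) : ∃ L, 0 < L ∧ B / L ^ 2 ≤ ε := by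
  refine ⟨|B| / ε + 1, by positivity, ?_⟩
  rw [div_le_iff₀ (by positivity)]
  have h1 : ε * (|B| / ε) = |B| := by field_simp
  have h2 : 0 ≤ |B| / ε := by positivity
  nlinarith [le_abs_self B, mul_nonneg ε0.le (sq_nonneg (|B| / ε))]

theorem log_ev (B : ℝ) : ∀ᶠ n : ℕ in atTop, B ≤ Real.log n :=
  (Real.tendsto_log_atTop.comp tendsto_natCast_atTop_atTop).eventually_ge_atTop B

theorem one_sub_pow_le {x : ℝ} (h : x ≤ 1) (m : ℕ) : (1 - x) ^ m ≤ Real.exp (-(m * x)) := by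
  rw [← mul_neg, Real.exp_nat_mul]
  exact pow_le_pow_left₀ (by linarith) (by linarith [Real.add_one_le_exp (-x)]) m

theorem Gap.upper (hμ : IsProb μ) {v₀ : Fin d → ℂ} {l₀ : ℂ} {y₀ : Vec d}
    (h : Gap μ γ v₀ l₀ y₀) (i : Fin d) {η ε : ℝ} (η0 : 0 < η) (ε0 : 0 < ε) :
    ∃ θ₀, 0 < θ₀ ∧ ∀ᶠ n : ℕ in atTop, ∀ k : ℕ, 1 ≤ k → (k : ℝ) / n ≤ θ₀ → ∀ π,
      IsStationary (jump μ n k) π →
      dist (jump μ n k) π ((1 + η) * (n * Real.log n / (2 * k * γ))) ≤ ε := by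
  have γ0 := h.pos
  obtain ⟨C, θ₀, C0, θ0, θ1, θ2, hD⟩ := h.ctr hμ (g := 2 * γ / (1 + η / 4)) (by positivity)
    (div_lt_self (by positivity) (by linarith))
  obtain ⟨L, L0, hL⟩ := exists_big (C * d ^ 2 * 2) (ε / 4) (by positivity)
  obtain ⟨t, ρ, t0, ρ0, h1⟩ := small_err d C0 L0.le (show 0 < ε / 4 by positivity)
  have e : 2 * γ / (1 + η / 4) * (1 + η / 4) = 2 * γ := by field_simp
  have g0 : 0 < 2 * γ / (1 + η / 4) := by positivity
  generalize 2 * γ / (1 + η / 4) = g at *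
  refine ⟨θ₀, θ0, ?_⟩
  filter_upwards [h1, eventually_ge_atTop 1, log_ev 1, log_ev (8 * γ / η * (2 * (ρ⁻¹ / g) + 4)),
    log_ev (32 * γ * (1 + η) / (η ^ 2 * ε))] with n h1 n1 l1 l2 l3 k k1 hk π hπ
  have n0 : (0 : ℝ) < n := by exact_mod_cast n1
  have k0 : (0 : ℝ) < k := by exact_mod_cast k1
  have hT : n * Real.log n / (2 * k * γ) * (2 * γ * (k / n)) = Real.log n := by field_simp
  have T0 : 0 < n * Real.log n / (2 * k * γ) := by positivity
  have kn : k ≤ n := by exact_mod_cast (div_le_one n0).1 (hk.trans θ2)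
  have hd := hD n k n1 hk
  have x0 : (0 : ℝ) < k / n := by positivity
  have x1 := hk.trans θ2
  have x2 : k / n * g ≤ 1 := (mul_le_mul_of_nonneg_right hk g0.le).trans θ1
  generalize n * Real.log n / (2 * k * γ) = T at *
  generalize (k : ℝ) / n = θ at *
  have T1 : Real.log n ≤ 2 * γ * T := by nlinarith [mul_pos γ0 T0]
  have m1 : (⌈ρ⁻¹ / g / θ⌉₊ : ℝ) < ρ⁻¹ / g / θ + 1 := Nat.ceil_lt_add_one (by positivity)
  have m2 : 2 * (⌈ρ⁻¹ / g / θ⌉₊ : ℝ) + 2 ≤ η / 4 * T := by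
    refine le_of_mul_le_mul_right ?_ x0
    have a1 := mul_le_mul_of_nonneg_right m1.le x0.le
    rw [add_mul, div_mul_cancel₀ _ x0.ne'] at a1
    rw [← hT, div_mul_eq_mul_div, div_le_iff₀ η0] at l2
    have a2 : γ * (8 * (2 * (ρ⁻¹ / g) + 4)) ≤ γ * (2 * η * T * θ) := by linarith
    linarith [le_of_mul_le_mul_left a2 γ0]
  refine (dist_upper hμ kn hd C0 (by linarith) (by linarith [mul_pos x0 g0]) i n1 hπ L0.le t0
    (p := ε / 4) (m := ⌈ρ⁻¹ / g / θ⌉₊) (ρ := ρ) (M := (1 + η / 4) * T) (by positivity) ?_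
    (by positivity) (fun m hm c hc => ?_) (by nlinarith [mul_pos η0 T0])).trans ?_
  · refine (one_sub_pow_le x2 _).trans ?_
    have a1 := mul_le_mul_of_nonneg_right (Nat.le_ceil (ρ⁻¹ / g / θ)) (mul_pos x0 g0).le
    rw [show ρ⁻¹ / g / θ * (θ * g) = ρ⁻¹ by field_simp] at a1
    rw [Real.exp_neg, inv_le_comm₀ (Real.exp_pos _) ρ0]
    linarith [Real.add_one_le_exp (⌈ρ⁻¹ / g / θ⌉₊ * (θ * g))]
  · refine (hd.markov hμ C0 (by linarith) n1 L0 m hc).trans (le_trans ?_ hL)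
    have a1 : (1 - θ * g) ^ m * n ≤ 1 := by
      rw [← le_div_iff₀ n0, one_div, ← Real.exp_log n0, ← Real.exp_neg]
      refine (one_sub_pow_le x2 _).trans (Real.exp_le_exp.2 (neg_le_neg ?_))
      have a2 := mul_le_mul_of_nonneg_right hm (mul_pos x0 g0).le
      rw [← hT, ← e]
      linarith
    gcongr
    linarith
  · have a1 : (1 + η) * T / ((1 + η) * T - ((1 + η / 4) * T + (2 * ⌈ρ⁻¹ / g / θ⌉₊ + 2))) ^ 2 ≤
        (1 + η) * T / (η / 2 * T) ^ 2 := by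
      gcongr
      linarith
    have a2 : (1 + η) * T / (η / 2 * T) ^ 2 ≤ ε / 4 := by
      rw [div_le_iff₀ (by positivity)] at l3 ⊢
      have a3 := mul_le_mul_of_nonneg_right T1 (show 0 ≤ η ^ 2 * ε by positivity)
      have a4 : γ * (16 * (1 + η)) ≤ γ * (T * (η ^ 2 * ε)) := by linarith
      linarith [mul_le_mul_of_nonneg_right (le_of_mul_le_mul_left a4 γ0) T0.le]
    linarith

theorem Gap.lower (hμ : IsProb μ) {v₀ : Fin d → ℂ} {l₀ : ℂ} {y₀ : Vec d}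
    (h : Gap μ γ v₀ l₀ y₀) {η ε : ℝ} (η0 : 0 < η) (ε1 : ε < 1) :
    ∃ θ₀, 0 < θ₀ ∧ ∀ᶠ n : ℕ in atTop, ∀ k : ℕ, 1 ≤ k → (k : ℝ) / n ≤ θ₀ → ∀ π,
      IsStationary (jump μ n k) π → ∀ s, 0 ≤ s → s < (1 - η) * (n * Real.log n / (2 * k * γ)) →
      ε < dist (jump μ n k) π s := by
  have γ0 := h.pos
  obtain ⟨δ, δ0, hδ⟩ : ∃ δ, 0 < δ ∧ ε + 5 * δ = 1 := ⟨(1 - ε) / 5, by linarith, by ring⟩
  obtain ⟨C, θ₀, C0, θ0, θ1, θ2, hD⟩ := h.ctr hμ γ0 (by linarith)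
  obtain ⟨L, L0, hL⟩ := exists_big (C + 2 * C * d ^ 2) δ δ0
  obtain ⟨c₀, θ₁, c0, θ3, hP⟩ := product hμ γ0.le h.le h.sum h.eig h.re h.ne
    (show 0 < γ * η * δ / 2 by positivity)
  refine ⟨min θ₀ θ₁, lt_min θ0 θ3, ?_⟩
  filter_upwards [eventually_ge_atTop 1, log_ev 1, log_ev (16 * L ^ 2 * N2 y₀ / (c₀ * η)),
    log_ev (12 / (η * δ)), log_ev (8 * γ / (η ^ 2 * δ))] with n n1 l1 l2 l3 l4 k k1 hk π hπ s s0 hs
  obtain ⟨hk, hk'⟩ := le_min_iff.1 hk
  have n0 : (0 : ℝ) < n := by exact_mod_cast n1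
  have k0 : (0 : ℝ) < k := by exact_mod_cast k1
  have hT : n * Real.log n / (2 * k * γ) * (2 * γ * (k / n)) = Real.log n := by field_simp
  have T0 : 0 < n * Real.log n / (2 * k * γ) := by positivity
  have kn : k ≤ n := by exact_mod_cast (div_le_one n0).1 (hk.trans θ2)
  have x0 : (0 : ℝ) < k / n := by positivity
  have x2 : k / n * γ ≤ 1 := (mul_le_mul_of_nonneg_right hk γ0.le).trans θ1
  generalize n * Real.log n / (2 * k * γ) = T at *
  have T1 : Real.log n ≤ 2 * γ * T := by nlinarith [mul_pos γ0 T0, hk.trans θ2]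
  have ηT := mul_pos η0 T0
  refine lt_of_lt_of_le ?_ (dist_lower hμ kn (hD n k n1 hk) C0 (by linarith)
    (by linarith [mul_pos x0 γ0]) n1 hπ h.sumy h.posy L0 (q := 2 * δ) (M := (1 - η / 2) * T)
    (by positivity) s0 (by linarith) fun m hm => ?_)
  · have a1 : s / ((1 - η / 2) * T - s) ^ 2 ≤ T / (η / 2 * T) ^ 2 := by
      gcongr <;> linarith
    have a2 : T / (η / 2 * T) ^ 2 ≤ δ := by
      rw [div_le_iff₀ (by positivity)] at l4 ⊢
      have a3 := mul_le_mul_of_nonneg_right T1 (show 0 ≤ η ^ 2 * δ by positivity)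
      have a4 : γ * 4 ≤ γ * (T * (η ^ 2 * δ)) := by linarith
      linarith [mul_le_mul_of_nonneg_right (le_of_mul_le_mul_left a4 γ0) T0.le]
    rw [add_div] at hL
    linarith
  · have A0 : 0 < η / 4 * Real.log n := by positivity
    have a1 := hP _ x0 hk' (Sh d n) m _ A0.le
    generalize (k : ℝ) / n = θ at *
    have a2 : 2 * γ * θ * m ≤ (1 - η / 2) * Real.log n := by
      rw [← hT]
      linarith [mul_le_mul_of_nonneg_left hm (show 0 ≤ 2 * γ * θ by positivity)]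
    have a3 : 4 * L ^ 2 * N2 y₀ / n ≤ c₀ * Real.exp (-(2 * γ * θ * m) - η / 4 * Real.log n) := by
      have a4 : Real.exp (η / 4 * Real.log n - Real.log n) ≤
          Real.exp (-(2 * γ * θ * m) - η / 4 * Real.log n) := Real.exp_le_exp.2 (by linarith)
      refine le_trans ?_ (mul_le_mul_of_nonneg_left a4 c0.le)
      rw [Real.exp_sub, Real.exp_log n0, ← mul_div_assoc]
      rw [div_le_iff₀ (by positivity)] at l2
      have a5 := mul_le_mul_of_nonneg_left (Real.add_one_le_exp (η / 4 * Real.log n)) c0.le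
      exact div_le_div_of_nonneg_right (by linarith) n0.le
    refine (pow_le hμ (fun y => ?_) m y₀).trans (le_of_mul_le_mul_left (a1.trans ?_) A0)
    · split_ifs with b1 b2
      · exact le_rfl
      · exact absurd (b1.trans a3) b2
      · exact zero_le_one
      · exact le_rfl
    · rw [div_le_iff₀ (by positivity)] at l3
      have a4 := mul_le_mul_of_nonneg_left (a2.trans (show _ ≤ Real.log n by nlinarith))
        (show 0 ≤ η * δ by positivity)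
      linarith

theorem cutoff_small (hμ : IsProb μ) (hU : (uMat μ).IsIrreducible)
    (hγ : IsLeast (gapSet (uMat μ)) γ) {k : ℕ → ℕ} (k1 : ∀ᶠ n in atTop, 1 ≤ k n)
    (hk : Tendsto (fun n : ℕ => (k n : ℝ) / n) atTop (nhds 0)) {π : ∀ n, State d n → ℝ}
    (hπ : ∀ᶠ n in atTop, IsStationary (jump μ n (k n)) (π n)) {ε : ℝ} (ε0 : 0 < ε) (ε1 : ε < 1) :
    Tendsto (fun n : ℕ => tmix (jump μ n (k n)) (π n) ε / (n * Real.log n / (2 * k n * γ)))
      atTop (nhds 1) := by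
  obtain ⟨v₀, l₀, y₀, h⟩ := exists_Gap hμ hU hγ
  obtain ⟨-, -, ⟨i, -⟩, -⟩ := hγ.1
  have γ0 := h.pos
  have h1 : ∀ η, 0 < η → ∀ᶠ n : ℕ in atTop,
      1 - η ≤ tmix (jump μ n (k n)) (π n) ε / (n * Real.log n / (2 * k n * γ)) ∧
      tmix (jump μ n (k n)) (π n) ε / (n * Real.log n / (2 * k n * γ)) ≤ 1 + η := by
    intro η η0
    obtain ⟨θ₀, θ0, a1⟩ := h.upper hμ i η0 ε0
    obtain ⟨θ₁, θ1, a2⟩ := h.lower hμ η0 ε1
    filter_upwards [a1, a2, k1, hπ, hk.eventually_le_const θ0, hk.eventually_le_const θ1,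
      eventually_ge_atTop 1, log_ev 1] with n a1 a2 k1 hπ b1 b2 n1 l1
    have T0 : 0 < n * Real.log n / (2 * k n * γ) := by positivity
    rw [le_div_iff₀ T0, div_le_iff₀ T0]
    exact ⟨le_tmix (by positivity) (a1 _ k1 b1 _ hπ) (a2 _ k1 b2 _ hπ),
      tmix_le (by positivity) (a1 _ k1 b1 _ hπ)⟩
  refine tendsto_order.2 ⟨fun a ha => ?_, fun a ha => ?_⟩
  · filter_upwards [h1 ((1 - a) / 2) (by linarith)] with n hn
    linarith [hn.1]
  · filter_upwards [h1 ((a - 1) / 2) (by linarith)] with n hn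
    linarith [hn.2]

end Pool.Agent.P.MP_1e2081_pr
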