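import Pool.Agent.P.MP_1e2081_pr.Drift

/-!
Exchanging two balls changes the law of the counts after a shuffle only by `O(1 / √n)`.
-/

set_option autoImplicit false

namespace Pool.Agent.P.MP_1e2081_pr

open Finset Equiv

variable {d n : ℕ}

/-- The permutation of the slots given by shuffles of the urns. -/
def sh (τ : Sh d n) : Perm (Sl d n) := Equiv.prodCongrRight τ

theorem sh_apply (τ : Sh d n) (l : Fin d) (p : Fin n) : sh τ (l, p) = (l, τ l p) := rfl

theorem sh_mul (τ τ' : Sh d n) : sh (τ * τ') = sh τ * sh τ' := Equiv.ext fun _ => rfl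

theorem sh_single (i : Fin d) (p q : Fin n) :
    sh (Pi.mulSingle i (swap p q) : Sh d n) = swap (i, p) (i, q) := by
  refine Equiv.ext fun ⟨l, x⟩ => ?_
  rw [sh_apply]
  by_cases h : l = i
  · subst h
    rw [Pi.mulSingle_eq_same]
    exact ((Prod.mk_right_injective l).swap_apply p q x).symm
  · rw [Pi.mulSingle_eq_of_ne h, swap_apply_of_ne_of_ne (by simp [h]) (by simp [h])]
    rfl

theorem cnt_sh (c : Sl d n → Fin d) (τ : Sh d n) : cnt (c ∘ sh τ) = cnt c := by
  funext l j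
  exact Equiv.sum_comp (τ l) fun p => if c (l, p) = j then 1 else 0

theorem cnt_perm (c : Sl d n → Fin d) (r : Perm (Sl d n)) (l j : Fin d) :
    cnt (c ∘ r) l j = ∑ t, if (r.symm t).1 = l ∧ c t = j then 1 else 0 := by
  rw [← Equiv.sum_comp r, Fintype.sum_prod_type, sum_eq_single l (fun i _ h => by simp [h])
    (by simp)]
  simp [cnt]

theorem sum_swap {α β : Type} [Fintype α] [DecidableEq α] (f : α → β → ℕ) (x : α → β) (s t : α) :
    ∑ a, f a (x (swap s t a)) + f s (x s) + f t (x t) =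
      ∑ a, f a (x a) + f s (x t) + f t (x s) := by
  by_cases h : t = s
  · subst h; simp
  have h1 : ∀ F : α → ℕ, ∑ a, F a = F s + (F t + ∑ a ∈ (univ.erase s).erase t, F a) := fun F => by
    rw [add_sum_erase _ _ (mem_erase.2 ⟨h, mem_univ t⟩), add_sum_erase _ _ (mem_univ s)]
  rw [h1, h1 fun a => f a (x a), swap_apply_left, swap_apply_right, sum_congr rfl fun a ha => by
    rw [swap_apply_of_ne_of_ne (ne_of_mem_erase (mem_of_mem_erase ha)) (ne_of_mem_erase ha)]]
  ring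

theorem cnt_swap (x : Sl d n → Fin d) (r : Perm (Sl d n)) {s t u v : Sl d n}
    (h1 : (r.symm s).1 = (r.symm u).1) (h2 : (r.symm t).1 = (r.symm v).1) (h3 : x s = x u)
    (h4 : x t = x v) : cnt ((x ∘ swap s t) ∘ r) = cnt ((x ∘ swap u v) ∘ r) := by
  funext l j
  have a1 := sum_swap (fun a b => if (r.symm a).1 = l ∧ b = j then 1 else 0) x s t
  have a2 := sum_swap (fun a b => if (r.symm a).1 = l ∧ b = j then 1 else 0) x u v
  rw [cnt_perm, cnt_perm]
  simp only [h1, h2, h3, h4, Function.comp] at a1 a2 ⊢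
  omega

section

variable (c : Sl d n → Fin d) (r : Perm (Sl d n)) (i : Fin d) (u v : Sl d n)

/-- The position `p` of urn `i` goes to urn `l` and holds a ball of colour `j` other than the two
marked balls. -/
def Cell (τ : Sh d n) (l j : Fin d) (p : Fin n) : Prop :=
  (r.symm (i, p)).1 = l ∧ c (i, τ i p) = j ∧ (i, τ i p) ≠ u ∧ (i, τ i p) ≠ v

/-- The destinations of the two marked balls. -/
def Dest (τ : Sh d n) (l l' : Fin d) : Prop :=
  (r.symm ((sh τ)⁻¹ u)).1 = l ∧ (r.symm ((sh τ)⁻¹ v)).1 = l'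

open Classical in
theorem stein_pair (F : (Fin d → Fin d → ℕ) → ℝ) (l l' : Fin d) (p q : Fin n) :
    avg (fun τ => if Dest r u v τ l l' ∧ Cell c r i u v τ l (c u) p ∧ Cell c r i u v τ l' (c v) q
      then F (cnt (((c ∘ swap u v) ∘ sh τ) ∘ r)) else 0) =
    avg fun τ => if Dest r u v τ l l' ∧ Cell c r i u v τ l (c v) p ∧ Cell c r i u v τ l' (c u) q
      then F (cnt ((c ∘ sh τ) ∘ r)) else 0 := by
  rw [← avg_equiv (Equiv.mulRight (Pi.mulSingle i (swap p q) : Sh d n))
    fun τ => if Dest r u v τ l l' ∧ Cell c r i u v τ l (c v) p ∧ Cell c r i u v τ l' (c u) q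
      then F (cnt ((c ∘ sh τ) ∘ r)) else 0]
  refine congrArg avg (funext fun τ => ?_)
  have e : ∀ w : Sl d n, (i, τ i p) ≠ w → (i, τ i q) ≠ w →
      (sh (τ * Pi.mulSingle i (swap p q)))⁻¹ w = (sh τ)⁻¹ w := fun w a1 a2 => by
    rw [sh_mul, sh_single, mul_inv_rev, swap_inv, Perm.mul_apply]
    refine swap_apply_of_ne_of_ne (fun h => a1 ?_) fun h => a2 ?_
    · rw [← sh_apply, ← h]; simp
    · rw [← sh_apply, ← h]; simp
  refine if_ctx_congr ⟨?_, ?_⟩ ?_ fun _ => rfl <;>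
    simp only [coe_mulRight, Cell, Dest, Pi.mul_apply, Pi.mulSingle_eq_same, Perm.mul_apply,
      swap_apply_left, swap_apply_right]
  · rintro ⟨a, ⟨a1, a2, a3, a4⟩, a5, a6, a7, a8⟩
    rw [e u a3 a7, e v a4 a8]
    exact ⟨a, ⟨a1, a6, a7, a8⟩, a5, a2, a3, a4⟩
  · rintro ⟨a, ⟨a1, a6, a7, a8⟩, a5, a2, a3, a4⟩
    rw [e u a3 a7, e v a4 a8] at a
    exact ⟨a, ⟨a1, a2, a3, a4⟩, a5, a6, a7, a8⟩
  · rintro ⟨a, ⟨a1, a6, a7, a8⟩, a5, a2, a3, a4⟩
    rw [e u a3 a7, e v a4 a8] at a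
    have b1 : (c ∘ swap u v) ∘ sh τ = (c ∘ sh τ) ∘ swap ((sh τ)⁻¹ u) ((sh τ)⁻¹ v) :=
      congrArg (fun π : Perm (Sl d n) => c ∘ π) (swap_mul_eq_mul_swap (sh τ) u v)
    have b2 : c ∘ sh (τ * Pi.mulSingle i (swap p q)) = (c ∘ sh τ) ∘ swap (i, p) (i, q) := by
      rw [sh_mul, sh_single]; rfl
    rw [b1, b2, cnt_swap (c ∘ sh τ) r (a1.trans a.1.symm) (a5.trans a.2.symm)]
    · simpa [sh_apply] using a2
    · simpa [sh_apply] using a6

open Classical in
/-- The number of positions in a cell. -/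
noncomputable def cell (τ : Sh d n) (l j : Fin d) : ℝ :=
  ∑ p, if Cell c r i u v τ l j p then 1 else 0

theorem cell_nonneg (τ : Sh d n) (l j : Fin d) : 0 ≤ cell c r i u v τ l j :=
  sum_nonneg fun _ _ => by split_ifs <;> norm_num

theorem cell_le (τ : Sh d n) (l j : Fin d) : cell c r i u v τ l j ≤ n :=
  (sum_le_sum (g := fun _ => 1) fun _ _ => by split_ifs <;> norm_num).trans (by simp)

open Classical in
theorem stein (F : (Fin d → Fin d → ℕ) → ℝ) (l l' : Fin d) :
    avg (fun τ => (if Dest r u v τ l l' then F (cnt (((c ∘ swap u v) ∘ sh τ) ∘ r)) else 0) *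
      (cell c r i u v τ l (c u) * cell c r i u v τ l' (c v))) =
    avg fun τ => (if Dest r u v τ l l' then F (cnt ((c ∘ sh τ) ∘ r)) else 0) *
      (cell c r i u v τ l (c v) * cell c r i u v τ l' (c u)) := by
  simp only [cell, sum_mul_sum]
  simp only [mul_sum, avg_sum]
  refine sum_congr rfl fun p _ => sum_congr rfl fun q _ => ?_
  have e : ∀ (A B C : Prop) (x : ℝ), (if A then x else 0) * ((if B then 1 else 0) *
      if C then 1 else 0) = if A ∧ B ∧ C then x else 0 := fun A B C x => by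
    by_cases hA : A <;> by_cases hB : B <;> by_cases hC : C <;> simp [hA, hB, hC]
  simp only [e]
  convert stein_pair c r i u v F l l' p q

theorem cell_moment {s : ℝ} (s1 : 1 ≤ s) (s2 : s ^ 2 = n) (l j : Fin d) :
    avg (fun τ => |cell c r i u v τ l j - cnt (Prod.fst ∘ r) l i / n * cnt c i j|) ≤ 3 * s := by
  classical
  have n0 : (0 : ℝ) < n := by nlinarith
  let B : Finset (Fin n) := univ.filter fun p => (r.symm (i, p)).1 = l
  have hB : B.card = cnt (Prod.fst ∘ r) l i := by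
    rw [cnt_perm, Fintype.sum_prod_type, sum_eq_single i (fun i _ h => by simp [h]) (by simp)]
    simp [B]
  have h1 := hyper_var (fun p => if c (i, p) = j then (1 : ℝ) else 0) B
  rw [← cnt_cast, hB, Fintype.card_fin, ← avg_eval i] at h1
  have h2 : (cnt (Prod.fst ∘ r) l i : ℝ) / n * ∑ p, (if c (i, p) = j then (1 : ℝ) else 0) ^ 2
      ≤ s ^ 2 := by
    have a1 : (cnt (Prod.fst ∘ r) l i : ℝ) / n ≤ 1 :=
      (div_le_one n0).2 (by exact_mod_cast cnt_le _ l i)
    have a2 : ∑ p, (if c (i, p) = j then (1 : ℝ) else 0) ^ 2 ≤ n :=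
      (sum_le_sum (g := fun _ => 1) fun _ _ => by split_ifs <;> norm_num).trans (by simp)
    exact (mul_le_of_le_one_left (sum_nonneg fun _ _ => sq_nonneg _) a1).trans (s2 ▸ a2)
  have h3 : ∀ (π : Perm (Fin n)) (w : Sl d n), ∑ p, (if (i, π p) = w then (1 : ℝ) else 0) ≤ 1 := by
    intro π w
    rw [sum_boole, Nat.cast_le_one, card_le_one]
    intro a ha b hb
    exact π.injective (Prod.mk_right_injective i
      ((mem_filter.1 ha).2.trans (mem_filter.1 hb).2.symm))
  have h4 : ∀ τ : Sh d n, |cell c r i u v τ l j - cnt (Prod.fst ∘ r) l i / n * cnt c i j| ≤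
      1 / (2 * s) * (∑ p ∈ B, (if c (i, τ i p) = j then (1 : ℝ) else 0) -
        cnt (Prod.fst ∘ r) l i / n * cnt c i j) ^ 2 + (s / 2 + 2) := by
    intro τ
    have a1 : cell c r i u v τ l j ≤ ∑ p ∈ B, if c (i, τ i p) = j then (1 : ℝ) else 0 := by
      rw [sum_filter]
      refine sum_le_sum fun p _ => ?_
      by_cases h : Cell c r i u v τ l j p
      · simp [h, h.1, h.2.1]
      · rw [if_neg h]; split_ifs <;> norm_num
    have a2 : (∑ p ∈ B, if c (i, τ i p) = j then (1 : ℝ) else 0) ≤ cell c r i u v τ l j +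
        ((∑ p, if (i, τ i p) = u then (1 : ℝ) else 0) + ∑ p, if (i, τ i p) = v then (1 : ℝ) else 0) := by
      rw [sum_filter, cell, ← sum_add_distrib, ← sum_add_distrib]
      refine sum_le_sum fun p _ => ?_
      unfold Cell
      split_ifs <;> first | tauto | norm_num
    have a3 := h3 (τ i) u
    have a4 := h3 (τ i) v
    generalize (∑ p ∈ B, if c (i, τ i p) = j then (1 : ℝ) else 0) = N at *
    generalize (cnt (Prod.fst ∘ r) l i : ℝ) / n * cnt c i j = α
    have a5 : |N - α| ≤ 1 / (2 * s) * (N - α) ^ 2 + s / 2 := by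
      rw [← sq_abs, ← sub_nonneg, show 1 / (2 * s) * |N - α| ^ 2 + s / 2 - |N - α| =
        (|N - α| - s) ^ 2 / (2 * s) by field_simp; ring]
      positivity
    have a6 := abs_le.1 a5
    exact abs_le.2 ⟨by linarith, by linarith⟩
  refine (avg_mono h4).trans ?_
  rw [avg_add, avg_mul, avg_const]
  have h5 := mul_le_mul_of_nonneg_left (h1.trans h2) (show 0 ≤ 1 / (2 * s) by positivity)
  rw [show 1 / (2 * s) * s ^ 2 = s / 2 by field_simp] at h5
  linarith

theorem cell_prod {s : ℝ} (s1 : 1 ≤ s) (s2 : s ^ 2 = n) (l j l' j' : Fin d) :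
    avg (fun τ => |cell c r i u v τ l j * cell c r i u v τ l' j' -
      cnt (Prod.fst ∘ r) l i / n * cnt c i j * (cnt (Prod.fst ∘ r) l' i / n * cnt c i j')|) ≤
      6 * n * s := by
  have n0 : (0 : ℝ) < n := by nlinarith
  have h1 := cell_moment c r i u v s1 s2 l j
  have h2 := cell_moment c r i u v s1 s2 l' j'
  have h3 : (cnt (Prod.fst ∘ r) l i : ℝ) / n * cnt c i j ≤ n :=
    (mul_le_of_le_one_left (Nat.cast_nonneg _)
      ((div_le_one n0).2 (by exact_mod_cast cnt_le _ l i))).trans (by exact_mod_cast cnt_le c i j)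
  have h4 : 0 ≤ (cnt (Prod.fst ∘ r) l i : ℝ) / n * cnt c i j := by positivity
  generalize (cnt (Prod.fst ∘ r) l i : ℝ) / n * cnt c i j = α at *
  generalize (cnt (Prod.fst ∘ r) l' i : ℝ) / n * cnt c i j' = α' at *
  refine (avg_mono (g := fun τ => n * |cell c r i u v τ l j - α| +
    n * |cell c r i u v τ l' j' - α'|) fun τ => ?_).trans ?_
  · rw [show cell c r i u v τ l j * cell c r i u v τ l' j' - α * α' =
      cell c r i u v τ l' j' * (cell c r i u v τ l j - α) + α * (cell c r i u v τ l' j' - α') by ring]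
    refine (abs_add_le _ _).trans ?_
    rw [abs_mul, abs_mul, abs_of_nonneg h4, abs_of_nonneg (cell_nonneg ..)]
    gcongr
    exact cell_le ..
  · rw [avg_add, avg_mul, avg_mul]
    nlinarith

theorem swap_bound {s : ℝ} (s1 : 1 ≤ s) (s2 : s ^ 2 = n) {F : (Fin d → Fin d → ℕ) → ℝ}
    (F0 : ∀ M, 0 ≤ F M) (F1 : ∀ M, F M ≤ 1) (hc : ∀ j, (n : ℝ) / (4 * d) ≤ cnt c i j)
    (hr : ∀ l, (n : ℝ) / (2 * d) ≤ cnt (Prod.fst ∘ r) l i) :
    |avg (fun τ => F (cnt (((c ∘ swap u v) ∘ sh τ) ∘ r))) -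
      avg fun τ => F (cnt ((c ∘ sh τ) ∘ r))| ≤ 768 * d ^ 6 / s := by
  classical
  have n0 : (0 : ℝ) < n := by nlinarith
  have d0 : (0 : ℝ) < d := by exact_mod_cast i.pos
  have h1 : ∀ G : Sh d n → ℝ, avg G =
      ∑ l, ∑ l', avg fun τ => if Dest r u v τ l l' then G τ else 0 := fun G => by
    simp only [← avg_sum]
    refine congrArg avg (funext fun τ => ?_)
    rw [sum_eq_single (r.symm ((sh τ)⁻¹ u)).1
      (fun l _ h => sum_eq_zero fun l' _ => if_neg fun h' => h h'.1.symm) (by simp),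
      sum_eq_single (r.symm ((sh τ)⁻¹ v)).1 (fun l _ h => if_neg fun h' => h h'.2.symm) (by simp),
      if_pos ⟨rfl, rfl⟩]
  rw [h1, h1 fun τ => F (cnt ((c ∘ sh τ) ∘ r)), ← sum_sub_distrib]
  simp only [← sum_sub_distrib]
  refine (abs_sum_le_sum_abs _ _).trans ((sum_le_sum fun l _ => (abs_sum_le_sum_abs _ _).trans
    (sum_le_sum (g := fun _ => 768 * d ^ 4 / s) fun l' _ => ?_)).trans (le_of_eq ?_))
  swap
  · simp only [sum_const, card_univ, Fintype.card_fin, nsmul_eq_mul]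
    ring
  have h2 := stein c r i u v F l l'
  have h3 := cell_prod c r i u v s1 s2 l (c u) l' (c v)
  have h4 := cell_prod c r i u v s1 s2 l (c v) l' (c u)
  rw [show (cnt (Prod.fst ∘ r) l i : ℝ) / n * cnt c i (c v) *
      (cnt (Prod.fst ∘ r) l' i / n * cnt c i (c u)) = cnt (Prod.fst ∘ r) l i / n * cnt c i (c u) *
      (cnt (Prod.fst ∘ r) l' i / n * cnt c i (c v)) by ring] at h4
  have h5 : (n : ℝ) / (2 * d) / n * (n / (4 * d)) * (n / (2 * d) / n * (n / (4 * d))) ≤
      cnt (Prod.fst ∘ r) l i / n * cnt c i (c u) *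
      (cnt (Prod.fst ∘ r) l' i / n * cnt c i (c v)) := by
    gcongr <;> first | exact hr _ | exact hc _
  generalize (cnt (Prod.fst ∘ r) l i : ℝ) / n * cnt c i (c u) *
      (cnt (Prod.fst ∘ r) l' i / n * cnt c i (c v)) = m at *
  have h6 : ∀ (G N : Sh d n → ℝ), (∀ τ, 0 ≤ G τ) → (∀ τ, G τ ≤ 1) →
      |avg (fun τ => (if Dest r u v τ l l' then G τ else 0) * N τ) -
        m * avg fun τ => if Dest r u v τ l l' then G τ else 0| ≤ avg fun τ => |N τ - m| := by
    intro G N G0 G1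
    rw [← avg_mul, ← avg_sub]
    refine (abs_avg_le _).trans (avg_mono fun τ => ?_)
    rw [mul_comm m, ← mul_sub, abs_mul]
    refine mul_le_of_le_one_left (abs_nonneg _) ?_
    split_ifs
    · exact abs_le.2 ⟨by linarith [G0 τ], G1 τ⟩
    · simp
  have h7 := abs_le.1 ((h6 _ _ (fun τ => F0 (cnt (((c ∘ swap u v) ∘ sh τ) ∘ r)))
    fun _ => F1 _).trans h3)
  have h8 := abs_le.1 ((h6 _ _ (fun τ => F0 (cnt ((c ∘ sh τ) ∘ r))) fun _ => F1 _).trans h4)
  rw [h2] at h7
  have m0 : 0 < m := lt_of_lt_of_le (by positivity) h5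
  refine le_of_mul_le_mul_left (le_trans ?_ (mul_le_mul_of_nonneg_right h5 (by positivity))) m0
  rw [show (n : ℝ) / (2 * d) / n * (n / (4 * d)) * (n / (2 * d) / n * (n / (4 * d))) *
    (768 * d ^ 4 / s) = 12 * n * (n / s) by field_simp; ring,
    show n / s = s by rw [← s2]; field_simp, ← abs_of_pos m0, ← abs_mul]
  exact abs_le.2 ⟨by linarith, by linarith⟩

end

end Pool.Agent.P.MP_1e2081_pr
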