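import Pool.Agent.P.MP_1e2081_pr.Trunc

/-!
A law of large numbers for the truncated loss, and for the norm under a second moment condition.
-/

set_option autoImplicit false

namespace Pool.Agent.P.MP_1e2081_pr

open Finset Equiv

variable {d : ℕ} {μ : Perm (Fin d) → ℝ} {W W' : Submodule ℝ (Vec d)} {c K θ ε ε' l l' : ℝ}
  {m₀ m₁ : ℕ}

/-- Upper bound at rate `l` for all vectors of `W`. -/
def Up (μ : Perm (Fin d) → ℝ) (W : Submodule ℝ (Vec d)) (θ l ε : ℝ) (m₀ : ℕ) : Prop :=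
  ∀ m : ℕ, m₀ ≤ m → ∀ y ∈ W,
    (KY μ θ ^ m) (fun z => if Real.exp ((l + ε) * m) * N2 y < N2 z then 1 else 0) y ≤ ε

/-- Lower bound at rate `l` for one vector of `W`. -/
def Low (μ : Perm (Fin d) → ℝ) (W : Submodule ℝ (Vec d)) (θ l ε : ℝ) (m₀ : ℕ) : Prop :=
  ∃ y ∈ W, 0 < N2 y ∧ ∀ m : ℕ, m₀ ≤ m →
    (KY μ θ ^ m) (fun z => if N2 z ≤ Real.exp ((l - ε) * m) * N2 y then 1 else 0) y ≤ ε

theorem Up.mono (hμ : IsProb μ) (h : Up μ W θ l ε m₀) (h1 : l ≤ l') (h2 : ε ≤ ε') (h3 : m₀ ≤ m₁) :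
    Up μ W θ l' ε' m₁ := fun m hm y hy => by
  refine le_trans (pow_le hμ (fun z => ?_) m y) ((h m (h3.trans hm) y hy).trans h2)
  split_ifs with f1 f2
  · exact le_rfl
  · have := N2_nonneg y
    exact absurd (lt_of_le_of_lt (by gcongr) f1) f2
  · exact zero_le_one
  · exact le_rfl

theorem Low.mono (hμ : IsProb μ) (h : Low μ W θ l ε m₀) (h1 : W ≤ W') (h2 : ε ≤ ε')
    (h3 : m₀ ≤ m₁) : Low μ W' θ l ε' m₁ := by
  obtain ⟨y, a1, a2, a3⟩ := h
  refine ⟨y, h1 a1, a2, fun m hm =>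
    le_trans (pow_le hμ (fun z => ?_) m y) ((a3 m (h3.trans hm)).trans h2)⟩
  split_ifs with f1 f2
  · exact le_rfl
  · exact absurd (f1.trans (by gcongr)) f2
  · exact zero_le_one
  · exact le_rfl

theorem up_block (hμ : IsProb μ) (hW : Inv μ W) (θ0 : 0 ≤ θ) (θ1 : θ ≤ 1) {γ p B : ℝ} {b : ℕ}
    (B0 : 0 < B) (hB : -γ ≤ B) (p0 : 0 ≤ p)
    (h : ∀ y ∈ W, (KY μ θ ^ b) (fun z => if Real.exp γ * N2 y < N2 z then 1 else 0) y ≤ p)
    (t : ℕ) (x : ℝ) {y : Vec d} (hy : y ∈ W) :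
    (KY μ θ ^ t) (fun z => if Real.exp x * N2 y < N2 z then 1 else 0) y ≤
      Real.exp ((B⁻¹ * γ + 3 * p) * (t / b : ℕ) - B⁻¹ * x) := by
  have s0 : 0 < B⁻¹ := inv_pos.2 B0
  refine moment hμ hW θ0 θ1 s0 (fun y hy => ?_) t x hy
  have y0 := N2_nonneg y
  have y1 : 0 ≤ N2 y ^ B⁻¹ := by positivity
  refine (monoY hμ θ0 θ1 (F' := fun z => Real.exp (B⁻¹ * γ) * N2 y ^ B⁻¹ + N2 y ^ B⁻¹ *
    if Real.exp γ * N2 y < N2 z then 1 else 0) b y fun z hz => ?_).trans ?_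
  · split_ifs with f1
    · have := Real.rpow_le_rpow (N2_nonneg z) hz s0.le
      have := mul_nonneg (Real.exp_pos (B⁻¹ * γ)).le y1
      linarith
    · have := Real.rpow_le_rpow (N2_nonneg z) (not_lt.1 f1) s0.le
      rwa [Real.mul_rpow (Real.exp_pos _).le y0, ← Real.exp_mul, mul_comm γ, ← add_zero (_ * _),
        ← mul_zero (N2 y ^ B⁻¹)] at this
  · rw [pow_add_apply, pow_const hμ, pow_mul_apply, Real.exp_add]
    have f1 : 1 ≤ 3 * Real.exp (B⁻¹ * γ) := by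
      have f2 : Real.exp (-1) ≤ Real.exp (B⁻¹ * γ) := Real.exp_le_exp.2 (by
        rw [le_inv_mul_iff₀ B0]; linarith)
      have f3 := Real.exp_one_lt_d9
      rw [Real.exp_neg, inv_le_iff_one_le_mul₀ (Real.exp_pos _)] at f2
      nlinarith [Real.exp_pos (B⁻¹ * γ)]
    have f2 := mul_le_mul_of_nonneg_left (Real.add_one_le_exp (3 * p)) (Real.exp_pos (B⁻¹ * γ)).le
    have f3 := mul_le_mul_of_nonneg_left (h y hy) y1
    have f4 := mul_le_mul_of_nonneg_left f1 p0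
    nlinarith [mul_le_mul_of_nonneg_right (show Real.exp (B⁻¹ * γ) + p ≤
      Real.exp (B⁻¹ * γ) * Real.exp (3 * p) by linarith) y1]

theorem llnT (hμ : IsProb μ) (hW : Inv μ W) (hi : Irr μ W) (h0 : W ≠ ⊥) (c0 : 0 < c) (c1 : c ≤ 1)
    (K1 : 1 ≤ K) (ε0 : 0 < ε) (ε1 : ε ≤ 1) : ∃ m₀ : ℕ, ∀ θ, c ≤ θ → θ ≤ 1 → ∃ l,
      Up μ W θ l ε m₀ ∧ ∀ m : ℕ, m₀ ≤ m → ∀ p : Vec d × ℝ, p.1 ∈ W →
        (op μ (stS K θ) ^ m) (fun q => if q.2 - p.2 ≤ (l - ε) * m then 1 else 0) p ≤ ε := by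
  obtain ⟨x₀, x1, x2⟩ := Submodule.exists_mem_ne_zero_of_ne_bot h0
  obtain ⟨C, D, C0, D0, hf⟩ := fastT hμ hW hi c0 c1
  have K0 : 0 < K := by linarith
  set Λ := C + K + 1 with hΛ
  have Λ0 : 0 < Λ := by positivity
  set ζ := ε ^ 2 / (144 * Λ) with hζ
  have ζ0 : 0 < ζ := by positivity
  obtain ⟨e, e3, e4, e5⟩ := exists_small (D * 2) ζ ζ0
  obtain ⟨p, p0, -, p1⟩ := exists_small (D * K) ζ ζ0
  obtain ⟨N, N1, hN⟩ := exp_small (show 0 < e ^ 2 / (4 * K ^ 2) by positivity) p0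
  obtain ⟨b₀, b0, b1, b2⟩ : ∃ b₀ : ℕ, 0 < b₀ ∧ C ≤ ε / 4 * b₀ ∧ D ≤ ζ * b₀ := by
    obtain ⟨b, hb⟩ := exists_nat_ge (C / (ε / 4) + D / ζ + 1)
    have a1 : 0 ≤ C / (ε / 4) := by positivity
    have a2 : 0 ≤ D / ζ := by positivity
    exact ⟨b, by exact_mod_cast (show (0 : ℝ) < b by linarith),
      (div_le_iff₀' (by positivity)).1 (by linarith), (div_le_iff₀' ζ0).1 (by linarith)⟩
  obtain ⟨J, hJ⟩ := exists_nat_gt (K / e)
  rw [div_lt_iff₀ e3] at hJ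
  obtain ⟨m₀, -, hm⟩ := exp_small
    (show 0 < ε ^ 2 / (4 * K ^ 2 * (b₀ * N ^ J : ℕ)) by positivity) ε0
  obtain ⟨m₁, -, hm1⟩ := exp_small (show 0 < ε / (4 * Λ * (b₀ * N ^ J : ℕ)) by positivity) ε0
  refine ⟨max m₀ m₁, fun θ θ0 θ1 => ?_⟩
  have θ2 : 0 ≤ θ := c0.le.trans θ0
  have hI : ∀ σ τ (q : Vec d × ℝ), μ σ ≠ 0 → q.1 ∈ W → (stS K θ σ τ q).1 ∈ W :=
    fun σ _ q hσ hq => hW.Av hσ θ hq
  have hs := fun σ τ q => stS_step (d := d) (θ := θ) K0.le σ τ q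
  let S : ℕ → Set ℝ := fun b => {g | ∃ q : Vec d × ℝ, q.1 ∈ W ∧ 0 < N2 q.1 ∧
    g = (op μ (stS K θ) ^ b) Prod.snd q - q.2}
  have S0 : ∀ b, (S b).Nonempty := fun b => ⟨_, (x₀, 0), x1, N2_pos x2, rfl⟩
  have S1 : ∀ b : ℕ, ∀ g ∈ S b, -K * b ≤ g ∧ g ≤ 0 := by
    rintro b _ ⟨y, a1, -, rfl⟩
    have a3 := rangeA hμ hI hs (F := fun _ => y.2 - K * b) b a1 fun z _ a _ => a
    have a4 := rangeA hμ hI hs (F' := fun _ => y.2) b a1 fun z _ _ a => a
    rw [pow_const hμ] at a3 a4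
    exact ⟨by linarith, by linarith⟩
  have S2 : ∀ b, ∀ g ∈ S b, sInf (S b) ≤ g := fun b g => csInf_le ⟨_, fun g hg => (S1 b g hg).1⟩
  have bp : ∀ j, 0 < b₀ * N ^ j := fun j => by positivity
  have bp' : ∀ j, (0 : ℝ) < (b₀ * N ^ j : ℕ) := fun j => by exact_mod_cast bp j
  let u : ℕ → ℝ := fun j => sInf (S (b₀ * N ^ j)) / (b₀ * N ^ j : ℕ)
  have u0 : ∀ j, -K ≤ u j := fun j =>
    (le_div_iff₀ (bp' j)).2 (le_csInf (S0 _) fun g hg => (S1 _ g hg).1)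
  have u1 : ∀ j, u j ≤ 0 := fun j => div_nonpos_of_nonpos_of_nonneg
    ((S2 _ _ (S0 _).some_mem).trans (S1 _ _ (S0 _).some_mem).2) (bp' j).le
  have u2 : ∀ j, u j * (b₀ * N ^ j : ℕ) = sInf (S (b₀ * N ^ j)) := fun j =>
    div_mul_cancel₀ _ (bp' j).ne'
  obtain ⟨j, j1, j2⟩ := pigeon (u0 0) (u1 J) hJ
  have a1 : ∀ y : Vec d × ℝ, y.1 ∈ W →
      u j * (b₀ * N ^ j : ℕ) ≤ (op μ (stS K θ) ^ (b₀ * N ^ j)) Prod.snd y - y.2 := fun y a1 => by
    rcases (N2_nonneg y.1).eq_or_lt with a2 | a2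
    · have a3 := pow_le_on hμ (st := stS K θ) (I := fun q => N2 q.1 = 0 ∧ y.2 ≤ q.2)
        (fun σ τ q _ hq => by
          have a4 : N2 (Av θ σ q.1) = 0 :=
            le_antisymm ((Av_le θ2 θ1 σ q.1).trans hq.1.le) (N2_nonneg _)
          refine ⟨a4, hq.2.trans_eq ?_⟩
          simp [stS, lg, a4, hq.1, K0.le]) (F := fun _ => y.2) (F' := Prod.snd) (fun q hq => hq.2)
        (b₀ * N ^ j) (s := y) ⟨a2.symm, le_rfl⟩
      rw [pow_const hμ] at a3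
      linarith [mul_nonpos_of_nonpos_of_nonneg (u1 j) (bp' j).le]
    · linarith [S2 (b₀ * N ^ j) _ ⟨y, a1, a2, rfl⟩, u2 j]
  have a2 : |u j| ≤ K := abs_le.2 ⟨u0 j, by linarith [u1 j]⟩
  obtain ⟨_, ⟨x, a3, a4, rfl⟩, a5⟩ := exists_lt_of_csInf_lt (S0 (b₀ * N ^ (j + 1))) (lt_add_one _)
  have a6 := (tailA hμ hI hs K1 (bp j) e3 e4 a2 a1 (b₀ * N ^ (j + 1)) a3).trans (le_of_eq_of_le (by
      have := (bp' j).ne'
      push_cast at this ⊢
      congr 2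
      rw [pow_succ (N : ℝ) j]
      field_simp) (hN N le_rfl))
  have a9 : (b₀ : ℝ) ≤ (b₀ * N ^ (j + 1) : ℕ) := by
    exact_mod_cast Nat.le_mul_of_pos_right _ (by positivity)
  have a10 : ((b₀ * N ^ (j + 1) : ℕ) : ℝ) ≤ (b₀ * N ^ J : ℕ) := by
    exact_mod_cast Nat.mul_le_mul_left _ (Nat.pow_le_pow_right N1 j1)
  have a11 : ((b₀ * N ^ j : ℕ) : ℝ) ≤ (b₀ * N ^ J : ℕ) := by
    exact_mod_cast Nat.mul_le_mul_left _ (Nat.pow_le_pow_right N1 j1.le)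
  have a12 := u2 (j + 1)
  have a13 := bp (j + 1)
  have a14 := bp' (j + 1)
  have a15 := tailA hμ hI hs K1 (bp j) ε0 ε1 a2 a1
  have a16 := bp' j
  have a17 := u0 j
  have a18 := u1 j
  have a19 := bp' J
  generalize b₀ * N ^ (j + 1) = b at *
  generalize u j = β at *
  have b3 : (1 : ℝ) ≤ b := by exact_mod_cast a13
  have a7 := rangeA hμ (I := fun q => 0 < N2 q.1 → lg q.1 + (x.2 - lg x.1) ≤ q.2)
    (fun σ τ q _ hq => stS_dom θ2 θ1 _ σ τ q hq) hs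
    (F := fun q => ε / 4 * b * if Real.exp ((β + ε / 4) * b) * N2 x.1 ≤ N2 q.1 then 1 else 0)
    (F' := fun q => q.2 + (-x.2 - (β - e) * b) + K * b * if q.2 - x.2 ≤ (β - e) * b then 1 else 0)
    b (x := x) (fun _ => by linarith) fun z z0 f2 f3 => by
      have f4 := mul_pos e3 a14
      have f5 := mul_pos K0 a14
      have f6 := mul_le_mul_of_nonneg_right a18 a14.le
      have f7 : Real.exp ((β + ε / 4) * b) * N2 x.1 ≤ N2 z.1 → x.2 + (β + ε / 4) * b ≤ z.2 :=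
        fun f7 => by
          have f8 : 0 < Real.exp ((β + ε / 4) * b) * N2 x.1 := by positivity
          have f9 := Real.log_le_log f8 f7
          rw [Real.log_mul (Real.exp_pos _).ne' a4.ne', Real.log_exp] at f9
          have := z0 (f8.trans_le f7)
          unfold lg at this
          linarith
      split_ifs with b1 b2 b2
      · linarith [f7 b1]
      · linarith [f7 b1]
      · linarith
      · linarith
  rw [pow_mul_apply, pow_add_apply, pow_add_apply, pow_mul_apply, pow_const hμ,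
    pow_fst fun z => if Real.exp ((β + ε / 4) * b) * N2 x.1 ≤ N2 z then (1 : ℝ) else 0] at a7
  have a8 : ∀ y ∈ W, (KY μ θ ^ b) (fun z => if Real.exp (C + (β + ε / 4) * b) * N2 y < N2 z
      then 1 else 0) y ≤ ε / (12 * Λ) := fun y hy => by
    rw [Real.exp_add]
    refine (hf θ θ0 θ1 _ b (Real.exp_pos _).le x.1 a3 a4 y hy).trans ?_
    have f1 := mul_le_mul_of_nonneg_left a6 (mul_pos K0 a14).le
    have f2 := mul_le_mul_of_nonneg_right j2 a14.le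
    generalize (KY μ θ ^ b) (fun z => if Real.exp ((β + ε / 4) * b) * N2 x.1 ≤ N2 z
      then (1 : ℝ) else 0) x.1 = P at *
    have f4 : ε / 4 * b * P ≤ 2 * e * b + 1 + K * b * p := by linarith
    have f5 := mul_le_mul_of_nonneg_left f4 D0
    have f6 := mul_le_mul_of_nonneg_right e5 a14.le
    have f7 := mul_le_mul_of_nonneg_right p1 a14.le
    have f8 := mul_le_mul_of_nonneg_left a9 ζ0.le
    have f9 : ε / 4 * b * (D * P) ≤ 3 * ζ * b := by linarith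
    refine le_of_mul_le_mul_left (f9.trans_eq ?_) (show 0 < ε / 4 * b by positivity)
    rw [hζ]
    field_simp
    ring
  refine ⟨β, fun m hm' y hy => ?_, fun m hm' q hq => ?_⟩
  · have f0 := mul_le_mul_of_nonneg_right a17 a14.le
    have f1 := mul_pos ε0 a14
    refine (up_block hμ hW θ2 θ1 (B := Λ * b) (by positivity) (by
      rw [hΛ]; nlinarith) (by positivity) a8 m _ hy).trans
      (le_trans (Real.exp_le_exp.2 ?_) (hm1 m ((le_max_right _ _).trans hm')))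
    have f5 : (m : ℝ) = b * (m / b : ℕ) + (m % b : ℕ) := by
      exact_mod_cast (Nat.div_add_mod m b).symm
    have f6 : ((m % b : ℕ) : ℝ) ≤ b := by exact_mod_cast (Nat.mod_lt m a13).le
    have f7 : (0 : ℝ) ≤ (m % b : ℕ) := Nat.cast_nonneg _
    have f8 : (0 : ℝ) ≤ (m / b : ℕ) := Nat.cast_nonneg _
    have f9 : ε / (4 * Λ * (b₀ * N ^ J : ℕ)) * m ≤ ε / (4 * Λ * b) * m := by gcongr
    refine le_trans ?_ (sub_le_sub_left f9 2)
    generalize ((m % b : ℕ) : ℝ) = r at *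
    generalize ((m / b : ℕ) : ℝ) = M at *
    rw [f5]
    have g1 : ((Λ * b)⁻¹ * (C + (β + ε / 4) * b) + 3 * (ε / (12 * Λ))) * M -
        (Λ * b)⁻¹ * ((β + ε) * (b * M + r)) + ε / (4 * Λ * b) * (b * M + r) =
        (Λ * b)⁻¹ * ((C - ε / 4 * b) * M - (β + 3 / 4 * ε) * r) := by
      field_simp
      ring
    have g2 : (Λ * b)⁻¹ * ((C - ε / 4 * b) * M - (β + 3 / 4 * ε) * r) ≤ 2 := by
      rw [inv_mul_le_iff₀ (by positivity), hΛ]
      have g3 := mul_le_mul_of_nonneg_left a9 (show 0 ≤ ε / 4 by positivity)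
      have g4 := mul_nonpos_of_nonpos_of_nonneg (show C - ε / 4 * b ≤ 0 by linarith) f8
      have g5 := mul_le_mul_of_nonneg_right a17 f7
      have g6 := mul_le_mul_of_nonneg_left f6 K0.le
      have g7 := mul_nonneg ε0.le f7
      have g8 := mul_nonneg C0 a14.le
      have g9 := mul_pos K0 a14
      linarith
    linarith
  · refine (a15 m hq).trans (le_trans ?_ (hm m ((le_max_left _ _).trans hm')))
    gcongr

/-- There is a forward invariant family of nonzero vectors along which the squared one step losses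
of the logarithm of the norm have bounded mean. -/
def Safe (μ : Perm (Fin d) → ℝ) (W : Submodule ℝ (Vec d)) (C θ : ℝ) : Prop :=
  ∃ (I : Vec d → Prop) (V : Vec d → ℝ) (y₀ : Vec d), I y₀ ∧ V y₀ = 0 ∧ ∀ y, I y →
    y ∈ W ∧ 0 < N2 y ∧ 0 ≤ V y ∧ (∀ σ, μ σ ≠ 0 → I (Av θ σ y)) ∧
      ∑ σ, μ σ * (V (Av θ σ y) + (lg y - lg (Av θ σ y)) ^ 2) ≤ V y + C

theorem conc_safe (hμ : IsProb μ) (hW : Inv μ W) (hi : Irr μ W) (c0 : 0 < c) (c1 : c ≤ 1) {C : ℝ}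
    (C0 : 0 ≤ C) (ε0 : 0 < ε) : ∃ m₀ : ℕ, ∀ θ, c ≤ θ → θ ≤ 1 → Safe μ W C θ →
      ∃ l, -(4 * C + 5) ≤ l ∧ Up μ W θ l ε m₀ ∧ Low μ W θ l ε m₀ := by
  by_cases h0 : W = ⊥
  · refine ⟨0, fun θ _ _ ⟨I, V, y₀, a1, _, a2⟩ => ?_⟩
    obtain ⟨a3, a4, -⟩ := a2 y₀ a1
    rw [h0, Submodule.mem_bot] at a3
    rw [a3, N2_zero] at a4
    exact absurd a4 (lt_irrefl _)
  obtain ⟨e, e0, -, e1⟩ := exists_small 2 (min ε 1) (by positivity)
  obtain ⟨e1, e2⟩ := le_min_iff.1 e1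
  obtain ⟨K, K1, K2⟩ : ∃ K, 1 ≤ K ∧ C ≤ e ^ 2 * K := ⟨max 1 (C / e ^ 2), le_max_left _ _,
    (div_le_iff₀' (by positivity)).1 (le_max_right _ _)⟩
  have K0 : 0 < K := by linarith
  obtain ⟨m₀, hm⟩ := llnT hμ hW hi h0 c0 c1 K1 e0 (by linarith)
  refine ⟨max m₀ 1, fun θ θ0 θ1 ⟨I, V, y₀, a1, a2, a3⟩ => ?_⟩
  have θ2 : 0 ≤ θ := c0.le.trans θ0
  obtain ⟨l, b1, b2⟩ := hm θ θ0 θ1
  obtain ⟨y1, y0, -⟩ := a3 y₀ a1
  have hI : ∀ σ (τ : Unit) y, μ σ ≠ 0 → I y → I (stY Unit θ σ τ y) :=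
    fun σ _ y hσ hy => (a3 y hy).2.2.2.1 σ hσ
  have hl : ∀ σ y, μ σ ≠ 0 → I y → lg (Av θ σ y) ≤ lg y := fun σ y hσ hy =>
    Real.log_le_log (a3 _ (hI σ () y hσ hy)).2.1 (Av_le θ2 θ1 σ y)
  refine ⟨l, not_lt.1 fun b3 => ?_, b1.mono hμ le_rfl (by linarith) (le_max_left _ _),
    Low.mono hμ (ε := 2 * e) ⟨y₀, y1, y0, fun m hm' => ?_⟩ le_rfl e1 le_rfl⟩
  · have b4 := driftA hμ hI (J := fun z => V z - lg z) (b := C + 1) (fun y hy => by
      rw [opY]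
      refine (hμ.sum_le (g := fun σ => (V (Av θ σ y) + (lg y - lg (Av θ σ y)) ^ 2) + (1 - lg y))
        fun σ _ => by nlinarith [sq_nonneg (lg y - lg (Av θ σ y) - 1)]).trans ?_
      simp only [mul_add (μ _) (_ + _), sum_add_distrib, hμ.sum_const]
      linarith [(a3 y hy).2.2.2.2]) (max m₀ 1) a1
    have b5 := b1 (max m₀ 1) (le_max_left _ _) y₀ y1
    have b6 : (1 : ℝ) ≤ (max m₀ 1 : ℕ) := by exact_mod_cast le_max_right m₀ 1
    generalize max m₀ 1 = m at *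
    have b7 := pow_le_on hμ (st := stY Unit θ) (I := fun z => I z ∧ lg z ≤ lg y₀)
      (fun σ τ z hσ hz => ⟨hI σ τ z hσ hz.1, (hl σ z hσ hz.1).trans hz.2⟩)
      (F := fun z => 4 * (C + 1) * m * (1 - if Real.exp ((l + e) * m) * N2 y₀ < N2 z then 1 else 0)
        - lg y₀) (F' := fun z => V z - lg z) (fun z hz => by
        obtain ⟨-, f1, f2, -⟩ := a3 z hz.1
        split_ifs with f3
        · linarith [hz.2]
        · have f4 := Real.log_le_log f1 (not_lt.1 f3)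
          rw [Real.log_mul (Real.exp_pos _).ne' y0.ne', Real.log_exp] at f4
          have f5 := mul_le_mul_of_nonneg_right (show l + e ≤ -(4 * (C + 1)) by linarith)
            (zero_le_one.trans b6)
          unfold lg
          linarith) m (s := y₀) ⟨a1, le_rfl⟩
    rw [pow_sub_apply, pow_mul_apply, pow_sub_apply, pow_const hμ, pow_const hμ] at b7
    have b8 : 0 < (C + 1) * m := by positivity
    have b9 := mul_le_mul_of_nonneg_left (b5.trans (show e ≤ 1 / 2 by linarith)) b8.le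
    linarith
  · have m0 : (0 : ℝ) < m := by exact_mod_cast (le_max_right m₀ 1).trans hm'
    have hI' : ∀ σ τ (q : Vec d × ℝ), μ σ ≠ 0 → I q.1 ∧ lg q.1 ≤ q.2 →
        I (stS K θ σ τ q).1 ∧ lg (stS K θ σ τ q).1 ≤ (stS K θ σ τ q).2 := fun σ τ q hσ hq =>
      ⟨hI σ τ _ hσ hq.1, (add_zero _).ge.trans (stS_dom θ2 θ1 0 σ τ q
        (fun _ => (add_zero _).le.trans hq.2) (a3 _ (hI σ τ _ hσ hq.1)).2.1)⟩
    have b4 := driftA hμ hI' (J := fun q => q.2 - lg q.1 + K⁻¹ * V q.1) (b := K⁻¹ * C)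
      (fun q hq => by
        rw [op_apply]
        refine (hμ.sum_le (g := fun σ => K⁻¹ * (V (Av θ σ q.1) + (lg q.1 - lg (Av θ σ q.1)) ^ 2) +
          (q.2 - lg q.1)) fun σ hσ => ?_).trans ?_
        · simp only [stS, avg_const]
          have f1 := sub_nonneg.2 (hl σ q.1 hσ hq.1)
          have f2 : lg q.1 - lg (Av θ σ q.1) - max 0 (min (lg q.1 - lg (Av θ σ q.1)) K) ≤
              K⁻¹ * (lg q.1 - lg (Av θ σ q.1)) ^ 2 := by
            generalize lg q.1 - lg (Av θ σ q.1) = x at *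
            rcases le_total x K with f2 | f2
            · rw [min_eq_left f2, max_eq_right f1, sub_self]; positivity
            · rw [min_eq_right f2, max_eq_right K0.le, le_inv_mul_iff₀ K0]; nlinarith
          linarith
        · simp only [mul_add (μ _) (K⁻¹ * _), sum_add_distrib, hμ.sum_const,
            mul_left_comm (μ _) K⁻¹, ← mul_sum]
          linarith [mul_le_mul_of_nonneg_left (a3 _ hq.1).2.2.2.2 (inv_pos.2 K0).le])
      m (x := (y₀, lg y₀)) ⟨a1, le_rfl⟩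
    rw [← pow_fst (K := K) _ m (y₀, lg y₀)]
    refine (pow_le_on hμ hI' (F' := fun q => (if q.2 - lg y₀ ≤ (l - e) * m then 1 else 0) +
      (e * m)⁻¹ * (q.2 - lg q.1 + K⁻¹ * V q.1)) (fun q hq => ?_) m ⟨a1, le_rfl⟩).trans ?_
    · obtain ⟨-, f1, f2, -⟩ := a3 _ hq.1
      have f3 : 0 ≤ K⁻¹ * V q.1 := by positivity
      have f4 : 0 ≤ (e * m)⁻¹ * (q.2 - lg q.1 + K⁻¹ * V q.1) :=
        mul_nonneg (by positivity) (by linarith [hq.2])
      split_ifs with f5 f6 f6 <;> try linarith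
      have f7 := Real.log_le_log f1 f5
      rw [Real.log_mul (Real.exp_pos _).ne' y0.ne', Real.log_exp] at f7
      rw [zero_add, le_inv_mul_iff₀ (by positivity)]
      unfold lg at *
      linarith [not_le.1 f6]
    · rw [pow_add_apply, pow_mul_apply, two_mul]
      refine add_le_add (b2 m ((le_max_left _ _).trans hm') (y₀, lg y₀) y1) ?_
      rw [inv_mul_le_iff₀ (by positivity)]
      refine b4.trans ?_
      simp only [a2, sub_self, mul_zero, zero_add]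
      have f1 : K⁻¹ * C ≤ e ^ 2 := by rw [inv_mul_le_iff₀ K0]; linarith
      nlinarith

end Pool.Agent.P.MP_1e2081_pr
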