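import Pool.Agent.P.MP_1e2081_pr.Half

/-!
Block estimates for a functional with bounded decrements, and the truncated loss of the norm.
-/

set_option autoImplicit false

namespace Pool.Agent.P.MP_1e2081_pr

open Finset Equiv

section abstr

variable {G X : Type} [Fintype G] {μ : G → ℝ} {st : G → Unit → X → X} {f : X → ℝ} {I : X → Prop}
  {κ : ℝ}

theorem rangeA (hμ : IsProb μ) (hI : ∀ σ τ x, μ σ ≠ 0 → I x → I (st σ τ x))
    (hf : ∀ σ τ x, f x - κ ≤ f (st σ τ x) ∧ f (st σ τ x) ≤ f x) {F F' : X → ℝ} (b : ℕ) {x : X}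
    (hx : I x) (hF : ∀ z, I z → f x - κ * b ≤ f z → f z ≤ f x → F z ≤ F' z) :
    (op μ st ^ b) F x ≤ (op μ st ^ b) F' x := by
  induction b generalizing x with
  | zero => exact hF x hx (by simp) le_rfl
  | succ b ih =>
    rw [pow_succ_apply, pow_succ_apply]
    refine op_le hμ fun σ τ hσ => ?_
    obtain ⟨a2, a3⟩ := hf σ τ x
    refine ih (hI σ τ x hσ hx) fun z a4 a6 a7 => hF z a4 ?_ (a7.trans a3)
    push_cast
    linarith

theorem expoA (hμ : IsProb μ) (hI : ∀ σ τ x, μ σ ≠ 0 → I x → I (st σ τ x))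
    (hf : ∀ σ τ x, f x - κ ≤ f (st σ τ x) ∧ f (st σ τ x) ≤ f x) (κ0 : 0 ≤ κ) {s γ : ℝ} {b : ℕ}
    (b0 : 0 < b) (hs : |s| * κ * b ≤ 1) (hγ : |γ| ≤ κ)
    (hg : ∀ y, I y → s * ((op μ st ^ b) f y - f y) ≤ s * γ * b) (t : ℕ) {y : X} (h1 : I y) :
    (op μ st ^ t) (fun z => Real.exp (s * f z)) y ≤
      Real.exp (s * f y + s * γ * t + s ^ 2 * κ ^ 2 * b * t + 2) := by
  have a1 : ∀ (j : ℕ) (y z : X), f y - κ * j ≤ f z → f z ≤ f y →
      |s * (f z - f y)| ≤ |s| * κ * j := fun j y z a1 a2 => by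
    rw [abs_mul, mul_assoc]
    exact mul_le_mul_of_nonneg_left (abs_le.2 ⟨by linarith, by
      linarith [mul_nonneg κ0 (Nat.cast_nonneg (α := ℝ) j)]⟩) (abs_nonneg s)
  have a2 : ∀ y, I y → (op μ st ^ b) (fun z => Real.exp (s * f z)) y ≤
      Real.exp (s * γ * b + s ^ 2 * κ ^ 2 * b ^ 2) * Real.exp (s * f y) := by
    intro y h1
    have a3 := rangeA hμ hI hf (F := fun z => Real.exp (s * f z)) (F' := fun z =>
      Real.exp (s * f y) * s * f z + Real.exp (s * f y) * (1 - s * f y + s ^ 2 * κ ^ 2 * b ^ 2))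
      b h1 fun z _ a3 a4 => by
        have a5 := a1 b y z a3 a4
        have a6 := (abs_le.1 (Real.abs_exp_sub_one_sub_id_le (a5.trans hs))).2
        have a7 := pow_le_pow_left₀ (abs_nonneg _) a5 2
        rw [sq_abs, mul_pow _ (b : ℝ), mul_pow _ κ, sq_abs] at a7
        rw [show s * f z = s * f y + s * (f z - f y) by ring, Real.exp_add]
        linarith [mul_le_mul_of_nonneg_left (show Real.exp (s * (f z - f y)) ≤
          1 + s * (f z - f y) + s ^ 2 * κ ^ 2 * b ^ 2 by linarith) (Real.exp_pos (s * f y)).le]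
    rw [pow_add_apply, pow_mul_apply, pow_const hμ] at a3
    have a4 := mul_le_mul_of_nonneg_left (hg y h1) (Real.exp_pos (s * f y)).le
    have a5 := mul_le_mul_of_nonneg_left (Real.add_one_le_exp (s * γ * b + s ^ 2 * κ ^ 2 * b ^ 2))
      (Real.exp_pos (s * f y)).le
    linarith
  have a3 : ∀ (j N : ℕ) y, I y →
      (op μ st ^ (b * N + j)) (fun z => Real.exp (s * f z)) y ≤
      Real.exp (N * (s * γ * b + s ^ 2 * κ ^ 2 * b ^ 2) + |s| * κ * j) * Real.exp (s * f y) := by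
    intro j N
    induction N with
    | zero =>
      intro y h1
      rw [mul_zero, zero_add, ← Real.exp_add]
      refine (rangeA hμ hI hf j h1 fun z _ a3 a4 => Real.exp_le_exp.2 ?_).trans_eq
        (pow_const hμ _ j y)
      have := (abs_le.1 (a1 j y z a3 a4)).2
      push_cast
      linarith
    | succ N ih =>
      intro y hy
      rw [show b * (N + 1) + j = b + (b * N + j) by ring, pow_add, Module.End.mul_apply]
      refine (pow_le_on hμ hI ih b hy).trans ?_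
      rw [pow_mul_apply]
      refine (mul_le_mul_of_nonneg_left (a2 y hy) (Real.exp_pos _).le).trans_eq ?_
      rw [← mul_assoc, ← Real.exp_add]
      push_cast
      ring_nf
  have a4 := a3 (t % b) (t / b) y h1
  rw [Nat.div_add_mod, ← Real.exp_add] at a4
  refine a4.trans (Real.exp_le_exp.2 ?_)
  have a5 : (t : ℝ) = b * (t / b : ℕ) + (t % b : ℕ) := by exact_mod_cast (Nat.div_add_mod t b).symm
  have a6 : ((t % b : ℕ) : ℝ) ≤ b := by exact_mod_cast (Nat.mod_lt t b0).le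
  have a7 : (0 : ℝ) ≤ (t % b : ℕ) := Nat.cast_nonneg _
  generalize ((t % b : ℕ) : ℝ) = j at *
  generalize ((t / b : ℕ) : ℝ) = N at *
  have a8 : |s| * κ * j ≤ 1 := (mul_le_mul_of_nonneg_left a6 (by positivity)).trans hs
  have a9 : -(s * γ) ≤ |s| * κ := (neg_le_abs _).trans (by rw [abs_mul]; gcongr)
  have a10 := mul_le_mul_of_nonneg_right a9 a7
  have a11 : 0 ≤ s ^ 2 * κ ^ 2 * b * j := by positivity
  rw [a5]
  linarith

theorem tailA (hμ : IsProb μ) (hI : ∀ σ τ x, μ σ ≠ 0 → I x → I (st σ τ x))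
    (hf : ∀ σ τ x, f x - κ ≤ f (st σ τ x) ∧ f (st σ τ x) ≤ f x) (κ1 : 1 ≤ κ) {γ ε : ℝ} {b : ℕ}
    (b0 : 0 < b) (ε0 : 0 < ε) (ε1 : ε ≤ 1) (hγ : |γ| ≤ κ)
    (hg : ∀ y, I y → γ * b ≤ (op μ st ^ b) f y - f y) (t : ℕ) {y : X} (h1 : I y) :
    (op μ st ^ t) (fun z => if f z - f y ≤ (γ - ε) * t then 1 else 0) y ≤
      Real.exp (2 - ε ^ 2 / (4 * κ ^ 2 * b) * t) := by
  have κ0 : 0 < κ := zero_lt_one.trans_le κ1
  have b1 : (0 : ℝ) < b := by exact_mod_cast b0
  set a := ε / (2 * κ ^ 2 * b) with ha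
  have a0 : 0 < a := by positivity
  have a1 := expoA hμ hI hf κ0.le (s := -a) b0 (by
      rw [abs_neg, abs_of_pos a0, show a * κ * b = ε / (2 * κ) by
        rw [ha]; field_simp, div_le_one (by positivity)]
      linarith) hγ
    (fun y a1 => by linarith [mul_le_mul_of_nonneg_left (hg y a1) a0.le]) t h1
  refine (pow_le hμ (F' := fun z => Real.exp (-(a * (ε * t - f y - γ * t))) *
    Real.exp (-a * f z)) (fun z => ?_) t y).trans ?_
  · split_ifs with a2
    · rw [← Real.exp_add]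
      exact Real.one_le_exp (by linarith [mul_le_mul_of_nonneg_left a2 a0.le])
    · positivity
  · rw [pow_mul_apply]
    refine (mul_le_mul_of_nonneg_left a1 (Real.exp_pos _).le).trans_eq ?_
    rw [← Real.exp_add, ha]
    congr 1
    field_simp
    ring

theorem driftA (hμ : IsProb μ) (hI : ∀ σ τ x, μ σ ≠ 0 → I x → I (st σ τ x)) {J : X → ℝ} {b : ℝ}
    (hJ : ∀ x, I x → op μ st J x ≤ J x + b) (m : ℕ) {x : X} (hx : I x) :
    (op μ st ^ m) J x ≤ J x + m * b := by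
  induction m with
  | zero => simp
  | succ m ih =>
    rw [pow_succ_apply']
    refine (pow_le_on hμ hI hJ m hx).trans ?_
    rw [pow_add_apply, pow_const hμ]
    push_cast
    linarith

end abstr

variable {d : ℕ} {μ : Perm (Fin d) → ℝ} {W : Submodule ℝ (Vec d)} {c K θ : ℝ}

theorem Av_le (θ0 : 0 ≤ θ) (θ1 : θ ≤ 1) (σ : Perm (Fin d)) (y : Vec d) :
    N2 (Av θ σ y) ≤ N2 y := by
  rw [N2_Av]
  exact sub_le_self _ (mul_nonneg (mul_nonneg θ0 (sub_nonneg.2 θ1)) (N2_nonneg _))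

theorem N2_zero : N2 (0 : Vec d) = 0 := by simp [N2]

theorem monoY (hμ : IsProb μ) (θ0 : 0 ≤ θ) (θ1 : θ ≤ 1) {F F' : Vec d → ℝ} (j : ℕ) (y : Vec d)
    (hF : ∀ z, N2 z ≤ N2 y → F z ≤ F' z) : (KY μ θ ^ j) F y ≤ (KY μ θ ^ j) F' y :=
  pow_le_on hμ (I := fun z => N2 z ≤ N2 y) (fun σ _ z _ hz => (Av_le θ0 θ1 σ z).trans hz) hF j
    le_rfl

/-- One step of the mean evolution together with the accumulated truncated loss. -/
noncomputable def stS (K θ : ℝ) (σ : Perm (Fin d)) (_ : Unit) (p : Vec d × ℝ) : Vec d × ℝ :=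
  (Av θ σ p.1, p.2 - max 0 (min (lg p.1 - lg (Av θ σ p.1)) K))

theorem stS_step (K0 : 0 ≤ K) (σ : Perm (Fin d)) (τ : Unit) (p : Vec d × ℝ) :
    p.2 - K ≤ (stS K θ σ τ p).2 ∧ (stS K θ σ τ p).2 ≤ p.2 :=
  ⟨sub_le_sub_left (max_le K0 (min_le_right _ _)) _, sub_le_self _ (le_max_left _ _)⟩

theorem pow_fst (F : Vec d → ℝ) (m : ℕ) (p : Vec d × ℝ) :
    (op μ (stS K θ) ^ m) (fun q => F q.1) p = (KY μ θ ^ m) F p.1 :=
  pow_comp (φ := Prod.fst) (fun _ _ _ => rfl) F m p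

theorem stS_dom (θ0 : 0 ≤ θ) (θ1 : θ ≤ 1) (a : ℝ) (σ : Perm (Fin d)) (τ : Unit) (p : Vec d × ℝ)
    (h : 0 < N2 p.1 → lg p.1 + a ≤ p.2) :
    0 < N2 (stS K θ σ τ p).1 → lg (stS K θ σ τ p).1 + a ≤ (stS K θ σ τ p).2 := fun h1 => by
  have h2 := Av_le θ0 θ1 σ p.1
  have h3 : lg (Av θ σ p.1) ≤ lg p.1 := Real.log_le_log h1 h2
  have h4 := h (lt_of_lt_of_le h1 h2)
  have h5 : max 0 (min (lg p.1 - lg (Av θ σ p.1)) K) ≤ lg p.1 - lg (Av θ σ p.1) :=
    max_le (by linarith) (min_le_left _ _)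
  simp only [stS]
  linarith

theorem moment (hμ : IsProb μ) (hW : Inv μ W) (θ0 : 0 ≤ θ) (θ1 : θ ≤ 1) {s r : ℝ} (s0 : 0 < s)
    {b : ℕ} (h : ∀ y ∈ W, (KY μ θ ^ b) (fun z => N2 z ^ s) y ≤ Real.exp r * N2 y ^ s)
    (t : ℕ) (x : ℝ) {y : Vec d} (hy : y ∈ W) :
    (KY μ θ ^ t) (fun z => if Real.exp x * N2 y < N2 z then 1 else 0) y ≤
      Real.exp (r * (t / b : ℕ) - s * x) := by
  have h1 : ∀ (j N : ℕ), ∀ y ∈ W, (KY μ θ ^ (b * N + j)) (fun z => N2 z ^ s) y ≤
      Real.exp (r * N) * N2 y ^ s := by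
    intro j N
    induction N with
    | zero =>
      intro y _
      rw [mul_zero, zero_add, Nat.cast_zero, mul_zero, Real.exp_zero, one_mul]
      exact (monoY hμ θ0 θ1 j y fun z hz => Real.rpow_le_rpow (N2_nonneg z) hz s0.le).trans_eq
        (pow_const hμ _ j y)
    | succ N ih =>
      intro y hy
      rw [show b * (N + 1) + j = b + (b * N + j) by ring, pow_add, Module.End.mul_apply]
      refine (pow_le_on hμ (I := fun z => z ∈ W) (fun σ _ z hσ hz => hW.Av hσ θ hz) ih b hy).trans ?_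
      rw [pow_mul_apply]
      refine (mul_le_mul_of_nonneg_left (h y hy) (Real.exp_pos _).le).trans_eq ?_
      rw [← mul_assoc, ← Real.exp_add]
      push_cast
      ring_nf
  have h2 := h1 (t % b) (t / b) y hy
  rw [Nat.div_add_mod] at h2
  rcases (N2_nonneg y).eq_or_lt with y0 | y0
  · refine (monoY hμ θ0 θ1 (F' := fun _ => 0) t y fun z hz => ?_).trans
      ((pow_const hμ _ t y).trans_le (Real.exp_pos _).le)
    rw [if_neg (by rw [← y0] at hz ⊢; simpa using hz)]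
  have h3 : 0 < (Real.exp x * N2 y) ^ s := by positivity
  refine (pow_le hμ (F' := fun z => ((Real.exp x * N2 y) ^ s)⁻¹ * N2 z ^ s) (fun z => ?_) t y).trans ?_
  · split_ifs with h4
    · rw [le_inv_mul_iff₀ h3, mul_one]
      exact Real.rpow_le_rpow (by positivity) h4.le s0.le
    · have := N2_nonneg z
      positivity
  · rw [pow_mul_apply, inv_mul_le_iff₀ h3]
    refine h2.trans_eq ?_
    rw [Real.mul_rpow (Real.exp_pos _).le y0.le, ← Real.exp_mul, mul_right_comm, ← Real.exp_add]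
    congr 2
    ring

theorem fastT (hμ : IsProb μ) (hW : Inv μ W) (hi : Irr μ W) (c0 : 0 < c) (c1 : c ≤ 1) :
    ∃ C D, 0 ≤ C ∧ 0 ≤ D ∧ ∀ θ, c ≤ θ → θ ≤ 1 → ∀ (a : ℝ) (m : ℕ), 0 ≤ a → ∀ x ∈ W, 0 < N2 x →
      ∀ y ∈ W, (KY μ θ ^ m) (fun z => if Real.exp C * a * N2 y < N2 z then 1 else 0) y ≤
        D * (KY μ θ ^ m) (fun z => if a * N2 x ≤ N2 z then 1 else 0) x := by
  classical
  obtain ⟨L, hL⟩ := spanning hW hi
  obtain ⟨m₁, m0, hm⟩ := exists_gap univ μ
  have m0' : 0 < min m₁ 1 := lt_min m0 one_pos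
  let A := (List.finite_length_le (Perm (Fin d)) L).toFinset.filter fun l => ∀ σ ∈ l, μ σ ≠ 0
  refine ⟨d.factorial * (4 / c ^ 2) ^ L, A.card / min m₁ 1 ^ L, by positivity, by positivity,
    fun θ h0 h1 a m a0 x hx x0 y hy => ?_⟩
  have θ0 : 0 < θ := c0.trans_le h0
  have a2 : ∀ l ∈ A, min m₁ 1 ^ L *
      (KY μ θ ^ m) (fun z => if a * N2 x ≤ N2 z then 1 else 0) (AL θ l x) ≤
      (KY μ θ ^ m) (fun z => if a * N2 x ≤ N2 z then 1 else 0) x := fun l hl => by
    obtain ⟨b1, b2⟩ := mem_filter.1 hl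
    have b3 : ∀ z, 0 ≤ (KY μ θ ^ m) (fun z => if a * N2 x ≤ N2 z then 1 else 0) z :=
      pow_nonneg' hμ (fun z => by split_ifs <;> norm_num) m
    have b4 := word_le (T := Unit) (θ := θ) hμ m0'.le b3 l (fun σ hσ => (min_le_left _ _).trans
      (hm σ (mem_univ σ) ((hμ.1 σ).lt_of_ne' (b2 σ hσ)))) x
    rw [← Module.End.mul_apply, ← pow_add, add_comm, pow_add, Module.End.mul_apply] at b4
    refine le_trans (mul_le_mul_of_nonneg_right (pow_le_pow_of_le_one m0'.le (min_le_right _ _)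
      (by simpa using b1)) (b3 _)) (b4.trans (pow_le hμ (fun z => ?_) m x))
    refine (monoY hμ θ0.le h1 _ z fun z' hz => ?_).trans_eq (pow_const hμ _ _ z)
    split_ifs with e1 e2
    · exact le_rfl
    · exact absurd (e1.trans hz) e2
    · exact zero_le_one
    · exact le_rfl
  have a3 := pow_le hμ (st := stM θ)
    (F := fun M => if Real.exp (d.factorial * (4 / c ^ 2) ^ L) * a * N2 y < N2 (M y) then 1 else 0)
    (F' := fun M => ∑ l ∈ A, if a * N2 x ≤ N2 (M (AL θ l x)) then 1 else 0) (fun M => by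
      have b1 : ∀ l ∈ A, 0 ≤ if a * N2 x ≤ N2 (M (AL θ l x)) then (1 : ℝ) else 0 := fun l _ => by
        split_ifs <;> norm_num
      split_ifs with b0
      swap
      · exact sum_nonneg b1
      by_cases b2 : ∃ l ∈ A, a * N2 x ≤ N2 (M (AL θ l x))
      · obtain ⟨l, b2, b3⟩ := b2
        have b4 := single_le_sum b1 b2
        rwa [if_pos b3] at b4
      · push Not at b2
        have p : PSD (dot.compl₁₂ M M) := ⟨fun _ _ => psd_dot.symm _ _, fun _ => psd_dot.nonneg _⟩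
        have b3 := hL _ p x hx y hy ((4 / c ^ 2) ^ L * (a * N2 x)) fun l b3 b4 =>
          (PL_bound p θ0 h1 l b3 x (M := a * N2 x) fun l' b5 b6 => (dot_self _).trans_le
            (b2 l' (mem_filter.2 ⟨by simpa using b6.trans b4, b5⟩)).le).trans (by
              have b5 : 1 ≤ 4 / c ^ 2 := by
                rw [le_div_iff₀ (by positivity)]; nlinarith
              refine mul_le_mul_of_nonneg_right ((pow_le_pow_left₀ (by positivity) ?_ _).trans
                (pow_le_pow_right₀ b5 b4)) (by positivity)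
              gcongr)
        have b4 : N2 (M y) ≤ d.factorial * (4 / c ^ 2) ^ L * a * N2 y := by
          refine le_of_mul_le_mul_right ?_ x0
          rw [← dot_self (M y)]
          exact b3.trans_eq (by ring)
        refine absurd (b4.trans ?_) b0.not_ge
        have := N2_nonneg y
        gcongr
        linarith [Real.add_one_le_exp (d.factorial * (4 / c ^ 2) ^ L)]) m LinearMap.id
  rw [pow_sum_apply, pow_lin fun z => if Real.exp (d.factorial * (4 / c ^ 2) ^ L) * a * N2 y < N2 z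
    then (1 : ℝ) else 0] at a3
  simp only [pow_lin fun z => if a * N2 x ≤ N2 z then (1 : ℝ) else 0] at a3
  have a4 := sum_le_sum a2
  rw [← mul_sum, sum_const, nsmul_eq_mul] at a4
  refine a3.trans ?_
  rw [div_mul_eq_mul_div, le_div_iff₀ (by positivity)]
  linarith

end Pool.Agent.P.MP_1e2081_pr
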